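import Pool.Agent.Lib.MP_4ccfbf_an.Defs2

set_option autoImplicit false

open MeasureTheory Set Filter Topology Complex
open scoped ComplexConjugate FourierTransform SchwartzMap ContDiff

namespace Pool.Agent.Lib.MP_4ccfbf_an

section Abs

variable {X : Type} [NormedAddCommGroup X] [InnerProductSpace ℂ X] [CompleteSpace X]

/-! ## Module PL12 : Plancherel for `L¹ ∩ L²` -/

/-- The integral formula agrees almost everywhere with the `L²` Fourier transform. -/
theorem fourier_toLp_ae (f : ℝ → X) (hf : Integrable f) (hf2 : MemLp f 2 volume) :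
    ∀ᵐ s : ℝ, (𝓕 (hf2.toLp f) : Lp X 2 (volume : Measure ℝ)) s = 𝓕 f s := by
  apply ae_eq_of_integral_contDiff_smul_eq
  · exact (Lp.memLp _).locallyIntegrable (by norm_num)
  · have hc : Continuous (𝓕 f) :=
      VectorFourier.fourierIntegral_continuous Real.continuous_fourierChar
        (by exact continuous_inner) hf
    exact hc.locallyIntegrable
  · intro g g_smooth g_cpt
    have hg₁ : HasCompactSupport (Complex.ofRealCLM ∘ g) := g_cpt.comp_left rfl
    have hg₂ : ContDiff ℝ ∞ (Complex.ofRealCLM ∘ g) := by fun_prop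
    set G : 𝓢(ℝ, ℂ) := hg₁.toSchwartzMap hg₂ with hG
    have hGx : ∀ x, G x = (g x : ℂ) := fun x => rfl
    have hGi : Integrable (fun x => G x) := G.integrable
    have key : Lp.toTemperedDistribution (𝓕 (hf2.toLp f) : Lp X 2 (volume : Measure ℝ)) G
        = Lp.toTemperedDistribution (hf2.toLp f) (𝓕 G) := by
      rw [← Lp.fourier_toTemperedDistribution_eq]
      rfl
    rw [Lp.toTemperedDistribution_apply, Lp.toTemperedDistribution_apply] at key
    have e1 : ∫ x : ℝ, g x • (𝓕 (hf2.toLp f) : Lp X 2 (volume : Measure ℝ)) x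
        = ∫ x : ℝ, G x • (𝓕 (hf2.toLp f) : Lp X 2 (volume : Measure ℝ)) x := by
      refine integral_congr_ae (Eventually.of_forall fun x => ?_)
      simp only [hGx]
      exact (Complex.coe_smul _ _).symm
    have e2 : ∫ x : ℝ, (𝓕 G) x • (hf2.toLp f : ℝ → X) x = ∫ x : ℝ, (𝓕 G) x • f x := by
      refine integral_congr_ae ?_
      filter_upwards [hf2.coeFn_toLp] with x hx
      rw [hx]
    have e3 : ∫ x : ℝ, (𝓕 G) x • f x = ∫ x : ℝ, G x • 𝓕 f x := by
      have h := VectorFourier.integral_fourierIntegral_smul_eq_flip (L := innerₗ ℝ)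
        (μ := (volume : Measure ℝ)) (ν := (volume : Measure ℝ)) (f := fun x => G x) (g := f)
        Real.continuous_fourierChar continuous_inner hGi hf
      rw [flip_innerₗ] at h
      exact h
    rw [e1, key, e2, e3]
    refine integral_congr_ae (Eventually.of_forall fun x => ?_)
    simp only [hGx]
    exact Complex.coe_smul _ _

theorem plancherel_L1_L2 (f : ℝ → X) (hf : Integrable f) (hf2 : MemLp f 2 volume) :
    Integrable (fun s : ℝ => ‖∫ t : ℝ, cexp (((-(2 * Real.pi * s * t) : ℝ) : ℂ) * I) • f t‖ ^ 2) ∧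
      ∫ s : ℝ, ‖∫ t : ℝ, cexp (((-(2 * Real.pi * s * t) : ℝ) : ℂ) * I) • f t‖ ^ 2
        = ∫ t : ℝ, ‖f t‖ ^ 2 := by
  have hF : ∀ s : ℝ, ∫ t : ℝ, cexp (((-(2 * Real.pi * s * t) : ℝ) : ℂ) * I) • f t = 𝓕 f s := by
    intro s
    rw [Real.fourier_real_eq_integral_exp_smul]
    refine integral_congr_ae (Eventually.of_forall fun t => ?_)
    simp only
    congr 3
    ring_nf
  simp only [hF]
  have hae := fourier_toLp_ae f hf hf2
  set H : Lp X 2 (volume : Measure ℝ) := 𝓕 (hf2.toLp f) with hH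
  have hm : MemLp (𝓕 f) 2 (volume : Measure ℝ) := (memLp_congr_ae hae).mp (Lp.memLp H)
  refine ⟨?_, ?_⟩
  · have := (memLp_two_iff_integrable_sq_norm hm.1).mp hm
    exact this
  · have n1 : ‖H‖ = ‖hf2.toLp f‖ := Lp.norm_fourier_eq _
    have key : ∀ (u : Lp X 2 (volume : Measure ℝ)), ‖u‖ ^ 2 = ∫ t : ℝ, ‖u t‖ ^ 2 := by
      intro u
      have h1 : inner ℂ u u = ∫ t : ℝ, inner ℂ (u t) (u t) := L2.inner_def u u
      have h2 : ((‖u‖ ^ 2 : ℝ) : ℂ) = ((∫ t : ℝ, ‖u t‖ ^ 2 : ℝ) : ℂ) := by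
        rw [← integral_complex_ofReal]
        have h3 : inner ℂ u u = ((‖u‖ ^ 2 : ℝ) : ℂ) := by
          rw [inner_self_eq_norm_sq_to_K]
          push_cast
          rfl
        rw [← h3, h1]
        refine integral_congr_ae (Eventually.of_forall fun t => ?_)
        simp only
        rw [inner_self_eq_norm_sq_to_K]
        push_cast
        rfl
      exact_mod_cast h2
    have k1 := key H
    have k2 := key (hf2.toLp f)
    rw [n1, k2] at k1
    have e1 : ∫ t : ℝ, ‖H t‖ ^ 2 = ∫ s : ℝ, ‖𝓕 f s‖ ^ 2 := by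
      refine integral_congr_ae ?_
      filter_upwards [hae] with s hs
      rw [hs]
    have e2 : ∫ t : ℝ, ‖(hf2.toLp f : ℝ → X) t‖ ^ 2 = ∫ t : ℝ, ‖f t‖ ^ 2 := by
      refine integral_congr_ae ?_
      filter_upwards [hf2.coeFn_toLp] with s hs
      rw [hs]
    rw [← e1, ← k1, e2]

end Abs

end Pool.Agent.Lib.MP_4ccfbf_an
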