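import Pool.Agent.Lib.MP_4ccfbf_an.Defs2

set_option autoImplicit false

open MeasureTheory Set Filter Topology Complex
open scoped ENNReal ComplexConjugate

namespace Pool.Agent.Lib.MP_4ccfbf_an

section Abs

variable {X : Type} [NormedAddCommGroup X] [InnerProductSpace ℂ X] [CompleteSpace X]

theorem halfplane (B : X →L[ℂ] X) (hdis : ∀ x, (inner ℂ (B x) x).re ≤ 0) (β C : ℝ) (hβ : 0 ≤ β)
    (hC : 0 ≤ C)
    (hres : ∀ (s : ℝ) (x : X), ‖B x‖ ≤ C * (1 + |s|) ^ β * ‖((s : ℂ) * I) • B x - x‖)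
    (z : ℂ) (hz : 0 < z.re) (x : X) :
    ‖B x‖ ≤ 2 * C * (1 + ‖z‖) ^ β * ‖z • B x - x‖ := by
  have h1 : z.re * ‖B x‖ ≤ ‖z • B x - x‖ := by
    rcases (norm_nonneg (B x)).eq_or_lt with h0 | hpos
    · rw [← h0, mul_zero]; exact norm_nonneg _
    have e1 : (inner ℂ (B x) (z • B x - x)).re = z.re * ‖B x‖ ^ 2 - (inner ℂ (B x) x).re := by
      rw [inner_sub_right, inner_smul_right, inner_self_eq_norm_sq_to_K, Complex.sub_re,
        Complex.mul_re]
      simp only [Complex.coe_algebraMap, ← Complex.ofReal_pow, Complex.ofReal_re,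
        Complex.ofReal_im, mul_zero, sub_zero]
    have e2 : (inner ℂ (B x) (z • B x - x)).re ≤ ‖B x‖ * ‖z • B x - x‖ :=
      (Complex.re_le_norm _).trans (norm_inner_le_norm _ _)
    have e3 := hdis x
    have e4 : z.re * ‖B x‖ * ‖B x‖ ≤ ‖z • B x - x‖ * ‖B x‖ := by nlinarith
    exact le_of_mul_le_mul_right e4 hpos
  have h2 : ‖((z.im : ℂ) * I) • B x - x‖ ≤ 2 * ‖z • B x - x‖ := by
    have e1 : ((z.im : ℂ) * I) • B x - x = (z • B x - x) - (z.re : ℂ) • B x := by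
      have : z • B x = (z.re : ℂ) • B x + ((z.im : ℂ) * I) • B x := by
        rw [← add_smul, Complex.re_add_im]
      rw [this]; abel
    rw [e1]
    refine (norm_sub_le _ _).trans ?_
    rw [norm_smul, Complex.norm_real, Real.norm_eq_abs, abs_of_pos hz]
    linarith
  have h3 : (1 + |z.im|) ^ β ≤ (1 + ‖z‖) ^ β :=
    Real.rpow_le_rpow (by positivity) (by linarith [Complex.abs_im_le_norm z]) hβ
  calc ‖B x‖ ≤ C * (1 + |z.im|) ^ β * ‖((z.im : ℂ) * I) • B x - x‖ := hres z.im x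
    _ ≤ C * (1 + ‖z‖) ^ β * (2 * ‖z • B x - x‖) := by
        apply mul_le_mul _ h2 (norm_nonneg _) (by positivity)
        exact mul_le_mul_of_nonneg_left h3 hC
    _ = 2 * C * (1 + ‖z‖) ^ β * ‖z • B x - x‖ := by ring

end Abs

end Pool.Agent.Lib.MP_4ccfbf_an
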