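import Pool.Agent.Lib.MP_4ccfbf_an.Defs2

set_option autoImplicit false

open MeasureTheory Set Filter Topology Complex
open scoped ENNReal ComplexConjugate

namespace Pool.Agent.Lib.MP_4ccfbf_an

attribute [local instance] msCircle

section Abs

variable {X : Type} [NormedAddCommGroup X] [InnerProductSpace ℂ X] [CompleteSpace X]

set_option linter.unusedSectionVars false

/-! ## Module ITER -/

theorem ITER_step (B : X →L[ℂ] X) (z : ℂ) (G : ℝ) (hG : ∀ x : X, ‖B x‖ ≤ G * ‖z • B x - x‖)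
    (Z : ℕ → X) (hZ : ∀ j, z • B (Z (j + 1)) = Z (j + 1) + B (Z j)) (j : ℕ) :
    ‖Z (j + 1)‖ ≤ G * ‖Z j‖ := by
  have h1 : B (z • Z (j + 1) - Z j) = Z (j + 1) := by
    rw [map_sub, map_smul, hZ j]
    abel
  have h2 := hG (z • Z (j + 1) - Z j)
  rw [h1] at h2
  have h3 : z • Z (j + 1) - (z • Z (j + 1) - Z j) = Z j := by abel
  rw [h3] at h2
  exact h2

theorem ITER_step2 (B : X →L[ℂ] X) (z : ℂ) (Z : ℕ → X)
    (hZ : ∀ j, z • B (Z (j + 1)) = Z (j + 1) + B (Z j)) (j l : ℕ) :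
    ‖z‖ * ‖(B ^ (l + 1)) (Z (j + 1))‖ ≤ ‖(B ^ l) (Z (j + 1))‖ + ‖(B ^ (l + 1)) (Z j)‖ := by
  have h1 : z • (B ^ (l + 1)) (Z (j + 1)) = (B ^ l) (Z (j + 1)) + (B ^ (l + 1)) (Z j) := by
    rw [pow_succ]
    show z • (B ^ l) (B (Z (j + 1))) = (B ^ l) (Z (j + 1)) + (B ^ l) (B (Z j))
    rw [← map_smul, hZ j, map_add]
  rw [← norm_smul, h1]
  exact norm_add_le _ _

theorem ITER_large (B : X →L[ℂ] X) (β C : ℝ) (hβ : 0 ≤ β) (hC : 0 ≤ C) (j l : ℕ) :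
    ∃ K : ℝ, 0 ≤ K ∧ ∀ z : ℂ, 1 ≤ ‖z‖ →
      (∀ x : X, ‖B x‖ ≤ C * (1 + ‖z‖) ^ β * ‖z • B x - x‖) →
      ∀ Z : ℕ → X, (∀ j, z • B (Z (j + 1)) = Z (j + 1) + B (Z j)) →
        ‖(B ^ l) (Z j)‖ ≤ K * ((1 + ‖z‖) ^ ((j : ℝ) * β - l) + 1) * ‖Z 0‖ := by
  induction l generalizing j with
  | zero =>
    refine ⟨C ^ j, by positivity, fun z hz hG Z hZ => ?_⟩
    have h1 : ∀ i : ℕ, ‖Z i‖ ≤ C ^ i * (1 + ‖z‖) ^ ((i : ℝ) * β) * ‖Z 0‖ := by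
      intro i
      induction i with
      | zero => simp
      | succ i ih =>
        refine (ITER_step B z _ hG Z hZ i).trans ?_
        have h2 : (1 + ‖z‖) ^ (((i + 1 : ℕ) : ℝ) * β) = (1 + ‖z‖) ^ β * (1 + ‖z‖) ^ ((i : ℝ) * β) := by
          rw [← Real.rpow_add (by positivity)]
          congr 1
          push_cast
          ring
        rw [h2, pow_succ]
        calc C * (1 + ‖z‖) ^ β * ‖Z i‖
            ≤ C * (1 + ‖z‖) ^ β * (C ^ i * (1 + ‖z‖) ^ ((i : ℝ) * β) * ‖Z 0‖) :=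
              mul_le_mul_of_nonneg_left ih (by positivity)
          _ = _ := by ring
    rw [pow_zero]
    show ‖Z j‖ ≤ _
    refine (h1 j).trans (mul_le_mul_of_nonneg_right ?_ (norm_nonneg _))
    apply mul_le_mul_of_nonneg_left _ (by positivity)
    have h3 : ((j : ℝ) * β - ((0 : ℕ) : ℝ)) = (j : ℝ) * β := by simp
    rw [h3]
    linarith
  | succ l ihl =>
    induction j with
    | zero =>
      refine ⟨‖B ^ (l + 1)‖, norm_nonneg _, fun z hz hG Z hZ => ?_⟩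
      refine ((B ^ (l + 1)).le_opNorm (Z 0)).trans ?_
      apply mul_le_mul_of_nonneg_right _ (norm_nonneg _)
      have h1 : 0 ≤ (1 + ‖z‖) ^ (((0 : ℕ) : ℝ) * β - ((l + 1 : ℕ) : ℝ)) := by positivity
      nlinarith [norm_nonneg (B ^ (l + 1))]
    | succ j ihj =>
      obtain ⟨K1, hK1, h1⟩ := ihl (j + 1)
      obtain ⟨K2, hK2, h2⟩ := ihj
      refine ⟨2 * K1 + K2, by positivity, fun z hz hG Z hZ => ?_⟩
      have h3 := ITER_step2 B z Z hZ j l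
      have h4 := h1 z hz hG Z hZ
      have h5 := h2 z hz hG Z hZ
      have hz0 : 0 < ‖z‖ := by linarith
      have hb : (1 : ℝ) ≤ 1 + ‖z‖ := by linarith
      obtain ⟨E, hE⟩ : ∃ E : ℝ, E = (1 + ‖z‖) ^ (((j + 1 : ℕ) : ℝ) * β - ((l + 1 : ℕ) : ℝ)) :=
        ⟨_, rfl⟩
      have hE0 : 0 ≤ E := by rw [hE]; positivity
      have hE1 : (1 + ‖z‖) ^ (((j + 1 : ℕ) : ℝ) * β - (l : ℝ)) = (1 + ‖z‖) * E := by
        rw [hE]
        nth_rewrite 2 [← Real.rpow_one (1 + ‖z‖)]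
        rw [← Real.rpow_add (by positivity)]
        congr 1
        push_cast
        ring
      have hE2 : (1 + ‖z‖) ^ ((j : ℝ) * β - ((l + 1 : ℕ) : ℝ)) ≤ E := by
        rw [hE]
        apply Real.rpow_le_rpow_of_exponent_le hb
        push_cast
        linarith
      rw [hE1] at h4
      rw [← hE]
      have hN := norm_nonneg (Z 0)
      -- bound both parts
      have h6 : ‖(B ^ l) (Z (j + 1))‖ ≤ ‖z‖ * (2 * K1 * (E + 1) * ‖Z 0‖) := by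
        refine h4.trans ?_
        have h7 : (1 + ‖z‖) * E + 1 ≤ ‖z‖ * (2 * (E + 1)) := by nlinarith
        calc K1 * ((1 + ‖z‖) * E + 1) * ‖Z 0‖ ≤ K1 * (‖z‖ * (2 * (E + 1))) * ‖Z 0‖ :=
              mul_le_mul_of_nonneg_right (mul_le_mul_of_nonneg_left h7 hK1) hN
          _ = _ := by ring
      have h8 : ‖(B ^ (l + 1)) (Z j)‖ ≤ ‖z‖ * (K2 * (E + 1) * ‖Z 0‖) := by
        refine h5.trans ?_
        have h9 : K2 * ((1 + ‖z‖) ^ ((j : ℝ) * β - ((l + 1 : ℕ) : ℝ)) + 1) * ‖Z 0‖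
            ≤ K2 * (E + 1) * ‖Z 0‖ :=
          mul_le_mul_of_nonneg_right (mul_le_mul_of_nonneg_left (by linarith) hK2) hN
        refine h9.trans ?_
        have h10 : 0 ≤ K2 * (E + 1) * ‖Z 0‖ := by positivity
        nlinarith
      have h11 : ‖z‖ * ‖(B ^ (l + 1)) (Z (j + 1))‖ ≤ ‖z‖ * ((2 * K1 + K2) * (E + 1) * ‖Z 0‖) := by
        calc ‖z‖ * ‖(B ^ (l + 1)) (Z (j + 1))‖ ≤ _ := h3
          _ ≤ ‖z‖ * (2 * K1 * (E + 1) * ‖Z 0‖) + ‖z‖ * (K2 * (E + 1) * ‖Z 0‖) := add_le_add h6 h8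
          _ = _ := by ring
      exact le_of_mul_le_mul_left h11 hz0

theorem iter_bound (B : X →L[ℂ] X) (β C : ℝ) (hβ : 0 ≤ β) (hC : 0 ≤ C) (k m : ℕ)
    (hkm : (k : ℝ) * β ≤ m) : ∃ C' : ℝ, 0 ≤ C' ∧ ∀ z : ℂ,
      (∀ x : X, ‖B x‖ ≤ C * (1 + ‖z‖) ^ β * ‖z • B x - x‖) →
      ∀ Z : ℕ → X, (∀ j, z • B (Z (j + 1)) = Z (j + 1) + B (Z j)) →
        ‖(B ^ m) (Z k)‖ ≤ C' * ‖Z 0‖ := by
  obtain ⟨K, hK, h⟩ := ITER_large B β C hβ hC k m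
  refine ⟨‖B ^ m‖ * (C * 2 ^ β) ^ k + 2 * K, by positivity, fun z hG Z hZ => ?_⟩
  have hN := norm_nonneg (Z 0)
  by_cases hz : 1 ≤ ‖z‖
  · have h1 := h z hz hG Z hZ
    have h2 : (1 + ‖z‖) ^ ((k : ℝ) * β - m) ≤ 1 :=
      Real.rpow_le_one_of_one_le_of_nonpos (by linarith) (by linarith)
    have h3 : K * ((1 + ‖z‖) ^ ((k : ℝ) * β - m) + 1) * ‖Z 0‖ ≤ K * 2 * ‖Z 0‖ :=
      mul_le_mul_of_nonneg_right (mul_le_mul_of_nonneg_left (by linarith) hK) hN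
    have h4 : 0 ≤ ‖B ^ m‖ * (C * 2 ^ β) ^ k * ‖Z 0‖ := by positivity
    calc ‖(B ^ m) (Z k)‖ ≤ K * 2 * ‖Z 0‖ := h1.trans h3
      _ ≤ (‖B ^ m‖ * (C * 2 ^ β) ^ k + 2 * K) * ‖Z 0‖ := by nlinarith
  · have hz' : ‖z‖ ≤ 1 := (not_le.1 hz).le
    have hG2 : C * (1 + ‖z‖) ^ β ≤ C * 2 ^ β :=
      mul_le_mul_of_nonneg_left
        (Real.rpow_le_rpow (by positivity) (by linarith) hβ) hC
    have h1 : ∀ i : ℕ, ‖Z i‖ ≤ (C * 2 ^ β) ^ i * ‖Z 0‖ := by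
      intro i
      induction i with
      | zero => simp
      | succ i ih =>
        refine (ITER_step B z _ hG Z hZ i).trans ?_
        calc C * (1 + ‖z‖) ^ β * ‖Z i‖ ≤ C * 2 ^ β * ((C * 2 ^ β) ^ i * ‖Z 0‖) :=
              mul_le_mul hG2 ih (norm_nonneg _) (by positivity)
          _ = _ := by rw [pow_succ]; ring
    have h2 := (B ^ m).le_opNorm (Z k)
    have h3 : ‖B ^ m‖ * ‖Z k‖ ≤ ‖B ^ m‖ * ((C * 2 ^ β) ^ k * ‖Z 0‖) :=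
      mul_le_mul_of_nonneg_left (h1 k) (norm_nonneg _)
    have h4 : 0 ≤ 2 * K * ‖Z 0‖ := by positivity
    calc ‖(B ^ m) (Z k)‖ ≤ ‖B ^ m‖ * ((C * 2 ^ β) ^ k * ‖Z 0‖) := h2.trans h3
      _ ≤ (‖B ^ m‖ * (C * 2 ^ β) ^ k + 2 * K) * ‖Z 0‖ := by nlinarith

end Abs

end Pool.Agent.Lib.MP_4ccfbf_an
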