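import Pool.Agent.Lib.MP_4ccfbf_an.Defs2

set_option autoImplicit false

open MeasureTheory Set Filter Topology Complex
open scoped ENNReal ComplexConjugate

namespace Pool.Agent.Lib.MP_4ccfbf_an

attribute [local instance] msCircle

section Abs

variable {X : Type} [NormedAddCommGroup X] [InnerProductSpace ℂ X] [CompleteSpace X]

theorem evo_pow {B : X →L[ℂ] X} {W : ℝ → X} (E : Evo B W) (l : ℕ) :
    Evo B (fun t => (B ^ l) (W t)) := by
  intro t ht
  have h := ((B ^ l).restrictScalars ℝ).hasFDerivAt.comp_hasDerivWithinAt t (E t ht)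
  have e : ∀ x : X, B ((B ^ l) x) = (B ^ l) (B x) := by
    intro x
    have := (Commute.pow_self B l).eq
    have h2 := congrArg (fun T : X →L[ℂ] X => T x) this
    exact h2.symm
  simp only [e]
  exact h

lemma EVO_antitone {B : X →L[ℂ] X} (hdis : ∀ x, (inner ℂ (B x) x).re ≤ 0) {W : ℝ → X}
    (E : Evo B W) : AntitoneOn (fun t => (inner ℂ (B (W t)) (B (W t))).re) (Ici (0 : ℝ)) := by
  have hd : ∀ t : ℝ, 0 ≤ t → HasDerivWithinAt (fun t => (inner ℂ (B (W t)) (B (W t))).re)
      ((inner ℂ (B (W t)) (W t) + inner ℂ (W t) (B (W t))).re) (Ici 0) t := by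
    intro t ht
    have h1 := (E t ht).inner ℂ (E t ht)
    exact (Complex.reCLM.hasFDerivAt.comp_hasDerivWithinAt t h1)
  refine antitoneOn_of_deriv_nonpos (convex_Ici 0) ?_ ?_ ?_
  · intro t ht
    exact (hd t ht).continuousWithinAt
  · intro t ht
    rw [interior_Ici] at ht
    exact ((hd t (le_of_lt ht)).hasDerivAt (Ici_mem_nhds ht)).differentiableAt.differentiableWithinAt
  · intro t ht
    rw [interior_Ici] at ht
    rw [((hd t (le_of_lt ht)).hasDerivAt (Ici_mem_nhds ht)).deriv]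
    have h1 := hdis (W t)
    have h2 : (inner ℂ (W t) (B (W t))).re = (inner ℂ (B (W t)) (W t)).re := by
      rw [← inner_conj_symm, Complex.conj_re]
    rw [Complex.add_re, h2]
    linarith

theorem evo_mono {B : X →L[ℂ] X} (hdis : ∀ x, (inner ℂ (B x) x).re ≤ 0) {W : ℝ → X}
    (E : Evo B W) {s t : ℝ} (hs : 0 ≤ s) (hst : s ≤ t) : ‖B (W t)‖ ≤ ‖B (W s)‖ := by
  have h := EVO_antitone hdis E (mem_Ici.mpr hs) (mem_Ici.mpr (hs.trans hst)) hst
  have e : ∀ x : X, (inner ℂ x x).re = ‖x‖ ^ 2 := fun x => by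
    have := inner_self_eq_norm_sq (𝕜 := ℂ) x
    exact this
  simp only [e] at h
  exact (sq_le_sq₀ (norm_nonneg _) (norm_nonneg _)).mp h

lemma EVO_shift {B : X →L[ℂ] X} {W : ℝ → X} (E : Evo B W) {h : ℝ} (hh : 0 ≤ h) :
    Evo B (fun t => W (t + h) - W t) := by
  intro t ht
  have h1 : HasDerivWithinAt (fun s : ℝ => s + h) 1 (Ici 0) t :=
    (hasDerivAt_id t).add_const h |>.hasDerivWithinAt
  have h2 := HasDerivWithinAt.scomp t (E (t + h) (by linarith)) h1
    (fun s hs => by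
      have : (0 : ℝ) ≤ s := hs
      exact mem_Ici.mpr (by linarith))
  rw [one_smul] at h2
  have h3 := h2.sub (E t ht)
  refine h3.congr (fun s _ => ?_) ?_
  · simp
  · simp

lemma EVO_slope {B : X →L[ℂ] X} {W : ℝ → X} (E : Evo B W) {t : ℝ} (ht : 0 ≤ t) :
    Tendsto (fun h : ℝ => h⁻¹ • (B (W (t + h)) - B (W t))) (𝓝[>] (0 : ℝ)) (𝓝 (W t)) := by
  have h1 : HasDerivWithinAt (fun s => B (W s)) (W t) (Ioi t) t :=
    (E t ht).mono (fun s hs => by
      have : t < s := hs
      exact mem_Ici.mpr (by linarith))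
  rw [hasDerivWithinAt_iff_tendsto_slope' self_notMem_Ioi] at h1
  have h2 : Tendsto (fun h : ℝ => t + h) (𝓝[>] (0 : ℝ)) (𝓝[>] t) := by
    refine tendsto_nhdsWithin_iff.mpr ⟨?_, ?_⟩
    · have : Tendsto (fun h : ℝ => t + h) (𝓝 (0 : ℝ)) (𝓝 (t + 0)) :=
        (continuous_const.add continuous_id).tendsto 0
      rw [add_zero] at this
      exact this.mono_left nhdsWithin_le_nhds
    · filter_upwards [self_mem_nhdsWithin] with h hh
      have : (0 : ℝ) < h := hh
      exact mem_Ioi.mpr (by linarith)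
  refine (h1.comp h2).congr (fun h => ?_)
  simp only [Function.comp, slope_def_module, add_sub_cancel_left]

theorem evo_bound {B : X →L[ℂ] X} (hdis : ∀ x, (inner ℂ (B x) x).re ≤ 0) {W : ℝ → X}
    (E : Evo B W) {t : ℝ} (ht : 0 ≤ t) : ‖W t‖ ≤ ‖W 0‖ := by
  have h1 := (EVO_slope E ht).norm
  have h2 := (EVO_slope E (le_refl (0 : ℝ))).norm
  refine le_of_tendsto_of_tendsto h1 h2 ?_
  filter_upwards [self_mem_nhdsWithin] with h hh
  have hh' : (0 : ℝ) < h := hh
  rw [norm_smul, norm_smul]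
  refine mul_le_mul_of_nonneg_left ?_ (norm_nonneg _)
  have h3 := evo_mono hdis (EVO_shift E hh'.le) (le_refl (0 : ℝ)) ht
  simp only [map_sub, zero_add] at h3 ⊢
  exact h3

theorem evo_meas {B : X →L[ℂ] X} {W : ℝ → X} (E : Evo B W) :
    AEStronglyMeasurable W (volume.restrict (Ioi (0 : ℝ))) := by
  have hc : ContinuousOn (fun s => B (W s)) (Ici (0 : ℝ)) := fun t ht =>
    (E t ht).continuousWithinAt
  have hn : Tendsto (fun n : ℕ => (1 / ((n : ℝ) + 1))) atTop (𝓝[>] (0 : ℝ)) := by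
    refine tendsto_nhdsWithin_iff.mpr ⟨tendsto_one_div_add_atTop_nhds_zero_nat, ?_⟩
    refine Filter.Eventually.of_forall (fun n => ?_)
    exact mem_Ioi.mpr (by positivity)
  refine aestronglyMeasurable_of_tendsto_ae atTop
    (f := fun (n : ℕ) (t : ℝ) => (1 / ((n : ℝ) + 1))⁻¹ • (B (W (t + 1 / ((n : ℝ) + 1)))
      - B (W t))) ?_ ?_
  · intro n
    refine ContinuousOn.aestronglyMeasurable ?_ measurableSet_Ioi
    refine continuousOn_const.smul (ContinuousOn.sub ?_ (hc.mono Ioi_subset_Ici_self))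
    refine hc.comp (continuous_id.add continuous_const).continuousOn (fun s hs => ?_)
    have h0 : (0 : ℝ) < s := hs
    have h1 : (0 : ℝ) < 1 / ((n : ℝ) + 1) := by positivity
    exact mem_Ici.mpr (add_pos h0 h1).le
  · refine (ae_restrict_mem measurableSet_Ioi).mono (fun t ht => ?_)
    exact (EVO_slope E (le_of_lt ht)).comp hn

end Abs

end Pool.Agent.Lib.MP_4ccfbf_an
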