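import Pool.Agent.Lib.MP_4ccfbf_an.Defs2
import Pool.Agent.Lib.MP_4ccfbf_an.EVO

set_option autoImplicit false
set_option linter.unusedSectionVars false

open MeasureTheory Set Filter Topology Complex
open scoped ENNReal ComplexConjugate

namespace Pool.Agent.Lib.MP_4ccfbf_an

attribute [local instance] msCircle

/-- `t^j e^{-ct}` is integrable on the half line. -/
theorem lap_real_integrable (j : ℕ) (c : ℝ) (hc : 0 < c) :
    IntegrableOn (fun t : ℝ => t ^ j * Real.exp (-c * t)) (Ioi 0) := by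
  refine integrable_of_isBigO_exp_neg (b := c / 2) (by positivity) (by fun_prop) ?_
  have h1 : (fun t : ℝ => t ^ j) =O[atTop] fun t => Real.exp (c / 2 * t) :=
    (isLittleO_pow_exp_pos_mul_atTop j (by positivity : (0 : ℝ) < c / 2)).isBigO
  have h2 := h1.mul (Asymptotics.isBigO_refl (fun t : ℝ => Real.exp (-c * t)) atTop)
  refine h2.trans (Asymptotics.isBigO_of_le _ (fun t => ?_))
  rw [← Real.exp_add]
  have : c / 2 * t + -c * t = -(c / 2) * t := by ring
  rw [this]

theorem lap_weight_norm (j : ℕ) (z : ℂ) {t : ℝ} (ht : 0 ≤ t) :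
    ‖(((t ^ j / (j.factorial : ℝ) : ℝ) : ℂ) * cexp (-z * (t : ℂ)))‖ =
      t ^ j / (j.factorial : ℝ) * Real.exp (-z.re * t) := by
  rw [norm_mul, Complex.norm_exp, Complex.norm_real, Real.norm_eq_abs,
    abs_of_nonneg (by positivity)]
  congr 2
  simp

section Abs

variable {X : Type} [NormedAddCommGroup X] [InnerProductSpace ℂ X] [CompleteSpace X]

theorem LAP_hasDerivAt {B : X →L[ℂ] X} {W : ℝ → X} (E : Evo B W) {t : ℝ} (ht : 0 < t) :
    HasDerivAt (fun s => B (W s)) (W t) t := (E t ht.le).hasDerivAt (Ici_mem_nhds ht)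

theorem LAP_cont {B : X →L[ℂ] X} {W : ℝ → X} (E : Evo B W) :
    ContinuousOn (fun s => B (W s)) (Ici (0 : ℝ)) := fun t ht => (E t ht).continuousWithinAt

theorem lap_integrable {W : ℝ → X} (hW : AEStronglyMeasurable W (volume.restrict (Ioi (0 : ℝ))))
    (A : ℝ) (hA : ∀ t : ℝ, 0 < t → ‖W t‖ ≤ A) (j : ℕ) (z : ℂ) (hz : 0 < z.re) :
    IntegrableOn (fun t : ℝ => (((t ^ j / (j.factorial : ℝ) : ℝ) : ℂ) * cexp (-z * (t : ℂ))) • W t)
      (Ioi (0 : ℝ)) := by
  have h1 := (lap_real_integrable j z.re hz).const_mul (A / (j.factorial : ℝ))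
  refine Integrable.mono' h1 ?_ ?_
  · refine AEStronglyMeasurable.smul ?_ hW
    have : Continuous (fun t : ℝ => (((t ^ j / (j.factorial : ℝ) : ℝ) : ℂ) *
        cexp (-z * (t : ℂ)))) := by fun_prop
    exact this.aestronglyMeasurable
  · filter_upwards [ae_restrict_mem measurableSet_Ioi] with t ht
    have ht' : (0 : ℝ) < t := ht
    rw [norm_smul, lap_weight_norm j z ht'.le]
    have h2 := hA t ht'
    have h3 : 0 ≤ t ^ j / (j.factorial : ℝ) * Real.exp (-z.re * t) := by positivity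
    calc t ^ j / (j.factorial : ℝ) * Real.exp (-z.re * t) * ‖W t‖
        ≤ t ^ j / (j.factorial : ℝ) * Real.exp (-z.re * t) * A :=
          mul_le_mul_of_nonneg_left h2 h3
      _ = A / (j.factorial : ℝ) * (t ^ j * Real.exp (-z.re * t)) := by ring

theorem lap_comp {W : ℝ → X} (hW : AEStronglyMeasurable W (volume.restrict (Ioi (0 : ℝ))))
    (A : ℝ) (hA : ∀ t : ℝ, 0 < t → ‖W t‖ ≤ A) (B : X →L[ℂ] X) (j : ℕ) (z : ℂ) (hz : 0 < z.re) :
    B (Lap j z W) = Lap j z (fun t => B (W t)) := by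
  unfold Lap
  rw [← ContinuousLinearMap.integral_comp_comm B (lap_integrable hW A hA j z hz)]
  simp only [map_smul]

theorem lap_succ {B : X →L[ℂ] X} {W : ℝ → X} (E : Evo B W)
    (A : ℝ) (hA : ∀ t : ℝ, 0 ≤ t → ‖W t‖ ≤ A) (j : ℕ) (z : ℂ) (hz : 0 < z.re) :
    z • B (Lap (j + 1) z W) = Lap (j + 1) z W + B (Lap j z W) := by
  have hWm := evo_meas E
  have hA' : ∀ t : ℝ, 0 < t → ‖W t‖ ≤ A := fun t ht => hA t ht.le
  have hBm : AEStronglyMeasurable (fun t => B (W t)) (volume.restrict (Ioi (0 : ℝ))) :=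
    B.continuous.comp_aestronglyMeasurable hWm
  have hBA : ∀ t : ℝ, 0 < t → ‖B (W t)‖ ≤ ‖B‖ * A := fun t ht =>
    (B.le_opNorm _).trans (mul_le_mul_of_nonneg_left (hA' t ht) (norm_nonneg _))
  rw [lap_comp hWm A hA' B (j + 1) z hz, lap_comp hWm A hA' B j z hz]
  have i1 := lap_integrable hBm (‖B‖ * A) hBA j z hz
  have i2 := lap_integrable hBm (‖B‖ * A) hBA (j + 1) z hz
  have i3 := lap_integrable hWm A hA' (j + 1) z hz
  -- the function and its derivative
  set c : ℕ → ℝ → ℂ := fun j t => ((t ^ j / (j.factorial : ℝ) : ℝ) : ℂ) * cexp (-z * (t : ℂ))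
    with hc
  have hder : ∀ t ∈ Ioi (0 : ℝ), HasDerivAt (fun t : ℝ => c (j + 1) t • B (W t))
      (c j t • B (W t) - z • (c (j + 1) t • B (W t)) + c (j + 1) t • W t) t := by
    intro t ht
    have ht' : (0 : ℝ) < t := ht
    have h1 : HasDerivAt (fun t : ℝ => t ^ (j + 1) / ((j + 1).factorial : ℝ))
        (t ^ j / (j.factorial : ℝ)) t := by
      have h0 := (hasDerivAt_pow (j + 1) t).div_const ((j + 1).factorial : ℝ)
      refine h0.congr_deriv ?_
      have e0 : j + 1 - 1 = j := Nat.add_sub_cancel j 1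
      rw [e0]
      rw [Nat.factorial_succ]
      have h2 : (j.factorial : ℝ) ≠ 0 := by positivity
      have h3 : ((j : ℝ) + 1) ≠ 0 := by positivity
      push_cast
      rw [mul_div_mul_left _ _ h3]
    have h2 := h1.ofReal_comp
    have h3 : HasDerivAt (fun t : ℝ => cexp (-z * (t : ℂ))) (cexp (-z * (t : ℂ)) * (-z * 1)) t := by
      have h4 : HasDerivAt (fun t : ℝ => -z * (t : ℂ)) (-z * 1) t :=
        (Complex.ofRealCLM.hasDerivAt (x := t)).const_mul (-z)
      exact h4.cexp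
    have h5 := h2.mul h3
    have h6 := h5.smul (LAP_hasDerivAt E ht')
    refine h6.congr_deriv ?_
    simp only [hc, smul_smul]
    rw [← sub_smul]
    rw [add_comm]
    congr 1
    congr 1
    ring
  have hcont : ContinuousWithinAt (fun t : ℝ => c (j + 1) t • B (W t)) (Ici 0) 0 := by
    have h1 : Continuous (c (j + 1)) := by simp only [hc]; fun_prop
    exact h1.continuousWithinAt.smul (LAP_cont E 0 (mem_Ici.mpr le_rfl))
  have hint : IntegrableOn (fun t => c j t • B (W t) - z • (c (j + 1) t • B (W t)) +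
      c (j + 1) t • W t) (Ioi 0) := (i1.sub (i2.smul z)).add i3
  have hlim : Tendsto (fun t : ℝ => c (j + 1) t • B (W t)) atTop (𝓝 0) := by
    have h1 : Tendsto (fun t : ℝ => ‖B‖ * A / ((j + 1).factorial : ℝ) *
        (t ^ (j + 1) * Real.exp (-z.re * t))) atTop (𝓝 0) := by
      have h2 : Tendsto (fun t : ℝ => t ^ (j + 1) * Real.exp (-z.re * t)) atTop (𝓝 0) := by
        have h4 := tendsto_rpow_mul_exp_neg_mul_atTop_nhds_zero ((j + 1 : ℕ) : ℝ) z.re hz
        refine h4.congr (fun t => ?_)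
        rw [Real.rpow_natCast]
      have h3 := h2.const_mul (‖B‖ * A / ((j + 1).factorial : ℝ))
      rwa [mul_zero] at h3
    refine squeeze_zero_norm' ?_ h1
    filter_upwards [eventually_gt_atTop (0 : ℝ)] with t ht
    rw [norm_smul]
    simp only [hc]
    rw [lap_weight_norm (j + 1) z ht.le]
    have h3 : 0 ≤ t ^ (j + 1) / ((j + 1).factorial : ℝ) * Real.exp (-z.re * t) := by positivity
    calc t ^ (j + 1) / ((j + 1).factorial : ℝ) * Real.exp (-z.re * t) * ‖B (W t)‖
        ≤ t ^ (j + 1) / ((j + 1).factorial : ℝ) * Real.exp (-z.re * t) * (‖B‖ * A) :=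
          mul_le_mul_of_nonneg_left (hBA t ht) h3
      _ = _ := by ring
  have hmain := integral_Ioi_of_hasDerivAt_of_tendsto hcont hder hint hlim
  have h0 : c (j + 1) 0 • B (W 0) = 0 := by simp [hc]
  have i1' : IntegrableOn (fun t => c j t • B (W t)) (Ioi 0) := i1
  have i2' : IntegrableOn (fun t => z • (c (j + 1) t • B (W t))) (Ioi 0) := i2.smul z
  have i3' : IntegrableOn (fun t => c (j + 1) t • W t) (Ioi 0) := i3
  have i4' : IntegrableOn (fun t => c j t • B (W t) - z • (c (j + 1) t • B (W t))) (Ioi 0) :=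
    i1'.sub i2'
  rw [h0, sub_zero, integral_add i4' i3', integral_sub i1' i2', integral_smul] at hmain
  unfold Lap
  have h1 : z • (∫ t in Ioi (0 : ℝ), c (j + 1) t • B (W t)) =
      (∫ t in Ioi (0 : ℝ), c (j + 1) t • W t) + ∫ t in Ioi (0 : ℝ), c j t • B (W t) := by
    have h2 := sub_eq_zero.mp (show (∫ t in Ioi (0 : ℝ), c (j + 1) t • W t) +
      (∫ t in Ioi (0 : ℝ), c j t • B (W t)) - z • (∫ t in Ioi (0 : ℝ), c (j + 1) t • B (W t)) = 0 by
        rw [← hmain]; abel)
    exact h2.symm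
  exact h1

end Abs

end Pool.Agent.Lib.MP_4ccfbf_an
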