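import Pool.Agent.Lib.MP_4ccfbf_an.Defs2

set_option autoImplicit false

open MeasureTheory Set Filter Topology Complex
open scoped ENNReal ComplexConjugate

namespace Pool.Agent.Lib.MP_4ccfbf_an

attribute [local instance] msCircle

section Abs

variable {X : Type} [NormedAddCommGroup X] [InnerProductSpace ℂ X] [CompleteSpace X]

/-! ## Module LK : Landau-Kolmogorov -/

set_option linter.unusedSectionVars false

theorem LK_shift {f : ℝ → X} {f' : X} {T t h : ℝ} (hh : 0 < h)
    (hf : HasDerivWithinAt f f' (Ici T) (t + h)) :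
    HasDerivWithinAt (fun s => f (s + h)) f' (Ici T) t := by
  have h1 : HasDerivWithinAt (fun s : ℝ => s + h) 1 (Ici T) t :=
    (hasDerivWithinAt_id t (Ici T)).add_const h
  have h2 := HasDerivWithinAt.scomp t hf h1 (fun s hs => by
    have hs' : T ≤ s := hs
    show T ≤ s + h
    linarith)
  rw [one_smul] at h2
  exact h2

theorem landau (m : ℕ) (hm : 1 ≤ m) (Y : ℕ → ℝ → X) (T a M h : ℝ) (hh : 0 < h) (ha : 0 ≤ a)
    (hM : 0 ≤ M)
    (hder : ∀ i < m, ∀ t, T ≤ t → HasDerivWithinAt (Y i) (Y (i + 1) t) (Ici T) t)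
    (h0 : ∀ t, T ≤ t → ‖Y 0 t‖ ≤ a) (hm' : ∀ t, T ≤ t → ‖Y m t‖ ≤ M) (t : ℝ) (ht : T ≤ t) :
    ‖Y (m - 1) t‖ ≤ 2 ^ (m - 1) * a / h ^ (m - 1) + (m - 1 : ℕ) * h * M := by
  induction m, hm using Nat.le_induction generalizing Y a t with
  | base =>
    simpa using h0 t ht
  | succ m hm ih =>
    rw [Nat.add_sub_cancel]
    -- the difference quotients
    obtain ⟨Z, hZ⟩ : ∃ Z : ℕ → ℝ → X, Z = fun i s => (h⁻¹ : ℝ) • (Y i (s + h) - Y i s) := ⟨_, rfl⟩
    have hlip : ∀ s, T ≤ s → ∀ r, T ≤ r → ‖Y m r - Y m s‖ ≤ M * ‖r - s‖ := by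
      intro s hs r hr
      exact Convex.norm_image_sub_le_of_norm_hasDerivWithin_le
        (fun x hx => hder m (Nat.lt_succ_self m) x hx) (fun x hx => hm' x hx) (convex_Ici T) hs hr
    have hZder : ∀ i < m, ∀ s, T ≤ s → HasDerivWithinAt (Z i) (Z (i + 1) s) (Ici T) s := by
      intro i hi s hs
      rw [hZ]
      have h1 := LK_shift hh (hder i (by omega) (s + h) (by linarith))
      exact (h1.sub (hder i (by omega) s hs)).const_smul h⁻¹
    have hZ0 : ∀ s, T ≤ s → ‖Z 0 s‖ ≤ 2 * a / h := by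
      intro s hs
      rw [hZ]
      simp only
      rw [norm_smul, Real.norm_eq_abs, abs_of_pos (inv_pos.2 hh)]
      have h1 := norm_sub_le (Y 0 (s + h)) (Y 0 s)
      have h2 := h0 (s + h) (by linarith)
      have h3 := h0 s hs
      rw [div_eq_inv_mul]
      exact mul_le_mul_of_nonneg_left (by linarith) (inv_pos.2 hh).le
    have hZm : ∀ s, T ≤ s → ‖Z m s‖ ≤ M := by
      intro s hs
      rw [hZ]
      simp only
      rw [norm_smul, Real.norm_eq_abs, abs_of_pos (inv_pos.2 hh)]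
      have h1 := hlip s hs (s + h) (by linarith)
      rw [add_sub_cancel_left, Real.norm_eq_abs, abs_of_pos hh] at h1
      calc h⁻¹ * ‖Y m (s + h) - Y m s‖ ≤ h⁻¹ * (M * h) :=
            mul_le_mul_of_nonneg_left h1 (inv_pos.2 hh).le
        _ = M := by field_simp
    have hIH := ih Z (2 * a / h) (by positivity) hZder hZ0 hZm t ht
    -- comparison of `Y m t` and the difference quotient of `Y (m - 1)`
    have hcmp : ‖Y m t - Z (m - 1) t‖ ≤ h * M := by
      obtain ⟨φ, hφ⟩ : ∃ φ : ℝ → X, φ = fun s => Y (m - 1) s - (s - t) • Y m t := ⟨_, rfl⟩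
      have hd : ∀ s ∈ Icc t (t + h), HasDerivWithinAt φ (Y m s - Y m t) (Icc t (t + h)) s := by
        intro s hs
        rw [hφ]
        have h1 := hder (m - 1) (by omega) s (ht.trans hs.1)
        rw [Nat.sub_add_cancel hm] at h1
        have h2 := h1.mono (show Icc t (t + h) ⊆ Ici T from fun r hr => ht.trans hr.1)
        have h3 : HasDerivWithinAt (fun s : ℝ => (s - t) • Y m t) ((1 : ℝ) • Y m t)
            (Icc t (t + h)) s :=
          ((hasDerivWithinAt_id s (Icc t (t + h))).sub_const t).smul_const (Y m t)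
        rw [one_smul] at h3
        exact h2.sub h3
      have hbd : ∀ s ∈ Icc t (t + h), ‖Y m s - Y m t‖ ≤ M * h := by
        intro s hs
        refine (hlip t ht s (ht.trans hs.1)).trans (mul_le_mul_of_nonneg_left ?_ hM)
        rw [Real.norm_eq_abs, abs_of_nonneg (by linarith [hs.1])]
        linarith [hs.2]
      have h1 := Convex.norm_image_sub_le_of_norm_hasDerivWithin_le hd hbd (convex_Icc t (t + h))
        (left_mem_Icc.2 (by linarith)) (right_mem_Icc.2 (by linarith))
      rw [add_sub_cancel_left, Real.norm_eq_abs, abs_of_pos hh, hφ] at h1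
      simp only [sub_self, zero_smul, sub_zero, add_sub_cancel_left] at h1
      have h2 : Y m t - Z (m - 1) t
          = -((h⁻¹ : ℝ) • (Y (m - 1) (t + h) - h • Y m t - Y (m - 1) t)) := by
        rw [hZ]
        simp only [smul_sub]
        rw [smul_smul, inv_mul_cancel₀ hh.ne', one_smul]
        abel
      rw [h2, norm_neg, norm_smul, Real.norm_eq_abs, abs_of_pos (inv_pos.2 hh)]
      calc h⁻¹ * ‖Y (m - 1) (t + h) - h • Y m t - Y (m - 1) t‖ ≤ h⁻¹ * (M * h * h) :=
            mul_le_mul_of_nonneg_left h1 (inv_pos.2 hh).le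
        _ = h * M := by field_simp
    have h3 : ‖Y m t‖ ≤ ‖Z (m - 1) t‖ + ‖Y m t - Z (m - 1) t‖ := by
      have := norm_add_le (Z (m - 1) t) (Y m t - Z (m - 1) t)
      rwa [add_sub_cancel] at this
    have h4 : 2 ^ (m - 1) * (2 * a / h) / h ^ (m - 1) = 2 ^ m * a / h ^ m := by
      obtain ⟨n, rfl⟩ : ∃ n, m = n + 1 := ⟨m - 1, by omega⟩
      rw [Nat.add_sub_cancel, pow_succ, pow_succ]
      field_simp
    have h5 : ((m - 1 : ℕ) : ℝ) = (m : ℝ) - 1 := by
      rw [Nat.cast_sub hm]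
      norm_num
    rw [h4, h5] at hIH
    linarith

end Abs

end Pool.Agent.Lib.MP_4ccfbf_an
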