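import Pool.Agent.Lib.MP_4ccfbf_an.PL12

set_option autoImplicit false

open MeasureTheory Set Filter Topology Complex
open scoped ENNReal ComplexConjugate

namespace Pool.Agent.Lib.MP_4ccfbf_an

section Abs

variable {X : Type} [NormedAddCommGroup X] [InnerProductSpace ℂ X] [CompleteSpace X]

/-! ## Module PLAN : Plancherel for Laplace transforms -/

/-- `t^n e^{-bt}` is integrable on the half line. -/
theorem plan_int (n : ℕ) (b : ℝ) (hb : 0 < b) :
    IntegrableOn (fun t : ℝ => t ^ n * Real.exp (-b * t)) (Ioi (0 : ℝ)) := by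
  have h := integrableOn_rpow_mul_exp_neg_mul_rpow (p := 1) (s := (n : ℝ)) (b := b)
    (by linarith [(Nat.cast_nonneg n : (0 : ℝ) ≤ n)]) one_pos hb
  refine h.congr_fun (fun t _ => ?_) measurableSet_Ioi
  simp only [Real.rpow_natCast, Real.rpow_one]

theorem laplace_plancherel (g : ℝ → X)
    (hg : AEStronglyMeasurable g (volume.restrict (Ioi (0 : ℝ)))) (A : ℝ)
    (hA : ∀ t : ℝ, 0 < t → ‖g t‖ ≤ A) (j : ℕ) (ξ : ℝ) (hξ : 0 < ξ) :
    IntegrableOn (fun t : ℝ => (t ^ j / (j.factorial : ℝ)) ^ 2 * Real.exp (-2 * ξ * t)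
      * ‖g t‖ ^ 2) (Ioi (0 : ℝ)) ∧
    Integrable (fun s : ℝ => ‖Lap j ((ξ : ℂ) + s * I) g‖ ^ 2) ∧
      ∫ s : ℝ, ‖Lap j ((ξ : ℂ) + s * I) g‖ ^ 2
        = 2 * Real.pi * ∫ t in Ioi (0 : ℝ), (t ^ j / (j.factorial : ℝ)) ^ 2
            * Real.exp (-2 * ξ * t) * ‖g t‖ ^ 2 := by
  have hA0 : 0 ≤ A := le_trans (norm_nonneg _) (hA 1 one_pos)
  set w : ℝ → ℝ := fun t => t ^ j / (j.factorial : ℝ) * Real.exp (-ξ * t) with hw
  have hw0 : ∀ t : ℝ, 0 < t → 0 ≤ w t := fun t ht => by
    simp only [hw]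
    positivity
  have hwc : Continuous w := by
    simp only [hw]
    fun_prop
  set f0 : ℝ → X := fun t => (w t : ℂ) • g t with hf0
  set f : ℝ → X := (Ioi (0 : ℝ)).indicator f0 with hf
  have hf0m : AEStronglyMeasurable f0 (volume.restrict (Ioi (0 : ℝ))) :=
    ((Complex.continuous_ofReal.comp hwc).aestronglyMeasurable).smul hg
  have hfm : AEStronglyMeasurable f volume :=
    (aestronglyMeasurable_indicator_iff measurableSet_Ioi).mpr hf0m
  have hnorm : ∀ t : ℝ, 0 < t → ‖f0 t‖ = w t * ‖g t‖ := by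
    intro t ht
    simp only [hf0]
    rw [norm_smul, Complex.norm_real, Real.norm_of_nonneg (hw0 t ht)]
  -- the weights are integrable
  have hwi : IntegrableOn w (Ioi (0 : ℝ)) := by
    have this : IntegrableOn (fun t : ℝ => (j.factorial : ℝ)⁻¹ * (t ^ j * Real.exp (-ξ * t)))
        (Ioi (0 : ℝ)) := (plan_int j ξ hξ).const_mul ((j.factorial : ℝ)⁻¹)
    refine this.congr_fun (fun t _ => ?_) measurableSet_Ioi
    simp only [hw]
    ring
  have hw2i : IntegrableOn (fun t => w t ^ 2) (Ioi (0 : ℝ)) := by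
    have this : IntegrableOn (fun t : ℝ => ((j.factorial : ℝ) ^ 2)⁻¹ *
        (t ^ (2 * j) * Real.exp (-(2 * ξ) * t))) (Ioi (0 : ℝ)) :=
      (plan_int (2 * j) (2 * ξ) (by positivity)).const_mul (((j.factorial : ℝ) ^ 2)⁻¹)
    refine this.congr_fun (fun t _ => ?_) measurableSet_Ioi
    simp only [hw]
    have e : Real.exp (-(2 * ξ) * t) = Real.exp (-ξ * t) ^ 2 := by
      rw [← Real.exp_nat_mul]
      congr 1
      push_cast
      ring
    rw [e, mul_pow, div_pow, ← pow_mul, mul_comm j 2]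
    ring
  have hf0i : IntegrableOn f0 (Ioi (0 : ℝ)) := by
    refine Integrable.mono' (hwi.const_mul A) hf0m ?_
    refine (ae_restrict_iff' measurableSet_Ioi).mpr (Eventually.of_forall fun t ht => ?_)
    rw [hnorm t ht, mul_comm]
    exact mul_le_mul_of_nonneg_right (hA t ht) (hw0 t ht)
  have hfi : Integrable f := (integrable_indicator_iff measurableSet_Ioi).mpr hf0i
  have hsqi : IntegrableOn (fun t => ‖f0 t‖ ^ 2) (Ioi (0 : ℝ)) := by
    refine Integrable.mono' (hw2i.const_mul (A ^ 2)) (hf0m.norm.pow 2) ?_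
    refine (ae_restrict_iff' measurableSet_Ioi).mpr (Eventually.of_forall fun t ht => ?_)
    rw [Real.norm_of_nonneg (by positivity), hnorm t ht, mul_pow, mul_comm]
    have h1 : ‖g t‖ ^ 2 ≤ A ^ 2 := pow_le_pow_left₀ (norm_nonneg _) (hA t ht) 2
    exact mul_le_mul_of_nonneg_right h1 (by positivity)
  have hind : (fun t => ‖f t‖ ^ 2) = (Ioi (0 : ℝ)).indicator (fun t => ‖f0 t‖ ^ 2) := by
    funext t
    by_cases ht : t ∈ Ioi (0 : ℝ)
    · rw [hf, indicator_of_mem ht, indicator_of_mem ht]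
    · rw [hf, indicator_of_notMem ht, indicator_of_notMem ht, norm_zero]
      ring
  have hf2 : MemLp f 2 volume := by
    rw [memLp_two_iff_integrable_sq_norm hfm, hind]
    exact (integrable_indicator_iff measurableSet_Ioi).mpr hsqi
  have hform : ∀ t : ℝ, 0 < t → ‖f0 t‖ ^ 2 = (t ^ j / (j.factorial : ℝ)) ^ 2
      * Real.exp (-2 * ξ * t) * ‖g t‖ ^ 2 := by
    intro t ht
    rw [hnorm t ht]
    simp only [hw]
    have e : Real.exp (-2 * ξ * t) = Real.exp (-ξ * t) ^ 2 := by
      rw [← Real.exp_nat_mul]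
      congr 1
      push_cast
      ring
    rw [e]
    ring
  obtain ⟨P1, P2⟩ := plancherel_L1_L2 f hfi hf2
  set Φ : ℝ → ℝ := fun s =>
    ‖∫ t : ℝ, cexp (((-(2 * Real.pi * s * t) : ℝ) : ℂ) * I) • f t‖ ^ 2 with hΦ
  have hpi : (2 * Real.pi : ℝ) ≠ 0 := by positivity
  have hLap : ∀ s : ℝ, ‖Lap j ((ξ : ℂ) + s * I) g‖ ^ 2 = Φ (s / (2 * Real.pi)) := by
    intro s
    simp only [hΦ]
    congr 2
    unfold Lap
    rw [← integral_indicator measurableSet_Ioi]
    refine integral_congr_ae (Eventually.of_forall fun t => ?_)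
    by_cases ht : t ∈ Ioi (0 : ℝ)
    · simp only [hf, indicator_of_mem ht, hf0, hw]
      rw [smul_smul]
      congr 1
      have e1 : (-(2 * Real.pi * (s / (2 * Real.pi)) * t) : ℝ) = -(s * t) := by
        field_simp
      rw [e1]
      push_cast
      have e2 : cexp (-((ξ : ℂ) + s * I) * t) = cexp (-(s * t) * I) * cexp (-ξ * t) := by
        rw [← Complex.exp_add]
        congr 1
        ring
      rw [e2]
      ring
    · simp only [hf, indicator_of_notMem ht, smul_zero]
  refine ⟨?_, ?_, ?_⟩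
  · exact hsqi.congr_fun (fun t ht => hform t ht) measurableSet_Ioi
  · simp only [hLap]
    exact P1.comp_div hpi
  · simp only [hLap]
    rw [Measure.integral_comp_div, P2, abs_of_pos (by positivity), smul_eq_mul, hind,
      integral_indicator measurableSet_Ioi]
    congr 1
    exact setIntegral_congr_fun measurableSet_Ioi (fun t ht => hform t ht)

end Abs

end Pool.Agent.Lib.MP_4ccfbf_an
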