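import Pool.Agent.Lib.MP_4ccfbf_an.EVO
import Pool.Agent.Lib.MP_4ccfbf_an.LAP
import Pool.Agent.Lib.MP_4ccfbf_an.HP
import Pool.Agent.Lib.MP_4ccfbf_an.ITER
import Pool.Agent.Lib.MP_4ccfbf_an.PLAN
import Pool.Agent.Lib.MP_4ccfbf_an.LK

set_option autoImplicit false

open MeasureTheory Set Filter Topology Complex
open scoped ENNReal ComplexConjugate

namespace Pool.Agent.Lib.MP_4ccfbf_an

section Abs

variable {X : Type} [NormedAddCommGroup X] [InnerProductSpace ℂ X] [CompleteSpace X]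

/-- The integrated decay: `‖B^m W(T)‖ ≤ C₂ ‖W 0‖ T^{-k}`. -/
theorem pow_decay (B : X →L[ℂ] X) (hdis : ∀ x, (inner ℂ (B x) x).re ≤ 0) (β C : ℝ) (hβ : 0 ≤ β)
    (hC : 0 ≤ C)
    (hres : ∀ (s : ℝ) (x : X), ‖B x‖ ≤ C * (1 + |s|) ^ β * ‖((s : ℂ) * I) • B x - x‖)
    (k m : ℕ) (hm : 1 ≤ m) (hkm : (k : ℝ) * β ≤ m) :
    ∃ C₂ : ℝ, 0 ≤ C₂ ∧ ∀ W : ℝ → X, Evo B W → ∀ T : ℝ, 0 < T →
      ‖(B ^ m) (W T)‖ ≤ C₂ * ‖W 0‖ / T ^ k := by
  obtain ⟨C₁, hC₁, hit⟩ := iter_bound B β (2 * C) hβ (by linarith) k m hkm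
  refine ⟨C₁ * ((k.factorial : ℝ) * (Real.exp 1 * Real.sqrt (2 * k + 1))), by positivity, ?_⟩
  intro W E T hT
  have hpi := Real.pi_pos
  have hWm := evo_meas E
  have hWb : ∀ t : ℝ, 0 < t → ‖W t‖ ≤ ‖W 0‖ := fun t ht => evo_bound hdis E ht.le
  set g : ℝ → X := fun t => (B ^ m) (W t) with hg
  have hgm : AEStronglyMeasurable g (volume.restrict (Ioi (0 : ℝ))) :=
    (B ^ m).continuous.comp_aestronglyMeasurable hWm
  have hgb : ∀ t : ℝ, 0 < t → ‖g t‖ ≤ ‖B ^ m‖ * ‖W 0‖ := fun t ht =>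
    ((B ^ m).le_opNorm _).trans (mul_le_mul_of_nonneg_left (hWb t ht) (norm_nonneg _))
  -- monotonicity
  have hgmono : ∀ s t : ℝ, 0 ≤ s → s ≤ t → ‖g t‖ ≤ ‖g s‖ := by
    intro s t hs hst
    obtain ⟨m', rfl⟩ : ∃ m', m = m' + 1 := ⟨m - 1, by omega⟩
    have h1 := evo_mono hdis (evo_pow E m') hs hst
    have h2 : ∀ r, B ((B ^ m') (W r)) = (B ^ (m' + 1)) (W r) := by
      intro r; rw [pow_succ']; rfl
    rw [h2, h2] at h1
    exact h1
  set ξ : ℝ := 1 / T with hξ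
  have hξ0 : 0 < ξ := by positivity
  obtain ⟨j1, i1, e1⟩ := laplace_plancherel g hgm _ hgb k ξ hξ0
  obtain ⟨j2, i2, e2⟩ := laplace_plancherel W hWm _ hWb 0 ξ hξ0
  have hcmp : ∀ s : ℝ, ‖Lap k ((ξ : ℂ) + s * I) g‖ ^ 2
      ≤ C₁ ^ 2 * ‖Lap 0 ((ξ : ℂ) + s * I) W‖ ^ 2 := by
    intro s
    set z : ℂ := (ξ : ℂ) + s * I with hz
    have hzre : 0 < z.re := by simp [hz]; exact hξ0
    have h1 : Lap k z g = (B ^ m) (Lap k z W) := (lap_comp hWm _ hWb (B ^ m) k z hzre).symm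
    rw [h1, ← mul_pow]
    refine pow_le_pow_left₀ (norm_nonneg _) ?_ 2
    exact hit z (fun x => halfplane B hdis β C hβ hC hres z hzre x) (fun j => Lap j z W)
      (fun j => lap_succ E _ (fun t ht => evo_bound hdis E ht) j z hzre)
  have h3 : (∫ s : ℝ, ‖Lap k ((ξ : ℂ) + s * I) g‖ ^ 2)
      ≤ C₁ ^ 2 * ∫ s : ℝ, ‖Lap 0 ((ξ : ℂ) + s * I) W‖ ^ 2 := by
    rw [← integral_const_mul]
    exact integral_mono i1 (i2.const_mul _) hcmp
  -- the right hand side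
  have hexpint : IntegrableOn (fun t : ℝ => Real.exp (-2 * ξ * t)) (Ioi 0) := by
    have := integrableOn_exp_mul_Ioi (a := -2 * ξ) (by linarith) 0
    exact this
  have hexpval : ∫ t in Ioi (0 : ℝ), Real.exp (-2 * ξ * t) = T / 2 := by
    have := integral_exp_mul_Ioi (a := -2 * ξ) (by linarith) 0
    rw [this]
    simp [hξ]
    field_simp
  have h4 : (∫ t in Ioi (0 : ℝ), (t ^ 0 / ((Nat.factorial 0 : ℕ) : ℝ)) ^ 2 * Real.exp (-2 * ξ * t) * ‖W t‖ ^ 2)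
      ≤ ‖W 0‖ ^ 2 * (T / 2) := by
    rw [← hexpval, ← integral_const_mul]
    refine setIntegral_mono_on j2 (hexpint.const_mul _) measurableSet_Ioi ?_
    intro t ht
    have h5 : ‖W t‖ ^ 2 ≤ ‖W 0‖ ^ 2 := pow_le_pow_left₀ (norm_nonneg _) (hWb t ht) 2
    simp only [pow_zero, Nat.factorial_zero, Nat.cast_one, div_one, one_pow, one_mul]
    rw [mul_comm]
    exact mul_le_mul_of_nonneg_right h5 (Real.exp_pos _).le
  -- the left hand side
  have hk0 : (0 : ℝ) < k.factorial := by exact_mod_cast Nat.factorial_pos k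
  have h6 : ‖g T‖ ^ 2 * (Real.exp (-2) / (k.factorial : ℝ) ^ 2) * (T ^ (2 * k + 1) / (2 * k + 1))
      ≤ ∫ t in Ioi (0 : ℝ), (t ^ k / (k.factorial : ℝ)) ^ 2 * Real.exp (-2 * ξ * t) * ‖g t‖ ^ 2 := by
    have hsub : (∫ t in Ioc (0 : ℝ) T, (t ^ k / (k.factorial : ℝ)) ^ 2 * Real.exp (-2 * ξ * t)
        * ‖g t‖ ^ 2) ≤ ∫ t in Ioi (0 : ℝ), (t ^ k / (k.factorial : ℝ)) ^ 2
          * Real.exp (-2 * ξ * t) * ‖g t‖ ^ 2 := by
      refine setIntegral_mono_set j1 (Filter.Eventually.of_forall (fun t => ?_)) ?_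
      · simp only [Pi.zero_apply]; positivity
      · exact (Ioc_subset_Ioi_self).eventuallyLE
    refine le_trans ?_ hsub
    have hval : (∫ t in Ioc (0 : ℝ) T, (‖g T‖ ^ 2 * (Real.exp (-2) / (k.factorial : ℝ) ^ 2)) * t ^ (2 * k))
        = ‖g T‖ ^ 2 * (Real.exp (-2) / (k.factorial : ℝ) ^ 2) * (T ^ (2 * k + 1) / (2 * k + 1)) := by
      rw [← intervalIntegral.integral_of_le hT.le, intervalIntegral.integral_const_mul,
        integral_pow]
      simp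
    rw [← hval]
    refine setIntegral_mono_on ?_ (j1.mono_set Ioc_subset_Ioi_self) measurableSet_Ioc ?_
    · have : Continuous (fun t : ℝ => (‖g T‖ ^ 2 * (Real.exp (-2) / (k.factorial : ℝ) ^ 2)) * t ^ (2 * k)) := by
        fun_prop
      exact (this.intervalIntegrable 0 T).1
    · intro t ht
      have h7 : ‖g T‖ ^ 2 ≤ ‖g t‖ ^ 2 := pow_le_pow_left₀ (norm_nonneg _) (hgmono t T ht.1.le ht.2) 2
      have h8 : Real.exp (-2) ≤ Real.exp (-2 * ξ * t) := by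
        apply Real.exp_le_exp.2
        have : ξ * t ≤ 1 := by
          rw [hξ, one_div, inv_mul_eq_div, div_le_one hT]; exact ht.2
        nlinarith
      have h9 : (t ^ k / (k.factorial : ℝ)) ^ 2 = t ^ (2 * k) / (k.factorial : ℝ) ^ 2 := by
        rw [div_pow, ← pow_mul, mul_comm k 2]
      rw [h9]
      have h10 : 0 ≤ t ^ (2 * k) / (k.factorial : ℝ) ^ 2 := by
        have := ht.1.le
        positivity
      calc ‖g T‖ ^ 2 * (Real.exp (-2) / (k.factorial : ℝ) ^ 2) * t ^ (2 * k)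
          = (t ^ (2 * k) / (k.factorial : ℝ) ^ 2) * (Real.exp (-2) * ‖g T‖ ^ 2) := by ring
        _ ≤ (t ^ (2 * k) / (k.factorial : ℝ) ^ 2) * (Real.exp (-2 * ξ * t) * ‖g t‖ ^ 2) := by
            apply mul_le_mul_of_nonneg_left _ h10
            exact mul_le_mul h8 h7 (by positivity) (Real.exp_pos _).le
        _ = _ := by ring
  -- conclusion
  have h11 : ‖g T‖ ^ 2 * (Real.exp (-2) / (k.factorial : ℝ) ^ 2) * (T ^ (2 * k + 1) / (2 * k + 1))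
      ≤ C₁ ^ 2 * (‖W 0‖ ^ 2 * (T / 2)) := by
    rw [e1, e2] at h3
    have h12 : (∫ t in Ioi (0 : ℝ), (t ^ k / (k.factorial : ℝ)) ^ 2
            * Real.exp (-2 * ξ * t) * ‖g t‖ ^ 2)
        ≤ C₁ ^ 2 * ∫ t in Ioi (0 : ℝ), (t ^ 0 / ((Nat.factorial 0 : ℕ) : ℝ)) ^ 2
            * Real.exp (-2 * ξ * t) * ‖W t‖ ^ 2 := by
      have h13 : 0 < 2 * Real.pi := by positivity
      have h14 : 2 * Real.pi * (∫ t in Ioi (0 : ℝ), (t ^ k / (k.factorial : ℝ)) ^ 2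
            * Real.exp (-2 * ξ * t) * ‖g t‖ ^ 2)
          ≤ 2 * Real.pi * (C₁ ^ 2 * ∫ t in Ioi (0 : ℝ), (t ^ 0 / ((Nat.factorial 0 : ℕ) : ℝ)) ^ 2
            * Real.exp (-2 * ξ * t) * ‖W t‖ ^ 2) := by
        calc _ ≤ _ := h3
          _ = _ := by ring
      exact le_of_mul_le_mul_left h14 h13
    refine h6.trans (h12.trans ?_)
    exact mul_le_mul_of_nonneg_left h4 (by positivity)
  set kfac : ℝ := (k.factorial : ℝ) with hkf
  have hsq : ‖g T‖ ^ 2 ≤ (C₁ * (kfac * (Real.exp 1 * Real.sqrt (2 * k + 1))) * ‖W 0‖ / T ^ k) ^ 2 := by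
    have hs : Real.sqrt (2 * k + 1) ^ 2 = 2 * k + 1 := Real.sq_sqrt (by positivity)
    have hee : Real.exp (-2) * Real.exp 1 ^ 2 = 1 := by
      rw [← Real.exp_nat_mul, ← Real.exp_add]; norm_num
    have hR : (C₁ * (kfac * (Real.exp 1 * Real.sqrt (2 * k + 1))) * ‖W 0‖ / T ^ k) ^ 2
        = C₁ ^ 2 * ‖W 0‖ ^ 2 * (kfac ^ 2 * Real.exp 1 ^ 2 * (2 * k + 1)) / (T ^ k) ^ 2 := by
      rw [div_pow, mul_pow, mul_pow, mul_pow, mul_pow, hs]; ring
    rw [hR, le_div_iff₀ (by positivity)]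
    have hTk : T ^ (2 * k + 1) = (T ^ k) ^ 2 * T := by rw [← pow_mul, pow_succ]; ring_nf
    rw [hTk] at h11
    have h15 : ‖g T‖ ^ 2 * (T ^ k) ^ 2
        = (‖g T‖ ^ 2 * (Real.exp (-2) / kfac ^ 2) * ((T ^ k) ^ 2 * T / (2 * k + 1)))
          * (kfac ^ 2 * Real.exp 1 ^ 2 * (2 * k + 1) / T) := by
      have : Real.exp (-2) * Real.exp 1 ^ 2 = 1 := hee
      field_simp
      linear_combination (-(‖g T‖ ^ 2)) * this
    rw [h15]
    calc _ ≤ (C₁ ^ 2 * (‖W 0‖ ^ 2 * (T / 2))) * (kfac ^ 2 * Real.exp 1 ^ 2 * (2 * k + 1) / T) :=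
          mul_le_mul_of_nonneg_right h11 (by positivity)
      _ = (1 / 2) * (C₁ ^ 2 * ‖W 0‖ ^ 2 * (kfac ^ 2 * Real.exp 1 ^ 2 * (2 * k + 1))) := by
          field_simp
      _ ≤ C₁ ^ 2 * ‖W 0‖ ^ 2 * (kfac ^ 2 * Real.exp 1 ^ 2 * (2 * k + 1)) := by
          have : 0 ≤ C₁ ^ 2 * ‖W 0‖ ^ 2 * (kfac ^ 2 * Real.exp 1 ^ 2 * (2 * k + 1)) := by positivity
          linarith
  exact (pow_le_pow_iff_left₀ (norm_nonneg _) (by positivity) two_ne_zero).1 hsq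

theorem abs_decay (B : X →L[ℂ] X) (hdis : ∀ x, (inner ℂ (B x) x).re ≤ 0) (β C : ℝ) (hβ : 0 ≤ β)
    (hβ2 : β < 2) (hC : 0 ≤ C)
    (hres : ∀ (s : ℝ) (x : X), ‖B x‖ ≤ C * (1 + |s|) ^ β * ‖((s : ℂ) * I) • B x - x‖) :
    ∃ α : ℝ, 1 / 2 < α ∧ ∃ C' : ℝ, 0 ≤ C' ∧ ∀ W : ℝ → X, Evo B W → ∀ t : ℝ, 0 < t →
      ‖B (W t)‖ ≤ C' * t ^ (-α) * ‖W 0‖ := by
  obtain ⟨k, hk⟩ := exists_nat_ge (1 / (2 - β))
  have h2β : 0 < 2 - β := by linarith
  have hk1 : 1 ≤ k := by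
    by_contra h
    have : k = 0 := by omega
    rw [this] at hk
    have : 0 < 1 / (2 - β) := by positivity
    simp at hk
    linarith
  have hkβ : 1 ≤ (k : ℝ) * (2 - β) := by rwa [div_le_iff₀ h2β] at hk
  set m : ℕ := 2 * k - 1 with hm
  have hm1 : 1 ≤ m := by omega
  have hmR : (m : ℝ) = 2 * k - 1 := by
    rw [hm, Nat.cast_sub (by omega)]; push_cast; ring
  have hkm : (k : ℝ) * β ≤ m := by rw [hmR]; linarith
  obtain ⟨C₂, hC₂, hpow⟩ := pow_decay B hdis β C hβ hC hres k m hm1 hkm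
  have hm0 : (0 : ℝ) < m := by exact_mod_cast hm1
  refine ⟨(k : ℝ) / m, ?_, 2 ^ (m - 1) * C₂ + (m - 1 : ℕ), by positivity, ?_⟩
  · rw [div_lt_div_iff₀ (by norm_num) hm0, hmR]; linarith
  intro W E T hT
  have hW0 : 0 ≤ ‖W 0‖ := norm_nonneg _
  set h : ℝ := T ^ (-((k : ℝ) / m)) with hh
  have hh0 : 0 < h := Real.rpow_pos_of_pos hT _
  have hL := landau m hm1 (fun i t => (B ^ (m - i)) (W t)) T (C₂ * ‖W 0‖ / T ^ k) ‖W 0‖ h hh0
    (by positivity) hW0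
    (by
      intro i hi t ht
      have h1 := evo_pow E (m - i - 1) t (by linarith)
      have h2 : ∀ r, B ((B ^ (m - i - 1)) (W r)) = (B ^ (m - i)) (W r) := by
        intro r
        have : m - i = (m - i - 1) + 1 := by omega
        rw [this, pow_succ']; rfl
      simp only [h2] at h1
      have h3 : m - (i + 1) = m - i - 1 := by omega
      rw [h3]
      exact h1.mono (Ici_subset_Ici.2 (by linarith)))
    (by
      intro t ht
      have ht0 : 0 < t := by linarith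
      simp only [Nat.sub_zero]
      refine (hpow W E t ht0).trans ?_
      apply div_le_div_of_nonneg_left (by positivity) (by positivity)
      exact pow_le_pow_left₀ hT.le ht k)
    (by
      intro t ht
      simp only [Nat.sub_self, pow_zero]
      exact evo_bound hdis E (by linarith))
    T le_rfl
  have h4 : m - (m - 1) = 1 := by omega
  simp only [h4, pow_one] at hL
  refine hL.trans ?_
  have h5 : 1 / T ^ k / h ^ (m - 1) = h := by
    rw [hh, ← Real.rpow_natCast (T ^ (-((k : ℝ) / m))) (m - 1), ← Real.rpow_mul hT.le,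
      ← Real.rpow_natCast T k, one_div, ← Real.rpow_neg hT.le, ← Real.rpow_sub hT]
    congr 1
    rw [Nat.cast_sub hm1]
    push_cast
    field_simp
    ring
  have h6 : 2 ^ (m - 1) * (C₂ * ‖W 0‖ / T ^ k) / h ^ (m - 1)
      = 2 ^ (m - 1) * C₂ * ‖W 0‖ * (1 / T ^ k / h ^ (m - 1)) := by ring
  rw [h6, h5]
  apply le_of_eq
  ring

end Abs

end Pool.Agent.Lib.MP_4ccfbf_an
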