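import Pool.Agent.Lib.MP_4ccfbf_an.Defs

set_option autoImplicit false

open MeasureTheory Set Filter Topology Complex
open scoped ENNReal ComplexConjugate

namespace Pool.Agent.Lib.MP_4ccfbf_an

attribute [local instance] msCircle

lemma BAS_ex_eq_prod (k : K2) (z : T2) : ex k z = fourier (k 0) (z 0) * fourier (k 1) (z 1) := by
  simp [ex, UnitAddTorus.mFourier, Fin.prod_univ_two]

lemma norm_ex (k : K2) (z : T2) : ‖ex k z‖ = 1 := by
  rw [BAS_ex_eq_prod, norm_mul, fourier_apply, fourier_apply, Circle.norm_coe, Circle.norm_coe, one_mul]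

lemma ex_add (k : K2) (z w : T2) : ex k (z + w) = ex k z * ex k w := by
  rw [BAS_ex_eq_prod, BAS_ex_eq_prod, BAS_ex_eq_prod]
  simp only [Pi.add_apply, fourier_apply, smul_add, AddCircle.toCircle_add, Circle.coe_mul]
  ring

lemma BAS_ex_conj (k : K2) (z : T2) : conj (ex k z) = ex (-k) z := by
  rw [ex, ex, UnitAddTorus.mFourier_neg]

lemma ex_mul_conj (k l : K2) (z : T2) : ex k z * conj (ex l z) = ex (k - l) z := by
  rw [BAS_ex_conj, sub_eq_add_neg]
  simp only [ex]
  rw [UnitAddTorus.mFourier_add]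

lemma ex_pt (k : K2) (ν : Fin 2 → ℝ) (t : ℝ) :
    ex k (pt ν t) = cexp (2 * Real.pi * I * (((k 0 : ℝ) * ν 0 + (k 1 : ℝ) * ν 1 : ℝ) * t)) := by
  rw [BAS_ex_eq_prod]
  simp only [pt]
  rw [fourier_coe_apply, fourier_coe_apply, ← Complex.exp_add]
  congr 1
  push_cast
  ring

lemma ex_continuous (k : K2) : Continuous (ex k) := by
  exact (UnitAddTorus.mFourier k).continuous

lemma TP_continuous (F : Finset K2) (c : K2 → ℂ) : Continuous (TP F c) := by
  unfold TP
  exact continuous_finsetSum _ (fun k _ => continuous_const.mul (ex_continuous k))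

lemma TP_norm_le (F : Finset K2) (c : K2 → ℂ) (z : T2) : ‖TP F c z‖ ≤ ∑ k ∈ F, ‖c k‖ := by
  unfold TP
  refine (norm_sum_le _ _).trans (le_of_eq ?_)
  refine Finset.sum_congr rfl (fun k _ => ?_)
  rw [norm_mul, norm_ex, mul_one]

lemma BAS_ex_int (k : K2) : ∫ z : T2, ex k z = if k = 0 then 1 else 0 := by
  have h := orthonormal_iff_ite.mp (UnitAddTorus.orthonormal_mFourier (d := Fin 2)) 0 k
  rw [ContinuousMap.inner_toLp] at h
  have h2 : ∫ z : T2, ex k z
      = ∫ z : T2, (UnitAddTorus.mFourier k) z * conj ((UnitAddTorus.mFourier (0 : Fin 2 → ℤ)) z) := by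
    refine integral_congr_ae (Filter.Eventually.of_forall (fun z => ?_))
    simp [ex, UnitAddTorus.mFourier_zero]
  rw [h2]
  refine Eq.trans h ?_
  by_cases hk : k = 0
  · simp [hk]
  · rw [if_neg hk, if_neg (fun h => hk h.symm)]

lemma BAS_integrable {E : Type*} [NormedAddCommGroup E] {f : T2 → E} (hf : Continuous f) :
    Integrable f (volume : Measure T2) :=
  hf.integrable_of_hasCompactSupport (HasCompactSupport.of_compactSpace f)

lemma BAS_TP_mul_conj (F G : Finset K2) (c d : K2 → ℂ) (z : T2) :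
    TP F c z * conj (TP G d z) = ∑ k ∈ F, ∑ l ∈ G, c k * conj (d l) * ex (k - l) z := by
  unfold TP
  rw [map_sum, Finset.sum_mul]
  refine Finset.sum_congr rfl (fun k _ => ?_)
  rw [Finset.mul_sum]
  refine Finset.sum_congr rfl (fun l _ => ?_)
  rw [map_mul, ← ex_mul_conj]
  ring

lemma TP_inner (F : Finset K2) (c d : K2 → ℂ) :
    ∫ z : T2, TP F c z * conj (TP F d z) = ∑ k ∈ F, c k * conj (d k) := by
  simp only [BAS_TP_mul_conj]
  rw [integral_finsetSum]
  · refine Finset.sum_congr rfl (fun k hk => ?_)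
    rw [integral_finsetSum]
    · rw [Finset.sum_eq_single k]
      · rw [integral_const_mul, BAS_ex_int, if_pos (sub_self k), mul_one]
      · intro l _ hl
        rw [integral_const_mul, BAS_ex_int, if_neg (fun h => hl (sub_eq_zero.mp h).symm), mul_zero]
      · intro h; exact absurd hk h
    · intro l _
      exact BAS_integrable (continuous_const.mul (ex_continuous _))
  · intro k _
    exact BAS_integrable (continuous_finsetSum _ (fun l _ =>
      continuous_const.mul (ex_continuous _)))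

lemma TP_parseval (F : Finset K2) (c : K2 → ℂ) :
    ∫ z : T2, ‖TP F c z‖ ^ 2 = ∑ k ∈ F, ‖c k‖ ^ 2 := by
  have h := TP_inner F c c
  have h1 : (fun z : T2 => TP F c z * conj (TP F c z)) = fun z => ((‖TP F c z‖ ^ 2 : ℝ) : ℂ) := by
    funext z
    rw [Complex.mul_conj, Complex.normSq_eq_norm_sq]
  have h2 : ∑ k ∈ F, c k * conj (c k) = ((∑ k ∈ F, ‖c k‖ ^ 2 : ℝ) : ℂ) := by
    push_cast
    refine Finset.sum_congr rfl (fun k _ => ?_)
    rw [Complex.mul_conj, Complex.normSq_eq_norm_sq]
    push_cast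
    rfl
  rw [h1, h2, integral_complex_ofReal] at h
  exact_mod_cast h

lemma TP_split (F G : Finset K2) (hG : G ⊆ F) (c : K2 → ℂ) (z : T2) :
    TP F c z = TP G c z + TP (F \ G) c z := by
  unfold TP
  rw [add_comm, Finset.sum_sdiff hG]

lemma pt_continuous (ν : Fin 2 → ℝ) : Continuous (pt ν) := by
  unfold pt
  refine continuous_pi (fun i => ?_)
  exact (AddCircle.continuous_mk' (1 : ℝ)).comp (continuous_id.mul continuous_const)

end Pool.Agent.Lib.MP_4ccfbf_an
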