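import Pool.Agent.Lib.MP_4ccfbf_an.Defs2

set_option autoImplicit false

open MeasureTheory Set Filter Topology Complex
open scoped ENNReal ComplexConjugate

namespace Pool.Agent.Lib.MP_4ccfbf_an

attribute [local instance] msCircle

/-! ## Module COB : Fourier coefficients -/

lemma co_add (u w : HT) (k : K2) : co (u + w) k = co u k + co w k := by
  simp only [co, map_add, lp.coeFn_add, Pi.add_apply]

lemma co_sub (u w : HT) (k : K2) : co (u - w) k = co u k - co w k := by
  simp only [co, map_sub, lp.coeFn_sub, Pi.sub_apply]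

lemma co_neg (u : HT) (k : K2) : co (-u) k = -co u k := by
  simp only [co, map_neg, lp.coeFn_neg, Pi.neg_apply]

lemma co_smul (a : ℂ) (u : HT) (k : K2) : co (a • u) k = a * co u k := by
  simp only [co, map_smul, lp.coeFn_smul, Pi.smul_apply, smul_eq_mul]

lemma co_ext {u w : HT} (h : ∀ k, co u k = co w k) : u = w := by
  apply (UnitAddTorus.mFourierBasis (d := Fin 2)).repr.injective
  apply lp.ext
  funext k
  exact h k

lemma co_hasSum_sq (u : HT) : HasSum (fun k : K2 => ‖co u k‖ ^ 2) (‖u‖ ^ 2) := by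
  have h := lp.hasSum_norm (p := 2) (by norm_num)
    ((UnitAddTorus.mFourierBasis (d := Fin 2)).repr u)
  rw [LinearIsometryEquiv.norm_map] at h
  simpa [co] using h

lemma co_hasSum_inner (u w : HT) :
    HasSum (fun k : K2 => conj (co u k) * co w k) (inner ℂ u w) := by
  have h := lp.hasSum_inner (𝕜 := ℂ) ((UnitAddTorus.mFourierBasis (d := Fin 2)).repr u)
    ((UnitAddTorus.mFourierBasis (d := Fin 2)).repr w)
  rw [LinearIsometryEquiv.inner_map_map] at h
  refine h.congr_fun fun k => ?_
  rw [RCLike.inner_apply, mul_comm]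
  rfl

lemma co_exists (a : K2 → ℂ) (ha : Summable (fun k => ‖a k‖ ^ 2)) : ∃ u : HT, ∀ k, co u k = a k := by
  have hmem : Memℓp a 2 := by
    apply memℓp_gen
    simpa using ha
  refine ⟨(UnitAddTorus.mFourierBasis (d := Fin 2)).repr.symm ⟨a, hmem⟩, fun k => ?_⟩
  simp only [co, LinearIsometryEquiv.apply_symm_apply]

lemma co0_apply (u : HT) : co0 u = co u 0 := by
  simp only [co0, co, one, innerSL_apply_apply, HilbertBasis.repr_apply_apply]

lemma COB_single (l k : K2) :
    co ((UnitAddTorus.mFourierBasis (d := Fin 2)) l) k = if k = l then 1 else 0 := by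
  simp only [co, HilbertBasis.repr_self, lp.single_apply, Pi.single_apply]

lemma co_one (k : K2) : co one k = if k = 0 then 1 else 0 := COB_single 0 k

lemma COB_zero (k : K2) : co 0 k = 0 := by
  have := co_smul 0 0 k
  simpa using this

lemma COB_sum {ι : Type} (F : Finset ι) (f : ι → HT) (k : K2) :
    co (∑ i ∈ F, f i) k = ∑ i ∈ F, co (f i) k := by
  classical
  induction F using Finset.induction_on with
  | empty => simp [COB_zero]
  | insert a s ha ih => rw [Finset.sum_insert ha, Finset.sum_insert ha, co_add, ih]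

/-- the element of `HT` given by a trigonometric polynomial -/
lemma co_TP (F : Finset K2) (c : K2 → ℂ) : ∃ u : HT, ((u : T2 → ℂ) =ᵐ[volume] TP F c) ∧
    ∀ k, co u k = if k ∈ F then c k else 0 := by
  refine ⟨ContinuousMap.toLp (E := ℂ) 2 (volume : Measure T2) ℂ
    (∑ k ∈ F, c k • UnitAddTorus.mFourier k), ?_, ?_⟩
  · refine (ContinuousMap.coeFn_toLp (volume : Measure T2) _).trans
      (Eventually.of_forall fun z => ?_)
    simp only [ContinuousMap.coe_sum, ContinuousMap.coe_smul, Finset.sum_apply, Pi.smul_apply,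
      smul_eq_mul, TP, ex]
  · intro k
    have e1 : ContinuousMap.toLp (E := ℂ) 2 (volume : Measure T2) ℂ
        (∑ k ∈ F, c k • UnitAddTorus.mFourier k)
        = ∑ k ∈ F, c k • (UnitAddTorus.mFourierBasis (d := Fin 2)) k := by
      rw [map_sum]
      refine Finset.sum_congr rfl fun l _ => ?_
      rw [map_smul, UnitAddTorus.coe_mFourierBasis]
    rw [e1, COB_sum]
    simp only [co_smul, COB_single, mul_ite, mul_one, mul_zero, Finset.sum_ite_eq]

lemma norm_sq_eq_integral (u : HT) : ‖u‖ ^ 2 = ∫ z : T2, ‖(u : T2 → ℂ) z‖ ^ 2 := by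
  have h := UnitAddTorus.hasSum_sq_mFourierCoeff (d := Fin 2) u
  have h2 := co_hasSum_sq u
  simp only [co, UnitAddTorus.mFourierBasis_repr] at h2
  exact h2.unique h

end Pool.Agent.Lib.MP_4ccfbf_an
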