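import Pool.Agent.Lib.MP_4ccfbf_an.COB

set_option autoImplicit false

open MeasureTheory Set Filter Topology Complex
open scoped ENNReal ComplexConjugate

namespace Pool.Agent.Lib.MP_4ccfbf_an

attribute [local instance] msCircle

/-! ## Module FMO : Fourier multipliers -/

private lemma FMO_summable (m : K2 → ℂ) (M : ℝ) (hm : ∀ k, ‖m k‖ ≤ M) (u : HT) :
    Summable (fun k => ‖m k * co u k‖ ^ 2) := by
  refine Summable.of_nonneg_of_le (fun k => by positivity) (fun k => ?_)
    ((co_hasSum_sq u).summable.mul_left (M ^ 2))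
  rw [norm_mul, mul_pow]
  gcongr
  exact hm k

/-- The Fourier multiplier with a bounded symbol. -/
private noncomputable def FMO_op (m : K2 → ℂ) (M : ℝ) (hm : ∀ k, ‖m k‖ ≤ M) :
    HT →L[ℂ] HT :=
  LinearMap.mkContinuous
    { toFun := fun u => (co_exists (fun k => m k * co u k) (FMO_summable m M hm u)).choose
      map_add' := by
        intro u w
        apply co_ext
        intro k
        rw [co_add, (co_exists _ (FMO_summable m M hm (u + w))).choose_spec,
          (co_exists _ (FMO_summable m M hm u)).choose_spec,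
          (co_exists _ (FMO_summable m M hm w)).choose_spec, co_add, mul_add]
      map_smul' := by
        intro a u
        apply co_ext
        intro k
        rw [RingHom.id_apply, co_smul, (co_exists _ (FMO_summable m M hm (a • u))).choose_spec,
          (co_exists _ (FMO_summable m M hm u)).choose_spec, co_smul]
        ring } M (by
      intro u
      have hM : 0 ≤ M := (norm_nonneg _).trans (hm 0)
      change ‖(co_exists _ (FMO_summable m M hm u)).choose‖ ≤ M * ‖u‖
      have h1 := co_hasSum_sq (co_exists _ (FMO_summable m M hm u)).choose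
      have h2 := (co_hasSum_sq u).mul_left (M ^ 2)
      have h3 : ‖(co_exists _ (FMO_summable m M hm u)).choose‖ ^ 2 ≤ M ^ 2 * ‖u‖ ^ 2 := by
        refine hasSum_le (fun k => ?_) h1 h2
        rw [(co_exists _ (FMO_summable m M hm u)).choose_spec, norm_mul, mul_pow]
        gcongr
        exact hm k
      rw [← mul_pow] at h3
      exact le_of_sq_le_sq h3 (by positivity))

private lemma FMO_op_co (m : K2 → ℂ) (M : ℝ) (hm : ∀ k, ‖m k‖ ≤ M) (u : HT)
    (k : K2) : co (FMO_op m M hm u) k = m k * co u k :=
  (co_exists _ (FMO_summable m M hm u)).choose_spec k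

private lemma FMO_op_norm (m : K2 → ℂ) (M : ℝ) (hm : ∀ k, ‖m k‖ ≤ M) :
    ‖FMO_op m M hm‖ ≤ M :=
  LinearMap.mkContinuous_norm_le _ ((norm_nonneg _).trans (hm 0)) _

private lemma FMO_compact (m : K2 → ℂ) (M : ℝ) (hm : ∀ k, ‖m k‖ ≤ M)
    (h0 : ∀ ε : ℝ, 0 < ε → {k | ε < ‖m k‖}.Finite) : IsCompactOperator (FMO_op m M hm) := by
  classical
  let F : Finset K2 → HT →L[ℂ] HT := fun s =>
    ∑ k ∈ s, (ContinuousLinearMap.toSpanSingleton ℂ
      ((m k) • (UnitAddTorus.mFourierBasis (d := Fin 2)) k)).comp
      (innerSL ℂ ((UnitAddTorus.mFourierBasis (d := Fin 2)) k))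
  have hF : ∀ s, IsCompactOperator (F s) := by
    intro s
    have : F s ∈ compactOperator (RingHom.id ℂ) HT HT := by
      refine Submodule.sum_mem _ (fun k _ => ?_)
      change IsCompactOperator _
      exact (isCompactOperator_of_locallyCompactSpace_rng
        (ContinuousLinearMap.toSpanSingleton ℂ
          ((m k) • (UnitAddTorus.mFourierBasis (d := Fin 2)) k))).comp_clm
          (innerSL ℂ ((UnitAddTorus.mFourierBasis (d := Fin 2)) k))
    exact this
  have hFa : ∀ s (u : HT) j, co (F s u) j = if j ∈ s then m j * co u j else 0 := by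
    intro s u j
    have e1 : F s u = ∑ k ∈ s, (co u k) • ((m k) • (UnitAddTorus.mFourierBasis (d := Fin 2)) k) := by
      simp only [F, _root_.sum_apply, ContinuousLinearMap.comp_apply,
        ContinuousLinearMap.toSpanSingleton_apply]
      refine Finset.sum_congr rfl fun k _ => ?_
      rw [innerSL_apply_apply, ← HilbertBasis.repr_apply_apply]
      rfl
    rw [e1, COB_sum]
    simp only [co_smul, COB_single, mul_ite, mul_one, mul_zero, Finset.sum_ite_eq]
    by_cases h : j ∈ s
    · simp only [h, if_true]; ring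
    · simp only [h, if_false]
  refine isCompactOperator_of_tendsto (l := (atTop : Filter (Finset K2))) (F := F) ?_
    (Filter.Eventually.of_forall hF)
  rw [Metric.tendsto_atTop]
  intro ε hε
  refine ⟨(h0 (ε / 2) (by positivity)).toFinset, fun s hs => ?_⟩
  rw [dist_eq_norm, norm_sub_rev]
  have hb : ∀ i, ‖(if i ∈ s then (0 : ℂ) else m i)‖ ≤ ε / 2 := by
    intro i
    by_cases h : i ∈ s
    · simp [h]; positivity
    · simp only [h, if_false]
      by_contra hc
      push Not at hc
      exact h (hs (by simpa using hc))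
  have heq : FMO_op m M hm - F s
      = FMO_op (fun i => if i ∈ s then (0 : ℂ) else m i) (ε / 2) hb := by
    ext1 u
    apply co_ext
    intro j
    rw [_root_.sub_apply, co_sub, FMO_op_co, FMO_op_co, hFa]
    by_cases h : j ∈ s <;> simp [h]
  rw [heq]
  exact lt_of_le_of_lt (FMO_op_norm _ _ _) (by linarith)

theorem exists_FM (m : K2 → ℂ) (M : ℝ) (hM : 0 ≤ M) (hm : ∀ k, ‖m k‖ ≤ M) :
    ∃ T : HT →L[ℂ] HT, (∀ u k, co (T u) k = m k * co u k) ∧ (∀ u, ‖T u‖ ≤ M * ‖u‖) ∧
      ((∀ ε : ℝ, 0 < ε → {k | ε < ‖m k‖}.Finite) → IsCompactOperator T) :=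
  ⟨FMO_op m M hm, FMO_op_co m M hm, fun u => ((FMO_op m M hm).le_opNorm u).trans
    (mul_le_mul_of_nonneg_right (FMO_op_norm m M hm) (norm_nonneg _)), FMO_compact m M hm⟩

end Pool.Agent.Lib.MP_4ccfbf_an
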