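import Pool.Agent.Lib.MP_4ccfbf_an.Defs

set_option autoImplicit false

open MeasureTheory Set

namespace Pool.Agent.Lib.MP_4ccfbf_an

attribute [local instance] msCircle

/-! ### Definitions for the abstract decay theorem -/

section Abs

variable {X : Type} [NormedAddCommGroup X] [InnerProductSpace ℂ X]

/-- `B W` is differentiable on `[0,∞)` with derivative `W` (so `Y = B W` solves `Y' = B⁻¹ Y`). -/
def Evo (B : X →L[ℂ] X) (W : ℝ → X) : Prop :=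
  ∀ t : ℝ, 0 ≤ t → HasDerivWithinAt (fun s => B (W s)) (W t) (Ici 0) t

/-- `∫₀^∞ (t^j/j!) e^{-zt} W(t) dt`. -/
noncomputable def Lap (j : ℕ) (z : ℂ) (W : ℝ → X) : X :=
  ∫ t in Ioi (0 : ℝ), (((t ^ j / (j.factorial : ℝ) : ℝ) : ℂ) * Complex.exp (-z * (t : ℂ))) • W t

end Abs

/-! ### Definitions for the final statement -/

open Classical in
/-- The Fourier multiplier `m(D) u`: the element of `L²(𝕋²)` with Fourier coefficients
`m k * û k` (and `0` if there is no such element). -/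
noncomputable def fmul (m : K2 → ℂ) (u : HT) : HT :=
  if h : ∃ w : HT, ∀ k, co w k = m k * co u k then h.choose else 0

/-- `u ∈ H¹(𝕋²)`. -/
def MemH1 (u : HT) : Prop := Summable (fun k : K2 => (1 + nsq k) * ‖co u k‖ ^ 2)

/-- `u ∈ H²(𝕋²)`. -/
def MemH2 (u : HT) : Prop := Summable (fun k : K2 => (1 + nsq k) ^ 2 * ‖co u k‖ ^ 2)

/-- `‖u‖²_{H¹} = ∑ (1+|k|²) |û k|²`. -/
noncomputable def normH1sq (u : HT) : ℝ := ∑' k : K2, (1 + nsq k) * ‖co u k‖ ^ 2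

/-- `‖u‖²_{H²} = ∑ (1+|k|²)² |û k|²`. -/
noncomputable def normH2sq (u : HT) : ℝ := ∑' k : K2, (1 + nsq k) ^ 2 * ‖co u k‖ ^ 2

/-- The partial derivative `∂u/∂x_j` (coordinates `x = 2πθ`, symbol `i k_j`). -/
noncomputable def pd (j : Fin 2) (u : HT) : HT := fmul (fun k => Complex.I * (k j : ℂ)) u

/-- The Laplacian `Δu` (coordinates `x = 2πθ`, symbol `-|k|²`). -/
noncomputable def lapl (u : HT) : HT := fmul (fun k => -(nsq k : ℂ)) u

/-- `(u, v)`, `v = ∂_t u`, is a classical solution on `[0,∞)` of the damped wave equation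
`∂_t² u - Δ u + b ∂_t u = 0` on the torus: `u(t) ∈ H²`, `v(t) ∈ H¹`, `u' = v` in `H¹` and
`v' = Δu - b v` in `L²`. -/
structure IsDampedWave (b : T2 → ℝ) (u v : ℝ → HT) : Prop where
  memH2 : ∀ t : ℝ, 0 ≤ t → MemH2 (u t)
  memH1 : ∀ t : ℝ, 0 ≤ t → MemH1 (v t)
  deriv_u : ∀ t : ℝ, 0 ≤ t → HasDerivWithinAt u (v t) (Ici 0) t
  deriv_grad : ∀ t : ℝ, 0 ≤ t → ∀ j : Fin 2,
    HasDerivWithinAt (fun s => pd j (u s)) (pd j (v t)) (Ici 0) t
  deriv_v : ∀ t : ℝ, 0 ≤ t → ∃ w : HT,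
    ((w : T2 → ℂ) =ᵐ[volume] fun z => (b z : ℂ) * (v t : T2 → ℂ) z) ∧
      HasDerivWithinAt v (lapl (u t) - w) (Ici 0) t

/-- The energy `½ (‖∇u‖² + ‖v‖²)`. -/
noncomputable def energy (u v : HT) : ℝ := (1 / 2) * (‖pd 0 u‖ ^ 2 + ‖pd 1 u‖ ^ 2 + ‖v‖ ^ 2)

/-- The damped wave equation with damping `b` decays at rate `f(t)`:
`E(u,t) ≤ C f(t)² (‖u₀‖²_{H²} + ‖u₁‖²_{H¹})`. -/
def DecaysAtRate (b : T2 → ℝ) (f : ℝ → ℝ) : Prop :=
  ∃ C : ℝ, ∀ u v : ℝ → HT, IsDampedWave b u v → ∀ t : ℝ, 0 < t →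
    energy (u t) (v t) ≤ C * (f t) ^ 2 * (normH2sq (u 0) + normH1sq (v 0))

end Pool.Agent.Lib.MP_4ccfbf_an
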