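import Pool.Agent.Lib.MP_4ccfbf_an.COB
import Pool.Agent.Lib.MP_4ccfbf_an.Defs2

set_option autoImplicit false

open MeasureTheory Set Filter Topology Complex
open scoped ENNReal ComplexConjugate

namespace Pool.Agent.Lib.MP_4ccfbf_an

attribute [local instance] msCircle

section HH

variable {b : T2 → ℝ} {β : ℝ} (O : Ops b β)

theorem HHM_def (x : XT) : O.hh x = O.D x.fst -
    ((((∫ z, b z : ℝ) : ℂ)⁻¹ * co0 (x.snd + O.MB (O.D x.fst))) • one) := by
  simp [Ops.hh, mul_add]

theorem HHM_MB_one : co (O.MB one) 0 = ((∫ z, b z : ℝ) : ℂ) := by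
  have h1 : co (O.MB one) 0 = UnitAddTorus.mFourierCoeff (O.MB one : T2 → ℂ) 0 := by
    rw [co, UnitAddTorus.mFourierBasis_repr]
  rw [h1, UnitAddTorus.mFourierCoeff, ← integral_complex_ofReal]
  refine integral_congr_ae ?_
  have h2 : ((one : HT) : T2 → ℂ) =ᵐ[volume] fun _ => (1 : ℂ) := by
    have e : one = UnitAddTorus.mFourierLp (d := Fin 2) 2 0 := by
      rw [one, ← UnitAddTorus.coe_mFourierBasis]
    rw [e]
    refine (UnitAddTorus.coeFn_mFourierLp (d := Fin 2) 2 0).trans ?_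
    rw [UnitAddTorus.mFourier_zero]
    exact Filter.Eventually.of_forall (fun _ => rfl)
  filter_upwards [O.hMB one, h2] with z hz1 hz2
  rw [neg_zero, UnitAddTorus.mFourier_zero, hz1, hz2]
  simp

theorem hh_co (x : XT) (k : K2) (hk : k ≠ 0) :
    co (O.hh x) k = (((Real.sqrt (nsq k))⁻¹ : ℝ) : ℂ) * co x.fst k := by
  rw [HHM_def, co_sub, co_smul, co_one, if_neg hk, O.hD, if_neg hk]
  simp

theorem hh_mean (x : XT) : co (x.snd + O.MB (O.hh x)) 0 = 0 := by
  rw [HHM_def, map_sub, map_smul, ← add_sub_assoc, co_sub, co_smul, HHM_MB_one, co0_apply]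
  have : ((∫ z, b z : ℝ) : ℂ) ≠ 0 := by
    exact_mod_cast O.pos.ne'
  field_simp
  ring

theorem Bop_fst (x : XT) : (O.Bop x).fst = -(O.D (x.snd + O.MB (O.hh x))) := by
  simp [Ops.Bop]

theorem Bop_snd (x : XT) : (O.Bop x).snd = O.hh x := by
  simp [Ops.Bop]

theorem hh_Bop (x : XT) (k : K2) :
    (nsq k : ℂ) * co (O.hh (O.Bop x)) k = -co (x.snd + O.MB (O.hh x)) k := by
  by_cases hk : k = 0
  · subst hk
    rw [hh_mean]
    simp [nsq]
  · rw [hh_co O _ k hk, Bop_fst, co_neg, O.hD, if_neg hk]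
    have hpos : 0 < nsq k := by
      have h0 : k 0 ≠ 0 ∨ k 1 ≠ 0 := by
        by_contra h
        push Not at h
        apply hk
        ext i
        fin_cases i
        · exact h.1
        · exact h.2
      unfold nsq
      rcases h0 with h | h
      · have : (k 0 : ℝ) ≠ 0 := by exact_mod_cast h
        positivity
      · have : (k 1 : ℝ) ≠ 0 := by exact_mod_cast h
        positivity
    have h1 : (nsq k : ℂ) * (((Real.sqrt (nsq k))⁻¹ : ℝ) : ℂ) * (((Real.sqrt (nsq k))⁻¹ : ℝ) : ℂ) = 1 := by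
      rw [← Complex.ofReal_mul, ← Complex.ofReal_mul]
      have : nsq k * (Real.sqrt (nsq k))⁻¹ * (Real.sqrt (nsq k))⁻¹ = 1 := by
        have h2 := Real.mul_self_sqrt hpos.le
        have h3 := Real.sqrt_pos.2 hpos
        field_simp
        rw [pow_two, h2]
      rw [this, Complex.ofReal_one]
    linear_combination (-(co (x.snd + O.MB (O.hh x)) k)) * h1

end HH

end Pool.Agent.Lib.MP_4ccfbf_an
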