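import Pool.Agent.Lib.MP_4ccfbf_an.Defs2

set_option autoImplicit false

open MeasureTheory Set Filter Topology Complex
open scoped ENNReal ComplexConjugate

namespace Pool.Agent.Lib.MP_4ccfbf_an

attribute [local instance] msCircle

/-! ## Module MBO : multiplication by `b` -/

private lemma MBO_memLp (b : T2 → ℝ) (hbm : Measurable b) (β : ℝ) (hb0 : ∀ z, 0 ≤ b z)
    (hbβ : ∀ z, b z ≤ β) (u : HT) :
    MemLp (fun z => (b z : ℂ) * (u : T2 → ℂ) z) 2 (volume : Measure T2) := by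
  refine (Lp.memLp u).of_le_mul (c := β) ?_ (Eventually.of_forall fun z => ?_)
  · exact (Complex.measurable_ofReal.comp hbm).aestronglyMeasurable.mul
      (Lp.aestronglyMeasurable u)
  · rw [norm_mul, Complex.norm_real, Real.norm_of_nonneg (hb0 z)]
    exact mul_le_mul_of_nonneg_right (hbβ z) (norm_nonneg _)

theorem exists_MB (b : T2 → ℝ) (hbm : Measurable b) (β : ℝ) (hb0 : ∀ z, 0 ≤ b z)
    (hbβ : ∀ z, b z ≤ β) :
    ∃ T : HT →L[ℂ] HT, ∀ u : HT, (T u : T2 → ℂ) =ᵐ[volume] fun z => (b z : ℂ) * u z := by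
  have hβ : 0 ≤ β := (hb0 0).trans (hbβ 0)
  refine ⟨LinearMap.mkContinuous
    { toFun := fun u => (MBO_memLp b hbm β hb0 hbβ u).toLp _
      map_add' := ?_
      map_smul' := ?_ } β ?_, ?_⟩
  · intro u w
    rw [← MemLp.toLp_add]
    rw [MemLp.toLp_eq_toLp_iff]
    filter_upwards [Lp.coeFn_add u w] with z hz
    simp only [Pi.add_apply] at hz ⊢
    rw [hz]
    ring
  · intro a u
    simp only [RingHom.id_apply]
    rw [← MemLp.toLp_const_smul]
    rw [MemLp.toLp_eq_toLp_iff]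
    filter_upwards [Lp.coeFn_smul a u] with z hz
    simp only [Pi.smul_apply, smul_eq_mul] at hz ⊢
    rw [hz]
    ring
  · intro u
    refine Lp.norm_le_mul_norm_of_ae_le_mul ?_
    filter_upwards [(MBO_memLp b hbm β hb0 hbβ u).coeFn_toLp] with z hz
    change ‖((MBO_memLp b hbm β hb0 hbβ u).toLp _ : T2 → ℂ) z‖ ≤ _
    rw [hz, norm_mul, Complex.norm_real, Real.norm_of_nonneg (hb0 z)]
    exact mul_le_mul_of_nonneg_right (hbβ z) (norm_nonneg _)
  · intro u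
    exact (MBO_memLp b hbm β hb0 hbβ u).coeFn_toLp

theorem mb_norm (b : T2 → ℝ) (β : ℝ) (hb0 : ∀ z, 0 ≤ b z)
    (hbβ : ∀ z, b z ≤ β) (T : HT →L[ℂ] HT)
    (hT : ∀ u : HT, (T u : T2 → ℂ) =ᵐ[volume] fun z => (b z : ℂ) * u z) (u : HT) :
    ‖T u‖ ≤ β * ‖u‖ := by
  refine Lp.norm_le_mul_norm_of_ae_le_mul ?_
  filter_upwards [hT u] with z hz
  rw [hz, norm_mul, Complex.norm_real, Real.norm_of_nonneg (hb0 z)]
  exact mul_le_mul_of_nonneg_right (hbβ z) (norm_nonneg _)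

theorem mb_symm (b : T2 → ℝ) (T : HT →L[ℂ] HT)
    (hT : ∀ u : HT, (T u : T2 → ℂ) =ᵐ[volume] fun z => (b z : ℂ) * u z) (u w : HT) :
    inner ℂ (T u) w = inner ℂ u (T w) := by
  rw [L2.inner_def, L2.inner_def]
  refine integral_congr_ae ?_
  filter_upwards [hT u, hT w] with z hu hw
  rw [hu, hw, RCLike.inner_apply, RCLike.inner_apply, map_mul, Complex.conj_ofReal]
  ring

theorem mb_inner (b : T2 → ℝ) (T : HT →L[ℂ] HT)
    (hT : ∀ u : HT, (T u : T2 → ℂ) =ᵐ[volume] fun z => (b z : ℂ) * u z) (u : HT) :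
    inner ℂ (T u) u = ((∫ z : T2, b z * ‖(u : T2 → ℂ) z‖ ^ 2 : ℝ) : ℂ) := by
  rw [L2.inner_def, ← integral_complex_ofReal]
  refine integral_congr_ae ?_
  filter_upwards [hT u] with z hu
  rw [hu, RCLike.inner_apply, map_mul, Complex.conj_ofReal]
  have := Complex.mul_conj' ((u : T2 → ℂ) z)
  push_cast
  rw [← this]
  ring

end Pool.Agent.Lib.MP_4ccfbf_an
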