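import Pool.Agent.Lib.MP_4ccfbf_an.Defs2
import Pool.Agent.Lib.MP_4ccfbf_an.COB
import Pool.Agent.Lib.MP_4ccfbf_an.FMO
import Pool.Agent.Lib.MP_4ccfbf_an.MBO
import Pool.Agent.Lib.MP_4ccfbf_an.HHM

set_option autoImplicit false

open MeasureTheory Set Filter Topology Complex
open scoped ENNReal ComplexConjugate

namespace Pool.Agent.Lib.MP_4ccfbf_an

attribute [local instance] msCircle

/-! ## Fourier multipliers on the Sobolev classes -/

private lemma CONV_nsq_nonneg (k : K2) : 0 ≤ nsq k := by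
  unfold nsq; positivity

private lemma CONV_nsq_zero : nsq (0 : K2) = 0 := by
  simp [nsq]

private lemma CONV_nsq_pos {k : K2} (hk : k ≠ 0) : 0 < nsq k := by
  rcases (CONV_nsq_nonneg k).lt_or_eq with h | h
  · exact h
  · exfalso
    apply hk
    unfold nsq at h
    have h0 : (k 0 : ℝ) = 0 := by nlinarith [sq_nonneg (k 0 : ℝ), sq_nonneg (k 1 : ℝ)]
    have h1 : (k 1 : ℝ) = 0 := by nlinarith [sq_nonneg (k 0 : ℝ), sq_nonneg (k 1 : ℝ)]
    funext i
    fin_cases i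
    · simpa using h0
    · simpa using h1

private lemma CONV_co_fmul (m : K2 → ℂ) (u : HT) (h : Summable (fun k => ‖m k * co u k‖ ^ 2))
    (k : K2) : co (fmul m u) k = m k * co u k := by
  have hex : ∃ w : HT, ∀ k, co w k = m k * co u k := co_exists _ h
  unfold fmul
  rw [dif_pos hex]
  exact hex.choose_spec k

/-- the symbol of `(-Δ)^{1/2}` -/
private noncomputable def CONV_ls (k : K2) : ℂ := ((Real.sqrt (nsq k) : ℝ) : ℂ)

private lemma CONV_norm_ls (k : K2) : ‖CONV_ls k‖ ^ 2 = nsq k := by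
  unfold CONV_ls
  rw [Complex.norm_real, Real.norm_eq_abs, sq_abs, Real.sq_sqrt (CONV_nsq_nonneg k)]

private lemma CONV_norm_lap (k : K2) : ‖(-(nsq k : ℂ))‖ ^ 2 = nsq k ^ 2 := by
  rw [norm_neg, Complex.norm_real, Real.norm_eq_abs, sq_abs]

private lemma CONV_norm_pd (j : Fin 2) (k : K2) : ‖Complex.I * (k j : ℂ)‖ ^ 2 = (k j : ℝ) ^ 2 := by
  rw [norm_mul, Complex.norm_I, one_mul]
  have : ((k j : ℤ) : ℂ) = (((k j : ℤ) : ℝ) : ℂ) := by push_cast; rfl
  rw [this, Complex.norm_real, Real.norm_eq_abs, sq_abs]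

private lemma CONV_memH1_of_memH2 {u : HT} (h : MemH2 u) : MemH1 u := by
  unfold MemH1 MemH2 at *
  refine Summable.of_nonneg_of_le (fun k => ?_) (fun k => ?_) h
  · have := CONV_nsq_nonneg k
    positivity
  · have := CONV_nsq_nonneg k
    have h2 : (1 + nsq k) ≤ (1 + nsq k) ^ 2 := by nlinarith
    exact mul_le_mul_of_nonneg_right h2 (by positivity)

private lemma CONV_sum_le1 {v : HT} (hv : MemH1 v) (m : K2 → ℂ)
    (hm : ∀ k, ‖m k‖ ^ 2 ≤ 1 + nsq k) : Summable (fun k => ‖m k * co v k‖ ^ 2) := by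
  unfold MemH1 at hv
  refine Summable.of_nonneg_of_le (fun k => by positivity) (fun k => ?_) hv
  rw [norm_mul, mul_pow]
  exact mul_le_mul_of_nonneg_right (hm k) (by positivity)

private lemma CONV_sum_le2 {v : HT} (hv : MemH2 v) (m : K2 → ℂ)
    (hm : ∀ k, ‖m k‖ ^ 2 ≤ (1 + nsq k) ^ 2) : Summable (fun k => ‖m k * co v k‖ ^ 2) := by
  unfold MemH2 at hv
  refine Summable.of_nonneg_of_le (fun k => by positivity) (fun k => ?_) hv
  rw [norm_mul, mul_pow]
  exact mul_le_mul_of_nonneg_right (hm k) (by positivity)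

private lemma CONV_co_Lam {v : HT} (hv : MemH1 v) (k : K2) :
    co (fmul CONV_ls v) k = CONV_ls k * co v k := by
  apply CONV_co_fmul
  apply CONV_sum_le1 hv
  intro k
  rw [CONV_norm_ls]
  linarith

private lemma CONV_kj_le (j : Fin 2) (k : K2) : (k j : ℝ) ^ 2 ≤ nsq k := by
  unfold nsq
  fin_cases j
  · simp only [Fin.zero_eta]; nlinarith [sq_nonneg (k 1 : ℝ)]
  · simp only [Fin.mk_one]; nlinarith [sq_nonneg (k 0 : ℝ)]

private lemma CONV_co_pd {v : HT} (hv : MemH1 v) (j : Fin 2) (k : K2) :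
    co (pd j v) k = (Complex.I * (k j : ℂ)) * co v k := by
  unfold pd
  rw [CONV_co_fmul]
  apply CONV_sum_le1 hv
  intro k
  rw [CONV_norm_pd]
  have := CONV_kj_le j k
  linarith

private lemma CONV_co_lapl {v : HT} (hv : MemH2 v) (k : K2) :
    co (lapl v) k = (-(nsq k : ℂ)) * co v k := by
  unfold lapl
  rw [CONV_co_fmul]
  apply CONV_sum_le2 hv
  intro k
  rw [CONV_norm_lap]
  have := CONV_nsq_nonneg k
  nlinarith

/-! ## Norms -/

private lemma CONV_normsq_Lam {v : HT} (hv : MemH1 v) :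
    ‖fmul CONV_ls v‖ ^ 2 = ‖pd 0 v‖ ^ 2 + ‖pd 1 v‖ ^ 2 := by
  have h0 := co_hasSum_sq (pd 0 v)
  have h1 := co_hasSum_sq (pd 1 v)
  have hL := co_hasSum_sq (fmul CONV_ls v)
  have h := h0.add h1
  refine hL.unique ?_
  convert h using 2 with k
  rw [CONV_co_Lam hv, CONV_co_pd hv, CONV_co_pd hv]
  simp only [norm_mul, mul_pow]
  rw [CONV_norm_ls]
  have e0 := CONV_norm_pd 0 k
  have e1 := CONV_norm_pd 1 k
  rw [norm_mul, mul_pow] at e0 e1
  rw [e0, e1]
  unfold nsq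
  ring

private lemma CONV_normsq_Lam_le {v : HT} (hv : MemH1 v) :
    ‖fmul CONV_ls v‖ ^ 2 ≤ normH1sq v := by
  have hL := co_hasSum_sq (fmul CONV_ls v)
  unfold normH1sq
  refine hasSum_le (fun k => ?_) hL hv.hasSum
  rw [CONV_co_Lam hv, norm_mul, mul_pow, CONV_norm_ls]
  exact mul_le_mul_of_nonneg_right (by linarith) (by positivity)

private lemma CONV_normsq_le {v : HT} (hv : MemH1 v) : ‖v‖ ^ 2 ≤ normH1sq v := by
  have hL := co_hasSum_sq v
  unfold normH1sq
  refine hasSum_le (fun k => ?_) hL hv.hasSum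
  have := CONV_nsq_nonneg k
  nlinarith [sq_nonneg ‖co v k‖]

private lemma CONV_normsq_lapl_le {v : HT} (hv : MemH2 v) : ‖lapl v‖ ^ 2 ≤ normH2sq v := by
  have hL := co_hasSum_sq (lapl v)
  unfold normH2sq
  refine hasSum_le (fun k => ?_) hL hv.hasSum
  rw [CONV_co_lapl hv, norm_mul, mul_pow, CONV_norm_lap]
  have := CONV_nsq_nonneg k
  exact mul_le_mul_of_nonneg_right (by nlinarith) (by positivity)

private lemma CONV_normH2sq_nonneg (v : HT) : 0 ≤ normH2sq v := by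
  unfold normH2sq
  exact tsum_nonneg (fun k => by positivity)

/-! ## The inverse of the generator -/

section

variable {b : T2 → ℝ} {β : ℝ} (O : Ops b β)

private lemma CONV_mb_one : co (O.MB one) 0 ≠ 0 := by
  have h1 : inner ℂ (O.MB one) one = ((∫ z : T2, b z : ℝ) : ℂ) := by
    rw [mb_inner b O.MB O.hMB one]
    congr 1
    apply integral_congr_ae
    have hone : ((one : HT) : T2 → ℂ) =ᵐ[volume] fun _ => (1 : ℂ) := by
      have h := UnitAddTorus.coeFn_mFourierLp (d := Fin 2) 2 (0 : K2)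
      have h2 : (one : HT) = UnitAddTorus.mFourierLp 2 (0 : K2) := by
        unfold one
        rw [UnitAddTorus.coe_mFourierBasis]
      rw [h2]
      filter_upwards [h] with z hz
      rw [hz]
      simp [UnitAddTorus.mFourier]
    filter_upwards [hone] with z hz
    rw [hz]; simp
  rw [← co0_apply]
  unfold co0
  rw [innerSL_apply_apply, ← inner_conj_symm, h1]
  simp only [Complex.conj_ofReal]
  exact_mod_cast O.pos.ne'

private lemma CONV_hh {x : XT} {v w : HT} (h1 : ∀ k, co x.fst k = CONV_ls k * co v k)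
    (h2 : x.snd = w - O.MB v) (hw : co w 0 = 0) : O.hh x = v := by
  have hk : ∀ k : K2, k ≠ 0 → co (O.hh x - v) k = 0 := by
    intro k hk
    rw [co_sub, hh_co O x k hk, h1 k]
    have hp := CONV_nsq_pos hk
    have hs : (Real.sqrt (nsq k)) ≠ 0 := (Real.sqrt_pos.2 hp).ne'
    unfold CONV_ls
    have : (((Real.sqrt (nsq k))⁻¹ : ℝ) : ℂ) * ((Real.sqrt (nsq k) : ℝ) : ℂ) = 1 := by
      rw [← Complex.ofReal_mul, inv_mul_cancel₀ hs, Complex.ofReal_one]
    rw [← mul_assoc, this, one_mul, sub_self]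
  have hd : O.hh x - v = (co (O.hh x - v) 0) • one := by
    apply co_ext
    intro k
    rw [co_smul, co_one]
    by_cases h0 : k = 0
    · subst h0; simp
    · rw [hk k h0, if_neg h0, mul_zero]
  have hm := hh_mean O x
  have hsum : x.snd + O.MB (O.hh x) = w + (co (O.hh x - v) 0) • O.MB one := by
    rw [← map_smul, ← hd, map_sub, h2]; abel
  rw [hsum, co_add, co_smul, hw, zero_add] at hm
  rcases mul_eq_zero.1 hm with h | h
  · rw [h, zero_smul] at hd
    exact sub_eq_zero.1 hd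
  · exact absurd h (CONV_mb_one O)

private lemma CONV_Bop {u v : HT} (hu : MemH2 u) (hv : MemH1 v) :
    O.Bop (WithLp.toLp 2 (fmul CONV_ls v, lapl u - O.MB v)) = WithLp.toLp 2 (fmul CONV_ls u, v) := by
  have hhv : O.hh (WithLp.toLp 2 (fmul CONV_ls v, lapl u - O.MB v)) = v := by
    apply CONV_hh O (w := lapl u)
    · intro k
      exact CONV_co_Lam hv k
    · rfl
    · rw [CONV_co_lapl hu, CONV_nsq_zero]; simp
  have hf : (O.Bop (WithLp.toLp 2 (fmul CONV_ls v, lapl u - O.MB v))).fst = fmul CONV_ls u := by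
    rw [Bop_fst, hhv]
    change -(O.D (lapl u - O.MB v + O.MB v)) = _
    rw [sub_add_cancel]
    apply co_ext
    intro k
    rw [co_neg, O.hD, CONV_co_lapl hu, CONV_co_Lam (CONV_memH1_of_memH2 hu)]
    by_cases h0 : k = 0
    · subst h0
      unfold CONV_ls
      rw [CONV_nsq_zero]; simp
    · rw [if_neg h0]
      have hp := CONV_nsq_pos h0
      have hs : (Real.sqrt (nsq k)) ≠ 0 := (Real.sqrt_pos.2 hp).ne'
      unfold CONV_ls
      have : (((Real.sqrt (nsq k))⁻¹ : ℝ) : ℂ) * (nsq k : ℂ) = ((Real.sqrt (nsq k) : ℝ) : ℂ) := by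
        rw [← Complex.ofReal_mul]
        congr 1
        have := Real.mul_self_sqrt hp.le
        field_simp
        nlinarith
      rw [← this]; ring
  have hs : (O.Bop (WithLp.toLp 2 (fmul CONV_ls v, lapl u - O.MB v))).snd = v := by
    rw [Bop_snd, hhv]
  rw [← WithLp.toLp_ofLp 2 (O.Bop (WithLp.toLp 2 (fmul CONV_ls v, lapl u - O.MB v)))]
  congr 1
  exact Prod.ext hf hs

end

private lemma CONV_comp (R : HT →L[ℂ] HT) {f : ℝ → HT} {f' : HT} {s : Set ℝ} {t : ℝ}
    (h : HasDerivWithinAt f f' s t) : HasDerivWithinAt (fun x => R (f x)) (R f') s t := by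
  have h1 := (R.restrictScalars ℝ).hasFDerivAt (x := f t)
  exact h1.comp_hasDerivWithinAt t h

private lemma CONV_R_le (j : Fin 2) (k : K2) :
    ‖-(Complex.I * (k j : ℂ)) * (((Real.sqrt (nsq k))⁻¹ : ℝ) : ℂ)‖ ≤ 1 := by
  have h1 := CONV_norm_pd j k
  have h2 := CONV_kj_le j k
  have h3 : ‖Complex.I * (k j : ℂ)‖ ≤ Real.sqrt (nsq k) := by
    apply Real.le_sqrt_of_sq_le
    rw [h1]; exact h2
  rw [norm_mul, norm_neg, Complex.norm_real, Real.norm_eq_abs,
    abs_of_nonneg (inv_nonneg.2 (Real.sqrt_nonneg _))]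
  calc _ ≤ Real.sqrt (nsq k) * (Real.sqrt (nsq k))⁻¹ :=
        mul_le_mul_of_nonneg_right h3 (inv_nonneg.2 (Real.sqrt_nonneg _))
    _ ≤ 1 := mul_inv_le_one

theorem conv_sol {b : T2 → ℝ} {β : ℝ} (O : Ops b β) (u v : ℝ → HT) (h : IsDampedWave b u v) :
    ∃ W : ℝ → XT, Evo O.Bop W ∧
      (∀ t, 0 ≤ t → energy (u t) (v t) = (1 / 2) * ‖O.Bop (W t)‖ ^ 2) ∧
      ‖W 0‖ ^ 2 ≤ (3 + 2 * β ^ 2) * (normH2sq (u 0) + normH1sq (v 0)) := by
  refine ⟨fun t => WithLp.toLp 2 (fmul CONV_ls (v t), lapl (u t) - O.MB (v t)), ?_, ?_, ?_⟩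
  · intro t ht
    -- the derivative of `Λ u`
    obtain ⟨R0, hR0, -, -⟩ := exists_FM (fun k => -(Complex.I * (k 0 : ℂ)) *
      (((Real.sqrt (nsq k))⁻¹ : ℝ) : ℂ)) 1 zero_le_one (CONV_R_le 0)
    obtain ⟨R1, hR1, -, -⟩ := exists_FM (fun k => -(Complex.I * (k 1 : ℂ)) *
      (((Real.sqrt (nsq k))⁻¹ : ℝ) : ℂ)) 1 zero_le_one (CONV_R_le 1)
    have hLam : ∀ w : HT, MemH1 w → fmul CONV_ls w = R0 (pd 0 w) + R1 (pd 1 w) := by
      intro w hw
      apply co_ext
      intro k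
      rw [co_add, hR0, hR1, CONV_co_Lam hw, CONV_co_pd hw, CONV_co_pd hw]
      by_cases h0 : k = 0
      · subst h0
        unfold CONV_ls
        rw [CONV_nsq_zero]; simp
      · have hp := CONV_nsq_pos h0
        have hs : (Real.sqrt (nsq k)) ≠ 0 := (Real.sqrt_pos.2 hp).ne'
        unfold CONV_ls
        have : ((Real.sqrt (nsq k) : ℝ) : ℂ) = (((Real.sqrt (nsq k))⁻¹ : ℝ) : ℂ) * (nsq k : ℂ) := by
          rw [← Complex.ofReal_mul]
          congr 1
          have := Real.mul_self_sqrt hp.le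
          field_simp
          nlinarith
        rw [this]
        have hn : (nsq k : ℂ) = (k 0 : ℂ) ^ 2 + (k 1 : ℂ) ^ 2 := by
          unfold nsq; push_cast; ring
        rw [hn]
        linear_combination ((((Real.sqrt (nsq k))⁻¹ : ℝ) : ℂ) * co w k *
          ((k 0 : ℂ) ^ 2 + (k 1 : ℂ) ^ 2)) * Complex.I_sq
    have hd1 : HasDerivWithinAt (fun s => fmul CONV_ls (u s)) (fmul CONV_ls (v t)) (Ici 0) t := by
      have e1 : HasDerivWithinAt (fun s => R0 (pd 0 (u s)) + R1 (pd 1 (u s)))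
          (R0 (pd 0 (v t)) + R1 (pd 1 (v t))) (Ici 0) t := by
        have f0 : HasDerivWithinAt (fun s => R0 (pd 0 (u s))) (R0 (pd 0 (v t))) (Ici 0) t :=
          CONV_comp R0 (h.deriv_grad t ht 0)
        have f1 : HasDerivWithinAt (fun s => R1 (pd 1 (u s))) (R1 (pd 1 (v t))) (Ici 0) t :=
          CONV_comp R1 (h.deriv_grad t ht 1)
        exact f0.add f1
      rw [hLam _ (h.memH1 t ht)]
      refine e1.congr (fun s hs => ?_) ?_
      · exact hLam _ (CONV_memH1_of_memH2 (h.memH2 s hs))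
      · exact hLam _ (CONV_memH1_of_memH2 (h.memH2 t ht))
    have hd2 : HasDerivWithinAt v (lapl (u t) - O.MB (v t)) (Ici 0) t := by
      obtain ⟨w, hw1, hw2⟩ := h.deriv_v t ht
      have : w = O.MB (v t) := Lp.ext (hw1.trans (O.hMB (v t)).symm)
      rw [← this]; exact hw2
    have hd3 : HasDerivWithinAt
        (fun s => (WithLp.toLp 2 (fmul CONV_ls (u s), v s) : XT))
        (WithLp.toLp 2 (fmul CONV_ls (v t), lapl (u t) - O.MB (v t))) (Ici 0) t := by
      have e := (WithLp.prodContinuousLinearEquiv 2 ℂ HT HT).symm.toContinuousLinearMap.hasFDerivAt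
        (x := (fmul CONV_ls (u t), v t))
      exact (e.restrictScalars ℝ).comp_hasDerivWithinAt t (hd1.prodMk hd2)
    refine hd3.congr (fun s hs => ?_) ?_
    · exact CONV_Bop O (h.memH2 s hs) (h.memH1 s hs)
    · exact CONV_Bop O (h.memH2 t ht) (h.memH1 t ht)
  · intro t ht
    simp only
    rw [CONV_Bop O (h.memH2 t ht) (h.memH1 t ht), WithLp.prod_norm_sq_eq_of_L2]
    unfold energy
    rw [← CONV_normsq_Lam (CONV_memH1_of_memH2 (h.memH2 t ht))]
    rfl
  · simp only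
    rw [WithLp.prod_norm_sq_eq_of_L2]
    have h1 := CONV_normsq_Lam_le (h.memH1 0 le_rfl)
    have h2 := CONV_normsq_le (h.memH1 0 le_rfl)
    have h3 := CONV_normsq_lapl_le (h.memH2 0 le_rfl)
    have h4 := mb_norm b β O.nonneg O.le O.MB O.hMB (v 0)
    have h5 := norm_sub_le (lapl (u 0)) (O.MB (v 0))
    have h6 := CONV_normH2sq_nonneg (u 0)
    have h7 : ‖O.MB (v 0)‖ ^ 2 ≤ β ^ 2 * ‖v 0‖ ^ 2 := by
      rw [← mul_pow]; exact pow_le_pow_left₀ (norm_nonneg _) h4 2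
    have h8 : ‖lapl (u 0) - O.MB (v 0)‖ ^ 2 ≤ 2 * ‖lapl (u 0)‖ ^ 2 + 2 * ‖O.MB (v 0)‖ ^ 2 := by
      have := pow_le_pow_left₀ (norm_nonneg _) h5 2
      nlinarith [sq_nonneg (‖lapl (u 0)‖ - ‖O.MB (v 0)‖)]
    have h9 : β ^ 2 * ‖v 0‖ ^ 2 ≤ β ^ 2 * normH1sq (v 0) :=
      mul_le_mul_of_nonneg_left h2 (by positivity)
    have h10 : 0 ≤ normH1sq (v 0) := le_trans (by positivity) h2
    have h11 : 0 ≤ β ^ 2 * normH2sq (u 0) := mul_nonneg (by positivity) h6
    change ‖fmul CONV_ls (v 0)‖ ^ 2 + ‖lapl (u 0) - O.MB (v 0)‖ ^ 2 ≤ _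
    nlinarith

end Pool.Agent.Lib.MP_4ccfbf_an
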