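import Pool.Agent.Lib.MP_4ccfbf_an.Defs2
import Pool.Agent.Lib.MP_4ccfbf_an.COB
import Pool.Agent.Lib.MP_4ccfbf_an.FMO

set_option autoImplicit false

open MeasureTheory Set Filter Topology Complex
open scoped ENNReal ComplexConjugate

namespace Pool.Agent.Lib.MP_4ccfbf_an

attribute [local instance] msCircle

section HH

variable {b : T2 → ℝ} {β : ℝ} (O : Ops b β)

/-! ## Module CPT -/

theorem CPT_D : IsCompactOperator O.D := by
  obtain ⟨m, hm⟩ : ∃ m : K2 → ℂ, m = fun k =>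
      (if k = 0 then 0 else (((Real.sqrt (nsq k))⁻¹ : ℝ) : ℂ)) := ⟨_, rfl⟩
  have hnsq : ∀ k : K2, k ≠ 0 → 1 ≤ nsq k := by
    intro k hk
    have h1 : k 0 ≠ 0 ∨ k 1 ≠ 0 := by
      by_contra hcon
      rw [not_or, not_not, not_not] at hcon
      apply hk
      funext i
      fin_cases i
      · exact hcon.1
      · exact hcon.2
    unfold nsq
    rcases h1 with h1 | h1
    · have h2 : 1 ≤ (k 0) ^ 2 := by
        have := sq_nonneg (k 0)
        have h3 : (k 0) ^ 2 ≠ 0 := pow_ne_zero 2 h1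
        omega
      have h2' : (1 : ℝ) ≤ (k 0 : ℝ) ^ 2 := by exact_mod_cast h2
      nlinarith [sq_nonneg (k 1 : ℝ)]
    · have h2 : 1 ≤ (k 1) ^ 2 := by
        have := sq_nonneg (k 1)
        have h3 : (k 1) ^ 2 ≠ 0 := pow_ne_zero 2 h1
        omega
      have h2' : (1 : ℝ) ≤ (k 1 : ℝ) ^ 2 := by exact_mod_cast h2
      nlinarith [sq_nonneg (k 0 : ℝ)]
  have hnorm : ∀ k : K2, k ≠ 0 → ‖m k‖ = (Real.sqrt (nsq k))⁻¹ := by
    intro k hk
    rw [hm]
    simp only [if_neg hk]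
    rw [Complex.norm_real, Real.norm_eq_abs, abs_of_nonneg (by positivity)]
  have hm1 : ∀ k, ‖m k‖ ≤ 1 := by
    intro k
    by_cases hk : k = 0
    · rw [hm, hk]
      simp
    · rw [hnorm k hk]
      apply inv_le_one_of_one_le₀
      rw [Real.one_le_sqrt]
      exact hnsq k hk
  obtain ⟨T, hT1, -, hT3⟩ := exists_FM m 1 zero_le_one hm1
  have hTD : O.D = T := by
    ext1 u
    apply co_ext
    intro k
    rw [hT1, O.hD, hm]
  rw [hTD]
  apply hT3
  intro ε hε
  obtain ⟨n, hn⟩ := exists_nat_gt (1 / ε ^ 2)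
  have hsub : {k : K2 | ε < ‖m k‖} ⊆
      ((Fintype.piFinset fun _ : Fin 2 => Finset.Icc (-(n : ℤ)) (n : ℤ) : Finset K2) : Set K2) := by
    intro k hk
    have hk' : ε < ‖m k‖ := hk
    have hk0 : k ≠ 0 := by
      rintro rfl
      rw [hm] at hk'
      simp only [if_pos, norm_zero] at hk'
      linarith
    rw [hnorm k hk0] at hk'
    have h1 : 0 < Real.sqrt (nsq k) := Real.sqrt_pos.2 (by linarith [hnsq k hk0])
    have h2 : nsq k < 1 / ε ^ 2 := by
      have h3 : Real.sqrt (nsq k) < ε⁻¹ := by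
        rw [lt_inv_comm₀ h1 hε]
        exact hk'
      have h4 : nsq k = Real.sqrt (nsq k) ^ 2 :=
        (Real.sq_sqrt (by linarith [hnsq k hk0])).symm
      rw [h4, one_div, ← inv_pow]
      exact pow_lt_pow_left₀ h3 h1.le two_ne_zero
    have h5 : nsq k < n := h2.trans hn
    have h6 : ∀ x : ℤ, (x : ℝ) ^ 2 ≤ nsq k → x ∈ Finset.Icc (-(n : ℤ)) (n : ℤ) := by
      intro x hx
      have h7 : (x : ℝ) ^ 2 < n := lt_of_le_of_lt hx h5
      have h8 : x ^ 2 < (n : ℤ) := by exact_mod_cast h7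
      rw [Finset.mem_Icc]
      constructor
      · nlinarith
      · nlinarith
    rw [Finset.mem_coe, Fintype.mem_piFinset]
    intro i
    apply h6
    unfold nsq
    fin_cases i
    · exact le_add_of_nonneg_right (sq_nonneg _)
    · exact le_add_of_nonneg_left (sq_nonneg _)
  exact (Finset.finite_toSet _).subset hsub

theorem CPT_hh : IsCompactOperator O.hh := by
  unfold Ops.hh
  have h1 : IsCompactOperator (O.D ∘L WithLp.fstL 2 ℂ HT HT) :=
    (CPT_D O).comp_clm (WithLp.fstL 2 ℂ HT HT)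
  have h2 : ∀ f : XT →L[ℂ] ℂ, IsCompactOperator (f.smulRight one) := by
    intro f
    have h3 : IsCompactOperator f := isCompactOperator_of_locallyCompactSpace_dom f
    exact h3.clm_comp (ContinuousLinearMap.toSpanSingleton ℂ one)
  exact h1.sub (h2 _)

theorem Bop_compact : IsCompactOperator O.Bop := by
  unfold Ops.Bop
  have h1 : IsCompactOperator (-(O.D ∘L (WithLp.sndL 2 ℂ HT HT + O.MB ∘L O.hh))) := by
    have h2 : IsCompactOperator (O.D ∘L (WithLp.sndL 2 ℂ HT HT + O.MB ∘L O.hh)) :=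
      (CPT_D O).comp_clm _
    exact h2.neg
  have h3 : IsCompactOperator ((-(O.D ∘L (WithLp.sndL 2 ℂ HT HT + O.MB ∘L O.hh))).prod O.hh) := by
    have h4 := h1.clm_comp (ContinuousLinearMap.inl ℂ HT HT)
    have h5 := (CPT_hh O).clm_comp (ContinuousLinearMap.inr ℂ HT HT)
    have h6 := h4.add h5
    have h7 : ((-(O.D ∘L (WithLp.sndL 2 ℂ HT HT + O.MB ∘L O.hh))).prod O.hh : XT → HT × HT)
        = (ContinuousLinearMap.inl ℂ HT HT) ∘ (-(O.D ∘L (WithLp.sndL 2 ℂ HT HT + O.MB ∘L O.hh)))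
          + (ContinuousLinearMap.inr ℂ HT HT) ∘ O.hh := by
      funext x
      simp
    rw [h7]
    exact h6
  exact h3.clm_comp (WithLp.prodContinuousLinearEquiv 2 ℂ HT HT).symm.toContinuousLinearMap

end HH

end Pool.Agent.Lib.MP_4ccfbf_an
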