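import Pool.Agent.Lib.MP_4ccfbf_an.Defs

set_option autoImplicit false

open MeasureTheory Set Filter Topology Complex
open scoped ENNReal ComplexConjugate

namespace Pool.Agent.Lib.MP_4ccfbf_an

attribute [local instance] msCircle

/-- Translation to the origin. -/
private lemma CUT1_translate (x₀ : UnitAddCircle) (r : ℝ) (n : ℤ) :
    ∫ x : UnitAddCircle, ((max 0 (r - ‖x - x₀‖) : ℝ) : ℂ) * fourier n x
      = fourier n x₀ * ∫ x : UnitAddCircle, ((max 0 (r - ‖x‖) : ℝ) : ℂ) * fourier n x := by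
  rw [← integral_const_mul, ← integral_add_right_eq_self _ x₀]
  refine integral_congr_ae (Eventually.of_forall fun x => ?_)
  have e : (fourier n : C(UnitAddCircle, ℂ)) (x + x₀)
      = (fourier n : C(UnitAddCircle, ℂ)) x * (fourier n : C(UnitAddCircle, ℂ)) x₀ := by
    simp only [fourier_apply, smul_add, AddCircle.toCircle_add, Circle.coe_mul]
  simp only [add_sub_cancel_right, e]
  ring

/-- The integral on the real line. -/
private lemma CUT1_line (r : ℝ) (hr : 0 < r) (c : ℂ) (hc : c ≠ 0) :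
    ((∫ s in (-r : ℝ)..0, ((r + s : ℝ) : ℂ) * cexp (c * s)) +
      ∫ s in (0 : ℝ)..r, ((r - s : ℝ) : ℂ) * cexp (c * s))
      = (cexp (c * r) + cexp (-(c * r)) - 2) / c ^ 2 := by
  have h1 : ∀ s : ℝ, HasDerivAt (fun s : ℝ => (((r + s : ℝ) : ℂ) / c - 1 / c ^ 2) * cexp (c * s))
      (((r + s : ℝ) : ℂ) * cexp (c * s)) s := by
    intro s
    have e1 : HasDerivAt (fun s : ℝ => cexp (c * s)) (cexp (c * s) * (c * 1)) s := by
      have := ((hasDerivAt_id (s : ℝ)).ofReal_comp).const_mul c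
      exact this.cexp
    have e2 : HasDerivAt (fun s : ℝ => (((r + s : ℝ) : ℂ) / c - 1 / c ^ 2)) (1 / c) s := by
      have := (((hasDerivAt_id (s : ℝ)).const_add r).ofReal_comp.div_const c).sub_const (1 / c ^ 2)
      simpa using this
    have e4 : (1 / c) * cexp (c * s) + (((r + s : ℝ) : ℂ) / c - 1 / c ^ 2) * (cexp (c * s) * (c * 1))
        = ((r + s : ℝ) : ℂ) * cexp (c * s) := by
      field_simp
      ring
    rw [← e4]
    exact e2.mul e1
  have h2 : ∀ s : ℝ, HasDerivAt (fun s : ℝ => (((r - s : ℝ) : ℂ) / c + 1 / c ^ 2) * cexp (c * s))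
      (((r - s : ℝ) : ℂ) * cexp (c * s)) s := by
    intro s
    have e1 : HasDerivAt (fun s : ℝ => cexp (c * s)) (cexp (c * s) * (c * 1)) s := by
      have := ((hasDerivAt_id (s : ℝ)).ofReal_comp).const_mul c
      exact this.cexp
    have e2 : HasDerivAt (fun s : ℝ => (((r - s : ℝ) : ℂ) / c + 1 / c ^ 2)) (-1 / c) s := by
      have := (((hasDerivAt_id (s : ℝ)).const_sub r).ofReal_comp.div_const c).add_const (1 / c ^ 2)
      simpa using this
    have e4 : (-1 / c) * cexp (c * s) + (((r - s : ℝ) : ℂ) / c + 1 / c ^ 2) * (cexp (c * s) * (c * 1))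
        = ((r - s : ℝ) : ℂ) * cexp (c * s) := by
      field_simp
      ring
    rw [← e4]
    exact e2.mul e1
  rw [intervalIntegral.integral_eq_sub_of_hasDerivAt (fun s _ => h1 s)
    ((by fun_prop : Continuous fun s : ℝ => ((r + s : ℝ) : ℂ) * cexp (c * s)).intervalIntegrable _ _),
    intervalIntegral.integral_eq_sub_of_hasDerivAt (fun s _ => h2 s)
    ((by fun_prop : Continuous fun s : ℝ => ((r - s : ℝ) : ℂ) * cexp (c * s)).intervalIntegrable _ _)]
  have e3 : c * ((-r : ℝ) : ℂ) = -(c * r) := by push_cast; ring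
  rw [e3]
  simp
  field_simp
  ring

/-- The integral on the circle. -/
private lemma CUT1_circle (r : ℝ) (hr : 0 < r) (hr' : r < 1 / 2) (n : ℤ) :
    ∫ x : UnitAddCircle, ((max 0 (r - ‖x‖) : ℝ) : ℂ) * fourier n x
      = ((∫ s in (-r : ℝ)..0, ((r + s : ℝ) : ℂ) * cexp (2 * Real.pi * I * n * s)) +
      ∫ s in (0 : ℝ)..r, ((r - s : ℝ) : ℂ) * cexp (2 * Real.pi * I * n * s)) := by
  have key := fourierCoeff_eq_intervalIntegral (T := 1)
    (fun x : UnitAddCircle => ((max 0 (r - ‖x‖) : ℝ) : ℂ)) (-n) (-(1 / 2 : ℝ))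
  rw [fourierCoeff] at key
  have e0 : ∫ x : UnitAddCircle, ((max 0 (r - ‖x‖) : ℝ) : ℂ) * fourier n x
      = ∫ (t : AddCircle (1 : ℝ)), (fourier (- -n)) t • ((max 0 (r - ‖t‖) : ℝ) : ℂ)
        ∂AddCircle.haarAddCircle := by
    change ∫ (t : AddCircle (1 : ℝ)), ((max 0 (r - ‖t‖) : ℝ) : ℂ) * fourier n t
        ∂AddCircle.haarAddCircle = _
    simp only [neg_neg, smul_eq_mul, mul_comm]
  rw [e0, key]
  have e1 : (-(1 / 2 : ℝ)) + 1 = 1 / 2 := by norm_num
  rw [e1]
  simp only [div_one, one_smul, neg_neg, smul_eq_mul]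
  set F : ℝ → ℂ := fun s => (fourier n : C(AddCircle (1 : ℝ), ℂ)) (s : AddCircle (1 : ℝ)) *
    ((max 0 (r - ‖(s : AddCircle (1 : ℝ))‖) : ℝ) : ℂ) with hF
  have hFc : Continuous F := by
    rw [hF]
    have : Continuous fun s : ℝ => (s : AddCircle (1 : ℝ)) := AddCircle.continuous_mk' 1
    fun_prop
  have hFi : ∀ a b : ℝ, IntervalIntegrable F volume a b := fun a b => hFc.intervalIntegrable _ _
  have hval : ∀ s : ℝ, |s| ≤ 1 / 2 → F s = ((max 0 (r - |s|) : ℝ) : ℂ) *
      cexp (2 * Real.pi * I * n * s) := by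
    intro s hs
    have h1 : ‖(s : AddCircle (1 : ℝ))‖ = |s| := by
      rw [AddCircle.norm_coe_eq_abs_iff (p := (1 : ℝ)) one_ne_zero]
      simpa using hs
    simp only [hF, h1, fourier_coe_apply]
    rw [mul_comm]
    congr 2
    simp
  have s1 : (∫ s in (-(1 / 2) : ℝ)..(1 / 2), F s) = (∫ s in (-(1 / 2) : ℝ)..(-r), F s) +
      ((∫ s in (-r : ℝ)..0, F s) + ((∫ s in (0 : ℝ)..r, F s) + ∫ s in r..(1 / 2), F s)) := by
    rw [intervalIntegral.integral_add_adjacent_intervals (hFi _ _) (hFi _ _),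
      intervalIntegral.integral_add_adjacent_intervals (hFi _ _) (hFi _ _),
      intervalIntegral.integral_add_adjacent_intervals (hFi _ _) (hFi _ _)]
  have z1 : (∫ s in (-(1 / 2) : ℝ)..(-r), F s) = 0 := by
    rw [← intervalIntegral.integral_zero (E := ℂ) (μ := volume) (a := (-(1 / 2) : ℝ)) (b := -r)]
    refine intervalIntegral.integral_congr fun s hs => ?_
    rw [uIcc_of_le (by linarith)] at hs
    have : |s| ≤ 1 / 2 := abs_le.2 ⟨by linarith [hs.1], by linarith [hs.2]⟩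
    rw [hval s this, max_eq_left]
    · simp
    · rw [abs_of_nonpos (by linarith [hs.2])]; linarith [hs.2]
  have z2 : (∫ s in (r : ℝ)..(1 / 2), F s) = 0 := by
    rw [← intervalIntegral.integral_zero (E := ℂ) (μ := volume) (a := (r : ℝ)) (b := 1 / 2)]
    refine intervalIntegral.integral_congr fun s hs => ?_
    rw [uIcc_of_le (by linarith)] at hs
    have : |s| ≤ 1 / 2 := abs_le.2 ⟨by linarith [hs.1], by linarith [hs.2]⟩
    rw [hval s this, max_eq_left]
    · simp
    · rw [abs_of_nonneg (by linarith [hs.1])]; linarith [hs.1]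
  have z3 : (∫ s in (-r : ℝ)..0, F s) =
      ∫ s in (-r : ℝ)..0, ((r + s : ℝ) : ℂ) * cexp (2 * Real.pi * I * n * s) := by
    refine intervalIntegral.integral_congr fun s hs => ?_
    rw [uIcc_of_le (by linarith)] at hs
    have : |s| ≤ 1 / 2 := abs_le.2 ⟨by linarith [hs.1], by linarith [hs.2]⟩
    rw [hval s this, abs_of_nonpos hs.2, max_eq_right (by linarith [hs.1])]
    simp
  have z4 : (∫ s in (0 : ℝ)..r, F s) =
      ∫ s in (0 : ℝ)..r, ((r - s : ℝ) : ℂ) * cexp (2 * Real.pi * I * n * s) := by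
    refine intervalIntegral.integral_congr fun s hs => ?_
    rw [uIcc_of_le (by linarith)] at hs
    have : |s| ≤ 1 / 2 := abs_le.2 ⟨by linarith [hs.1], by linarith [hs.2]⟩
    rw [hval s this, abs_of_nonneg hs.1, max_eq_right (by linarith [hs.2])]
  rw [s1, z1, z2, z3, z4, zero_add, add_zero]

theorem tent (x₀ : UnitAddCircle) (r : ℝ) (hr : 0 < r) (hr' : r < 1 / 2) (n : ℤ) :
    ‖∫ x : UnitAddCircle, ((max 0 (r - ‖x - x₀‖) : ℝ) : ℂ) * fourier n x‖
      ≤ 1 / (1 + (n : ℝ) ^ 2) := by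
  rcases eq_or_ne n 0 with hn | hn
  · subst hn
    have h1 : ∀ x : UnitAddCircle, ‖((max 0 (r - ‖x - x₀‖) : ℝ) : ℂ) * fourier 0 x‖ ≤ 1 := by
      intro x
      have e2 : (fourier 0 : C(UnitAddCircle, ℂ)) x = 1 := fourier_zero
      rw [e2, mul_one, Complex.norm_real, Real.norm_of_nonneg (le_max_left _ _)]
      exact max_le (by norm_num) (by linarith [norm_nonneg (x - x₀)])
    have h2 := norm_integral_le_of_norm_le_const (μ := (volume : Measure UnitAddCircle))
      (Eventually.of_forall h1)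
    simpa using h2
  · rw [CUT1_translate, norm_mul]
    have e1 : ‖(fourier n : C(UnitAddCircle, ℂ)) x₀‖ = 1 := by
      rw [fourier_apply]; simp
    have hnR : (n : ℝ) ≠ 0 := by exact_mod_cast hn
    have hc : (2 * Real.pi * I * n : ℂ) ≠ 0 := by
      simp [Real.pi_ne_zero, hn]
    have e2 := CUT1_line r hr (2 * Real.pi * I * n) hc
    rw [e1, one_mul, CUT1_circle r hr hr' n, e2, norm_div]
    have n1 : ‖cexp (2 * Real.pi * I * n * r)‖ = 1 := by
      have : (2 * Real.pi * I * n * r : ℂ) = ((2 * Real.pi * n * r : ℝ) : ℂ) * I := by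
        push_cast; ring
      rw [this, Complex.norm_exp_ofReal_mul_I]
    have n2 : ‖cexp (-(2 * Real.pi * I * n * r))‖ = 1 := by
      have : (-(2 * Real.pi * I * n * r) : ℂ) = ((-(2 * Real.pi * n * r) : ℝ) : ℂ) * I := by
        push_cast; ring
      rw [this, Complex.norm_exp_ofReal_mul_I]
    have n3 : ‖cexp (2 * Real.pi * I * n * r) + cexp (-(2 * Real.pi * I * n * r)) - 2‖ ≤ 4 := by
      calc _ ≤ ‖cexp (2 * Real.pi * I * n * r) + cexp (-(2 * Real.pi * I * n * r))‖ + ‖(2 : ℂ)‖ :=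
            norm_sub_le _ _
        _ ≤ (‖cexp (2 * Real.pi * I * n * r)‖ + ‖cexp (-(2 * Real.pi * I * n * r))‖) + ‖(2 : ℂ)‖ := by
            gcongr; exact norm_add_le _ _
        _ = 4 := by rw [n1, n2]; norm_num
    have n4 : ‖(2 * Real.pi * I * n : ℂ) ^ 2‖ = 4 * Real.pi ^ 2 * (n : ℝ) ^ 2 := by
      rw [norm_pow, norm_mul, norm_mul, norm_mul]
      simp only [Complex.norm_ofNat, Complex.norm_real, Complex.norm_I, Complex.norm_intCast]
      rw [mul_pow, mul_pow, mul_pow]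
      simp only [Real.norm_eq_abs, sq_abs]
      ring
    rw [n4]
    have hpi : (3 : ℝ) < Real.pi := Real.pi_gt_three
    have hn2 : (1 : ℝ) ≤ (n : ℝ) ^ 2 := by
      have : 1 ≤ n ^ 2 := by
        have := sq_nonneg n
        have h3 : n ^ 2 ≠ 0 := pow_ne_zero 2 hn
        omega
      exact_mod_cast this
    have hpi2 : (9 : ℝ) ≤ Real.pi ^ 2 := by nlinarith
    calc _ ≤ 4 / (4 * Real.pi ^ 2 * (n : ℝ) ^ 2) := by gcongr
      _ ≤ 1 / (1 + (n : ℝ) ^ 2) := by
        rw [div_le_div_iff₀ (by positivity) (by positivity)]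
        nlinarith [mul_le_mul_of_nonneg_right hpi2 (by linarith : (0 : ℝ) ≤ (n : ℝ) ^ 2)]

end Pool.Agent.Lib.MP_4ccfbf_an
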