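import Pool.Agent.Lib.MP_4ccfbf_an.Defs

set_option autoImplicit false

open MeasureTheory Set Filter Topology Complex
open scoped ENNReal ComplexConjugate

namespace Pool.Agent.Lib.MP_4ccfbf_an

attribute [local instance] msCircle

/-- Tail of `∑ 1/(1+k²)` over naturals. -/
private lemma CUT2_nat (L : ℝ) (hL : 1 ≤ L) (B : Finset ℕ) (hB : ∀ k ∈ B, L / 2 ≤ (k : ℝ)) :
    ∑ k ∈ B, 1 / (1 + (k : ℝ) ^ 2) ≤ 4 / L := by
  have hc : 1 ≤ ⌈L / 2⌉₊ := by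
    rw [Nat.one_le_ceil_iff]; linarith
  have hsub : B ⊆ Finset.Ioo (⌈L / 2⌉₊ - 1) (B.sup id + 1) := by
    intro k hk
    have h1 := Nat.ceil_le.2 (hB k hk)
    have h2 : k ≤ B.sup id := Finset.le_sup (f := id) hk
    rw [Finset.mem_Ioo]
    omega
  calc ∑ k ∈ B, 1 / (1 + (k : ℝ) ^ 2)
      ≤ ∑ k ∈ B, ((k : ℝ) ^ 2)⁻¹ := by
        refine Finset.sum_le_sum fun k hk => ?_
        have : 0 < (k : ℝ) := by linarith [hB k hk]
        rw [← one_div]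
        exact one_div_le_one_div_of_le (by positivity) (by linarith)
    _ ≤ ∑ k ∈ Finset.Ioo (⌈L / 2⌉₊ - 1) (B.sup id + 1), ((k : ℝ) ^ 2)⁻¹ :=
        Finset.sum_le_sum_of_subset_of_nonneg hsub fun k _ _ => by positivity
    _ ≤ 2 / (((⌈L / 2⌉₊ - 1 : ℕ) : ℝ) + 1) := sum_Ioo_inv_sq_le _ _
    _ ≤ 4 / L := by
        have h3 : ((⌈L / 2⌉₊ - 1 : ℕ) : ℝ) + 1 = (⌈L / 2⌉₊ : ℝ) := by
          rw [Nat.cast_sub hc]; push_cast; ring
        have h4 : L / 2 ≤ (⌈L / 2⌉₊ : ℝ) := Nat.le_ceil _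
        rw [h3, div_le_div_iff₀ (by linarith) (by linarith)]
        linarith

/-- Tail over the integers. -/
private lemma CUT2_int (L : ℝ) (hL : 1 ≤ L) (A : Finset ℤ) (hA : ∀ k ∈ A, L / 2 ≤ |(k : ℝ)|) :
    ∑ k ∈ A, 1 / (1 + (k : ℝ) ^ 2) ≤ 8 / L := by
  have hnat : ∀ A' : Finset ℤ, A' ⊆ A → Set.InjOn Int.natAbs (A' : Set ℤ) →
      ∑ k ∈ A', 1 / (1 + (k : ℝ) ^ 2) ≤ 4 / L := by
    intro A' hsub hinj
    have h1 : ∑ k ∈ A', 1 / (1 + (k : ℝ) ^ 2)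
        = ∑ j ∈ A'.image Int.natAbs, 1 / (1 + (j : ℝ) ^ 2) := by
      rw [Finset.sum_image hinj]
      refine Finset.sum_congr rfl fun k _ => ?_
      rw [Nat.cast_natAbs, Int.cast_abs, sq_abs]
    rw [h1]
    refine CUT2_nat L hL _ fun j hj => ?_
    obtain ⟨k, hk, rfl⟩ := Finset.mem_image.1 hj
    rw [Nat.cast_natAbs, Int.cast_abs]
    exact hA k (hsub hk)
  rw [← Finset.sum_filter_add_sum_filter_not A (fun k : ℤ => 0 ≤ k)]
  have e : (8 : ℝ) / L = 4 / L + 4 / L := by ring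
  rw [e]
  refine add_le_add (hnat _ (Finset.filter_subset _ _) ?_) (hnat _ (Finset.filter_subset _ _) ?_)
  · intro a ha b hb hab
    have ha' := (Finset.mem_filter.1 (Finset.mem_coe.1 ha)).2
    have hb' := (Finset.mem_filter.1 (Finset.mem_coe.1 hb)).2
    omega
  · intro a ha b hb hab
    have ha' := (Finset.mem_filter.1 (Finset.mem_coe.1 ha)).2
    have hb' := (Finset.mem_filter.1 (Finset.mem_coe.1 hb)).2
    omega

/-- The full sum. -/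
private lemma CUT2_full (A : Finset ℤ) : ∑ k ∈ A, 1 / (1 + (k : ℝ) ^ 2) ≤ 9 := by
  rw [← Finset.sum_filter_add_sum_filter_not A (fun k : ℤ => k = 0)]
  have h1 : ∑ k ∈ A.filter (fun k : ℤ => k = 0), 1 / (1 + (k : ℝ) ^ 2) ≤ 1 := by
    calc _ ≤ ∑ k ∈ ({0} : Finset ℤ), 1 / (1 + (k : ℝ) ^ 2) := by
          refine Finset.sum_le_sum_of_subset_of_nonneg ?_ fun k _ _ => by positivity
          intro k hk
          simpa using (Finset.mem_filter.1 hk).2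
      _ = 1 := by simp
  have h2 : ∑ k ∈ A.filter (fun k : ℤ => ¬ k = 0), 1 / (1 + (k : ℝ) ^ 2) ≤ 8 / 1 := by
    refine CUT2_int 1 le_rfl _ fun k hk => ?_
    have hk' := (Finset.mem_filter.1 hk).2
    have : (1 : ℝ) ≤ |(k : ℝ)| := by
      have h3 : 1 ≤ |k| := Int.one_le_abs hk'
      exact_mod_cast h3
    linarith
  linarith

/-- A product bound. -/
private lemma CUT2_prod (T : Finset K2) (A B : Finset ℤ) (hA : ∀ m ∈ T, m 0 ∈ A)
    (hB : ∀ m ∈ T, m 1 ∈ B) :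
    ∑ m ∈ T, (1 / (1 + (m 0 : ℝ) ^ 2)) * (1 / (1 + (m 1 : ℝ) ^ 2))
      ≤ (∑ a ∈ A, 1 / (1 + (a : ℝ) ^ 2)) * (∑ b ∈ B, 1 / (1 + (b : ℝ) ^ 2)) := by
  rw [Finset.sum_mul_sum, ← Finset.sum_product']
  have hinj : Set.InjOn (fun m : K2 => (m 0, m 1)) (T : Set K2) := by
    intro a _ b _ hab
    simp only [Prod.mk.injEq] at hab
    funext i
    fin_cases i
    · exact hab.1
    · exact hab.2
  have h1 : ∑ m ∈ T, (1 / (1 + (m 0 : ℝ) ^ 2)) * (1 / (1 + (m 1 : ℝ) ^ 2))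
      = ∑ p ∈ T.image (fun m : K2 => (m 0, m 1)),
        (1 / (1 + (p.1 : ℝ) ^ 2)) * (1 / (1 + (p.2 : ℝ) ^ 2)) := by
    rw [Finset.sum_image hinj]
  rw [h1]
  refine Finset.sum_le_sum_of_subset_of_nonneg ?_ fun p _ _ => by positivity
  intro p hp
  obtain ⟨m, hm, rfl⟩ := Finset.mem_image.1 hp
  exact Finset.mem_product.2 ⟨hA m hm, hB m hm⟩

theorem cut_sum : ∃ C : ℝ, 0 < C ∧ ∀ L : ℝ, 1 ≤ L → ∀ T : Finset K2,
    (∀ m ∈ T, L ^ 2 ≤ nsq m) →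
      ∑ m ∈ T, (1 / (1 + (m 0 : ℝ) ^ 2)) * (1 / (1 + (m 1 : ℝ) ^ 2)) ≤ C / L := by
  refine ⟨144, by norm_num, fun L hL T hT => ?_⟩
  rw [← Finset.sum_filter_add_sum_filter_not T (fun m : K2 => L / 2 ≤ |(m 0 : ℝ)|)]
  have h1 : ∑ m ∈ T.filter (fun m : K2 => L / 2 ≤ |(m 0 : ℝ)|),
      (1 / (1 + (m 0 : ℝ) ^ 2)) * (1 / (1 + (m 1 : ℝ) ^ 2)) ≤ 8 / L * 9 := by
    refine (CUT2_prod _ ((T.filter (fun m : K2 => L / 2 ≤ |(m 0 : ℝ)|)).image (fun m => m 0))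
      ((T.filter (fun m : K2 => L / 2 ≤ |(m 0 : ℝ)|)).image (fun m => m 1))
      (fun m hm => Finset.mem_image_of_mem _ hm) (fun m hm => Finset.mem_image_of_mem _ hm)).trans ?_
    refine mul_le_mul (CUT2_int L hL _ ?_) (CUT2_full _)
      (Finset.sum_nonneg fun _ _ => by positivity) (by positivity)
    intro k hk
    obtain ⟨m, hm, rfl⟩ := Finset.mem_image.1 hk
    exact (Finset.mem_filter.1 hm).2
  have h2 : ∑ m ∈ T.filter (fun m : K2 => ¬ L / 2 ≤ |(m 0 : ℝ)|),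
      (1 / (1 + (m 0 : ℝ) ^ 2)) * (1 / (1 + (m 1 : ℝ) ^ 2)) ≤ 9 * (8 / L) := by
    refine (CUT2_prod _ ((T.filter (fun m : K2 => ¬ L / 2 ≤ |(m 0 : ℝ)|)).image (fun m => m 0))
      ((T.filter (fun m : K2 => ¬ L / 2 ≤ |(m 0 : ℝ)|)).image (fun m => m 1))
      (fun m hm => Finset.mem_image_of_mem _ hm) (fun m hm => Finset.mem_image_of_mem _ hm)).trans ?_
    refine mul_le_mul (CUT2_full _) (CUT2_int L hL _ ?_)
      (Finset.sum_nonneg fun _ _ => by positivity) (by norm_num)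
    intro k hk
    obtain ⟨m, hm, rfl⟩ := Finset.mem_image.1 hk
    obtain ⟨hm1, hm2⟩ := Finset.mem_filter.1 hm
    by_contra hcon
    push Not at hm2 hcon
    have h3 := hT m hm1
    unfold nsq at h3
    have h4 : (m 0 : ℝ) ^ 2 < (L / 2) ^ 2 := by
      rw [← sq_abs]
      exact pow_lt_pow_left₀ hm2 (abs_nonneg _) two_ne_zero
    have h5 : (m 1 : ℝ) ^ 2 < (L / 2) ^ 2 := by
      rw [← sq_abs]
      exact pow_lt_pow_left₀ hcon (abs_nonneg _) two_ne_zero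
    nlinarith
  calc _ ≤ 8 / L * 9 + 9 * (8 / L) := add_le_add h1 h2
    _ = 144 / L := by ring

end Pool.Agent.Lib.MP_4ccfbf_an
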