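import Pool.Agent.Lib.MP_4ccfbf_an.Defs
import Pool.Agent.Lib.MP_4ccfbf_an.CUT1
import Pool.Agent.Lib.MP_4ccfbf_an.CUT2

set_option autoImplicit false

open MeasureTheory Set Filter Topology Complex
open scoped ENNReal ComplexConjugate

namespace Pool.Agent.Lib.MP_4ccfbf_an

attribute [local instance] msCircle

/-- The Fourier coefficients of a product function. -/
private lemma CUTF_fub (z₀ : T2) (r : ℝ) (m : K2) :
    ∫ z : T2, ((max 0 (r - ‖z 0 - z₀ 0‖) * max 0 (r - ‖z 1 - z₀ 1‖) : ℝ) : ℂ) * ex m z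
      = (∫ x : UnitAddCircle, ((max 0 (r - ‖x - z₀ 0‖) : ℝ) : ℂ) * fourier (m 0) x) *
        ∫ x : UnitAddCircle, ((max 0 (r - ‖x - z₀ 1‖) : ℝ) : ℂ) * fourier (m 1) x := by
  have h := MeasureTheory.integral_fintype_prod_volume_eq_prod (ι := Fin 2) (𝕜 := ℂ)
    (E := fun _ => UnitAddCircle)
    (fun (i : Fin 2) (x : UnitAddCircle) => ((max 0 (r - ‖x - z₀ i‖) : ℝ) : ℂ) * fourier (m i) x)
  rw [Fin.prod_univ_two] at h
  rw [← h]
  refine integral_congr_ae (Eventually.of_forall fun z => ?_)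
  simp only [Fin.prod_univ_two, ex, UnitAddTorus.mFourier, ContinuousMap.coe_mk]
  push_cast
  ring

theorem exists_cutoff (Ω : Set T2) (hΩ : IsOpen Ω) (hne : Ω.Nonempty) :
    ∃ χ : T2 → ℝ, Continuous χ ∧ (∀ z, 0 ≤ χ z) ∧ (∀ z, χ z ≤ 1) ∧ (∀ z, χ z ≠ 0 → z ∈ Ω) ∧
      (0 < ∫ z : T2, χ z) ∧ ∃ C : ℝ, 0 < C ∧ ∀ L : ℝ, 1 ≤ L → ∀ T : Finset K2,
        (∀ m ∈ T, L ^ 2 ≤ nsq m) → ∑ m ∈ T, ‖∫ z : T2, (χ z : ℂ) * ex m z‖ ≤ C / L := by
  obtain ⟨z₀, hz₀⟩ := hne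
  obtain ⟨δ, hδ, hball⟩ := Metric.isOpen_iff.1 hΩ z₀ hz₀
  set r : ℝ := min δ (1 / 4) with hr
  have hr0 : 0 < r := lt_min hδ (by norm_num)
  have hr1 : r < 1 / 2 := (min_le_right _ _).trans_lt (by norm_num)
  have hrδ : r ≤ δ := min_le_left _ _
  have hcont : Continuous fun z : T2 => max 0 (r - ‖z 0 - z₀ 0‖) * max 0 (r - ‖z 1 - z₀ 1‖) := by
    fun_prop
  have hnn : ∀ z : T2, 0 ≤ max 0 (r - ‖z 0 - z₀ 0‖) * max 0 (r - ‖z 1 - z₀ 1‖) := fun z =>
    mul_nonneg (le_max_left _ _) (le_max_left _ _)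
  have hle : ∀ (x : UnitAddCircle), max 0 (r - ‖x‖) ≤ 1 := fun x =>
    max_le (by norm_num) (by linarith [norm_nonneg x])
  refine ⟨fun z => max 0 (r - ‖z 0 - z₀ 0‖) * max 0 (r - ‖z 1 - z₀ 1‖), hcont, hnn, ?_, ?_, ?_, ?_⟩
  · intro z
    exact mul_le_one₀ (hle _) (le_max_left _ _) (hle _)
  · intro z hz
    apply hball
    have h0 : ‖z 0 - z₀ 0‖ < r := by
      by_contra hcon
      push Not at hcon
      apply hz
      simp only
      rw [max_eq_left (by linarith : r - ‖z 0 - z₀ 0‖ ≤ 0), zero_mul]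
    have h1 : ‖z 1 - z₀ 1‖ < r := by
      by_contra hcon
      push Not at hcon
      apply hz
      simp only
      rw [max_eq_left (by linarith : r - ‖z 1 - z₀ 1‖ ≤ 0), mul_zero]
    rw [Metric.mem_ball, dist_pi_lt_iff hδ]
    intro i
    fin_cases i
    · simp only [dist_eq_norm]; exact lt_of_lt_of_le h0 hrδ
    · simp only [dist_eq_norm]; exact lt_of_lt_of_le h1 hrδ
  · refine hcont.integral_pos_of_hasCompactSupport_nonneg_nonzero (x := z₀)
      (HasCompactSupport.of_compactSpace _) hnn ?_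
    simp only [sub_self, norm_zero, sub_zero]
    rw [max_eq_right hr0.le]
    positivity
  · obtain ⟨C, hC, hsum⟩ := cut_sum
    refine ⟨C, hC, fun L hL T hT => ?_⟩
    refine le_trans (Finset.sum_le_sum fun m _ => ?_) (hsum L hL T hT)
    rw [CUTF_fub, norm_mul]
    exact mul_le_mul (tent _ _ hr0 hr1 _) (tent _ _ hr0 hr1 _) (norm_nonneg _) (by positivity)

end Pool.Agent.Lib.MP_4ccfbf_an
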