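import Pool.Agent.Lib.MP_4ccfbf_an.HHM
import Pool.Agent.Lib.MP_4ccfbf_an.MBO

set_option autoImplicit false

open MeasureTheory Set Filter Topology Complex
open scoped ENNReal ComplexConjugate

namespace Pool.Agent.Lib.MP_4ccfbf_an

attribute [local instance] msCircle

section HH

variable {b : T2 → ℝ} {β : ℝ} (O : Ops b β)

lemma DISS_inner (x : XT) :
    inner ℂ (O.D (x.snd + O.MB (O.hh x))) x.fst = inner ℂ (x.snd + O.MB (O.hh x)) (O.hh x) := by
  have h1 := co_hasSum_inner (O.D (x.snd + O.MB (O.hh x))) x.fst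
  have h2 := co_hasSum_inner (x.snd + O.MB (O.hh x)) (O.hh x)
  refine HasSum.unique h1 ?_
  convert h2 using 1
  funext k
  rw [O.hD]
  by_cases hk : k = 0
  · subst hk
    rw [hh_mean]
    simp
  · rw [if_neg hk, hh_co O x k hk, map_mul, Complex.conj_ofReal]
    ring

theorem Bop_diss (x : XT) :
    (inner ℂ (O.Bop x) x).re = -∫ z : T2, b z * ‖(O.hh x : T2 → ℂ) z‖ ^ 2 := by
  have h0 : inner ℂ (O.Bop x) x = inner ℂ (O.Bop x).fst x.fst + inner ℂ (O.Bop x).snd x.snd :=
    WithLp.prod_inner_apply _ _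
  rw [h0, Bop_fst, Bop_snd, inner_neg_left, DISS_inner, inner_add_left,
    mb_inner b O.MB O.hMB]
  have h : (inner ℂ (O.hh x) x.snd).re = (inner ℂ x.snd (O.hh x)).re := by
    rw [← inner_conj_symm, Complex.conj_re]
  simp only [Complex.add_re, Complex.neg_re, Complex.ofReal_re, h]
  ring

end HH

end Pool.Agent.Lib.MP_4ccfbf_an
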