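import Pool.Agent.Lib.MP_4ccfbf_an.BAS

set_option autoImplicit false

open MeasureTheory Set Filter Topology Complex
open scoped ENNReal ComplexConjugate

namespace Pool.Agent.Lib.MP_4ccfbf_an

attribute [local instance] msCircle

/-- The test function. -/
noncomputable def DUAL_phi (G w : T2 → ℂ) (z : T2) : ℂ := ((‖w z‖ : ℝ) : ℂ) * (G z / ((‖G z‖ : ℝ) : ℂ))

lemma DUAL_phi_norm (G w : T2 → ℂ) (z : T2) : ‖DUAL_phi G w z‖ ≤ ‖w z‖ := by
  unfold DUAL_phi
  rw [norm_mul, norm_div, Complex.norm_real, Complex.norm_real, norm_norm, norm_norm]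
  exact mul_le_of_le_one_right (norm_nonneg _) (div_self_le_one _)

lemma DUAL_phi_mul (G w : T2 → ℂ) (z : T2) :
    G z * conj (DUAL_phi G w z) = ((‖G z‖ * ‖w z‖ : ℝ) : ℂ) := by
  unfold DUAL_phi
  rw [map_mul, map_div₀, Complex.conj_ofReal, Complex.conj_ofReal]
  by_cases h : G z = 0
  · simp [h]
  · have h' : ((‖G z‖ : ℝ) : ℂ) ≠ 0 := by
      exact_mod_cast (norm_ne_zero_iff.mpr h)
    have : G z * conj (G z) = ((‖G z‖ : ℝ) : ℂ) * ((‖G z‖ : ℝ) : ℂ) := by
      rw [Complex.mul_conj, Complex.normSq_eq_norm_sq]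
      push_cast
      ring
    calc G z * (((‖w z‖ : ℝ) : ℂ) * (conj (G z) / ((‖G z‖ : ℝ) : ℂ)))
        = (G z * conj (G z)) * ((‖w z‖ : ℝ) : ℂ) / ((‖G z‖ : ℝ) : ℂ) := by ring
      _ = ((‖G z‖ * ‖w z‖ : ℝ) : ℂ) := by
        rw [this]
        push_cast
        field_simp

lemma DUAL_ex_shift (k ζ : K2) (t : ℝ) :
    ex k (pt (fun i => (ζ i : ℝ)) t) = cexp (2 * Real.pi * I * ((dot ζ k : ℝ) * t)) := by
  rw [ex_pt]
  congr 1
  simp only [dot]
  push_cast
  ring

lemma DUAL_TP_shift (F : Finset K2) (c : K2 → ℂ) (ζ : K2) (m : ℤ) (hF : ∀ k ∈ F, dot ζ k = m)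
    (t : ℝ) (z : T2) :
    TP F c (z + pt (fun i => (ζ i : ℝ)) t) = cexp (2 * Real.pi * I * ((m : ℝ) * t)) * TP F c z := by
  unfold TP
  rw [Finset.mul_sum]
  refine Finset.sum_congr rfl (fun k hk => ?_)
  rw [ex_add, DUAL_ex_shift, hF k hk]
  ring

lemma DUAL_norm_exp (x t : ℝ) : ‖cexp (2 * Real.pi * I * ((x : ℝ) * t))‖ = 1 := by
  have : (2 * Real.pi * I * ((x : ℝ) * t) : ℂ) = ((2 * Real.pi * (x * t) : ℝ) : ℂ) * I := by
    push_cast; ring
  rw [this, Complex.norm_exp_ofReal_mul_I]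

lemma DUAL_phi_shift (F : Finset K2) (c d : K2 → ℂ) (ζ : K2) (m : ℤ)
    (hF : ∀ k ∈ F, dot ζ k = m) (t : ℝ) (z : T2) :
    DUAL_phi (TP F c) (TP F d) (z + pt (fun i => (ζ i : ℝ)) t)
      = cexp (2 * Real.pi * I * ((m : ℝ) * t)) * DUAL_phi (TP F c) (TP F d) z := by
  unfold DUAL_phi
  rw [DUAL_TP_shift F c ζ m hF, DUAL_TP_shift F d ζ m hF, norm_mul, norm_mul, DUAL_norm_exp,
    one_mul, one_mul]
  ring

lemma DUAL_phi_measurable {G w : T2 → ℂ} (hG : Continuous G) (hw : Continuous w) :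
    Measurable (DUAL_phi G w) := by
  unfold DUAL_phi
  exact (Complex.measurable_ofReal.comp hw.norm.measurable).mul
    (hG.measurable.div (Complex.measurable_ofReal.comp hG.norm.measurable))

lemma DUAL_orth (F : Finset K2) (c d : K2 → ℂ) (ζ : K2) (m : ℤ)
    (hF : ∀ k ∈ F, dot ζ k = m) (k : K2) (hk : dot ζ k ≠ m) :
    ∫ z : T2, ex k z * conj (DUAL_phi (TP F c) (TP F d) z) = 0 := by
  set t : ℝ := 1 / (2 * ((dot ζ k : ℝ) - m)) with ht
  have hne : ((dot ζ k : ℝ) - m) ≠ 0 := by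
    intro h
    apply hk
    have : (dot ζ k : ℝ) = (m : ℝ) := by linarith
    exact_mod_cast this
  have h1 := integral_add_right_eq_self (μ := (volume : Measure T2))
    (fun z : T2 => ex k z * conj (DUAL_phi (TP F c) (TP F d) z)) (pt (fun i => (ζ i : ℝ)) t)
  have h2 : ∀ z : T2, ex k (z + pt (fun i => (ζ i : ℝ)) t)
      * conj (DUAL_phi (TP F c) (TP F d) (z + pt (fun i => (ζ i : ℝ)) t))
      = -(ex k z * conj (DUAL_phi (TP F c) (TP F d) z)) := by
    intro z
    rw [ex_add, DUAL_ex_shift, DUAL_phi_shift F c d ζ m hF, map_mul]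
    have h3 : conj (cexp (2 * Real.pi * I * ((m : ℝ) * t)))
        = cexp (-(2 * Real.pi * I * ((m : ℝ) * t))) := by
      rw [← Complex.exp_conj]
      congr 1
      simp only [map_mul, Complex.conj_ofReal, Complex.conj_I, map_ofNat]
      ring
    have h4 : cexp (2 * Real.pi * I * ((dot ζ k : ℝ) * t))
        * cexp (-(2 * Real.pi * I * ((m : ℝ) * t))) = -1 := by
      rw [← Complex.exp_add, ← Complex.exp_pi_mul_I]
      congr 1
      have h5 : ((dot ζ k : ℝ) - m) * t = 1 / 2 := by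
        rw [ht]; field_simp
      have h6 : (((dot ζ k : ℝ) : ℂ) - ((m : ℝ) : ℂ)) * (t : ℂ) = 1 / 2 := by
        have := congrArg (fun x : ℝ => (x : ℂ)) h5
        push_cast at this ⊢
        exact this
      calc 2 * (Real.pi : ℂ) * I * (((dot ζ k : ℝ) : ℂ) * t)
            + -(2 * Real.pi * I * (((m : ℝ) : ℂ) * t))
          = 2 * (Real.pi : ℂ) * I * ((((dot ζ k : ℝ) : ℂ) - ((m : ℝ) : ℂ)) * (t : ℂ)) := by ring
        _ = Real.pi * I := by rw [h6]; ring
    rw [h3]
    linear_combination (ex k z * conj (DUAL_phi (TP F c) (TP F d) z)) * h4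
  simp only [h2] at h1
  rw [integral_neg] at h1
  have h7 : (2 : ℂ) * ∫ z : T2, ex k z * conj (DUAL_phi (TP F c) (TP F d) z) = 0 := by
    linear_combination -h1
  simpa using h7

theorem dual_est (b : T2 → ℝ) (hbm : Measurable b) (β : ℝ) (hb0 : ∀ z, 0 ≤ b z)
    (hbβ : ∀ z, b z ≤ β) (F : Finset K2) (c : K2 → ℂ) (s : ℝ) (ζ : K2) (m : ℤ) :
    ∫ z : T2, ‖TP (Lset F ζ m) (gco s c) z‖ * ‖TP (Lset F ζ m) c z‖
      ≤ (∫ z : T2, ‖TP F (gco s c) z + I * s * b z * TP F c z‖ * ‖TP (Lset F ζ m) c z‖)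
        + |s| * ∫ z : T2, b z * (‖TP F c z‖ * ‖TP (Lset F ζ m) c z‖) := by
  have hβ : 0 ≤ β := (hb0 0).trans (hbβ 0)
  have hL : ∀ k ∈ Lset F ζ m, dot ζ k = m := by
    intro k hk
    exact (Finset.mem_filter.mp hk).2
  have hLs : Lset F ζ m ⊆ F := Finset.filter_subset _ _
  have hGl := TP_continuous (Lset F ζ m) (gco s c)
  have hw := TP_continuous (Lset F ζ m) c
  have hG := TP_continuous F (gco s c)
  have hu := TP_continuous F c
  have hφm : Measurable (DUAL_phi (TP (Lset F ζ m) (gco s c)) (TP (Lset F ζ m) c)) :=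
    DUAL_phi_measurable hGl hw
  set φ : T2 → ℂ := DUAL_phi (TP (Lset F ζ m) (gco s c)) (TP (Lset F ζ m) c) with hφdef
  have hφn : ∀ z, ‖φ z‖ ≤ ‖TP (Lset F ζ m) c z‖ := fun z => DUAL_phi_norm _ _ z
  have hφb : ∀ z, ‖φ z‖ ≤ ∑ k ∈ Lset F ζ m, ‖c k‖ := fun z => (hφn z).trans (TP_norm_le _ _ _)
  have iφ : ∀ h : T2 → ℂ, Continuous h →
      Integrable (fun z => h z * conj (φ z)) (volume : Measure T2) := by
    intro h hh
    refine (BAS_integrable hh).mul_bdd (c := ∑ k ∈ Lset F ζ m, ‖c k‖)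
      (continuous_conj.measurable.comp hφm).aestronglyMeasurable
      (Filter.Eventually.of_forall (fun z => ?_))
    rw [RCLike.norm_conj]
    exact hφb z
  -- orthogonality
  have hzero : ∫ z : T2, TP (F \ Lset F ζ m) (gco s c) z * conj (φ z) = 0 := by
    have : ∀ z : T2, TP (F \ Lset F ζ m) (gco s c) z * conj (φ z)
        = ∑ k ∈ F \ Lset F ζ m, gco s c k * (ex k z * conj (φ z)) := by
      intro z
      unfold TP
      rw [Finset.sum_mul]
      exact Finset.sum_congr rfl (fun k _ => by ring)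
    simp only [this]
    rw [integral_finsetSum]
    · refine Finset.sum_eq_zero (fun k hk => ?_)
      rw [integral_const_mul, hφdef, DUAL_orth _ _ _ ζ m hL k, mul_zero]
      intro h
      rw [Finset.mem_sdiff] at hk
      exact hk.2 (Finset.mem_filter.mpr ⟨hk.1, h⟩)
    · intro k _
      exact (iφ _ (ex_continuous k)).const_mul _
  have h1 : ∫ z : T2, TP F (gco s c) z * conj (φ z)
      = ((∫ z : T2, ‖TP (Lset F ζ m) (gco s c) z‖ * ‖TP (Lset F ζ m) c z‖ : ℝ) : ℂ) := by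
    have : ∀ z : T2, TP F (gco s c) z * conj (φ z)
        = TP (Lset F ζ m) (gco s c) z * conj (φ z)
          + TP (F \ Lset F ζ m) (gco s c) z * conj (φ z) := by
      intro z
      rw [TP_split F (Lset F ζ m) hLs]
      ring
    simp only [this]
    rw [integral_add (iφ _ hGl) (iφ _ (TP_continuous _ _)), hzero, add_zero,
      ← integral_complex_ofReal]
    refine integral_congr_ae (Filter.Eventually.of_forall (fun z => ?_))
    exact DUAL_phi_mul _ _ z
  -- bounds
  have hfm : Measurable (fun z : T2 => TP F (gco s c) z + I * s * b z * TP F c z) := by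
    refine hG.measurable.add (Measurable.mul (Measurable.mul measurable_const ?_) hu.measurable)
    exact Complex.measurable_ofReal.comp hbm
  have hfb : ∀ z, ‖TP F (gco s c) z + I * s * b z * TP F c z‖
      ≤ (∑ k ∈ F, ‖gco s c k‖) + |s| * β * ∑ k ∈ F, ‖c k‖ := by
    intro z
    refine (norm_add_le _ _).trans (add_le_add (TP_norm_le _ _ _) ?_)
    rw [norm_mul, norm_mul, norm_mul, norm_I, one_mul, Complex.norm_real, Complex.norm_real,
      Real.norm_eq_abs, Real.norm_eq_abs, abs_of_nonneg (hb0 z)]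
    exact mul_le_mul (mul_le_mul_of_nonneg_left (hbβ z) (abs_nonneg _)) (TP_norm_le _ _ _)
      (norm_nonneg _) (by positivity)
  have i1 : Integrable (fun z => ‖TP F (gco s c) z + I * s * b z * TP F c z‖
      * ‖TP (Lset F ζ m) c z‖) (volume : Measure T2) := by
    refine (BAS_integrable hw.norm).bdd_mul
      (c := (∑ k ∈ F, ‖gco s c k‖) + |s| * β * ∑ k ∈ F, ‖c k‖) hfm.norm.aestronglyMeasurable
      (Filter.Eventually.of_forall (fun z => ?_))
    rw [norm_norm]
    exact hfb z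
  have i2 : Integrable (fun z => b z * (‖TP F c z‖ * ‖TP (Lset F ζ m) c z‖))
      (volume : Measure T2) := by
    refine (BAS_integrable (hu.norm.mul hw.norm)).bdd_mul (c := β) hbm.aestronglyMeasurable
      (Filter.Eventually.of_forall (fun z => ?_))
    rw [Real.norm_of_nonneg (hb0 z)]
    exact hbβ z
  have h2 : ‖∫ z : T2, TP F (gco s c) z * conj (φ z)‖
      ≤ ∫ z : T2, (‖TP F (gco s c) z + I * s * b z * TP F c z‖ * ‖TP (Lset F ζ m) c z‖
        + |s| * (b z * (‖TP F c z‖ * ‖TP (Lset F ζ m) c z‖))) := by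
    refine norm_integral_le_of_norm_le (i1.add (i2.const_mul _))
      (Filter.Eventually.of_forall (fun z => ?_))
    have e1 : TP F (gco s c) z = (TP F (gco s c) z + I * s * b z * TP F c z)
        - I * s * b z * TP F c z := by ring
    have e2 : ‖I * s * b z * TP F c z‖ = |s| * b z * ‖TP F c z‖ := by
      rw [norm_mul, norm_mul, norm_mul, norm_I, one_mul, Complex.norm_real, Complex.norm_real,
        Real.norm_eq_abs, Real.norm_eq_abs, abs_of_nonneg (hb0 z)]
    have e3 : ‖TP F (gco s c) z‖ ≤ ‖TP F (gco s c) z + I * s * b z * TP F c z‖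
        + |s| * b z * ‖TP F c z‖ := by
      rw [← e2]
      conv_lhs => rw [e1]
      exact norm_sub_le _ _
    rw [norm_mul, RCLike.norm_conj]
    calc ‖TP F (gco s c) z‖ * ‖φ z‖ ≤ (‖TP F (gco s c) z + I * s * b z * TP F c z‖
        + |s| * b z * ‖TP F c z‖) * ‖TP (Lset F ζ m) c z‖ :=
          mul_le_mul e3 (hφn z) (norm_nonneg _)
            (add_nonneg (norm_nonneg _) (mul_nonneg (mul_nonneg (abs_nonneg _) (hb0 z))
              (norm_nonneg _)))
      _ = _ := by ring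
  rw [integral_add i1 (i2.const_mul _), integral_const_mul] at h2
  rw [h1, Complex.norm_real] at h2
  exact (Real.le_norm_self _).trans h2

end Pool.Agent.Lib.MP_4ccfbf_an
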