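import Mathlib

set_option autoImplicit false

open MeasureTheory

namespace Pool.Agent.Lib.MP_4ccfbf_an

/-- The normalised Haar measure on the circle `ℝ/ℤ` (as in `Mathlib.Analysis.Fourier.AddCircleMulti`).
Every file of this project starts with `attribute [local instance] msCircle`. -/
@[reducible] noncomputable def msCircle : MeasureSpace UnitAddCircle := ⟨AddCircle.haarAddCircle⟩

attribute [local instance] msCircle

instance instHaarCircle : Measure.IsAddHaarMeasure (volume : Measure UnitAddCircle) :=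
  inferInstanceAs (Measure.IsAddHaarMeasure AddCircle.haarAddCircle)

instance instProbCircle : IsProbabilityMeasure (volume : Measure UnitAddCircle) :=
  inferInstanceAs (IsProbabilityMeasure AddCircle.haarAddCircle)

/-- The two-dimensional torus, with coordinates `θ = x / 2π`. -/
abbrev T2 : Type := UnitAddTorus (Fin 2)

/-- The frequency lattice `ℤ²`. -/
abbrev K2 : Type := Fin 2 → ℤ

/-- `|k|²`. -/
noncomputable def nsq (k : K2) : ℝ := (k 0 : ℝ) ^ 2 + (k 1 : ℝ) ^ 2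

/-- The integer scalar product. -/
def dot (j k : K2) : ℤ := j 0 * k 0 + j 1 * k 1

/-- The rotation by `90` degrees. -/
def perp (ζ : K2) : K2 := ![-(ζ 1), ζ 0]

/-- The exponential `e_k(θ) = exp (2 π i k·θ)` -/
noncomputable def ex (k : K2) (z : T2) : ℂ := UnitAddTorus.mFourier k z

/-- Trigonometric polynomial. -/
noncomputable def TP (F : Finset K2) (c : K2 → ℂ) (z : T2) : ℂ := ∑ k ∈ F, c k * ex k z

/-- The group homomorphism `z ↦ ξ·z` -/
noncomputable def lin (ξ : K2) (z : T2) : UnitAddCircle := ξ 0 • z 0 + ξ 1 • z 1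

/-- The point `t ν` of the torus, `ν ∈ ℝ²`. -/
noncomputable def pt (ν : Fin 2 → ℝ) (t : ℝ) : T2 := fun i => ((t * ν i : ℝ) : UnitAddCircle)

/-- Coefficients of `(-Δ - s²) u`. -/
noncomputable def gco (s : ℝ) (c : K2 → ℂ) (k : K2) : ℂ := ((nsq k - s ^ 2 : ℝ) : ℂ) * c k

/-- Near-resonant frequencies of `F`. -/
noncomputable def Sset (F : Finset K2) (lam W : ℝ) : Finset K2 :=
  F.filter (fun k => |nsq k - lam ^ 2| ≤ W)

/-- Primitive vectors `ζ` with `|ζ|² < R`. -/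
noncomputable def Zset (R : ℕ) : Finset K2 :=
  (Fintype.piFinset (fun _ : Fin 2 => Finset.Icc (-(R : ℤ)) (R : ℤ))).filter
    (fun ζ => Int.gcd (ζ 0) (ζ 1) = 1 ∧ (ζ 0) ^ 2 + (ζ 1) ^ 2 < (R : ℤ))

/-- The cluster of `F` in direction `ζ`. -/
noncomputable def Clu (F : Finset K2) (lam W Q : ℝ) (ζ : K2) : Finset K2 :=
  (Sset F lam W).filter (fun k => |(dot (perp ζ) k : ℝ)| ≤ Q ∧ 0 < dot ζ k)

open Classical in
/-- Near-resonant frequencies in no cluster. -/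
noncomputable def Rest (F : Finset K2) (lam W Q : ℝ) (R : ℕ) : Finset K2 :=
  (Sset F lam W).filter (fun k => ∀ ζ ∈ Zset R, k ∉ Clu F lam W Q ζ)

/-- All frequencies of `F` on the line `ζ·k = m`. -/
def Lset (F : Finset K2) (ζ : K2) (m : ℤ) : Finset K2 := F.filter (fun k => dot ζ k = m)

/-- The function on the line `{k : k·ζ = m}`: `s ↦ ∑ c_k exp (i (k·ξ/|ξ|²) s)`, `ξ = ζ^⊥`. -/
noncomputable def LF (ζ : K2) (F : Finset K2) (c : K2 → ℂ) (s : ℝ) : ℂ :=
  ∑ k ∈ F, c k * Complex.exp (Complex.I * (((dot (perp ζ) k : ℝ) / nsq ζ * s : ℝ) : ℂ))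

/-- The size conditions of the lattice lemmas. -/
structure Big (lam W L Q : ℝ) (R : ℕ) : Prop where
  hW : 1 ≤ W
  hL : 1 ≤ L
  hQ : Q = W + L ^ 2
  hR : 1 ≤ R
  big : 100 * ((R : ℝ) + 1) ^ 2 * (L + 1) ^ 2 * Q ^ 2 ≤ lam

/-- Coefficients of the derivative of `LF`. -/
noncomputable def dco (ζ : K2) (c : K2 → ℂ) (k : K2) : ℂ :=
  Complex.I * (((dot (perp ζ) k : ℝ) / nsq ζ : ℝ) : ℂ) * c k

/-- The data of the ODE lemma: `a'' = - μ a - h`, `a (s + 2π) = w a s`. -/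
structure OdeData (μ K : ℝ) (w : ℂ) (a a' h : ℝ → ℂ) : Prop where
  hK : 1 ≤ K
  hw : ‖w‖ = 1
  da : ∀ s, HasDerivAt a (a' s) s
  da' : ∀ s, HasDerivAt a' (-(μ : ℂ) * a s - h s) s
  hc : Continuous h
  per : ∀ s, a (s + 2 * Real.pi) = w * a s
  ma : (∫ s in (0 : ℝ)..(2 * Real.pi), ‖a s‖ ^ 2) ≤ 2 * Real.pi
  mh : (∫ s in (0 : ℝ)..(2 * Real.pi), ‖h s‖ ^ 2) ≤ K ^ 2

/-- The Hilbert space `L²(𝕋²)`. -/
abbrev HT : Type := Lp ℂ 2 (volume : Measure T2)

/-- The Fourier coefficients. -/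
noncomputable def co (u : HT) (k : K2) : ℂ := UnitAddTorus.mFourierBasis.repr u k

/-- The constant function `1`. -/
noncomputable def one : HT := UnitAddTorus.mFourierBasis (0 : K2)

/-- `u ↦ co u 0 = ∫ u` as a continuous functional. -/
noncomputable def co0 : HT →L[ℂ] ℂ := innerSL ℂ one

/-- The energy space `L² × L²`, an element is `(A^{1/2} u, v)`. -/
abbrev XT : Type := WithLp 2 (HT × HT)

/-- The damping and the operators `MB` (multiplication by `b`) and `D = A^{-1/2}`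
(`0` on constants). -/
structure Ops (b : T2 → ℝ) (β : ℝ) where
  meas : Measurable b
  nonneg : ∀ z, 0 ≤ b z
  le : ∀ z, b z ≤ β
  pos : 0 < ∫ z, b z
  MB : HT →L[ℂ] HT
  hMB : ∀ u : HT, (MB u : T2 → ℂ) =ᵐ[volume] fun z => (b z : ℂ) * u z
  D : HT →L[ℂ] HT
  hD : ∀ (u : HT) (k : K2),
    co (D u) k = (if k = 0 then 0 else (((Real.sqrt (nsq k))⁻¹ : ℝ) : ℂ)) * co u k

/-- `h(φ,g) = D φ + c`, with the constant `c` such that `g + b h` has mean `0`. -/
noncomputable def Ops.hh {b : T2 → ℝ} {β : ℝ} (O : Ops b β) : XT →L[ℂ] HT :=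
  O.D ∘L WithLp.fstL 2 ℂ HT HT -
    ((((∫ z, b z : ℝ) : ℂ)⁻¹ • (co0 ∘L (WithLp.sndL 2 ℂ HT HT +
      O.MB ∘L O.D ∘L WithLp.fstL 2 ℂ HT HT))).smulRight one)

/-- The inverse `B = 𝒜⁻¹` of the generator, in the coordinates `(A^{1/2} u, v)`:
`B (φ, g) = (- D (g + b h), h)` with `h = h(φ, g)`. -/
noncomputable def Ops.Bop {b : T2 → ℝ} {β : ℝ} (O : Ops b β) : XT →L[ℂ] XT :=
  (WithLp.prodContinuousLinearEquiv 2 ℂ HT HT).symm.toContinuousLinearMap ∘L
    ((-(O.D ∘L (WithLp.sndL 2 ℂ HT HT + O.MB ∘L O.hh))).prod O.hh)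

end Pool.Agent.Lib.MP_4ccfbf_an
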