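import Pool.Agent.Lib.MP_4ccfbf_an.Defs

set_option autoImplicit false

open MeasureTheory Set Filter Topology Complex
open scoped ENNReal ComplexConjugate

namespace Pool.Agent.Lib.MP_4ccfbf_an

attribute [local instance] msCircle

lemma VAND_lagrange {ι : Type} [DecidableEq ι] (Z : Finset ι) (v : ι → ℂ)
    (hv : Set.InjOn v (Z : Set ι)) (α : ι → ℂ) (i : ι) (hi : i ∈ Z) :
    α i = ∑ k ∈ Finset.range Z.card, (Lagrange.basis Z v i).coeff k * ∑ j ∈ Z, α j * v j ^ k := by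
  have hcard : 0 < Z.card := Finset.card_pos.2 ⟨i, hi⟩
  have hdeg : (Lagrange.basis Z v i).natDegree < Z.card := by
    have h1 := Lagrange.degree_basis hv hi
    have h2 : (Lagrange.basis Z v i).natDegree = Z.card - 1 :=
      Polynomial.natDegree_eq_of_degree_eq_some h1
    omega
  have hev : ∀ j ∈ Z, (Lagrange.basis Z v i).eval (v j) = if j = i then 1 else 0 := by
    intro j hj
    by_cases h : j = i
    · subst h
      simp [Lagrange.eval_basis_self hv hi]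
    · rw [if_neg h]
      exact Lagrange.eval_basis_of_ne (fun h' => h h'.symm) hj
  have h3 : ∑ j ∈ Z, α j * (Lagrange.basis Z v i).eval (v j) = α i := by
    rw [Finset.sum_congr rfl (fun j hj => by rw [hev j hj])]
    simp [hi]
  rw [← h3]
  have h4 : ∀ j, (Lagrange.basis Z v i).eval (v j)
      = ∑ k ∈ Finset.range Z.card, (Lagrange.basis Z v i).coeff k * v j ^ k :=
    fun j => Polynomial.eval_eq_sum_range' hdeg (v j)
  simp_rw [h4, Finset.mul_sum]
  rw [Finset.sum_comm]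
  refine Finset.sum_congr rfl fun k _ => Finset.sum_congr rfl fun j _ => ?_
  ring

theorem vand {ι : Type} (Z : Finset ι) (ω : ι → ℝ) (hω : Set.InjOn ω (Z : Set ι))
    (hZ : Z.Nonempty) :
    ∃ c : ℝ, 0 < c ∧ ∀ α : ι → ℂ, ∃ j : ℕ, j < Z.card ∧
      c * Real.sqrt (∑ i ∈ Z, ‖α i‖ ^ 2) ≤ ‖∑ i ∈ Z, α i * (I * (ω i : ℂ)) ^ j‖ := by
  classical
  set v : ι → ℂ := fun i => I * (ω i : ℂ) with hvdef
  have hv : Set.InjOn v (Z : Set ι) := by
    intro i hi j hj hij
    have h1 : (ω i : ℂ) = (ω j : ℂ) := mul_left_cancel₀ Complex.I_ne_zero hij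
    exact hω hi hj (by exact_mod_cast h1)
  set B : ℝ := ∑ i ∈ Z, ∑ k ∈ Finset.range Z.card, ‖(Lagrange.basis Z v i).coeff k‖ with hB
  have hB0 : 0 ≤ B := Finset.sum_nonneg fun i _ => Finset.sum_nonneg fun k _ => norm_nonneg _
  refine ⟨1 / (B + 1), by positivity, fun α => ?_⟩
  have hne : (Finset.range Z.card).Nonempty := by
    rw [Finset.nonempty_range_iff]
    exact (Finset.card_pos.2 hZ).ne'
  obtain ⟨j, hj, hmax⟩ := Finset.exists_max_image (Finset.range Z.card)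
    (fun k => ‖∑ i ∈ Z, α i * v i ^ k‖) hne
  refine ⟨j, Finset.mem_range.1 hj, ?_⟩
  set S : ℝ := ‖∑ i ∈ Z, α i * v i ^ j‖ with hS
  have hS0 : 0 ≤ S := norm_nonneg _
  have h1 : ∀ i ∈ Z, ‖α i‖ ≤ (∑ k ∈ Finset.range Z.card, ‖(Lagrange.basis Z v i).coeff k‖) * S := by
    intro i hi
    calc ‖α i‖ = ‖∑ k ∈ Finset.range Z.card,
          (Lagrange.basis Z v i).coeff k * ∑ j ∈ Z, α j * v j ^ k‖ := by
          rw [← VAND_lagrange Z v hv α i hi]
      _ ≤ ∑ k ∈ Finset.range Z.card,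
          ‖(Lagrange.basis Z v i).coeff k * ∑ j ∈ Z, α j * v j ^ k‖ := norm_sum_le _ _
      _ ≤ ∑ k ∈ Finset.range Z.card, ‖(Lagrange.basis Z v i).coeff k‖ * S := by
          refine Finset.sum_le_sum fun k hk => ?_
          rw [norm_mul]
          exact mul_le_mul_of_nonneg_left (hmax k hk) (norm_nonneg _)
      _ = _ := by rw [Finset.sum_mul]
  have h2 : Real.sqrt (∑ i ∈ Z, ‖α i‖ ^ 2) ≤ ∑ i ∈ Z, ‖α i‖ := by
    rw [Real.sqrt_le_left (Finset.sum_nonneg fun i _ => norm_nonneg _)]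
    exact Finset.sum_sq_le_sq_sum_of_nonneg fun i _ => norm_nonneg _
  have h3 : ∑ i ∈ Z, ‖α i‖ ≤ B * S := by
    rw [hB, Finset.sum_mul]
    exact Finset.sum_le_sum h1
  have h4 : Real.sqrt (∑ i ∈ Z, ‖α i‖ ^ 2) ≤ (B + 1) * S := by nlinarith
  rw [div_mul_eq_mul_div, one_mul, div_le_iff₀ (by positivity)]
  linarith

end Pool.Agent.Lib.MP_4ccfbf_an
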