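import Pool.Agent.Lib.MP_4ccfbf_an.Defs2
import Pool.Agent.Lib.MP_4ccfbf_an.BAS
import Pool.Agent.Lib.MP_4ccfbf_an.VAND

set_option autoImplicit false

open MeasureTheory Set Filter Topology Complex
open scoped ENNReal ComplexConjugate

namespace Pool.Agent.Lib.MP_4ccfbf_an

attribute [local instance] msCircle

/-! ## Module UNIQ : trigonometric polynomials vanishing on an open set -/

/-- the frequencies in the direction `(1, √2)` are distinct -/
theorem UNIQ_freq (k l : K2) (h : (k 0 : ℝ) + (k 1 : ℝ) * √2 = (l 0 : ℝ) + (l 1 : ℝ) * √2) :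
    k = l := by
  have h1 : k 1 = l 1 := by
    by_contra hne
    have hne' : ((k 1 : ℝ) - (l 1 : ℝ)) ≠ 0 := by
      intro h2
      apply hne
      have : (k 1 : ℝ) = (l 1 : ℝ) := by linarith
      exact_mod_cast this
    have h2 : √2 = ((l 0 : ℝ) - (k 0 : ℝ)) / ((k 1 : ℝ) - (l 1 : ℝ)) := by
      rw [eq_div_iff hne']
      linarith
    have h3 : Irrational (√2) := irrational_sqrt_two
    apply h3
    rw [h2]
    refine ⟨((l 0 : ℚ) - (k 0 : ℚ)) / ((k 1 : ℚ) - (l 1 : ℚ)), ?_⟩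
    push_cast
    rfl
  have h2 : k 0 = l 0 := by
    rw [h1] at h
    have : (k 0 : ℝ) = (l 0 : ℝ) := by linarith
    exact_mod_cast this
  funext i
  fin_cases i
  · exact h2
  · exact h1

/-- an exponential sum which vanishes near `0` has vanishing moments -/
theorem UNIQ_moments {ι : Type} (F : Finset ι) (α : ι → ℂ) (ω : ι → ℝ)
    (h : (fun t : ℝ => ∑ k ∈ F, α k * cexp (I * (ω k : ℂ) * (t : ℂ))) =ᶠ[𝓝 0] fun _ => 0)
    (j : ℕ) : ∑ k ∈ F, α k * (I * (ω k : ℂ)) ^ j = 0 := by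
  have hder : ∀ (j : ℕ) (t : ℝ),
      HasDerivAt (fun t : ℝ => ∑ k ∈ F, α k * (I * (ω k : ℂ)) ^ j * cexp (I * (ω k : ℂ) * (t : ℂ)))
        (∑ k ∈ F, α k * (I * (ω k : ℂ)) ^ (j + 1) * cexp (I * (ω k : ℂ) * (t : ℂ))) t := by
    intro j t
    apply HasDerivAt.fun_sum
    intro k _
    have h1 : HasDerivAt (fun t : ℝ => (I * (ω k : ℂ)) * (t : ℂ)) (I * (ω k : ℂ)) t := by
      have := (Complex.ofRealCLM.hasDerivAt (x := t)).const_mul (I * (ω k : ℂ))
      simpa using this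
    have h2 := (h1.cexp).const_mul (α k * (I * (ω k : ℂ)) ^ j)
    have h3 : α k * (I * (ω k : ℂ)) ^ (j + 1) * cexp (I * (ω k : ℂ) * (t : ℂ))
        = α k * (I * (ω k : ℂ)) ^ j * (cexp (I * (ω k : ℂ) * (t : ℂ)) * (I * (ω k : ℂ))) := by
      rw [pow_succ]
      ring
    rw [h3]
    exact h2
  have hj : ∀ j : ℕ, (fun t : ℝ => ∑ k ∈ F, α k * (I * (ω k : ℂ)) ^ j *
      cexp (I * (ω k : ℂ) * (t : ℂ))) =ᶠ[𝓝 0] fun _ => 0 := by
    intro j
    induction j with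
    | zero =>
      simpa using h
    | succ j ih =>
      have h1 := ih.deriv
      have h2 : deriv (fun t : ℝ => ∑ k ∈ F, α k * (I * (ω k : ℂ)) ^ j *
          cexp (I * (ω k : ℂ) * (t : ℂ))) = fun t : ℝ => ∑ k ∈ F, α k * (I * (ω k : ℂ)) ^ (j + 1) *
          cexp (I * (ω k : ℂ) * (t : ℂ)) := by
        funext t
        exact (hder j t).deriv
      rw [h2] at h1
      refine h1.trans ?_
      refine Filter.Eventually.of_forall fun t => ?_
      simp
  have h4 := (hj j).self_of_nhds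
  simpa using h4

theorem TP_uniq (F : Finset K2) (c : K2 → ℂ) (Ω : Set T2) (hΩ : IsOpen Ω) (hne : Ω.Nonempty)
    (h : ∀ z ∈ Ω, TP F c z = 0) : ∀ k ∈ F, c k = 0 := by
  intro k hk
  obtain ⟨z0, hz0⟩ := hne
  obtain ⟨ν, hν⟩ : ∃ ν : Fin 2 → ℝ, ν = ![1, √2] := ⟨_, rfl⟩
  obtain ⟨ω, hω⟩ : ∃ ω : K2 → ℝ, ω = fun k => 2 * Real.pi * ((k 0 : ℝ) + (k 1 : ℝ) * √2) :=
    ⟨_, rfl⟩
  have hinj : Set.InjOn ω (F : Set K2) := by
    intro a _ b _ hab
    rw [hω] at hab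
    have h1 : (2 * Real.pi) ≠ 0 := by positivity
    exact UNIQ_freq a b (mul_left_cancel₀ h1 hab)
  -- the line through `z0`
  have hcont : Continuous (fun t : ℝ => z0 + pt ν t) := by
    refine continuous_const.add ?_
    unfold pt
    refine continuous_pi fun i => ?_
    exact (AddCircle.continuous_mk' 1).comp (continuous_id.mul continuous_const)
  have hpt0 : z0 + pt ν 0 = z0 := by
    have : pt ν 0 = 0 := by
      funext i
      simp [pt]
    rw [this, add_zero]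
  have hev : ∀ᶠ t in 𝓝 (0 : ℝ), z0 + pt ν t ∈ Ω := by
    apply hcont.continuousAt.eventually
    show Ω ∈ 𝓝 (z0 + pt ν 0)
    rw [hpt0]
    exact hΩ.mem_nhds hz0
  have hzero : (fun t : ℝ => ∑ k ∈ F, (c k * ex k z0) * cexp (I * (ω k : ℂ) * (t : ℂ)))
      =ᶠ[𝓝 0] fun _ => 0 := by
    filter_upwards [hev] with t ht
    have h1 := h _ ht
    rw [← h1]
    unfold TP
    refine Finset.sum_congr rfl fun l _ => ?_
    rw [ex_add, ex_pt, hω, hν]
    have h2 : (2 * (Real.pi : ℂ) * I * ((((l 0 : ℝ) * (![1, √2] : Fin 2 → ℝ) 0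
        + (l 1 : ℝ) * (![1, √2] : Fin 2 → ℝ) 1 : ℝ) : ℂ) * (t : ℂ)))
        = I * ((2 * Real.pi * ((l 0 : ℝ) + (l 1 : ℝ) * √2) : ℝ) : ℂ) * (t : ℂ) := by
      simp only [Matrix.cons_val_zero, Matrix.cons_val_one, mul_one]
      push_cast
      ring
    rw [h2]
    ring
  have hmom := UNIQ_moments F (fun k => c k * ex k z0) ω hzero
  obtain ⟨C, hC, hv⟩ := vand F ω hinj ⟨k, hk⟩
  obtain ⟨j, -, hj⟩ := hv (fun k => c k * ex k z0)
  rw [hmom j, norm_zero] at hj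
  have h5 : Real.sqrt (∑ i ∈ F, ‖c i * ex i z0‖ ^ 2) ≤ 0 := by
    by_contra hcon
    have := mul_pos hC (not_le.1 hcon)
    linarith
  have h6 : ∑ i ∈ F, ‖c i * ex i z0‖ ^ 2 ≤ 0 := Real.sqrt_eq_zero'.1 (le_antisymm h5 (Real.sqrt_nonneg _))
  have h7 : ‖c k * ex k z0‖ ^ 2 ≤ 0 :=
    (Finset.single_le_sum (f := fun i => ‖c i * ex i z0‖ ^ 2) (fun i _ => by positivity) hk).trans h6
  have h8 : ‖c k * ex k z0‖ = 0 := by
    have := sq_nonneg ‖c k * ex k z0‖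
    exact pow_eq_zero_iff (two_ne_zero) |>.1 (le_antisymm h7 this)
  rw [norm_mul, norm_ex, mul_one, norm_eq_zero] at h8
  exact h8

end Pool.Agent.Lib.MP_4ccfbf_an
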