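import Pool.Agent.Lib.MP_4ccfbf_an.Defs2
import Pool.Agent.Lib.MP_4ccfbf_an.COB
import Pool.Agent.Lib.MP_4ccfbf_an.HHM
import Pool.Agent.Lib.MP_4ccfbf_an.DISS
import Pool.Agent.Lib.MP_4ccfbf_an.UNIQ

set_option autoImplicit false

open MeasureTheory Set Filter Topology Complex
open scoped ENNReal ComplexConjugate

namespace Pool.Agent.Lib.MP_4ccfbf_an

attribute [local instance] msCircle

/-! ## Module EIG : no imaginary eigenvalues -/

private lemma EIG_integrable_sq (h : HT) :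
    Integrable (fun z : T2 => ‖(h : T2 → ℂ) z‖ ^ 2) (volume : Measure T2) := by
  have h2 := (Lp.memLp h)
  exact h2.integrable_norm_pow (by norm_num)

private lemma EIG_mul_integrable {b : T2 → ℝ} {β : ℝ} (O : Ops b β) (h : HT) :
    Integrable (fun z : T2 => b z * ‖(h : T2 → ℂ) z‖ ^ 2) (volume : Measure T2) := by
  refine (EIG_integrable_sq h).bdd_mul (c := β) O.meas.aestronglyMeasurable ?_
  filter_upwards with z
  rw [Real.norm_eq_abs, abs_of_nonneg (O.nonneg z)]
  exact O.le z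

private lemma EIG_ae_zero {b : T2 → ℝ} {β : ℝ} (O : Ops b β) (h : HT)
    (h0 : ∫ z : T2, b z * ‖(h : T2 → ℂ) z‖ ^ 2 = 0) :
    ∀ᵐ z : T2, b z = 0 ∨ (h : T2 → ℂ) z = 0 := by
  have h1 := (integral_eq_zero_iff_of_nonneg (μ := (volume : Measure T2))
    (f := fun z : T2 => b z * ‖(h : T2 → ℂ) z‖ ^ 2)
    (fun z => mul_nonneg (O.nonneg z) (by positivity)) (EIG_mul_integrable O h)).1 h0
  filter_upwards [h1] with z hz
  simp only [Pi.zero_apply] at hz
  rcases mul_eq_zero.1 hz with h2 | h2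
  · exact Or.inl h2
  · right
    exact norm_eq_zero.1 (by simpa using h2)

private lemma EIG_TP_cont (F : Finset K2) (c : K2 → ℂ) : Continuous (TP F c) := by
  unfold TP ex
  fun_prop

private lemma EIG_TP_zero (F : Finset K2) (c : K2 → ℂ) (Ω : Set T2) (hΩ : IsOpen Ω)
    (h : ∀ᵐ z : T2, z ∈ Ω → TP F c z = 0) : ∀ z ∈ Ω, TP F c z = 0 := by
  intro z hz
  by_contra hne
  have hop : IsOpen (Ω ∩ {z | TP F c z ≠ 0}) :=
    hΩ.inter (isOpen_ne_fun (EIG_TP_cont F c) continuous_const)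
  have hpos := hop.measure_pos (volume : Measure T2) ⟨z, hz, hne⟩
  have h2 : (volume : Measure T2) (Ω ∩ {z | TP F c z ≠ 0}) = 0 := by
    rw [ae_iff] at h
    refine measure_mono_null ?_ h
    rintro w ⟨hw1, hw2⟩
    simp only [mem_ofPred_eq, Classical.not_imp]
    exact ⟨hw1, hw2⟩
  exact (ne_of_gt hpos) h2

theorem Bop_ker {b : T2 → ℝ} {β : ℝ} (O : Ops b β) (Ω : Set T2) (hΩ : IsOpen Ω)
    (hne : Ω.Nonempty) (c₀ : ℝ) (hc₀ : 0 < c₀) (hbc : ∀ z ∈ Ω, c₀ ≤ b z) (s : ℝ) (x : XT)
    (hx : ((s : ℂ) * I) • O.Bop x = x) : x = 0 := by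
  rcases eq_or_ne s 0 with hs | hs
  · rw [← hx, hs]; simp
  have hsI : (s : ℂ) * I ≠ 0 := by
    simp [hs]
  -- the integral vanishes
  have hint : ∫ z : T2, b z * ‖(O.hh x : T2 → ℂ) z‖ ^ 2 = 0 := by
    have h1 := Bop_diss O x
    have h2 : (inner ℂ (O.Bop x) x).re = 0 := by
      have h3 : inner ℂ (O.Bop x) x = inner ℂ (O.Bop x) (((s : ℂ) * I) • O.Bop x) := by
        rw [hx]
      rw [h3, inner_smul_right, inner_self_eq_norm_sq_to_K]
      simp [← Complex.ofReal_pow]
    rw [h2] at h1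
    linarith
  have hae := EIG_ae_zero O _ hint
  have hMB : O.MB (O.hh x) = 0 := by
    rw [Lp.eq_zero_iff_ae_eq_zero]
    filter_upwards [O.hMB (O.hh x), hae] with z h1 h2
    rw [h1]
    rcases h2 with h2 | h2 <;> simp [h2]
  have hae' : ∀ᵐ z : T2, z ∈ Ω → (O.hh x : T2 → ℂ) z = 0 := by
    filter_upwards [hae] with z h1 h2
    rcases h1 with h1 | h1
    · have := hbc z h2
      linarith
    · exact h1
  have hsnd : x.snd = ((s : ℂ) * I) • O.hh x := by
    conv_lhs => rw [← hx]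
    rw [WithLp.smul_snd, Bop_snd]
  have hfst : x.fst = ((s : ℂ) ^ 2) • O.D (O.hh x) := by
    conv_lhs => rw [← hx]
    rw [WithLp.smul_fst, Bop_fst, hMB, add_zero, hsnd, map_smul, ← smul_neg, smul_neg, smul_neg,
      smul_smul, ← neg_smul]
    congr 1
    have : I * I = -1 := Complex.I_mul_I
    linear_combination (-(s : ℂ) ^ 2) * this
  have hco0 : co (O.hh x) 0 = 0 := by
    have h1 := hh_mean O x
    rw [hMB, add_zero, hsnd, co_smul] at h1
    exact (mul_eq_zero.1 h1).resolve_left hsI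
  have hnsq : ∀ k : K2, k ≠ 0 → 0 < nsq k := by
    intro k hk
    unfold nsq
    have : k 0 ≠ 0 ∨ k 1 ≠ 0 := by
      by_contra hcon
      push Not at hcon
      apply hk
      funext i
      fin_cases i
      · exact hcon.1
      · exact hcon.2
    rcases this with h | h
    · have h' : (k 0 : ℝ) ≠ 0 := by exact_mod_cast h
      positivity
    · have h' : (k 1 : ℝ) ≠ 0 := by exact_mod_cast h
      positivity
  have hco : ∀ k : K2, nsq k ≠ s ^ 2 → co (O.hh x) k = 0 := by
    intro k hk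
    rcases eq_or_ne k 0 with h0 | h0
    · rw [h0]; exact hco0
    · have h1 := hh_co O x k h0
      rw [hfst, co_smul, O.hD, if_neg h0] at h1
      have hp := hnsq k h0
      have h2 : (((Real.sqrt (nsq k))⁻¹ : ℝ) : ℂ) * (((Real.sqrt (nsq k))⁻¹ : ℝ) : ℂ)
          = ((nsq k : ℝ) : ℂ)⁻¹ := by
        rw [← Complex.ofReal_mul, ← mul_inv, Real.mul_self_sqrt hp.le, Complex.ofReal_inv]
      have h3 : co (O.hh x) k * (1 - (s : ℂ) ^ 2 * ((nsq k : ℝ) : ℂ)⁻¹) = 0 := by
        rw [← h2]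
        linear_combination h1
      rcases mul_eq_zero.1 h3 with h4 | h4
      · exact h4
      · exfalso
        apply hk
        have hne' : ((nsq k : ℝ) : ℂ) ≠ 0 := by exact_mod_cast hp.ne'
        field_simp at h4
        have h5 : ((nsq k : ℝ) : ℂ) = (s : ℂ) ^ 2 := by linear_combination h4
        exact_mod_cast h5
  -- the finite box
  obtain ⟨N, hN⟩ := exists_nat_gt |s|
  set F : Finset K2 := Fintype.piFinset (fun _ : Fin 2 => Finset.Icc (-(N : ℤ)) (N : ℤ)) with hF
  have hout : ∀ k : K2, k ∉ F → co (O.hh x) k = 0 := by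
    intro k hk
    apply hco
    intro hkk
    apply hk
    rw [hF, Fintype.mem_piFinset]
    have hab : ∀ i : Fin 2, |(k i : ℝ)| ≤ |s| := by
      intro i
      apply sq_le_sq.1
      unfold nsq at hkk
      fin_cases i
      · have := sq_nonneg (k 1 : ℝ)
        simp only [Fin.zero_eta]
        linarith
      · have := sq_nonneg (k 0 : ℝ)
        simp only [Fin.mk_one]
        linarith
    intro i
    rw [Finset.mem_Icc]
    have h1 := (hab i).trans hN.le
    rw [abs_le] at h1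
    constructor
    · exact_mod_cast h1.1
    · exact_mod_cast h1.2
  obtain ⟨u, hu1, hu2⟩ := co_TP F (co (O.hh x))
  have hueq : u = O.hh x := by
    apply co_ext
    intro k
    rw [hu2]
    split_ifs with h
    · rfl
    · exact (hout k h).symm
  have hTP : ∀ᵐ z : T2, z ∈ Ω → TP F (co (O.hh x)) z = 0 := by
    filter_upwards [hu1, hae'] with z h1 h2 h3
    rw [← h1, hueq]
    exact h2 h3
  have hz := TP_uniq F (co (O.hh x)) Ω hΩ hne (EIG_TP_zero F _ Ω hΩ hTP)
  have hh0 : O.hh x = 0 := by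
    apply co_ext
    intro k
    have hc0 : co (0 : HT) k = 0 := by
      have := co_smul 0 (0 : HT) k
      simpa using this
    rw [hc0]
    by_cases hk : k ∈ F
    · exact hz k hk
    · exact hout k hk
  have h1 : x.snd = 0 := by rw [hsnd, hh0, smul_zero]
  have h2 : x.fst = 0 := by rw [hfst, hh0, map_zero, smul_zero]
  exact WithLp.ofLp_injective 2 (Prod.ext h2 h1)

end Pool.Agent.Lib.MP_4ccfbf_an
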