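import Pool.Agent.Lib.MP_4ccfbf_an.BAS

set_option autoImplicit false

open MeasureTheory Set Filter Topology Complex
open scoped ENNReal ComplexConjugate

namespace Pool.Agent.Lib.MP_4ccfbf_an

attribute [local instance] msCircle

lemma EN_int_b (b : T2 → ℝ) (hbm : Measurable b) (β : ℝ) (hb0 : ∀ z, 0 ≤ b z)
    (hbβ : ∀ z, b z ≤ β) {h : T2 → ℝ} (hh : Integrable h (volume : Measure T2)) :
    Integrable (fun z => b z * h z) (volume : Measure T2) := by
  refine hh.bdd_mul (c := β) hbm.aestronglyMeasurable (Filter.Eventually.of_forall (fun z => ?_))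
  rw [Real.norm_of_nonneg (hb0 z)]
  exact hbβ z

/-- Cauchy–Schwarz in the form we need it. -/
lemma EN_cs {f g : T2 → ℝ} (hf : Integrable (fun z => f z ^ 2) (volume : Measure T2))
    (hg : Integrable (fun z => g z ^ 2) (volume : Measure T2))
    (A : ℝ) (hA : 0 ≤ A) (hfA : ∫ z : T2, f z ^ 2 ≤ A ^ 2)
    (hg1 : ∫ z : T2, g z ^ 2 ≤ 1) (hfg : Integrable (fun z => f z * g z) (volume : Measure T2)) :
    ∫ z : T2, f z * g z ≤ A := by
  refine le_of_forall_pos_le_add (fun δ hδ => ?_)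
  have ht : 0 < A + 2 * δ := by positivity
  have h1 : ∫ z : T2, f z * g z ≤ ∫ z : T2, ((A + 2 * δ)⁻¹ / 2 * f z ^ 2
      + (A + 2 * δ) / 2 * g z ^ 2) := by
    refine integral_mono hfg ((hf.const_mul _).add (hg.const_mul _)) (fun z => ?_)
    have := two_mul_le_add_sq (f z) ((A + 2 * δ) * g z)
    have h2 : 2 * (f z * g z) * (A + 2 * δ) ≤ f z ^ 2 + (A + 2 * δ) ^ 2 * g z ^ 2 := by nlinarith
    have h3 : f z * g z ≤ (f z ^ 2 + (A + 2 * δ) ^ 2 * g z ^ 2) / (2 * (A + 2 * δ)) := by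
      rw [le_div_iff₀ (by positivity)]
      linarith
    refine h3.trans (le_of_eq ?_)
    field_simp
  rw [integral_add (hf.const_mul _) (hg.const_mul _), integral_const_mul,
    integral_const_mul] at h1
  have h4 : (A + 2 * δ)⁻¹ / 2 * ∫ z : T2, f z ^ 2 ≤ A / 2 := by
    have h5 : (A + 2 * δ)⁻¹ * ∫ z : T2, f z ^ 2 ≤ A := by
      rw [inv_mul_le_iff₀ ht]
      nlinarith
    linarith
  have h6 : (A + 2 * δ) / 2 * ∫ z : T2, g z ^ 2 ≤ (A + 2 * δ) / 2 := by
    have : (A + 2 * δ) / 2 * ∫ z : T2, g z ^ 2 ≤ (A + 2 * δ) / 2 * 1 :=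
      mul_le_mul_of_nonneg_left hg1 (by positivity)
    linarith
  linarith

theorem energy_est (b : T2 → ℝ) (hbm : Measurable b) (β : ℝ) (hb0 : ∀ z, 0 ≤ b z)
    (hbβ : ∀ z, b z ≤ β) (F : Finset K2) (c : K2 → ℂ) (s : ℝ) (hs : s ≠ 0)
    (hc : ∑ k ∈ F, ‖c k‖ ^ 2 = 1) (ε : ℝ) (hε : 0 ≤ ε)
    (hf : ∫ z : T2, ‖TP F (gco s c) z + I * s * b z * TP F c z‖ ^ 2 ≤ ε ^ 2) :
    (∫ z : T2, b z * ‖TP F c z‖ ^ 2) ≤ ε / |s| ∧
      ∫ z : T2, ‖TP F (gco s c) z‖ ^ 2 ≤ 2 * ε ^ 2 + 2 * |s| * β * ε := by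
  have hs' : 0 < |s| := abs_pos.mpr hs
  have hβ : 0 ≤ β := (hb0 0).trans (hbβ 0)
  have hu := TP_continuous F c
  have hg := TP_continuous F (gco s c)
  set u : T2 → ℂ := TP F c with hudef
  set g : T2 → ℂ := TP F (gco s c) with hgdef
  set f : T2 → ℂ := fun z => g z + I * s * b z * u z with hfdef
  -- integrability
  have hfm : Measurable f := by
    refine hg.measurable.add (Measurable.mul (Measurable.mul measurable_const ?_) hu.measurable)
    exact Complex.measurable_ofReal.comp hbm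
  have hfb : ∃ M : ℝ, 0 ≤ M ∧ ∀ z, ‖f z‖ ≤ M := by
    refine ⟨(∑ k ∈ F, ‖gco s c k‖) + |s| * β * ∑ k ∈ F, ‖c k‖, by positivity, fun z => ?_⟩
    refine (norm_add_le _ _).trans (add_le_add (TP_norm_le _ _ _) ?_)
    rw [norm_mul, norm_mul, norm_mul, norm_I, one_mul, Complex.norm_real, Complex.norm_real,
      Real.norm_eq_abs, Real.norm_eq_abs, abs_of_nonneg (hb0 z)]
    exact mul_le_mul (mul_le_mul_of_nonneg_left (hbβ z) hs'.le) (TP_norm_le _ _ _)
      (norm_nonneg _) (by positivity)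
  obtain ⟨M, hM0, hM⟩ := hfb
  obtain ⟨Mu, hMu0, hMu⟩ : ∃ M : ℝ, 0 ≤ M ∧ ∀ z, ‖u z‖ ≤ M :=
    ⟨∑ k ∈ F, ‖c k‖, by positivity, fun z => TP_norm_le _ _ _⟩
  have iF : Integrable (fun z => ‖f z‖ ^ 2) (volume : Measure T2) := by
    refine Integrable.of_bound (hfm.norm.pow_const 2).aestronglyMeasurable (M ^ 2)
      (Filter.Eventually.of_forall (fun z => ?_))
    rw [Real.norm_of_nonneg (by positivity)]
    exact pow_le_pow_left₀ (norm_nonneg _) (hM z) 2
  have iU : Integrable (fun z => ‖u z‖ ^ 2) (volume : Measure T2) :=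
    BAS_integrable (hu.norm.pow 2)
  have iG : Integrable (fun z => ‖g z‖ ^ 2) (volume : Measure T2) :=
    BAS_integrable (hg.norm.pow 2)
  have iFU : Integrable (fun z => ‖f z‖ * ‖u z‖) (volume : Measure T2) := by
    refine Integrable.of_bound (hfm.norm.mul hu.norm.measurable).aestronglyMeasurable (M * Mu)
      (Filter.Eventually.of_forall (fun z => ?_))
    rw [Real.norm_of_nonneg (by positivity)]
    exact mul_le_mul (hM z) (hMu z) (norm_nonneg _) hM0
  have iBU : Integrable (fun z => b z * ‖u z‖ ^ 2) (volume : Measure T2) :=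
    EN_int_b b hbm β hb0 hbβ iU
  have iIm : Integrable (fun z => (f z * conj (u z)).im) (volume : Measure T2) := by
    refine Integrable.of_bound (Complex.measurable_im.comp
      (hfm.mul (continuous_conj.comp hu).measurable)).aestronglyMeasurable (M * Mu)
      (Filter.Eventually.of_forall (fun z => ?_))
    rw [Real.norm_eq_abs]
    refine (Complex.abs_im_le_norm _).trans ?_
    rw [norm_mul, RCLike.norm_conj]
    exact mul_le_mul (hM z) (hMu z) (norm_nonneg _) hM0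
  have iGU : Integrable (fun z => g z * conj (u z)) (volume : Measure T2) :=
    BAS_integrable (hg.mul (continuous_conj.comp hu))
  -- the first claim
  have hBnn : 0 ≤ ∫ z : T2, b z * ‖u z‖ ^ 2 :=
    integral_nonneg (fun z => mul_nonneg (hb0 z) (by positivity))
  have hU1 : ∫ z : T2, ‖u z‖ ^ 2 = 1 := by rw [hudef, TP_parseval, hc]
  have hGim : ∫ z : T2, (g z * conj (u z)).im = 0 := by
    have h1 : ∫ z : T2, (g z * conj (u z)).im = (∫ z : T2, g z * conj (u z)).im := by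
      exact integral_im (𝕜 := ℂ) iGU
    rw [h1, hudef, hgdef, TP_inner, Complex.im_sum]
    refine Finset.sum_eq_zero (fun k _ => ?_)
    rw [gco, mul_assoc, Complex.mul_conj, ← Complex.ofReal_mul, Complex.ofReal_im]
  have hpt : ∀ z, (f z * conj (u z)).im = (g z * conj (u z)).im + s * (b z * ‖u z‖ ^ 2) := by
    intro z
    have : f z * conj (u z) = g z * conj (u z) + I * ((s * (b z * ‖u z‖ ^ 2) : ℝ) : ℂ) := by
      rw [hfdef]
      simp only
      rw [add_mul]
      congr 1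
      rw [mul_assoc, Complex.mul_conj, Complex.normSq_eq_norm_sq]
      push_cast
      ring
    rw [this, Complex.add_im, Complex.I_mul_im, Complex.ofReal_re]
  have h1 : s * ∫ z : T2, b z * ‖u z‖ ^ 2 = ∫ z : T2, (f z * conj (u z)).im := by
    have iGim : Integrable (fun z => (g z * conj (u z)).im) (volume : Measure T2) := iGU.im
    simp only [hpt]
    rw [integral_add iGim (iBU.const_mul _), integral_const_mul, hGim, zero_add]
  have hcs : ∫ z : T2, ‖f z‖ * ‖u z‖ ≤ ε :=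
    EN_cs iF iU ε hε hf hU1.le iFU
  have h2 : |s| * ∫ z : T2, b z * ‖u z‖ ^ 2 ≤ ε := by
    have : |s| * ∫ z : T2, b z * ‖u z‖ ^ 2 = |∫ z : T2, (f z * conj (u z)).im| := by
      rw [← h1, abs_mul, abs_of_nonneg hBnn]
    rw [this]
    refine (abs_integral_le_integral_abs).trans (le_trans ?_ hcs)
    refine integral_mono iIm.abs iFU (fun z => ?_)
    refine (Complex.abs_im_le_norm _).trans ?_
    rw [norm_mul, RCLike.norm_conj]
  refine ⟨by rw [le_div_iff₀ hs']; linarith, ?_⟩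
  -- the second claim
  have h3 : ∫ z : T2, ‖g z‖ ^ 2 ≤ ∫ z : T2, (2 * ‖f z‖ ^ 2
      + 2 * s ^ 2 * β * (b z * ‖u z‖ ^ 2)) := by
    refine integral_mono iG ((iF.const_mul _).add (iBU.const_mul _)) (fun z => ?_)
    have e1 : g z = f z - I * s * b z * u z := by rw [hfdef]; ring
    have e2 : ‖I * s * b z * u z‖ = |s| * b z * ‖u z‖ := by
      rw [norm_mul, norm_mul, norm_mul, norm_I, one_mul, Complex.norm_real, Complex.norm_real,
        Real.norm_eq_abs, Real.norm_eq_abs, abs_of_nonneg (hb0 z)]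
    have e3 : ‖g z‖ ≤ ‖f z‖ + |s| * b z * ‖u z‖ := by
      rw [← e2]
      conv_lhs => rw [e1]
      exact norm_sub_le _ _
    have e4 : ‖g z‖ ^ 2 ≤ (‖f z‖ + |s| * b z * ‖u z‖) ^ 2 :=
      pow_le_pow_left₀ (norm_nonneg _) e3 2
    have e5 : (|s| * b z * ‖u z‖) ^ 2 ≤ s ^ 2 * β * (b z * ‖u z‖ ^ 2) := by
      have : (|s| * b z * ‖u z‖) ^ 2 = s ^ 2 * b z * (b z * ‖u z‖ ^ 2) := by
        rw [mul_pow, mul_pow, sq_abs]; ring
      rw [this]
      refine mul_le_mul_of_nonneg_right ?_ (mul_nonneg (hb0 z) (by positivity))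
      exact mul_le_mul_of_nonneg_left (hbβ z) (by positivity)
    simp only
    nlinarith [sq_nonneg (‖f z‖ - |s| * b z * ‖u z‖)]
  rw [integral_add (iF.const_mul _) (iBU.const_mul _), integral_const_mul,
    integral_const_mul] at h3
  have h4 : 2 * s ^ 2 * β * ∫ z : T2, b z * ‖u z‖ ^ 2 ≤ 2 * |s| * β * ε := by
    have : 2 * s ^ 2 * β * ∫ z : T2, b z * ‖u z‖ ^ 2
        = 2 * |s| * β * (|s| * ∫ z : T2, b z * ‖u z‖ ^ 2) := by
      rw [← sq_abs s]; ring
    rw [this]
    exact mul_le_mul_of_nonneg_left h2 (by positivity)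
  linarith

end Pool.Agent.Lib.MP_4ccfbf_an
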