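import Pool.Agent.Lib.MP_4ccfbf_an.SUBL
import Pool.Agent.Lib.MP_4ccfbf_an.VAND

set_option autoImplicit false

open MeasureTheory Set Filter Topology Complex
open scoped ENNReal ComplexConjugate

namespace Pool.Agent.Lib.MP_4ccfbf_an

attribute [local instance] msCircle

lemma EXPF_int (θ β τ e : ℝ) (hθ : 0 < θ) (hτ : 0 ≤ τ) (he : 0 ≤ e) (hβ : 0 ≤ β)
    (f q : ℝ → ℝ) (hf : Measurable f)
    (hf0 : ∀ t, 0 ≤ f t) (hfβ : ∀ t, f t ≤ β) (hq : Continuous q) (hq0 : ∀ t, 0 ≤ q t)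
    (E : Set ℝ) (hE : MeasurableSet E) (hvol : volume E ≤ ENNReal.ofReal e)
    (hτq : ∀ t ∈ Icc 0 θ, t ∉ E → τ ≤ q t) :
    τ * ((∫ t in (0 : ℝ)..θ, f t) - β * e) ≤ ∫ t in (0 : ℝ)..θ, f t * q t := by
  rw [intervalIntegral.integral_of_le hθ.le, intervalIntegral.integral_of_le hθ.le]
  have hfin : volume (Ioc (0 : ℝ) θ) < ⊤ := measure_Ioc_lt_top
  have hfi : IntegrableOn f (Ioc 0 θ) volume := by
    refine Measure.integrableOn_of_bounded (M := β) hfin.ne hf.aestronglyMeasurable ?_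
    exact ae_of_all _ fun t => by rw [Real.norm_of_nonneg (hf0 t)]; exact hfβ t
  obtain ⟨B, hB⟩ := (isCompact_Icc (a := (0 : ℝ)) (b := θ)).exists_bound_of_continuousOn
    hq.continuousOn
  have hfq : IntegrableOn (fun t => f t * q t) (Ioc 0 θ) volume := by
    refine Measure.integrableOn_of_bounded (M := β * B) hfin.ne
      (hf.mul hq.measurable).aestronglyMeasurable ?_
    rw [ae_restrict_iff' measurableSet_Ioc]
    refine ae_of_all _ fun t ht => ?_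
    rw [norm_mul, Real.norm_of_nonneg (hf0 t)]
    exact mul_le_mul (hfβ t) (hB t (Ioc_subset_Icc_self ht)) (norm_nonneg _) hβ
  have hind : IntegrableOn (E.indicator (fun _ => (1 : ℝ))) (Ioc 0 θ) volume := by
    refine Measure.integrableOn_of_bounded (M := 1) hfin.ne
      ((measurable_const.indicator hE).aestronglyMeasurable) ?_
    refine ae_of_all _ fun t => ?_
    by_cases h : t ∈ E
    · simp [h]
    · simp [h]
  have hle : ∫ t in Ioc 0 θ, τ * (f t - β * E.indicator (fun _ => (1 : ℝ)) t)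
      ≤ ∫ t in Ioc 0 θ, f t * q t := by
    refine setIntegral_mono_on ((hfi.sub (hind.const_mul β)).const_mul τ) hfq measurableSet_Ioc ?_
    intro t ht
    by_cases h : t ∈ E
    · have h1 : f t - β * E.indicator (fun _ => (1 : ℝ)) t ≤ 0 := by
        simp only [Set.indicator_of_mem h]
        linarith [hfβ t]
      exact (mul_nonpos_of_nonneg_of_nonpos hτ h1).trans (mul_nonneg (hf0 t) (hq0 t))
    · simp only [Set.indicator_of_notMem h, mul_zero, sub_zero]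
      rw [mul_comm]
      exact mul_le_mul_of_nonneg_left (hτq t (Ioc_subset_Icc_self ht) h) (hf0 t)
  refine le_trans ?_ hle
  rw [integral_const_mul]
  refine mul_le_mul_of_nonneg_left ?_ hτ
  rw [integral_sub hfi (hind.const_mul β), integral_const_mul]
  have h2 : ∫ t in Ioc 0 θ, E.indicator (fun _ => (1 : ℝ)) t ≤ e := by
    rw [integral_indicator hE, Measure.restrict_restrict hE, setIntegral_const, smul_eq_mul,
      mul_one]
    exact ENNReal.toReal_le_of_le_ofReal he ((measure_mono inter_subset_left).trans hvol)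
  linarith [mul_le_mul_of_nonneg_left h2 hβ]

/-- The derivatives of an exponential sum. -/
noncomputable def EXPF_p {ι : Type} (Z : Finset ι) (ω : ι → ℝ) (α : ι → ℂ) (j : ℕ) (t : ℝ) : ℂ :=
  ∑ i ∈ Z, α i * (I * (ω i : ℂ)) ^ j * cexp (I * (ω i * t))

lemma EXPF_deriv {ι : Type} (Z : Finset ι) (ω : ι → ℝ) (α : ι → ℂ) (j : ℕ) (t : ℝ) :
    HasDerivAt (EXPF_p Z ω α j) (EXPF_p Z ω α (j + 1) t) t := by
  unfold EXPF_p
  refine HasDerivAt.fun_sum fun i _ => ?_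
  have h1 : HasDerivAt (fun t : ℝ => I * ((ω i : ℂ) * (t : ℂ))) (I * ((ω i : ℂ) * 1)) t :=
    ((hasDerivAt_id t).ofReal_comp.const_mul (ω i : ℂ)).const_mul I
  have h2 := (h1.cexp).const_mul (α i * (I * (ω i : ℂ)) ^ j)
  refine h2.congr_deriv ?_
  rw [pow_succ]
  ring

lemma EXPF_zero {ι : Type} (Z : Finset ι) (ω : ι → ℝ) (α : ι → ℂ) (j : ℕ) :
    EXPF_p Z ω α j 0 = ∑ i ∈ Z, α i * (I * (ω i : ℂ)) ^ j := by
  unfold EXPF_p
  refine Finset.sum_congr rfl fun i _ => ?_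
  simp

lemma EXPF_norm_le {ι : Type} (Z : Finset ι) (α : ι → ℂ) (i : ι) (hi : i ∈ Z) :
    ‖α i‖ ≤ Real.sqrt (∑ i ∈ Z, ‖α i‖ ^ 2) := by
  refine Real.le_sqrt_of_sq_le ?_
  exact Finset.single_le_sum (f := fun i => ‖α i‖ ^ 2) (fun i _ => by positivity) hi

lemma EXPF_close {ι : Type} (Z : Finset ι) (ω : ι → ℝ) (α : ι → ℂ) (j : ℕ) (hj : j < Z.card)
    (t : ℝ) (ht : 0 ≤ t) :
    ‖EXPF_p Z ω α j t - EXPF_p Z ω α j 0‖
      ≤ Real.sqrt (∑ i ∈ Z, ‖α i‖ ^ 2) *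
        (∑ i ∈ Z, ∑ k ∈ Finset.range Z.card, |ω i| ^ (k + 1)) * t := by
  have h0 : EXPF_p Z ω α j t - EXPF_p Z ω α j 0
      = ∑ i ∈ Z, α i * (I * (ω i : ℂ)) ^ j * (cexp (I * ((ω i * t : ℝ) : ℂ)) - 1) := by
    rw [EXPF_zero]
    unfold EXPF_p
    rw [← Finset.sum_sub_distrib]
    refine Finset.sum_congr rfl fun i _ => ?_
    push_cast
    ring
  rw [h0]
  refine (norm_sum_le _ _).trans ?_
  rw [Finset.mul_sum, Finset.sum_mul]
  refine Finset.sum_le_sum fun i hi => ?_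
  rw [norm_mul, norm_mul, norm_pow, norm_mul, Complex.norm_I, one_mul, Complex.norm_real,
    Real.norm_eq_abs]
  have h1 : ‖cexp (I * ((ω i * t : ℝ) : ℂ)) - 1‖ ≤ |ω i| * t := by
    have := Real.norm_exp_I_mul_ofReal_sub_one_le (x := ω i * t)
    rwa [Real.norm_eq_abs, abs_mul, abs_of_nonneg ht] at this
  have h2 : |ω i| ^ j * |ω i| ≤ ∑ k ∈ Finset.range Z.card, |ω i| ^ (k + 1) := by
    rw [← pow_succ]
    exact Finset.single_le_sum (f := fun k => |ω i| ^ (k + 1)) (fun k _ => by positivity)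
      (Finset.mem_range.2 hj)
  calc ‖α i‖ * |ω i| ^ j * ‖cexp (I * ((ω i * t : ℝ) : ℂ)) - 1‖
      ≤ Real.sqrt (∑ i ∈ Z, ‖α i‖ ^ 2) * |ω i| ^ j * (|ω i| * t) := by
        refine mul_le_mul (mul_le_mul_of_nonneg_right (EXPF_norm_le Z α i hi) (by positivity)) h1
          (norm_nonneg _) (by positivity)
    _ = Real.sqrt (∑ i ∈ Z, ‖α i‖ ^ 2) * (|ω i| ^ j * |ω i|) * t := by ring
    _ ≤ _ := by
        refine mul_le_mul_of_nonneg_right (mul_le_mul_of_nonneg_left h2 (Real.sqrt_nonneg _)) ht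

/-- the sublevel estimate for exponential sums. -/
lemma EXPF_level {ι : Type} (Z : Finset ι) (ω : ι → ℝ) (hω : Set.InjOn ω (Z : Set ι))
    (hZ : Z.Nonempty) :
    ∃ c : ℝ, 0 < c ∧ ∃ θ₀ : ℝ, 0 < θ₀ ∧ θ₀ ≤ 1 ∧ ∃ C : ℝ, 1 ≤ C ∧ ∀ α : ι → ℂ,
      0 < Real.sqrt (∑ i ∈ Z, ‖α i‖ ^ 2) → ∀ y : ℝ, 0 ≤ y → y ≤ 1 →
      ∃ E : Set ℝ, MeasurableSet E ∧ volume E ≤ ENNReal.ofReal (C * y) ∧
        ∀ t ∈ Icc 0 θ₀, t ∉ E →
          c * y ^ Z.card * Real.sqrt (∑ i ∈ Z, ‖α i‖ ^ 2) ≤ ‖EXPF_p Z ω α 0 t‖ := by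
  obtain ⟨c, hc, hvand⟩ := vand Z ω hω hZ
  choose Cn hCn hsub using sublevel
  set K : ℝ := ∑ i ∈ Z, ∑ k ∈ Finset.range Z.card, |ω i| ^ (k + 1) with hK
  have hK0 : 0 ≤ K := Finset.sum_nonneg fun i _ => Finset.sum_nonneg fun k _ => by positivity
  set θ₀ : ℝ := min 1 (c / (2 * (K + 1))) with hθ
  have hθ0 : 0 < θ₀ := lt_min one_pos (by positivity)
  have hθK : K * θ₀ ≤ c / 2 := by
    have h1 : θ₀ ≤ c / (2 * (K + 1)) := min_le_right _ _
    calc K * θ₀ ≤ K * (c / (2 * (K + 1))) := mul_le_mul_of_nonneg_left h1 hK0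
      _ = (K / (K + 1)) * (c / 2) := by
        field_simp
      _ ≤ 1 * (c / 2) := by
        refine mul_le_mul_of_nonneg_right ?_ (by positivity)
        rw [div_le_one (by positivity)]
        linarith
      _ = c / 2 := one_mul _
  set C : ℝ := 1 + ∑ j ∈ Finset.range Z.card, Cn j with hC
  have hCj : ∀ j < Z.card, Cn j ≤ C := by
    intro j hj
    have := Finset.single_le_sum (f := Cn) (fun k _ => (hCn k).le) (Finset.mem_range.2 hj)
    linarith
  have hC1 : 1 ≤ C := by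
    have : 0 ≤ ∑ j ∈ Finset.range Z.card, Cn j := Finset.sum_nonneg fun k _ => (hCn k).le
    linarith
  refine ⟨c / 2, by positivity, θ₀, hθ0, min_le_left _ _, C, hC1, ?_⟩
  intro α hA y hy0 hy1
  set A : ℝ := Real.sqrt (∑ i ∈ Z, ‖α i‖ ^ 2) with hAdef
  obtain ⟨j, hj, hcj⟩ := hvand α
  rw [← EXPF_zero] at hcj
  -- the phase
  set P : ℂ := EXPF_p Z ω α j 0 with hP
  have hP0 : 0 < ‖P‖ := lt_of_lt_of_le (by positivity) hcj
  have hPne : P ≠ 0 := norm_pos_iff.1 hP0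
  set u : ℂ := conj P / (‖P‖ : ℂ) with hu
  have hun : ‖u‖ = 1 := by
    rw [hu, norm_div, RCLike.norm_conj, Complex.norm_real, Real.norm_of_nonneg hP0.le,
      div_self hP0.ne']
  have huP : u * P = (‖P‖ : ℂ) := by
    rw [hu, div_mul_eq_mul_div, mul_comm, Complex.mul_conj, Complex.normSq_eq_norm_sq]
    push_cast
    rw [pow_two, mul_div_assoc, div_self (by exact_mod_cast hP0.ne'), mul_one]
  set G : ℕ → ℝ → ℝ := fun i t => (u * EXPF_p Z ω α i t).re with hG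
  have hGd : ∀ i t, HasDerivAt (G i) (G (i + 1) t) t := by
    intro i t
    have h1 := (EXPF_deriv Z ω α i t).const_mul u
    exact Complex.reCLM.hasFDerivAt.comp_hasDerivAt t h1
  have hGle : ∀ t, |G 0 t| ≤ ‖EXPF_p Z ω α 0 t‖ := by
    intro t
    refine (Complex.abs_re_le_norm _).trans ?_
    rw [norm_mul, hun, one_mul]
  have hGj : ∀ t ∈ Icc 0 θ₀, c / 2 * A ≤ G j t := by
    intro t ht
    have h1 := EXPF_close Z ω α j hj t ht.1
    have h2 : G j t = ‖P‖ + (u * (EXPF_p Z ω α j t - EXPF_p Z ω α j 0)).re := by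
      simp only [hG]
      rw [mul_sub, Complex.sub_re, ← hP, huP, Complex.ofReal_re]
      ring
    have h3 : |(u * (EXPF_p Z ω α j t - EXPF_p Z ω α j 0)).re| ≤ A * K * t := by
      refine (Complex.abs_re_le_norm _).trans ?_
      rw [norm_mul, hun, one_mul]
      exact h1
    have h4 : A * K * t ≤ c / 2 * A := by
      have : K * t ≤ K * θ₀ := mul_le_mul_of_nonneg_left ht.2 hK0
      have h5 : K * t ≤ c / 2 := this.trans hθK
      calc A * K * t = (K * t) * A := by ring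
        _ ≤ c / 2 * A := mul_le_mul_of_nonneg_right h5 hA.le
    rw [h2]
    have := (abs_le.1 h3).1
    have h6 : c / 2 * A + c / 2 * A = c * A := by ring
    linarith
  have hG0c : Continuous (G 0) := continuous_iff_continuousAt.2 fun t => (hGd 0 t).continuousAt
  have hcard : 0 < Z.card := Finset.card_pos.2 hZ
  rcases Nat.eq_zero_or_pos j with h0 | h0
  · subst h0
    refine ⟨∅, MeasurableSet.empty, by simp, ?_⟩
    intro t ht _
    have h1 := hGj t ht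
    have h2 := (le_abs_self _).trans (hGle t)
    have h3 : y ^ Z.card ≤ 1 := pow_le_one₀ hy0 hy1
    calc c / 2 * y ^ Z.card * A ≤ c / 2 * 1 * A := by
          refine mul_le_mul_of_nonneg_right (mul_le_mul_of_nonneg_left h3 (by positivity)) hA.le
      _ = c / 2 * A := by ring
      _ ≤ _ := h1.trans h2
  · obtain ⟨n, rfl⟩ : ∃ n, j = n + 1 := ⟨j - 1, by omega⟩
    refine ⟨{t : ℝ | t ∈ Icc 0 θ₀ ∧ |G 0 t| ≤ c / 2 * y ^ Z.card * A}, ?_, ?_, ?_⟩
    · exact measurableSet_Icc.inter (measurableSet_le hG0c.abs.measurable measurable_const)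
    · have hm : 0 < c / 2 * A := by positivity
      have h1 := hsub n G 0 θ₀ (c / 2 * A) (c / 2 * y ^ Z.card * A) hm (by positivity)
        (fun i _ t _ => hGd i t) (Or.inl hGj)
      refine h1.trans (ENNReal.ofReal_le_ofReal ?_)
      have h2 : c / 2 * y ^ Z.card * A / (c / 2 * A) = y ^ Z.card := by
        field_simp
      rw [h2]
      refine mul_le_mul (hCj n (by omega)) ?_ (by positivity) (by linarith)
      rw [← Real.rpow_natCast y Z.card, ← Real.rpow_mul hy0]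
      rcases hy0.eq_or_lt with h | h
      · rw [← h]
        rw [Real.zero_rpow]
        have : (0 : ℝ) < Z.card := by exact_mod_cast hcard
        positivity
      · refine (Real.rpow_le_rpow_of_exponent_ge h hy1 (?_ : (1 : ℝ) ≤ _)).trans_eq
          (Real.rpow_one y)
        rw [mul_one_div, le_div_iff₀ (by positivity), one_mul]
        have : n + 1 ≤ Z.card := by omega
        exact_mod_cast this
    · intro t ht htE
      by_contra hcon
      rw [not_le] at hcon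
      exact htE ⟨ht, (hGle t).trans hcon.le⟩

theorem expsum {ι : Type} (Z : Finset ι) (ω : ι → ℝ) (hω : Set.InjOn ω (Z : Set ι))
    (β : ℝ) (hβ : 0 < β) :
    ∃ θ₀ : ℝ, 0 < θ₀ ∧ ∃ c₂ : ℝ, 0 < c₂ ∧ ∃ M : ℕ, 1 ≤ M ∧ ∀ f : ℝ → ℝ, Measurable f →
      (∀ t, 0 ≤ f t) → (∀ t, f t ≤ β) → ∀ α : ι → ℂ,
        c₂ * ((∫ t in (0 : ℝ)..θ₀, f t) / θ₀) ^ M * ∑ i ∈ Z, ‖α i‖ ^ 2
          ≤ (∫ t in (0 : ℝ)..θ₀, f t * ‖∑ i ∈ Z, α i * cexp (I * (ω i * t))‖ ^ 2) / θ₀ := by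
  rcases Z.eq_empty_or_nonempty with hZ | hZ
  · subst hZ
    exact ⟨1, one_pos, 1, one_pos, 1, le_rfl, fun f _ _ _ α => by simp⟩
  obtain ⟨c, hc, θ₀, hθ0, hθ1, C, hC1, hlev⟩ := EXPF_level Z ω hω hZ
  have hC0 : 0 < C := by linarith
  refine ⟨θ₀, hθ0, c ^ 2 / 2 * (θ₀ / (2 * β * C)) ^ (2 * Z.card), by positivity,
    2 * Z.card + 1, by omega, ?_⟩
  intro f hf hf0 hfβ α
  have hq : Continuous (EXPF_p Z ω α 0) :=
    continuous_iff_continuousAt.2 fun t => (EXPF_deriv Z ω α 0 t).continuousAt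
  have hpe : ∀ t : ℝ, ∑ i ∈ Z, α i * cexp (I * (ω i * t)) = EXPF_p Z ω α 0 t := by
    intro t
    unfold EXPF_p
    refine Finset.sum_congr rfl fun i _ => ?_
    simp
  simp_rw [hpe]
  have hSum0 : 0 ≤ ∑ i ∈ Z, ‖α i‖ ^ 2 := Finset.sum_nonneg fun i _ => by positivity
  have hRHS : 0 ≤ (∫ t in (0 : ℝ)..θ₀, f t * ‖EXPF_p Z ω α 0 t‖ ^ 2) / θ₀ := by
    refine div_nonneg (intervalIntegral.integral_nonneg hθ0.le fun t _ => ?_) hθ0.le
    exact mul_nonneg (hf0 t) (by positivity)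
  rcases hSum0.eq_or_lt with h0 | h0
  · rw [← h0, mul_zero]
    exact hRHS
  have hA : 0 < Real.sqrt (∑ i ∈ Z, ‖α i‖ ^ 2) := Real.sqrt_pos.2 h0
  set A : ℝ := Real.sqrt (∑ i ∈ Z, ‖α i‖ ^ 2) with hAdef
  have hA2 : ∑ i ∈ Z, ‖α i‖ ^ 2 = A ^ 2 := (Real.sq_sqrt hSum0).symm
  set fb : ℝ := (∫ t in (0 : ℝ)..θ₀, f t) / θ₀ with hfb
  have hint : ∫ t in (0 : ℝ)..θ₀, f t = θ₀ * fb := by
    rw [hfb]
    field_simp
  have hfb0 : 0 ≤ fb := div_nonneg (intervalIntegral.integral_nonneg hθ0.le fun t _ => hf0 t) hθ0.le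
  have hfbβ : fb ≤ β := by
    rw [hfb, div_le_iff₀ hθ0]
    have h1 : ‖∫ t in (0 : ℝ)..θ₀, f t‖ ≤ β * |θ₀ - 0| :=
      intervalIntegral.norm_integral_le_of_norm_le_const fun t _ => by
        rw [Real.norm_of_nonneg (hf0 t)]
        exact hfβ t
    rw [sub_zero, abs_of_pos hθ0] at h1
    exact (le_abs_self _).trans h1
  set y : ℝ := θ₀ * fb / (2 * β * C) with hy
  have hy0 : 0 ≤ y := by positivity
  have hy1 : y ≤ 1 := by
    rw [hy, div_le_one (by positivity)]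
    calc θ₀ * fb ≤ 1 * β := mul_le_mul hθ1 hfbβ hfb0 (by norm_num)
      _ ≤ 2 * β * C := by nlinarith
  obtain ⟨E, hE, hvol, hlow⟩ := hlev α hA y hy0 hy1
  have hmain := EXPF_int θ₀ β ((c * y ^ Z.card * A) ^ 2) (C * y) hθ0 (by positivity)
    (by positivity) hβ.le f (fun t => ‖EXPF_p Z ω α 0 t‖ ^ 2) hf hf0 hfβ
    (hq.norm.pow 2) (fun t => by positivity) E hE hvol
    (fun t ht htE => pow_le_pow_left₀ (by positivity) (hlow t ht htE) 2)
  have hCy : β * (C * y) = θ₀ * fb / 2 := by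
    rw [hy]
    field_simp
  rw [hint, hCy] at hmain
  rw [hA2, le_div_iff₀ hθ0]
  refine le_trans (le_of_eq ?_) hmain
  have hy' : y = (θ₀ / (2 * β * C)) * fb := by
    rw [hy]
    ring
  rw [mul_pow, mul_pow, ← pow_mul, mul_comm Z.card 2, hy', mul_pow, pow_succ]
  ring

end Pool.Agent.Lib.MP_4ccfbf_an
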