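import Pool.Agent.Lib.MP_4ccfbf_an.Defs2

set_option autoImplicit false

/-!
Module LOWA : low frequencies, abstract.
-/

open MeasureTheory Set Filter Topology Complex
open scoped ENNReal ComplexConjugate

namespace Pool.Agent.Lib.MP_4ccfbf_an

attribute [local instance] msCircle

section Abs

variable {X : Type} [NormedAddCommGroup X] [InnerProductSpace ℂ X] [CompleteSpace X]

theorem low_abs (B : X →L[ℂ] X) (hB : IsCompactOperator B)
    (hker : ∀ (s : ℝ) (x : X), ((s : ℂ) * I) • B x = x → x = 0) (S : ℝ) :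
    ∃ C : ℝ, 0 ≤ C ∧ ∀ s : ℝ, |s| ≤ S → ∀ x : X, ‖B x‖ ≤ C * ‖((s : ℂ) * I) • B x - x‖ := by
  by_contra hcon
  push Not at hcon
  have h1 : ∀ n : ℕ, ∃ (s : ℝ) (x : X), |s| ≤ S ∧ ‖B x‖ = 1 ∧
      ‖((s : ℂ) * I) • B x - x‖ ≤ 1 / ((n : ℝ) + 1) := by
    intro n
    obtain ⟨s, hs, x, hx⟩ := hcon ((n : ℝ) + 1) (by positivity)
    have hpos : 0 < ‖B x‖ := lt_of_le_of_lt (by positivity) hx
    have hne : (‖B x‖ : ℂ) ≠ 0 := by
      exact_mod_cast hpos.ne'
    refine ⟨s, ((‖B x‖ : ℂ)⁻¹) • x, hs, ?_, ?_⟩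
    · rw [map_smul, norm_smul, norm_inv, Complex.norm_real, norm_norm]
      exact inv_mul_cancel₀ hpos.ne'
    · rw [map_smul, smul_comm, ← smul_sub, norm_smul, norm_inv, Complex.norm_real, norm_norm,
        inv_mul_le_iff₀ hpos]
      have hn : (0 : ℝ) < (n : ℝ) + 1 := by positivity
      rw [mul_one_div, le_div_iff₀ hn, mul_comm]
      exact hx.le
  choose s x hs hx1 hx2 using h1
  have hS : 0 ≤ S := (abs_nonneg _).trans (hs 0)
  -- compactness
  obtain ⟨K, hK, hKsub⟩ := hB.image_closedBall_subset_compact (𝕜₁ := ℂ) (f := (B : X →ₗ[ℂ] X)) (S + 1)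
  have hxn : ∀ n, ‖x n‖ ≤ S + 1 := by
    intro n
    have e : x n = ((s n : ℂ) * I) • B (x n) - (((s n : ℂ) * I) • B (x n) - x n) := by abel
    rw [e]
    refine (norm_sub_le _ _).trans ?_
    have h2 : ‖((s n : ℂ) * I) • B (x n)‖ ≤ S := by
      rw [norm_smul, hx1, mul_one, norm_mul, Complex.norm_I, mul_one, Complex.norm_real]
      exact hs n
    have h3 : ‖((s n : ℂ) * I) • B (x n) - x n‖ ≤ 1 := by
      refine (hx2 n).trans ?_
      rw [div_le_one (by positivity)]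
      have : (0 : ℝ) ≤ n := Nat.cast_nonneg n
      linarith
    linarith
  have hmem : ∀ n, (s n, B (x n)) ∈ (Icc (-S) S ×ˢ K : Set (ℝ × X)) := by
    intro n
    refine ⟨abs_le.1 (hs n), hKsub ?_⟩
    refine ⟨x n, ?_, rfl⟩
    rw [mem_closedBall_zero_iff]
    exact hxn n
  obtain ⟨⟨s0, V⟩, _, φ, hφ, hlim⟩ := (isCompact_Icc.prod hK).tendsto_subseq hmem
  have hlim' := hlim
  rw [nhds_prod_eq] at hlim'
  have hs0 : Tendsto (fun n => s (φ n)) atTop (𝓝 s0) := (tendsto_prod_iff'.1 hlim').1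
  have hV : Tendsto (fun n => B (x (φ n))) atTop (𝓝 V) := (tendsto_prod_iff'.1 hlim').2
  have hV1 : ‖V‖ = 1 := by
    have h2 : Tendsto (fun n => ‖B (x (φ n))‖) atTop (𝓝 ‖V‖) := hV.norm
    have h3 : (fun n => ‖B (x (φ n))‖) = fun _ => (1 : ℝ) := funext fun n => hx1 (φ n)
    rw [h3] at h2
    exact (tendsto_nhds_unique h2 tendsto_const_nhds)
  have he : Tendsto (fun n => ((s (φ n) : ℂ) * I) • B (x (φ n)) - x (φ n)) atTop (𝓝 0) := by
    rw [tendsto_zero_iff_norm_tendsto_zero]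
    have h2 : Tendsto (fun n : ℕ => 1 / (((φ n : ℕ) : ℝ) + 1)) atTop (𝓝 0) :=
      tendsto_one_div_add_atTop_nhds_zero_nat.comp hφ.tendsto_atTop
    exact squeeze_zero (fun n => norm_nonneg _) (fun n => hx2 (φ n)) h2
  have hsm : Tendsto (fun n => ((s (φ n) : ℂ) * I) • B (x (φ n))) atTop
      (𝓝 (((s0 : ℂ) * I) • V)) := by
    have h2 : Tendsto (fun n => ((s (φ n) : ℂ) * I)) atTop (𝓝 ((s0 : ℂ) * I)) :=
      ((Complex.continuous_ofReal.tendsto s0).comp hs0).mul_const I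
    exact h2.smul hV
  have hx : Tendsto (fun n => x (φ n)) atTop (𝓝 (((s0 : ℂ) * I) • V)) := by
    have h2 := hsm.sub he
    rw [sub_zero] at h2
    refine h2.congr (fun n => ?_)
    abel
  have hBx : Tendsto (fun n => B (x (φ n))) atTop (𝓝 (B (((s0 : ℂ) * I) • V))) :=
    (B.continuous.tendsto _).comp hx
  have hVe : V = B (((s0 : ℂ) * I) • V) := tendsto_nhds_unique hV hBx
  have h0 : ((s0 : ℂ) * I) • V = 0 := by
    apply hker s0
    rw [← hVe]
  rw [h0, map_zero] at hVe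
  rw [hVe, norm_zero] at hV1
  exact zero_ne_one hV1

end Abs

end Pool.Agent.Lib.MP_4ccfbf_an
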