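import Pool.Agent.Lib.MP_4ccfbf_an.Defs2

set_option autoImplicit false

open MeasureTheory Set Filter Topology Complex
open scoped ENNReal ComplexConjugate

namespace Pool.Agent.Lib.MP_4ccfbf_an

attribute [local instance] msCircle

/-! ## Module MODI : modification of `b` on a null set -/

theorem modi (b : T2 → ℝ) (hb : AEStronglyMeasurable b (volume : Measure T2)) (M : ℝ)
    (hbM : ∀ᵐ z : T2, b z ≤ M) (hb0 : ∀ᵐ z : T2, 0 ≤ b z) (Ω : Set T2) (hΩ : IsOpen Ω)
    (hne : Ω.Nonempty) (c : ℝ) (hc : 0 < c) (hbc : ∀ᵐ z : T2, z ∈ Ω → c ≤ b z) :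
    ∃ (b' : T2 → ℝ) (β : ℝ), Measurable b' ∧ 1 ≤ β ∧ (∀ z, 0 ≤ b' z) ∧ (∀ z, b' z ≤ β) ∧
      (∀ z ∈ Ω, c ≤ b' z) ∧ (b' =ᵐ[volume] b) ∧ (0 < ∫ z : T2, b' z) ∧
      ∀ u v : ℝ → HT, IsDampedWave b u v → IsDampedWave b' u v := by
  classical
  set b1 : T2 → ℝ := hb.mk b with hb1
  have hb1m : Measurable b1 := hb.stronglyMeasurable_mk.measurable
  have hb1e : b =ᵐ[volume] b1 := hb.ae_eq_mk
  set β : ℝ := max M (max c 1) with hβ
  have hMβ : M ≤ β := le_max_left _ _
  have hcβ : c ≤ β := le_trans (le_max_left _ _) (le_max_right _ _)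
  have h1β : 1 ≤ β := le_trans (le_max_right _ _) (le_max_right _ _)
  set b' : T2 → ℝ := fun z => if z ∈ Ω then max c (min (b1 z) β) else max 0 (min (b1 z) β) with hb'
  have hm' : Measurable b' := by
    refine Measurable.ite hΩ.measurableSet ?_ ?_
    · exact measurable_const.max (hb1m.min measurable_const)
    · exact measurable_const.max (hb1m.min measurable_const)
  have h0 : ∀ z, 0 ≤ b' z := by
    intro z
    simp only [hb']
    split_ifs
    · exact le_trans hc.le (le_max_left _ _)
    · exact le_max_left _ _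
  have hle : ∀ z, b' z ≤ β := by
    intro z
    simp only [hb']
    split_ifs
    · exact max_le hcβ (min_le_right _ _)
    · exact max_le (by linarith) (min_le_right _ _)
  have hcle : ∀ z ∈ Ω, c ≤ b' z := by
    intro z hz
    simp only [hb', if_pos hz]
    exact le_max_left _ _
  have hae : b' =ᵐ[volume] b := by
    filter_upwards [hb1e, hbM, hb0, hbc] with z h1 h2 h3 h4
    simp only [hb']
    rw [← h1, min_eq_left (le_trans h2 hMβ)]
    split_ifs with hz
    · exact max_eq_right (h4 hz)
    · exact max_eq_right h3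
  refine ⟨b', β, hm', h1β, h0, hle, hcle, hae, ?_, ?_⟩
  · have hint : Integrable b' (volume : Measure T2) := by
      refine Integrable.mono' (integrable_const β) hm'.aestronglyMeasurable
        (Filter.Eventually.of_forall fun z => ?_)
      rw [Real.norm_eq_abs, abs_of_nonneg (h0 z)]
      exact hle z
    rw [integral_pos_iff_support_of_nonneg h0 hint]
    refine lt_of_lt_of_le (hΩ.measure_pos volume hne) (measure_mono fun z hz => ?_)
    rw [Function.mem_support]
    exact (lt_of_lt_of_le hc (hcle z hz)).ne'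
  · intro u v h
    refine ⟨h.memH2, h.memH1, h.deriv_u, h.deriv_grad, fun t ht => ?_⟩
    obtain ⟨w, hw, hd⟩ := h.deriv_v t ht
    refine ⟨w, ?_, hd⟩
    filter_upwards [hw, hae] with z h1 h2
    rw [h1, h2]

end Pool.Agent.Lib.MP_4ccfbf_an
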