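import Pool.Agent.Lib.MP_4ccfbf_an.FMO
import Pool.Agent.Lib.MP_4ccfbf_an.MBO

set_option autoImplicit false

open MeasureTheory Set Filter Topology Complex
open scoped ENNReal ComplexConjugate

namespace Pool.Agent.Lib.MP_4ccfbf_an

attribute [local instance] msCircle

/-! ## Module OPS : existence of the operators -/

lemma OPS_nsq {k : K2} (hk : k ≠ 0) : 1 ≤ nsq k := by
  have h : 1 ≤ k 0 ^ 2 + k 1 ^ 2 := by
    by_contra hcon
    push Not at hcon
    have h0 := sq_nonneg (k 0)
    have h1 := sq_nonneg (k 1)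
    have h2 : k 0 ^ 2 = 0 := by omega
    have h3 : k 1 ^ 2 = 0 := by omega
    apply hk
    funext i
    fin_cases i
    · simpa using pow_eq_zero_iff (two_ne_zero) |>.1 h2
    · simpa using pow_eq_zero_iff (two_ne_zero) |>.1 h3
  unfold nsq
  exact_mod_cast h

theorem exists_Ops (b : T2 → ℝ) (hbm : Measurable b) (β : ℝ) (hb0 : ∀ z, 0 ≤ b z)
    (hbβ : ∀ z, b z ≤ β) (hpos : 0 < ∫ z : T2, b z) : Nonempty (Ops b β) := by
  obtain ⟨T, hT⟩ := exists_MB b hbm β hb0 hbβ
  obtain ⟨D, hD, -, -⟩ := exists_FM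
    (fun k => if k = 0 then 0 else (((Real.sqrt (nsq k))⁻¹ : ℝ) : ℂ)) 1 zero_le_one (by
      intro k
      by_cases hk : k = 0
      · simp [hk]
      · simp only [hk, if_false]
        rw [Complex.norm_real, Real.norm_of_nonneg (by positivity)]
        apply inv_le_one_of_one_le₀
        rw [Real.one_le_sqrt]
        exact OPS_nsq hk)
  exact ⟨{ meas := hbm, nonneg := hb0, le := hbβ, pos := hpos, MB := T, hMB := hT, D := D, hD := hD }⟩

end Pool.Agent.Lib.MP_4ccfbf_an
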