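import Pool.Agent.Lib.MP_4ccfbf_an.COB

set_option autoImplicit false

/-!
Module RE2 : the stationary estimate for all `u ∈ H²`.
-/

open MeasureTheory Set Filter Topology Complex
open scoped ENNReal ComplexConjugate

namespace Pool.Agent.Lib.MP_4ccfbf_an

attribute [local instance] msCircle

/-- truncations converge -/
private lemma RE2_trunc (u : HT) (v : Finset K2 → HT)
    (hv : ∀ F k, co (v F) k = if k ∈ F then co u k else 0) :
    Tendsto v atTop (𝓝 u) := by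
  have hsum := co_hasSum_sq u
  have h1 : ∀ F, ‖v F - u‖ ^ 2 = ‖u‖ ^ 2 - ∑ k ∈ F, ‖co u k‖ ^ 2 := by
    intro F
    have h2 := co_hasSum_sq (v F - u)
    have h3 : HasSum (fun k : K2 => if k ∈ F then ‖co u k‖ ^ 2 else 0)
        (∑ k ∈ F, ‖co u k‖ ^ 2) := by
      have h4 : HasSum (fun k : K2 => if k ∈ F then ‖co u k‖ ^ 2 else 0)
          (∑ k ∈ F, (if k ∈ F then ‖co u k‖ ^ 2 else 0)) :=
        hasSum_sum_of_ne_finset_zero (fun k hk => if_neg hk)
      have h5 : ∑ k ∈ F, (if k ∈ F then ‖co u k‖ ^ 2 else 0) = ∑ k ∈ F, ‖co u k‖ ^ 2 :=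
        Finset.sum_congr rfl (fun k hk => if_pos hk)
      rw [h5] at h4
      exact h4
    have h6 := hsum.sub h3
    refine h2.unique (h6.congr_fun ?_)
    intro k
    rw [co_sub, hv]
    split_ifs with hk
    · simp
    · simp
  rw [tendsto_iff_norm_sub_tendsto_zero]
  have h7 : Tendsto (fun F : Finset K2 => ‖v F - u‖ ^ 2) atTop (𝓝 0) := by
    have h8 : Tendsto (fun F : Finset K2 => ‖u‖ ^ 2 - ∑ k ∈ F, ‖co u k‖ ^ 2) atTop
        (𝓝 (‖u‖ ^ 2 - ‖u‖ ^ 2)) := tendsto_const_nhds.sub hsum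
    rw [sub_self] at h8
    refine h8.congr (fun F => (h1 F).symm)
  have h9 := h7.sqrt
  rw [Real.sqrt_zero] at h9
  refine h9.congr (fun F => ?_)
  rw [Real.sqrt_sq (norm_nonneg _)]

theorem re_ext (b : T2 → ℝ) (hbm : Measurable b) (β : ℝ) (hb0 : ∀ z, 0 ≤ b z)
    (hbβ : ∀ z, b z ≤ β) (A s : ℝ) (hA : 0 ≤ A)
    (hpoly : ∀ (F : Finset K2) (c : K2 → ℂ), ∑ k ∈ F, ‖c k‖ ^ 2
      ≤ A ^ 2 * ∫ z : T2, ‖TP F (gco s c) z + I * s * b z * TP F c z‖ ^ 2)
    (T : HT →L[ℂ] HT) (hT : ∀ u : HT, (T u : T2 → ℂ) =ᵐ[volume] fun z => (b z : ℂ) * u z)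
    (u f : HT) (hf : ∀ k, co f k = gco s (co u) k + I * s * co (T u) k) :
    ‖u‖ ≤ A * ‖f‖ := by
  -- the truncations
  choose v hv1 hv2 using fun F : Finset K2 => co_TP F (co u)
  choose g hg1 hg2 using fun F : Finset K2 => co_TP F (gco s (co u))
  obtain ⟨G, hG⟩ : ∃ G : HT, G = f - (I * s) • T u := ⟨_, rfl⟩
  have hGco : ∀ k, co G k = gco s (co u) k := by
    intro k
    rw [hG, co_sub, co_smul, hf]
    ring
  have hvlim : Tendsto v atTop (𝓝 u) := RE2_trunc u v hv2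
  have hglim : Tendsto g atTop (𝓝 G) := RE2_trunc G g (fun F k => by rw [hg2, hGco])
  -- the inequality for the truncations
  have hineq : ∀ F : Finset K2, ∑ k ∈ F, ‖co u k‖ ^ 2 ≤ A ^ 2 * ‖g F + (I * s) • T (v F)‖ ^ 2 := by
    intro F
    refine (hpoly F (co u)).trans (le_of_eq ?_)
    rw [norm_sq_eq_integral]
    congr 1
    apply integral_congr_ae
    filter_upwards [hg1 F, hv1 F, hT (v F), Lp.coeFn_add (g F) ((I * s) • T (v F)),
      Lp.coeFn_smul (I * (s : ℂ)) (T (v F))] with z h1 h2 h3 h4 h5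
    rw [h4, Pi.add_apply, h5, Pi.smul_apply, h3, h1, h2, smul_eq_mul]
    ring_nf
  -- passage to the limit
  have hlim1 : Tendsto (fun F : Finset K2 => ∑ k ∈ F, ‖co u k‖ ^ 2) atTop (𝓝 (‖u‖ ^ 2)) :=
    co_hasSum_sq u
  have hlim2 : Tendsto (fun F : Finset K2 => A ^ 2 * ‖g F + (I * s) • T (v F)‖ ^ 2) atTop
      (𝓝 (A ^ 2 * ‖G + (I * s) • T u‖ ^ 2)) := by
    have h1 : Tendsto (fun F => T (v F)) atTop (𝓝 (T u)) := (T.continuous.tendsto u).comp hvlim
    have h2 : Tendsto (fun F => g F + (I * s) • T (v F)) atTop (𝓝 (G + (I * s) • T u)) :=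
      hglim.add (h1.const_smul (I * (s : ℂ)))
    exact (h2.norm.pow 2).const_mul (A ^ 2)
  have hle := le_of_tendsto_of_tendsto' hlim1 hlim2 hineq
  have hGf : G + (I * s) • T u = f := by
    rw [hG]
    abel
  rw [hGf, ← mul_pow] at hle
  exact (pow_le_pow_iff_left₀ (norm_nonneg _) (mul_nonneg hA (norm_nonneg _)) two_ne_zero).1 hle

end Pool.Agent.Lib.MP_4ccfbf_an
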