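import Pool.Agent.Lib.MP_4ccfbf_an.COB
import Pool.Agent.Lib.MP_4ccfbf_an.HHM

set_option autoImplicit false

open MeasureTheory Set Filter Topology Complex
open scoped ENNReal ComplexConjugate

namespace Pool.Agent.Lib.MP_4ccfbf_an

attribute [local instance] msCircle

section HH

variable {b : T2 → ℝ} {β : ℝ} (O : Ops b β)

lemma RES_nsq_zero : nsq (0 : K2) = 0 := by simp [nsq]

lemma RES_nsq_nonneg (k : K2) : 0 ≤ nsq k := by unfold nsq; positivity

lemma RES_nsq_pos {k : K2} (hk : k ≠ 0) : 0 < nsq k := by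
  rcases lt_or_eq_of_le (RES_nsq_nonneg k) with h | h
  · exact h
  · exfalso
    apply hk
    unfold nsq at h
    have h0 : (k 0 : ℝ) ^ 2 = 0 := by nlinarith [sq_nonneg (k 0 : ℝ), sq_nonneg (k 1 : ℝ)]
    have h1 : (k 1 : ℝ) ^ 2 = 0 := by nlinarith [sq_nonneg (k 0 : ℝ), sq_nonneg (k 1 : ℝ)]
    have h0' : k 0 = 0 := by
      have := pow_eq_zero_iff (two_ne_zero) |>.1 h0
      exact_mod_cast this
    have h1' : k 1 = 0 := by
      have := pow_eq_zero_iff (two_ne_zero) |>.1 h1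
      exact_mod_cast this
    funext i
    fin_cases i
    · exact h0'
    · exact h1'

/-- comparison of norms by coefficients -/
lemma RES_norm_le {u w : HT} {A : ℝ} (hA : 0 ≤ A) (h : ∀ k, ‖co u k‖ ≤ A * ‖co w k‖) :
    ‖u‖ ≤ A * ‖w‖ := by
  have h1 := co_hasSum_sq u
  have h2 := (co_hasSum_sq w).mul_left (A ^ 2)
  have h3 : ‖u‖ ^ 2 ≤ A ^ 2 * ‖w‖ ^ 2 := by
    apply hasSum_le _ h1 h2
    intro k
    have := h k
    calc ‖co u k‖ ^ 2 ≤ (A * ‖co w k‖) ^ 2 := by
          apply pow_le_pow_left₀ (norm_nonneg _) this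
      _ = A ^ 2 * ‖co w k‖ ^ 2 := by ring
  have h4 : ‖u‖ ^ 2 ≤ (A * ‖w‖) ^ 2 := by rw [mul_pow]; exact h3
  exact le_of_sq_le_sq h4 (by positivity)

/-- the elements obtained by a bounded multiplier -/
lemma RES_mult (m : K2 → ℂ) (M : ℝ) (hM : 0 ≤ M) (u : HT) (hm : ∀ k, ‖m k * co u k‖ ≤ M * ‖co u k‖) :
    ∃ w : HT, (∀ k, co w k = m k * co u k) ∧ ‖w‖ ≤ M * ‖u‖ := by
  obtain ⟨w, hw⟩ := co_exists (fun k => m k * co u k) (by
    apply Summable.of_nonneg_of_le (fun k => by positivity) (fun k => ?_)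
      ((co_hasSum_sq u).summable.mul_left (M ^ 2))
    calc ‖m k * co u k‖ ^ 2 ≤ (M * ‖co u k‖) ^ 2 := by
          apply pow_le_pow_left₀ (norm_nonneg _) (hm k)
      _ = M ^ 2 * ‖co u k‖ ^ 2 := by ring)
  refine ⟨w, hw, RES_norm_le hM (fun k => ?_)⟩
  rw [hw]
  exact hm k

/-- `‖V.fst‖²` for `V = Bop x` -/
lemma RES_fst (x : XT) :
    ‖(O.Bop x).fst‖ ^ 2 ≤ ‖O.hh (O.Bop x)‖ * ‖x.snd + O.MB (O.hh x)‖ := by
  set u := O.hh (O.Bop x) with hu
  set q := x.snd + O.MB (O.hh x) with hq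
  have h1 := co_hasSum_sq (O.Bop x).fst
  have h2 := co_hasSum_inner u (-q)
  have key : ∀ k, conj (co u k) * co (-q) k = ((‖co (O.Bop x).fst k‖ ^ 2 : ℝ) : ℂ) := by
    intro k
    have e1 : co (-q) k = (nsq k : ℂ) * co u k := by
      rw [co_neg, hu, hh_Bop]
    have e2 : co (O.Bop x).fst k
        = -((if k = 0 then 0 else (((Real.sqrt (nsq k))⁻¹ : ℝ) : ℂ)) * co q k) := by
      rw [Bop_fst, co_neg, O.hD]
    rcases eq_or_ne k 0 with hk | hk
    · rw [e1, e2, if_pos hk, hk, RES_nsq_zero]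
      simp
    · have hpos := RES_nsq_pos hk
      have e3 : co q k = -((nsq k : ℂ) * co u k) := by
        rw [← e1, co_neg, neg_neg]
      rw [e1, e2, if_neg hk, e3, norm_neg, norm_mul, norm_neg, norm_mul, Complex.norm_real,
        Complex.norm_real, Real.norm_of_nonneg hpos.le,
        Real.norm_of_nonneg (inv_nonneg.2 (Real.sqrt_nonneg _))]
      have e4 : ((Real.sqrt (nsq k))⁻¹ * (nsq k * ‖co u k‖)) ^ 2 = nsq k * ‖co u k‖ ^ 2 := by
        have hs : Real.sqrt (nsq k) ^ 2 = nsq k := Real.sq_sqrt hpos.le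
        rw [mul_pow, mul_pow, inv_pow, hs]
        field_simp
      rw [e4]
      push_cast
      rw [← Complex.conj_mul' (co u k)]
      ring
  have h3 : HasSum (fun k => ((‖co (O.Bop x).fst k‖ ^ 2 : ℝ) : ℂ)) (inner ℂ u (-q)) := by
    have : (fun k => ((‖co (O.Bop x).fst k‖ ^ 2 : ℝ) : ℂ))
        = fun k => conj (co u k) * co (-q) k := by
      funext k
      exact (key k).symm
    rw [this]
    exact h2
  have h4 : HasSum (fun k => ((‖co (O.Bop x).fst k‖ ^ 2 : ℝ) : ℂ))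
      ((‖(O.Bop x).fst‖ ^ 2 : ℝ) : ℂ) := Complex.hasSum_ofReal.2 h1
  have h5 := h3.unique h4
  have h6 : ‖(inner ℂ u (-q) : ℂ)‖ ≤ ‖u‖ * ‖-q‖ := norm_inner_le_norm u (-q)
  rw [h5, Complex.norm_real, Real.norm_of_nonneg (by positivity), norm_neg] at h6
  exact h6

end HH

theorem res_large {b : T2 → ℝ} {β : ℝ} (O : Ops b β) (δ C : ℝ) (hδ : 0 < δ) (hδ1 : δ ≤ 1)
    (hC : 1 ≤ C)
    (hre : ∀ s : ℝ, C ≤ |s| → ∀ u f : HT,
      (∀ k, co f k = gco s (co u) k + I * s * co (O.MB u) k) → ‖u‖ ≤ C * |s| ^ (1 - δ) * ‖f‖) :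
    ∃ C' : ℝ, 1 ≤ C' ∧ ∀ s : ℝ, C' ≤ |s| → ∀ x : XT,
      ‖O.Bop x‖ ≤ C' * |s| ^ (2 - δ) * ‖((s : ℂ) * I) • O.Bop x - x‖ := by
  set K : ℝ := ‖O.hh‖ with hK
  set B : ℝ := ‖O.MB‖ with hB
  have hK0 : 0 ≤ K := norm_nonneg _
  have hB0 : 0 ≤ B := norm_nonneg _
  set C1 : ℝ := 3 + 3 * B * K with hC1
  set C2 : ℝ := C * C1 + 2 * K with hC2
  set C3 : ℝ := (1 + B) * (C2 + K) + 1 with hC3
  have hC10 : 0 ≤ C1 := by positivity
  have hC20 : 0 ≤ C2 := by positivity
  have hC30 : 0 ≤ C3 := by positivity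
  set C4 : ℝ := C2 * C3 + (C2 + K) ^ 2 + C + 1 with hC4
  have hC41 : 1 ≤ C4 := by
    have h1 : 0 ≤ C2 * C3 := by positivity
    have h2 := sq_nonneg (C2 + K)
    rw [hC4]
    linarith
  have hC4C : C ≤ C4 := by
    have h1 : 0 ≤ C2 * C3 := by positivity
    have h2 := sq_nonneg (C2 + K)
    rw [hC4]
    linarith
  refine ⟨C4, hC41, fun s hs x => ?_⟩
  have hsC : C ≤ |s| := hC4C.trans hs
  set S : ℝ := |s| with hS
  have hS1 : 1 ≤ S := hC.trans hsC
  have hS0 : 0 < S := by linarith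
  have hs0 : s ≠ 0 := by
    intro h
    rw [h, abs_zero] at hS
    linarith
  set P : ℝ := S ^ (1 - δ) with hP
  have hP1 : 1 ≤ P := Real.one_le_rpow hS1 (by linarith)
  have hSP : S ^ (2 - δ) = S * P := by
    rw [hP, show (2 - δ) = 1 + (1 - δ) by ring, Real.rpow_add hS0, Real.rpow_one]
  set y : XT := ((s : ℂ) * I) • O.Bop x - x with hy
  set Y : ℝ := ‖y‖ with hY
  have hY0 : 0 ≤ Y := norm_nonneg _
  set h : HT := O.hh x with hh
  set u : HT := O.hh (O.Bop x) with hu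
  set F1 : HT := O.hh y with hF1
  have hF1e : F1 = ((s : ℂ) * I) • u - h := by
    rw [hF1, hy, map_sub, map_smul]
  have hysnd : y.snd = ((s : ℂ) * I) • h - x.snd := by
    rw [hy, WithLp.sub_snd, WithLp.smul_snd, Bop_snd]
  have hyf : ‖y.fst‖ ≤ Y := WithLp.norm_fst_le HT y
  have hys : ‖y.snd‖ ≤ Y := WithLp.norm_snd_le HT y
  have hF1n : ‖F1‖ ≤ K * Y := O.hh.le_opNorm y
  -- high and low parts of `F1`
  obtain ⟨Fh, hFh, hFhn⟩ : ∃ Fh : HT, (∀ k, co Fh k = if S ^ 2 / 4 ≤ nsq k then co F1 k else 0) ∧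
      ‖Fh‖ ≤ 2 / S * Y := by
    obtain ⟨w, hw, -⟩ := RES_mult (fun k => if S ^ 2 / 4 ≤ nsq k then 1 else 0) 1 zero_le_one F1
      (fun k => by split_ifs <;> simp)
    refine ⟨w, fun k => by rw [hw]; split_ifs <;> simp, ?_⟩
    calc ‖w‖ ≤ 2 / S * ‖y.fst‖ := by
          apply RES_norm_le (by positivity)
          intro k
          rw [hw]
          by_cases hk : S ^ 2 / 4 ≤ nsq k
          · rw [if_pos hk, one_mul]
            have hk0 : k ≠ 0 := by
              intro h0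
              rw [h0, RES_nsq_zero] at hk
              have : 0 < S ^ 2 / 4 := by positivity
              linarith
            rw [hF1, hh_co O y k hk0, norm_mul, Complex.norm_real,
              Real.norm_of_nonneg (inv_nonneg.2 (Real.sqrt_nonneg _))]
            apply mul_le_mul_of_nonneg_right _ (norm_nonneg _)
            have h1 : S / 2 ≤ Real.sqrt (nsq k) := by
              apply Real.le_sqrt_of_sq_le
              calc (S / 2) ^ 2 = S ^ 2 / 4 := by ring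
                _ ≤ nsq k := hk
            calc (Real.sqrt (nsq k))⁻¹ ≤ (S / 2)⁻¹ := inv_anti₀ (by positivity) h1
              _ = 2 / S := by rw [inv_div]
          · rw [if_neg hk, zero_mul, norm_zero]
            positivity
      _ ≤ 2 / S * Y := by gcongr
  obtain ⟨w, hw, hwn⟩ := RES_mult
    (fun k => if S ^ 2 / 4 ≤ nsq k then 0 else I * s * (((nsq k - s ^ 2 : ℝ) : ℂ))⁻¹)
    (4 / 3 / S) (by positivity) F1 (fun k => by
      rw [norm_mul]
      apply mul_le_mul_of_nonneg_right _ (norm_nonneg _)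
      split_ifs with hk
      · rw [norm_zero]; positivity
      · push Not at hk
        have hneg : nsq k - s ^ 2 ≤ -(3 / 4 * S ^ 2) := by
          rw [← sq_abs s, ← hS]
          linarith
        have habs : 3 / 4 * S ^ 2 ≤ |nsq k - s ^ 2| := by
          rw [abs_of_nonpos (by nlinarith [sq_nonneg S])]
          linarith
        rw [norm_mul, norm_mul, Complex.norm_I, one_mul, norm_inv, Complex.norm_real,
          Complex.norm_real, Real.norm_eq_abs, Real.norm_eq_abs, ← hS]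
        calc S * |nsq k - s ^ 2|⁻¹ ≤ S * (3 / 4 * S ^ 2)⁻¹ := by
              apply mul_le_mul_of_nonneg_left _ hS0.le
              exact inv_anti₀ (by positivity) habs
          _ = 4 / 3 / S := by field_simp)
  have hwn' : ‖w‖ ≤ 4 / 3 / S * (K * Y) := hwn.trans (by gcongr)
  -- the right side
  set f : HT := y.snd + O.MB F1 + ((s : ℂ) * I) • Fh - ((s : ℂ) * I) • O.MB w with hf
  have hfn : ‖f‖ ≤ C1 * Y := by
    have e1 : ‖((s : ℂ) * I) • Fh‖ ≤ 2 * Y := by
      rw [norm_smul, norm_mul, Complex.norm_I, mul_one, Complex.norm_real, Real.norm_eq_abs, ← hS]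
      calc S * ‖Fh‖ ≤ S * (2 / S * Y) := by gcongr
        _ = 2 * Y := by field_simp
    have e2 : ‖O.MB F1‖ ≤ B * (K * Y) := (O.MB.le_opNorm F1).trans (by gcongr)
    have e3 : ‖((s : ℂ) * I) • O.MB w‖ ≤ 4 / 3 * (B * (K * Y)) := by
      rw [norm_smul, norm_mul, Complex.norm_I, mul_one, Complex.norm_real, Real.norm_eq_abs, ← hS]
      calc S * ‖O.MB w‖ ≤ S * (B * (4 / 3 / S * (K * Y))) := by
            gcongr
            exact (O.MB.le_opNorm w).trans (by gcongr)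
        _ = 4 / 3 * (B * (K * Y)) := by field_simp
    calc ‖f‖ ≤ ‖y.snd‖ + ‖O.MB F1‖ + ‖((s : ℂ) * I) • Fh‖ + ‖((s : ℂ) * I) • O.MB w‖ := by
          rw [hf]
          refine (norm_sub_le _ _).trans ?_
          gcongr
          exact norm_add₃_le
      _ ≤ Y + B * (K * Y) + 2 * Y + 4 / 3 * (B * (K * Y)) := by gcongr
      _ ≤ C1 * Y := by
          rw [hC1]
          have h1 : 0 ≤ B * (K * Y) := by positivity
          calc Y + B * (K * Y) + 2 * Y + 4 / 3 * (B * (K * Y))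
              = 3 * Y + 7 / 3 * (B * (K * Y)) := by ring
            _ ≤ 3 * Y + 3 * (B * (K * Y)) := by linarith
            _ = (3 + 3 * B * K) * Y := by ring
  have hfeq : ∀ k, co f k = gco s (co (u - w)) k + I * s * co (O.MB (u - w)) k := by
    intro k
    have e0 : (nsq k : ℂ) * co u k = -co (x.snd + O.MB h) k := hh_Bop O x k
    have e1 : x.snd = ((s : ℂ) * I) • h - y.snd := by rw [hysnd]; abel
    have e2 : h = ((s : ℂ) * I) • u - F1 := by rw [hF1e]; abel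
    have e3 : co h k = (s : ℂ) * I * co u k - co F1 k := by
      rw [e2, co_sub, co_smul]
    have e4 : co (O.MB h) k = (s : ℂ) * I * co (O.MB u) k - co (O.MB F1) k := by
      rw [e2, map_sub, map_smul, co_sub, co_smul]
    rw [co_add, e1, co_sub, co_smul, e3, e4] at e0
    have e5 : (((nsq k - s ^ 2 : ℝ) : ℂ)) * co w k = (s : ℂ) * I * (co F1 k - co Fh k) := by
      rw [hw, hFh]
      by_cases hk : S ^ 2 / 4 ≤ nsq k
      · simp [if_pos hk]
      · rw [if_neg hk, if_neg hk]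
        have hne : (((nsq k - s ^ 2 : ℝ) : ℂ)) ≠ 0 := by
          rw [Complex.ofReal_ne_zero]
          push Not at hk
          have : S ^ 2 = s ^ 2 := by rw [hS, sq_abs]
          have h2 : 0 < S ^ 2 := by positivity
          intro h3
          nlinarith
        field_simp
        ring
    rw [hf, co_sub, co_add, co_add, co_smul, co_smul, map_sub, co_sub]
    unfold gco
    rw [co_sub, mul_sub, e5]
    push_cast
    have hI : I * I = -1 := Complex.I_mul_I
    linear_combination (-1 : ℂ) * e0 + (s : ℂ) ^ 2 * co u k * hI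
  have hmain := hre s hsC (u - w) f hfeq
  have hun : ‖u‖ ≤ C2 * P * Y := by
    have h1 : ‖u - w‖ ≤ C * P * (C1 * Y) := hmain.trans (by
      apply mul_le_mul_of_nonneg_left hfn
      positivity)
    have h2 : ‖u‖ ≤ ‖u - w‖ + ‖w‖ := by
      calc ‖u‖ = ‖(u - w) + w‖ := by rw [sub_add_cancel]
        _ ≤ _ := norm_add_le _ _
    have h3 : 4 / 3 / S * (K * Y) ≤ 2 * K * P * Y := by
      have : 4 / 3 / S ≤ 2 := by
        rw [div_div, div_le_iff₀ (by positivity)]
        nlinarith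
      calc 4 / 3 / S * (K * Y) ≤ 2 * (K * Y) := by gcongr
        _ = 2 * K * 1 * Y := by ring
        _ ≤ 2 * K * P * Y := by gcongr
    calc ‖u‖ ≤ C * P * (C1 * Y) + 2 * K * P * Y := by linarith
      _ = C2 * P * Y := by rw [hC2]; ring
  have hhn : ‖h‖ ≤ (C2 + K) * (S * P * Y) := by
    have e2 : h = ((s : ℂ) * I) • u - F1 := by rw [hF1e]; abel
    calc ‖h‖ ≤ ‖((s : ℂ) * I) • u‖ + ‖F1‖ := by rw [e2]; exact norm_sub_le _ _
      _ ≤ S * (C2 * P * Y) + K * Y := by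
          apply add_le_add _ hF1n
          rw [norm_smul, norm_mul, Complex.norm_I, mul_one, Complex.norm_real, Real.norm_eq_abs,
            ← hS]
          gcongr
      _ ≤ (C2 + K) * (S * P * Y) := by
          have h1 : 1 ≤ S * P := one_le_mul_of_one_le_of_one_le hS1 hP1
          have h2 : K * Y * 1 ≤ K * Y * (S * P) := by
            apply mul_le_mul_of_nonneg_left h1
            positivity
          calc S * (C2 * P * Y) + K * Y = S * (C2 * P * Y) + K * Y * 1 := by ring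
            _ ≤ S * (C2 * P * Y) + K * Y * (S * P) := by linarith
            _ = (C2 + K) * (S * P * Y) := by ring
  have hgn : ‖x.snd + O.MB h‖ ≤ C3 * (S ^ 2 * P * Y) := by
    have e1 : x.snd = ((s : ℂ) * I) • h - y.snd := by rw [hysnd]; abel
    have e3 : ‖x.snd‖ ≤ S * ((C2 + K) * (S * P * Y)) + Y := by
      rw [e1]
      refine (norm_sub_le _ _).trans ?_
      apply add_le_add _ hys
      rw [norm_smul, norm_mul, Complex.norm_I, mul_one, Complex.norm_real, Real.norm_eq_abs,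
        ← hS]
      gcongr
    have e4 : ‖O.MB h‖ ≤ B * ((C2 + K) * (S * P * Y)) := (O.MB.le_opNorm h).trans (by gcongr)
    have e5 : 1 ≤ S ^ 2 * P := one_le_mul_of_one_le_of_one_le (one_le_pow₀ hS1) hP1
    have e6 : Y * 1 ≤ Y * (S ^ 2 * P) := mul_le_mul_of_nonneg_left e5 hY0
    have e7 : B * ((C2 + K) * (S * P * Y)) * 1 ≤ B * ((C2 + K) * (S * P * Y)) * S :=
      mul_le_mul_of_nonneg_left hS1 (by positivity)
    calc ‖x.snd + O.MB h‖ ≤ ‖x.snd‖ + ‖O.MB h‖ := norm_add_le _ _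
      _ ≤ S * ((C2 + K) * (S * P * Y)) + Y + B * ((C2 + K) * (S * P * Y)) := by
          linarith
      _ ≤ S * ((C2 + K) * (S * P * Y)) + Y * (S ^ 2 * P) + B * ((C2 + K) * (S * P * Y)) * S := by
          linarith
      _ = C3 * (S ^ 2 * P * Y) := by
          rw [hC3]
          ring
  have hVf : ‖(O.Bop x).fst‖ ^ 2 ≤ C2 * C3 * (S * P * Y) ^ 2 := by
    calc ‖(O.Bop x).fst‖ ^ 2 ≤ ‖u‖ * ‖x.snd + O.MB h‖ := RES_fst O x
      _ ≤ (C2 * P * Y) * (C3 * (S ^ 2 * P * Y)) := by gcongr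
      _ = C2 * C3 * (S * P * Y) ^ 2 := by ring
  have hV : ‖O.Bop x‖ ^ 2 ≤ (C4 * (S * P * Y)) ^ 2 := by
    rw [WithLp.prod_norm_sq_eq_of_L2, Bop_snd]
    have e1 : ‖h‖ ^ 2 ≤ ((C2 + K) * (S * P * Y)) ^ 2 := by
      apply pow_le_pow_left₀ (norm_nonneg _) hhn
    have e2 : C2 * C3 + (C2 + K) ^ 2 ≤ C4 ^ 2 := by
      have h1 : C2 * C3 + (C2 + K) ^ 2 ≤ C4 := by rw [hC4]; linarith
      calc C2 * C3 + (C2 + K) ^ 2 ≤ C4 := h1
        _ = C4 * 1 := by ring
        _ ≤ C4 * C4 := by gcongr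
        _ = C4 ^ 2 := by ring
    calc ‖(O.Bop x).fst‖ ^ 2 + ‖h‖ ^ 2
        ≤ C2 * C3 * (S * P * Y) ^ 2 + ((C2 + K) * (S * P * Y)) ^ 2 := add_le_add hVf e1
      _ = (C2 * C3 + (C2 + K) ^ 2) * (S * P * Y) ^ 2 := by ring
      _ ≤ C4 ^ 2 * (S * P * Y) ^ 2 := by gcongr
      _ = (C4 * (S * P * Y)) ^ 2 := by ring
  have hfin : ‖O.Bop x‖ ≤ C4 * (S * P * Y) := le_of_sq_le_sq hV (by positivity)
  rw [hSP]
  calc ‖O.Bop x‖ ≤ C4 * (S * P * Y) := hfin
    _ = C4 * (S * P) * Y := by ring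

end Pool.Agent.Lib.MP_4ccfbf_an
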