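import Pool.Agent.Lib.MP_4ccfbf_an.RE
import Pool.Agent.Lib.MP_4ccfbf_an.AbsDecay
import Pool.Agent.Lib.MP_4ccfbf_an.OPS
import Pool.Agent.Lib.MP_4ccfbf_an.HHM
import Pool.Agent.Lib.MP_4ccfbf_an.DISS
import Pool.Agent.Lib.MP_4ccfbf_an.CPT
import Pool.Agent.Lib.MP_4ccfbf_an.EIG
import Pool.Agent.Lib.MP_4ccfbf_an.RE2
import Pool.Agent.Lib.MP_4ccfbf_an.RES
import Pool.Agent.Lib.MP_4ccfbf_an.LOWA
import Pool.Agent.Lib.MP_4ccfbf_an.CONV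
import Pool.Agent.Lib.MP_4ccfbf_an.MODI

set_option autoImplicit false

open MeasureTheory Set Filter Topology Complex
open scoped ENNReal ComplexConjugate

namespace Pool.Agent.Lib.MP_4ccfbf_an

attribute [local instance] msCircle

theorem re_poly (b : T2 → ℝ) (hbm : Measurable b) (β : ℝ) (hβ : 1 ≤ β) (hb0 : ∀ z, 0 ≤ b z)
    (hbβ : ∀ z, b z ≤ β) (Ω : Set T2) (hΩ : IsOpen Ω) (hΩne : Ω.Nonempty)
    (c₀ : ℝ) (hc₀ : 0 < c₀) (hbc : ∀ z ∈ Ω, c₀ ≤ b z) :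
    ∃ (δ C : ℝ), 0 < δ ∧ δ ≤ 1 ∧ 1 ≤ C ∧ ∀ s : ℝ, C ≤ |s| →
      ∀ (F : Finset K2) (c : K2 → ℂ), ∑ k ∈ F, ‖c k‖ ^ 2
        ≤ (|s| ^ (1 - δ)) ^ 2 * ∫ z : T2, ‖TP F (gco s c) z + I * s * b z * TP F c z‖ ^ 2 := by
  obtain ⟨P, q₀, hP, hq₀, hcore⟩ := re_core b hbm β hβ hb0 hbβ Ω hΩ hΩne c₀ hc₀ hbc
  have hP0 : (0 : ℝ) < P := by exact_mod_cast hP
  have hP1 : (1 : ℝ) ≤ P := by exact_mod_cast hP
  refine ⟨1 / P, q₀ ^ P, by positivity, by rw [div_le_one hP0]; exact hP1, one_le_pow₀ hq₀, ?_⟩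
  intro s hs F c
  have hs1 : 1 ≤ |s| := (one_le_pow₀ hq₀).trans hs
  have hs0 : 0 < |s| := by linarith
  set q : ℝ := |s| ^ ((1 : ℝ) / P) with hq
  have hq0 : 0 < q := Real.rpow_pos_of_pos hs0 _
  have hqP : |s| = q ^ P := by
    rw [hq, ← Real.rpow_natCast, ← Real.rpow_mul hs0.le, one_div, inv_mul_cancel₀ hP0.ne',
      Real.rpow_one]
  have hqq : q₀ ≤ q := by
    rw [hqP] at hs
    exact (pow_le_pow_iff_left₀ (by linarith) hq0.le (by omega)).1 hs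
  set S : ℝ := ∑ k ∈ F, ‖c k‖ ^ 2 with hS
  have hS0 : 0 ≤ S := Finset.sum_nonneg (fun _ _ => by positivity)
  have hI0 : 0 ≤ ∫ z : T2, ‖TP F (gco s c) z + I * s * b z * TP F c z‖ ^ 2 :=
    integral_nonneg (fun z => by positivity)
  rcases hS0.eq_or_lt with h0 | hpos
  · rw [← h0]; positivity
  set r : ℝ := Real.sqrt S with hr
  have hr0 : 0 < r := Real.sqrt_pos.2 hpos
  have hr2 : r ^ 2 = S := Real.sq_sqrt hS0
  have hnorm : ∀ x : ℂ, ‖x / (r : ℂ)‖ ^ 2 = ‖x‖ ^ 2 / S := by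
    intro x
    rw [norm_div, Complex.norm_real, Real.norm_eq_abs, abs_of_pos hr0, div_pow, hr2]
  have h1 := hcore q hqq s hqP F (fun k => c k / (r : ℂ)) (by
    simp only [hnorm]
    rw [← Finset.sum_div, ← hS, div_self hpos.ne'])
  have h2 : ∀ z : T2, TP F (gco s (fun k => c k / (r : ℂ))) z
      + I * s * b z * TP F (fun k => c k / (r : ℂ)) z
      = (TP F (gco s c) z + I * s * b z * TP F c z) / (r : ℂ) := by
    intro z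
    have e1 : TP F (gco s (fun k => c k / (r : ℂ))) z = TP F (gco s c) z / (r : ℂ) := by
      simp only [TP, gco, Finset.sum_div]
      refine Finset.sum_congr rfl (fun k _ => by ring)
    have e2 : TP F (fun k => c k / (r : ℂ)) z = TP F c z / (r : ℂ) := by
      simp only [TP, Finset.sum_div]
      refine Finset.sum_congr rfl (fun k _ => by ring)
    rw [e1, e2]; ring
  simp only [h2, hnorm] at h1
  rw [integral_div] at h1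
  have h3 : |s| ^ (1 - 1 / (P : ℝ)) = q ^ P / q := by
    rw [Real.rpow_sub hs0, Real.rpow_one, ← hq, ← hqP]
  rw [h3]
  set J := ∫ z : T2, ‖TP F (gco s c) z + I * s * b z * TP F c z‖ ^ 2 with hJ
  have h4 : S * (q / q ^ P) ^ 2 < J := by
    rw [lt_div_iff₀ hpos] at h1
    linarith
  have h5 : (q ^ P / q) ^ 2 * (S * (q / q ^ P) ^ 2) = S := by
    field_simp
  calc S = (q ^ P / q) ^ 2 * (S * (q / q ^ P) ^ 2) := h5.symm
    _ ≤ (q ^ P / q) ^ 2 * J := mul_le_mul_of_nonneg_left h4.le (by positivity)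

/-- The decay for everywhere bounded measurable damping. -/
theorem decay_nice (b : T2 → ℝ) (hbm : Measurable b) (β : ℝ) (hβ : 1 ≤ β) (hb0 : ∀ z, 0 ≤ b z)
    (hbβ : ∀ z, b z ≤ β) (Ω : Set T2) (hΩ : IsOpen Ω) (hΩne : Ω.Nonempty)
    (c₀ : ℝ) (hc₀ : 0 < c₀) (hbc : ∀ z ∈ Ω, c₀ ≤ b z) (hpos : 0 < ∫ z : T2, b z) :
    ∃ α : ℝ, 1 / 2 < α ∧ DecaysAtRate b (fun t => t ^ (-α)) := by
  obtain ⟨O⟩ := exists_Ops b hbm β hb0 hbβ hpos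
  obtain ⟨δ, C₁, hδ, hδ1, hC₁, hpoly⟩ := re_poly b hbm β hβ hb0 hbβ Ω hΩ hΩne c₀ hc₀ hbc
  have hre : ∀ s : ℝ, C₁ ≤ |s| → ∀ u f : HT,
      (∀ k, co f k = gco s (co u) k + I * s * co (O.MB u) k) → ‖u‖ ≤ C₁ * |s| ^ (1 - δ) * ‖f‖ := by
    intro s hs u f hf
    have h1 := re_ext b hbm β hb0 hbβ (|s| ^ (1 - δ)) s (by positivity) (hpoly s hs) O.MB O.hMB u f hf
    refine h1.trans ?_
    have h2 : 0 ≤ |s| ^ (1 - δ) * ‖f‖ := by positivity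
    nlinarith
  obtain ⟨C₂, hC₂, hlarge⟩ := res_large O δ C₁ hδ hδ1 hC₁ hre
  obtain ⟨C₃, hC₃, hlow⟩ := low_abs O.Bop (Bop_compact O)
    (fun s x hx => Bop_ker O Ω hΩ hΩne c₀ hc₀ hbc s x hx) C₂
  have hres : ∀ (s : ℝ) (x : XT), ‖O.Bop x‖
      ≤ (C₂ + C₃) * (1 + |s|) ^ (2 - δ) * ‖((s : ℂ) * I) • O.Bop x - x‖ := by
    intro s x
    have hn : 0 ≤ ‖((s : ℂ) * I) • O.Bop x - x‖ := norm_nonneg _
    have hexp : 0 ≤ 2 - δ := by linarith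
    have h1s : 1 ≤ 1 + |s| := by have := abs_nonneg s; linarith
    have hge1 : 1 ≤ (1 + |s|) ^ (2 - δ) := Real.one_le_rpow h1s hexp
    rcases le_total C₂ |s| with h | h
    · have h1 := hlarge s h x
      have h2 : |s| ^ (2 - δ) ≤ (1 + |s|) ^ (2 - δ) :=
        Real.rpow_le_rpow (abs_nonneg s) (by linarith) hexp
      calc ‖O.Bop x‖ ≤ C₂ * |s| ^ (2 - δ) * ‖((s : ℂ) * I) • O.Bop x - x‖ := h1
        _ ≤ (C₂ + C₃) * (1 + |s|) ^ (2 - δ) * ‖((s : ℂ) * I) • O.Bop x - x‖ := by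
            apply mul_le_mul_of_nonneg_right _ hn
            exact mul_le_mul (by linarith) h2 (by positivity) (by linarith)
    · have h1 := hlow s h x
      calc ‖O.Bop x‖ ≤ C₃ * ‖((s : ℂ) * I) • O.Bop x - x‖ := h1
        _ ≤ (C₂ + C₃) * (1 + |s|) ^ (2 - δ) * ‖((s : ℂ) * I) • O.Bop x - x‖ := by
            apply mul_le_mul_of_nonneg_right _ hn
            nlinarith
  have hdis : ∀ x, (inner ℂ (O.Bop x) x).re ≤ 0 := by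
    intro x
    rw [Bop_diss O x]
    have : 0 ≤ ∫ z : T2, b z * ‖(O.hh x : T2 → ℂ) z‖ ^ 2 :=
      integral_nonneg (fun z => mul_nonneg (hb0 z) (by positivity))
    linarith
  obtain ⟨α, hα, C', hC', hdec⟩ := abs_decay O.Bop hdis (2 - δ) (C₂ + C₃) (by linarith)
    (by linarith) (by linarith) hres
  refine ⟨α, hα, (1 / 2) * C' ^ 2 * (3 + 2 * β ^ 2), ?_⟩
  intro u v huv t ht
  obtain ⟨W, E, h1, h2⟩ := conv_sol O u v huv
  rw [h1 t ht.le]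
  have h3 := hdec W E t ht
  have h4 : ‖O.Bop (W t)‖ ^ 2 ≤ (C' * t ^ (-α) * ‖W 0‖) ^ 2 :=
    pow_le_pow_left₀ (norm_nonneg _) h3 2
  calc (1 / 2) * ‖O.Bop (W t)‖ ^ 2 ≤ (1 / 2) * (C' * t ^ (-α) * ‖W 0‖) ^ 2 := by linarith
    _ = (1 / 2) * C' ^ 2 * (t ^ (-α)) ^ 2 * ‖W 0‖ ^ 2 := by ring
    _ ≤ (1 / 2) * C' ^ 2 * (t ^ (-α)) ^ 2 * ((3 + 2 * β ^ 2) * (normH2sq (u 0) + normH1sq (v 0))) :=
        mul_le_mul_of_nonneg_left h2 (by positivity)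
    _ = _ := by ring

theorem main_result (b : T2 → ℝ) (hb : AEStronglyMeasurable b (volume : Measure T2)) (M : ℝ)
    (hbM : ∀ᵐ z : T2, b z ≤ M) (hb0 : ∀ᵐ z : T2, 0 ≤ b z) (Ω : Set T2) (hΩ : IsOpen Ω)
    (hne : Ω.Nonempty) (c : ℝ) (hc : 0 < c) (hbc : ∀ᵐ z : T2, z ∈ Ω → c ≤ b z) :
    ∃ α : ℝ, 1 / 2 < α ∧ DecaysAtRate b (fun t => t ^ (-α)) := by
  obtain ⟨b', β, h1, h2, h3, h4, h5, _, h7, h8⟩ := modi b hb M hbM hb0 Ω hΩ hne c hc hbc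
  obtain ⟨α, hα, C, hC⟩ := decay_nice b' h1 β h2 h3 h4 Ω hΩ hne c hc h5 h7
  exact ⟨α, hα, C, fun u v huv t ht => hC u v (h8 u v huv) t ht⟩

end Pool.Agent.Lib.MP_4ccfbf_an
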