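import Pool.Agent.Lib.MP_4ccfbf_an.Defs

set_option autoImplicit false

open MeasureTheory Set Filter Topology Complex
open scoped ENNReal ComplexConjugate

namespace Pool.Agent.Lib.MP_4ccfbf_an

attribute [local instance] msCircle

lemma GEN_nsq_pos (ζ : K2) (h : Int.gcd (ζ 0) (ζ 1) = 1) : 0 < nsq ζ := by
  unfold nsq
  have h0 : ζ 0 ≠ 0 ∨ ζ 1 ≠ 0 := by
    by_contra hc
    push Not at hc
    rw [hc.1, hc.2] at h
    simp at h
  rcases h0 with h0 | h0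
  · have : (0 : ℝ) < (ζ 0 : ℝ) ^ 2 := by
      have : (ζ 0 : ℝ) ≠ 0 := by exact_mod_cast h0
      positivity
    positivity
  · have : (0 : ℝ) < (ζ 1 : ℝ) ^ 2 := by
      have : (ζ 1 : ℝ) ≠ 0 := by exact_mod_cast h0
      positivity
    positivity

lemma GEN_eq (ζ ζ' : K2) (h : Int.gcd (ζ 0) (ζ 1) = 1) (h' : Int.gcd (ζ' 0) (ζ' 1) = 1)
    (h0 : (ζ 0 : ℝ) / Real.sqrt (nsq ζ) = (ζ' 0 : ℝ) / Real.sqrt (nsq ζ'))
    (h1 : (ζ 1 : ℝ) / Real.sqrt (nsq ζ) = (ζ' 1 : ℝ) / Real.sqrt (nsq ζ')) : ζ = ζ' := by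
  have hp : 0 < Real.sqrt (nsq ζ) := Real.sqrt_pos.2 (GEN_nsq_pos ζ h)
  have hp' : 0 < Real.sqrt (nsq ζ') := Real.sqrt_pos.2 (GEN_nsq_pos ζ' h')
  rw [div_eq_div_iff hp.ne' hp'.ne'] at h0 h1
  set r := Real.sqrt (nsq ζ) with hr
  set r' := Real.sqrt (nsq ζ') with hr'
  have hcross : (ζ 0 : ℝ) * ζ' 1 = (ζ 1 : ℝ) * ζ' 0 := by
    have e : ((ζ 0 : ℝ) * ζ' 1 - (ζ 1 : ℝ) * ζ' 0) * r = 0 := by
      have e1 : (ζ 0 : ℝ) * (ζ' 1 * r) = (ζ 0 : ℝ) * (ζ 1 * r') := by rw [← h1]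
      have e2 : (ζ 1 : ℝ) * (ζ' 0 * r) = (ζ 1 : ℝ) * (ζ 0 * r') := by rw [← h0]
      linarith
    rcases mul_eq_zero.1 e with e | e
    · linarith
    · exact absurd e hp.ne'
  have hcrossZ : ζ 0 * ζ' 1 = ζ 1 * ζ' 0 := by exact_mod_cast hcross
  obtain ⟨u, v, huv⟩ : ∃ u v : ℤ, u * ζ 0 + v * ζ 1 = 1 := by
    have := Int.isCoprime_iff_gcd_eq_one.2 h
    exact this
  set m : ℤ := u * ζ' 0 + v * ζ' 1 with hm
  have hm0 : ζ' 0 = ζ 0 * m := by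
    have : ζ' 0 * (u * ζ 0 + v * ζ 1) = ζ 0 * m := by
      rw [hm]
      linear_combination (-v) * hcrossZ
    rw [huv, mul_one] at this
    exact this
  have hm1 : ζ' 1 = ζ 1 * m := by
    have : ζ' 1 * (u * ζ 0 + v * ζ 1) = ζ 1 * m := by
      rw [hm]
      linear_combination u * hcrossZ
    rw [huv, mul_one] at this
    exact this
  have hmabs : m.natAbs = 1 := by
    rw [hm0, hm1, Int.gcd_mul_right, h, one_mul] at h'
    exact h'
  rcases Int.natAbs_eq m with hm' | hm'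
  · rw [hmabs] at hm'
    funext i
    fin_cases i
    · show ζ 0 = ζ' 0
      rw [hm0, hm']
      simp
    · show ζ 1 = ζ' 1
      rw [hm1, hm']
      simp
  · exfalso
    rw [hmabs] at hm'
    have hz : ζ 0 ≠ 0 ∨ ζ 1 ≠ 0 := by
      by_contra hc
      push Not at hc
      rw [hc.1, hc.2] at h
      simp at h
    have e0 : (ζ' 0 : ℝ) = -(ζ 0 : ℝ) := by
      rw [hm0, hm']
      push_cast
      ring
    have e1 : (ζ' 1 : ℝ) = -(ζ 1 : ℝ) := by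
      rw [hm1, hm']
      push_cast
      ring
    rw [e0] at h0
    rw [e1] at h1
    have f0 : (ζ 0 : ℝ) * (r + r') = 0 := by linarith
    have f1 : (ζ 1 : ℝ) * (r + r') = 0 := by linarith
    have hrr : r + r' ≠ 0 := by positivity
    rcases hz with hz | hz
    · rcases mul_eq_zero.1 f0 with f | f
      · exact hz (by exact_mod_cast f)
      · exact hrr f
    · rcases mul_eq_zero.1 f1 with f | f
      · exact hz (by exact_mod_cast f)
      · exact hrr f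

theorem exists_generic_dir (R : ℕ) : ∃ ν : Fin 2 → ℝ,
    Set.InjOn (fun ζ : K2 => ((ζ 0 : ℝ) * ν 0 + (ζ 1 : ℝ) * ν 1) / Real.sqrt (nsq ζ))
      (Zset R : Set K2) := by
  classical
  set Z := Zset R with hZ
  have hprim : ∀ ζ ∈ Z, Int.gcd (ζ 0) (ζ 1) = 1 := by
    intro ζ hζ
    rw [hZ] at hζ
    unfold Zset at hζ
    rw [Finset.mem_filter] at hζ
    exact hζ.2.1
  set bad : Set ℝ := ⋃ p ∈ (Z ×ˢ Z).filter (fun p => p.1 ≠ p.2),
    {x : ℝ | ((p.1 0 : ℝ) * 1 + (p.1 1 : ℝ) * x) / Real.sqrt (nsq p.1)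
      = ((p.2 0 : ℝ) * 1 + (p.2 1 : ℝ) * x) / Real.sqrt (nsq p.2)} with hbad
  have hfin : bad.Finite := by
    rw [hbad]
    refine Set.Finite.biUnion (Finset.finite_toSet _) ?_
    intro p hp
    rw [Finset.mem_coe, Finset.mem_filter, Finset.mem_product] at hp
    apply Set.Subsingleton.finite
    intro x hx y hy
    simp only [Set.mem_setOf_eq] at hx hy
    have hx' : (p.1 0 : ℝ) / Real.sqrt (nsq p.1) + (p.1 1 : ℝ) / Real.sqrt (nsq p.1) * x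
        = (p.2 0 : ℝ) / Real.sqrt (nsq p.2) + (p.2 1 : ℝ) / Real.sqrt (nsq p.2) * x := by
      calc (p.1 0 : ℝ) / Real.sqrt (nsq p.1) + (p.1 1 : ℝ) / Real.sqrt (nsq p.1) * x
          = ((p.1 0 : ℝ) * 1 + (p.1 1 : ℝ) * x) / Real.sqrt (nsq p.1) := by ring
        _ = ((p.2 0 : ℝ) * 1 + (p.2 1 : ℝ) * x) / Real.sqrt (nsq p.2) := hx
        _ = _ := by ring
    have hy' : (p.1 0 : ℝ) / Real.sqrt (nsq p.1) + (p.1 1 : ℝ) / Real.sqrt (nsq p.1) * y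
        = (p.2 0 : ℝ) / Real.sqrt (nsq p.2) + (p.2 1 : ℝ) / Real.sqrt (nsq p.2) * y := by
      calc (p.1 0 : ℝ) / Real.sqrt (nsq p.1) + (p.1 1 : ℝ) / Real.sqrt (nsq p.1) * y
          = ((p.1 0 : ℝ) * 1 + (p.1 1 : ℝ) * y) / Real.sqrt (nsq p.1) := by ring
        _ = ((p.2 0 : ℝ) * 1 + (p.2 1 : ℝ) * y) / Real.sqrt (nsq p.2) := hy
        _ = _ := by ring
    by_contra hxy
    have hsub : ((p.1 1 : ℝ) / Real.sqrt (nsq p.1) - (p.2 1 : ℝ) / Real.sqrt (nsq p.2))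
        * (x - y) = 0 := by linarith
    have h1 : (p.1 1 : ℝ) / Real.sqrt (nsq p.1) = (p.2 1 : ℝ) / Real.sqrt (nsq p.2) := by
      rcases mul_eq_zero.1 hsub with h | h
      · linarith
      · exact absurd (by linarith) hxy
    have h0 : (p.1 0 : ℝ) / Real.sqrt (nsq p.1) = (p.2 0 : ℝ) / Real.sqrt (nsq p.2) := by
      rw [h1] at hx'
      linarith
    exact hp.2 (GEN_eq p.1 p.2 (hprim _ hp.1.1) (hprim _ hp.1.2) h0 h1)
  obtain ⟨x, hx⟩ : ∃ x : ℝ, x ∉ bad := by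
    by_contra hc
    push Not at hc
    have : (Set.univ : Set ℝ).Finite := hfin.subset (fun x _ => hc x)
    exact Set.infinite_univ this
  refine ⟨![1, x], ?_⟩
  intro ζ hζ ζ' hζ' heq
  by_contra hne
  apply hx
  rw [hbad]
  simp only [Set.mem_iUnion]
  refine ⟨(ζ, ζ'), ?_, ?_⟩
  · rw [Finset.mem_filter, Finset.mem_product]
    exact ⟨⟨Finset.mem_coe.1 hζ, Finset.mem_coe.1 hζ'⟩, hne⟩
  · simp only [Set.mem_setOf_eq]
    simpa using heq

end Pool.Agent.Lib.MP_4ccfbf_an
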