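import Pool.Agent.Lib.MP_4ccfbf_an.Defs

set_option autoImplicit false

open MeasureTheory Set Filter Topology Complex
open scoped ENNReal ComplexConjugate

namespace Pool.Agent.Lib.MP_4ccfbf_an

attribute [local instance] msCircle

lemma INTERF_pt_continuous (ν : Fin 2 → ℝ) : Continuous (pt ν) := by
  unfold pt
  refine continuous_pi fun i => ?_
  exact (AddCircle.continuous_mk' 1).comp (continuous_id.mul continuous_const)

lemma INTERF_P_continuous (ν : Fin 2 → ℝ) (lam : ℝ) :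
    Continuous (fun q : T2 × ℝ => q.1 + pt ν (q.2 / lam)) :=
  continuous_fst.add ((INTERF_pt_continuous ν).comp (continuous_snd.div_const lam))

lemma INTERF_integrable (θ₀ : ℝ) (G : T2 × ℝ → ℝ) (hG : Measurable G) (C : ℝ)
    (hC : ∀ q, ‖G q‖ ≤ C) :
    Integrable G ((volume : Measure T2).prod (volume.restrict (Ioc 0 θ₀))) :=
  Integrable.of_bound hG.aestronglyMeasurable C (Eventually.of_forall hC)

lemma INTERF_sec (θ₀ : ℝ) (G : T2 × ℝ → ℝ) (hG : Measurable G) (C : ℝ)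
    (hC : ∀ q, ‖G q‖ ≤ C) (z : T2) :
    IntervalIntegrable (fun t => G (z, t)) volume 0 θ₀ := by
  have hm : Measurable (fun t : ℝ => G (z, t)) := hG.comp measurable_prodMk_left
  exact ⟨Integrable.of_bound hm.aestronglyMeasurable C (Eventually.of_forall fun t => hC _),
    Integrable.of_bound hm.aestronglyMeasurable C (Eventually.of_forall fun t => hC _)⟩

lemma INTERF_sec' (G : T2 × ℝ → ℝ) (hG : Measurable G) (C : ℝ)
    (hC : ∀ q, ‖G q‖ ≤ C) (t : ℝ) :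
    Integrable (fun z => G (z, t)) (volume : Measure T2) := by
  have hm : Measurable (fun z : T2 => G (z, t)) := hG.comp measurable_prodMk_right
  exact Integrable.of_bound hm.aestronglyMeasurable C (Eventually.of_forall fun t => hC _)

lemma INTERF_int1 (θ₀ : ℝ) (hθ₀ : 0 < θ₀) (G : T2 × ℝ → ℝ) (hG : Measurable G) (C : ℝ)
    (hC : ∀ q, ‖G q‖ ≤ C) :
    Integrable (fun z => ∫ t in (0 : ℝ)..θ₀, G (z, t)) (volume : Measure T2) := by
  have h := (INTERF_integrable θ₀ G hG C hC).integral_prod_left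
  refine h.congr (Eventually.of_forall fun z => ?_)
  beta_reduce
  rw [intervalIntegral.integral_of_le hθ₀.le]

lemma INTERF_int2 (θ₀ : ℝ) (hθ₀ : 0 < θ₀) (G : T2 × ℝ → ℝ) (hG : Measurable G) (C : ℝ)
    (hC : ∀ q, ‖G q‖ ≤ C) :
    IntervalIntegrable (fun t => ∫ z : T2, G (z, t)) volume 0 θ₀ := by
  have h := (INTERF_integrable θ₀ G hG C hC).integral_prod_right
  rw [intervalIntegrable_iff, uIoc_of_le hθ₀.le]
  exact h

lemma INTERF_swap (θ₀ : ℝ) (hθ₀ : 0 < θ₀) (G : T2 × ℝ → ℝ) (hG : Measurable G) (C : ℝ)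
    (hC : ∀ q, ‖G q‖ ≤ C) :
    ∫ z : T2, ∫ t in (0 : ℝ)..θ₀, G (z, t) = ∫ t in (0 : ℝ)..θ₀, ∫ z : T2, G (z, t) := by
  have h := INTERF_integrable θ₀ G hG C hC
  rw [intervalIntegral.integral_of_le hθ₀.le]
  have h2 : (∫ z : T2, ∫ t in (0 : ℝ)..θ₀, G (z, t))
      = ∫ z : T2, ∫ t in Ioc 0 θ₀, G (z, t) := by
    refine integral_congr_ae (Eventually.of_forall fun z => ?_)
    beta_reduce
    rw [intervalIntegral.integral_of_le hθ₀.le]
  rw [h2]
  exact integral_integral_swap (f := fun z t => G (z, t)) h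

lemma INTERF_pow (σ x : ℝ) (hσ : 0 < σ) (hx : 0 ≤ x) (M : ℕ) (hM : 1 ≤ M) :
    σ ^ (M - 1) * x ≤ σ ^ M + x ^ M := by
  obtain ⟨n, rfl⟩ := Nat.exists_eq_add_of_le hM
  have e : 1 + n - 1 = n := by omega
  rw [e, add_comm 1 n, pow_succ, pow_succ]
  rcases le_total x σ with h | h
  · have h1 : σ ^ n * x ≤ σ ^ n * σ := mul_le_mul_of_nonneg_left h (by positivity)
    have h2 : 0 ≤ x ^ n * x := by positivity
    linarith
  · have h1 : σ ^ n * x ≤ x ^ n * x :=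
      mul_le_mul_of_nonneg_right (pow_le_pow_left₀ hσ.le h n) hx
    have h2 : 0 ≤ σ ^ n * σ := by positivity
    linarith

lemma INTERF_sq (a b c : ℝ) (ha : 0 ≤ a) (h : a ≤ b + c) : a ^ 2 ≤ 2 * b ^ 2 + 2 * c ^ 2 := by
  have h1 : a ^ 2 ≤ (b + c) ^ 2 := pow_le_pow_left₀ ha h 2
  nlinarith [sq_nonneg (b - c)]

theorem interf {ι : Type} (Z : Finset ι) (ω : ι → ℝ) (β : ℝ) (hβ : 0 < β)
    (θ₀ c₂ : ℝ) (hθ₀ : 0 < θ₀) (hc₂ : 0 < c₂) (M : ℕ) (hM : 1 ≤ M)
    (hexp : ∀ f : ℝ → ℝ, Measurable f → (∀ t, 0 ≤ f t) → (∀ t, f t ≤ β) → ∀ α : ι → ℂ,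
        c₂ * ((∫ t in (0 : ℝ)..θ₀, f t) / θ₀) ^ M * ∑ i ∈ Z, ‖α i‖ ^ 2
          ≤ (∫ t in (0 : ℝ)..θ₀, f t * ‖∑ i ∈ Z, α i * cexp (I * (ω i * t))‖ ^ 2) / θ₀)
    (b : T2 → ℝ) (hbm : Measurable b) (hb0 : ∀ z, 0 ≤ b z) (hbβ : ∀ z, b z ≤ β)
    (ν : Fin 2 → ℝ) (lam : ℝ) (hlam : 0 < lam) (U : ι → T2 → ℂ) (hU : ∀ i ∈ Z, Continuous (U i))
    (err : ℝ) (herr : 0 ≤ err)
    (hmove : ∀ i ∈ Z, ∀ t ∈ Set.Icc (0 : ℝ) θ₀, ∀ z : T2,
      ‖U i (z + pt ν (t / lam)) - cexp (I * (ω i * t)) * U i z‖ ≤ err)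
    (hmass : ∑ i ∈ Z, ∫ z : T2, ‖U i z‖ ^ 2 ≤ 1) (σ : ℝ) (hσ : 0 < σ) (i : ι) (hi : i ∈ Z) :
    σ ^ (M - 1) * ∫ z : T2, b z * ‖U i z‖ ^ 2
      ≤ 2 * σ ^ M + (4 / c₂) * ((∫ z : T2, b z * ‖∑ j ∈ Z, U j z‖ ^ 2)
          + β * (Z.card * err) ^ 2) + 2 * σ ^ (M - 1) * β * err ^ 2 := by
  classical
  -- the bound on the components
  have hSc : Continuous (fun z : T2 => ∑ j ∈ Z, ‖U j z‖) :=
    continuous_finsetSum _ fun j hj => (hU j hj).norm
  obtain ⟨C, hC⟩ := (isCompact_univ : IsCompact (univ : Set T2)).exists_bound_of_continuousOn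
    hSc.continuousOn
  have hC' : ∀ z, ∑ j ∈ Z, ‖U j z‖ ≤ C := fun z =>
    (le_abs_self _).trans (by simpa [Real.norm_eq_abs] using hC z (mem_univ z))
  have hUi : ∀ z, ‖U i z‖ ≤ C := fun z =>
    (Finset.single_le_sum (f := fun j => ‖U j z‖) (fun j _ => norm_nonneg _) hi).trans (hC' z)
  have hVC : ∀ z, ‖∑ j ∈ Z, U j z‖ ≤ C := fun z => (norm_sum_le _ _).trans (hC' z)
  have hexp1 : ∀ (j : ι) (t : ℝ), ‖cexp (I * (ω j * t))‖ = 1 := by
    intro j t
    have : I * ((ω j : ℂ) * t) = ((ω j * t : ℝ) : ℂ) * I := by push_cast; ring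
    rw [this, Complex.norm_exp_ofReal_mul_I]
  have hWC : ∀ z (t : ℝ), ‖∑ j ∈ Z, U j z * cexp (I * (ω j * t))‖ ≤ C := fun z t => by
    refine (norm_sum_le _ _).trans (le_trans (Finset.sum_le_sum fun j _ => ?_) (hC' z))
    rw [norm_mul, hexp1, mul_one]
  have hC0 : 0 ≤ C := (norm_nonneg _).trans (hUi 0)
  -- the three functions on the product
  have hbP : Measurable (fun q : T2 × ℝ => b (q.1 + pt ν (q.2 / lam))) :=
    hbm.comp (INTERF_P_continuous ν lam).measurable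
  have hUc : Continuous (U i) := hU i hi
  have hVc : Continuous (fun z : T2 => ∑ j ∈ Z, U j z) :=
    continuous_finsetSum _ fun j hj => hU j hj
  have hm1 : Measurable (fun q : T2 × ℝ => b (q.1 + pt ν (q.2 / lam)) * ‖U i q.1‖ ^ 2) :=
    hbP.mul ((hUc.comp continuous_fst).norm.pow 2).measurable
  have hm2 : Measurable (fun q : T2 × ℝ => b (q.1 + pt ν (q.2 / lam))
      * ‖∑ j ∈ Z, U j (q.1 + pt ν (q.2 / lam))‖ ^ 2) :=
    hbP.mul ((hVc.comp (INTERF_P_continuous ν lam)).norm.pow 2).measurable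
  have hWc : Continuous (fun q : T2 × ℝ => ∑ j ∈ Z, U j q.1 * cexp (I * (ω j * q.2))) := by
    refine continuous_finsetSum _ fun j hj => ((hU j hj).comp continuous_fst).mul ?_
    fun_prop
  have hm3 : Measurable (fun q : T2 × ℝ => b (q.1 + pt ν (q.2 / lam))
      * ‖∑ j ∈ Z, U j q.1 * cexp (I * (ω j * q.2))‖ ^ 2) :=
    hbP.mul (hWc.norm.pow 2).measurable
  have hbnd : ∀ (x y : ℝ) , 0 ≤ x → x ≤ β → 0 ≤ y → y ≤ C → ‖x * y ^ 2‖ ≤ β * C ^ 2 := by
    intro x y hx hx' hy hy'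
    rw [Real.norm_eq_abs, abs_of_nonneg (by positivity)]
    have : y ^ 2 ≤ C ^ 2 := pow_le_pow_left₀ hy hy' 2
    exact mul_le_mul hx' this (by positivity) hβ.le
  have hb1 : ∀ q : T2 × ℝ, ‖b (q.1 + pt ν (q.2 / lam)) * ‖U i q.1‖ ^ 2‖ ≤ β * C ^ 2 := fun q =>
    hbnd _ _ (hb0 _) (hbβ _) (norm_nonneg _) (hUi _)
  have hb2 : ∀ q : T2 × ℝ, ‖b (q.1 + pt ν (q.2 / lam))
      * ‖∑ j ∈ Z, U j (q.1 + pt ν (q.2 / lam))‖ ^ 2‖ ≤ β * C ^ 2 := fun q =>
    hbnd _ _ (hb0 _) (hbβ _) (norm_nonneg _) (hVC _)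
  have hb3 : ∀ q : T2 × ℝ, ‖b (q.1 + pt ν (q.2 / lam))
      * ‖∑ j ∈ Z, U j q.1 * cexp (I * (ω j * q.2))‖ ^ 2‖ ≤ β * C ^ 2 := fun q =>
    hbnd _ _ (hb0 _) (hbβ _) (norm_nonneg _) (hWC _ _)
  -- the average of `b`
  set bt : T2 → ℝ := fun z => (∫ t in (0 : ℝ)..θ₀, b (z + pt ν (t / lam))) / θ₀ with hbt
  have hbt0 : ∀ z, 0 ≤ bt z := fun z =>
    div_nonneg (intervalIntegral.integral_nonneg hθ₀.le fun t _ => hb0 _) hθ₀.le
  set A : ℝ := ∫ z : T2, b z * ‖U i z‖ ^ 2 with hA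
  set B : ℝ := ∫ z : T2, b z * ‖∑ j ∈ Z, U j z‖ ^ 2 with hB
  have hmassi : ∫ z : T2, ‖U i z‖ ^ 2 ≤ 1 := by
    refine le_trans ?_ hmass
    exact Finset.single_le_sum (f := fun j => ∫ z : T2, ‖U j z‖ ^ 2)
      (fun j _ => integral_nonneg fun z => by positivity) hi
  have hUint : Integrable (fun z : T2 => ‖U i z‖ ^ 2) (volume : Measure T2) :=
    (hUc.norm.pow 2).integrable_of_hasCompactSupport (HasCompactSupport.of_compactSpace _)
  -- Step 1
  have step1 : A ≤ 2 * (∫ z : T2, bt z * ‖U i z‖ ^ 2) + 2 * β * err ^ 2 := by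
    have h1 : ∀ t ∈ Icc (0 : ℝ) θ₀, A ≤ 2 * (∫ z : T2, b (z + pt ν (t / lam)) * ‖U i z‖ ^ 2)
        + 2 * β * err ^ 2 := by
      intro t ht
      have e1 : A = ∫ z : T2, b (z + pt ν (t / lam)) * ‖U i (z + pt ν (t / lam))‖ ^ 2 :=
        (integral_add_right_eq_self (fun z : T2 => b z * ‖U i z‖ ^ 2) (pt ν (t / lam))).symm
      have hI := INTERF_sec' _ hm1 _ hb1 t
      have e2 : 2 * (∫ z : T2, b (z + pt ν (t / lam)) * ‖U i z‖ ^ 2) + 2 * β * err ^ 2
          = ∫ z : T2, (2 * (b (z + pt ν (t / lam)) * ‖U i z‖ ^ 2) + 2 * β * err ^ 2) := by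
        rw [integral_add (hI.const_mul 2) (integrable_const _), integral_const_mul]
        simp
      rw [e1, e2]
      refine integral_mono_of_nonneg (Eventually.of_forall fun z =>
        mul_nonneg (hb0 _) (by positivity)) ((hI.const_mul 2).add (integrable_const _))
        (Eventually.of_forall fun z => ?_)
      beta_reduce
      have h2 : ‖U i (z + pt ν (t / lam))‖ ≤ ‖U i z‖ + err := by
        have h3 := hmove i hi t ht z
        have h4 : ‖U i (z + pt ν (t / lam))‖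
            ≤ ‖U i (z + pt ν (t / lam)) - cexp (I * (ω i * t)) * U i z‖
              + ‖cexp (I * (ω i * t)) * U i z‖ := by
          have := norm_add_le (U i (z + pt ν (t / lam)) - cexp (I * (ω i * t)) * U i z)
            (cexp (I * (ω i * t)) * U i z)
          rwa [sub_add_cancel] at this
        rw [norm_mul, hexp1, one_mul] at h4
        linarith
      have h5 := INTERF_sq _ _ _ (norm_nonneg _) h2
      have h6 : b (z + pt ν (t / lam)) * ‖U i (z + pt ν (t / lam))‖ ^ 2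
          ≤ b (z + pt ν (t / lam)) * (2 * ‖U i z‖ ^ 2 + 2 * err ^ 2) :=
        mul_le_mul_of_nonneg_left h5 (hb0 _)
      have h7 : b (z + pt ν (t / lam)) * (2 * err ^ 2) ≤ β * (2 * err ^ 2) :=
        mul_le_mul_of_nonneg_right (hbβ _) (by positivity)
      linarith
    have hI2 := INTERF_int2 θ₀ hθ₀ _ hm1 _ hb1
    have h8 : (∫ t in (0 : ℝ)..θ₀, A) ≤ ∫ t in (0 : ℝ)..θ₀,
        (2 * (∫ z : T2, b (z + pt ν (t / lam)) * ‖U i z‖ ^ 2) + 2 * β * err ^ 2) :=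
      intervalIntegral.integral_mono_on hθ₀.le (by simp)
        ((hI2.const_mul 2).add (by simp)) h1
    rw [intervalIntegral.integral_add (hI2.const_mul 2) (by simp),
      intervalIntegral.integral_const_mul, ← INTERF_swap θ₀ hθ₀ _ hm1 _ hb1] at h8
    simp only [intervalIntegral.integral_const, sub_zero, smul_eq_mul] at h8
    have e3 : (∫ z : T2, ∫ t in (0 : ℝ)..θ₀, b (z + pt ν (t / lam)) * ‖U i z‖ ^ 2)
        = θ₀ * ∫ z : T2, bt z * ‖U i z‖ ^ 2 := by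
      rw [← integral_const_mul]
      refine integral_congr_ae (Eventually.of_forall fun z => ?_)
      beta_reduce
      rw [intervalIntegral.integral_mul_const, hbt]
      field_simp
    rw [e3] at h8
    have h9 : θ₀ * A ≤ θ₀ * (2 * (∫ z : T2, bt z * ‖U i z‖ ^ 2) + 2 * β * err ^ 2) := by
      linarith
    exact le_of_mul_le_mul_left h9 hθ₀
  -- Steps 2 and 3
  have step2 : σ ^ (M - 1) * (∫ z : T2, bt z * ‖U i z‖ ^ 2)
      ≤ σ ^ M + (2 / c₂) * (B + β * (Z.card * err) ^ 2) := by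
    have hI4 := INTERF_int1 θ₀ hθ₀ _ hm2 _ hb2
    have hpt : ∀ z : T2, σ ^ (M - 1) * (bt z * ‖U i z‖ ^ 2)
        ≤ σ ^ M * ‖U i z‖ ^ 2 + ((2 / (c₂ * θ₀)) * (∫ t in (0 : ℝ)..θ₀,
            b (z + pt ν (t / lam)) * ‖∑ j ∈ Z, U j (z + pt ν (t / lam))‖ ^ 2)
            + (2 / c₂) * (β * (Z.card * err) ^ 2)) := by
      intro z
      have h1 := INTERF_pow σ (bt z) hσ (hbt0 z) M hM
      have h2 : σ ^ (M - 1) * bt z * ‖U i z‖ ^ 2 ≤ (σ ^ M + bt z ^ M) * ‖U i z‖ ^ 2 :=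
        mul_le_mul_of_nonneg_right h1 (by positivity)
      have h3 : bt z ^ M * ‖U i z‖ ^ 2 ≤ bt z ^ M * ∑ j ∈ Z, ‖U j z‖ ^ 2 := by
        refine mul_le_mul_of_nonneg_left ?_ (pow_nonneg (hbt0 z) M)
        exact Finset.single_le_sum (f := fun j => ‖U j z‖ ^ 2) (fun j _ => by positivity) hi
      have hmz : Measurable (fun t : ℝ => b (z + pt ν (t / lam))) :=
        hbP.comp (measurable_prodMk_left (x := z))
      have h4 := hexp (fun t => b (z + pt ν (t / lam))) hmz (fun t => hb0 _) (fun t => hbβ _)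
        (fun j => U j z)
      have h5 : (∫ t in (0 : ℝ)..θ₀, b (z + pt ν (t / lam))
            * ‖∑ j ∈ Z, U j z * cexp (I * (ω j * t))‖ ^ 2)
          ≤ ∫ t in (0 : ℝ)..θ₀, (2 * (b (z + pt ν (t / lam))
            * ‖∑ j ∈ Z, U j (z + pt ν (t / lam))‖ ^ 2) + 2 * β * (Z.card * err) ^ 2) := by
        refine intervalIntegral.integral_mono_on hθ₀.le (INTERF_sec θ₀ _ hm3 _ hb3 z)
          (((INTERF_sec θ₀ _ hm2 _ hb2 z).const_mul 2).add (by simp)) ?_
        intro t ht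
        have h6 : ‖∑ j ∈ Z, U j z * cexp (I * (ω j * t))‖
            ≤ ‖∑ j ∈ Z, U j (z + pt ν (t / lam))‖ + Z.card * err := by
          have e6 : ∑ j ∈ Z, U j z * cexp (I * (ω j * t))
              = ∑ j ∈ Z, U j (z + pt ν (t / lam))
                - ∑ j ∈ Z, (U j (z + pt ν (t / lam)) - cexp (I * (ω j * t)) * U j z) := by
            rw [← Finset.sum_sub_distrib]
            refine Finset.sum_congr rfl fun j _ => ?_
            ring
          rw [e6]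
          refine (norm_sub_le _ _).trans ?_
          have : ‖∑ j ∈ Z, (U j (z + pt ν (t / lam)) - cexp (I * (ω j * t)) * U j z)‖
              ≤ Z.card * err := by
            refine (norm_sum_le _ _).trans ?_
            refine (Finset.sum_le_sum fun j hj => hmove j hj t ht z).trans ?_
            rw [Finset.sum_const, nsmul_eq_mul]
          linarith
        have h7 := INTERF_sq _ _ _ (norm_nonneg _) h6
        have h8 : b (z + pt ν (t / lam)) * ‖∑ j ∈ Z, U j z * cexp (I * (ω j * t))‖ ^ 2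
            ≤ b (z + pt ν (t / lam)) * (2 * ‖∑ j ∈ Z, U j (z + pt ν (t / lam))‖ ^ 2
              + 2 * (Z.card * err) ^ 2) := mul_le_mul_of_nonneg_left h7 (hb0 _)
        have h9 : b (z + pt ν (t / lam)) * (2 * (Z.card * err) ^ 2)
            ≤ β * (2 * (Z.card * err) ^ 2) :=
          mul_le_mul_of_nonneg_right (hbβ _) (by positivity)
        linarith
      rw [intervalIntegral.integral_add ((INTERF_sec θ₀ _ hm2 _ hb2 z).const_mul 2) (by simp),
        intervalIntegral.integral_const_mul] at h5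
      simp only [intervalIntegral.integral_const, sub_zero, smul_eq_mul] at h5
      set D : ℝ := ∫ t in (0 : ℝ)..θ₀, b (z + pt ν (t / lam))
        * ‖∑ j ∈ Z, U j (z + pt ν (t / lam))‖ ^ 2 with hD
      have h10 : c₂ * (bt z ^ M * ∑ j ∈ Z, ‖U j z‖ ^ 2)
          ≤ (2 * D + θ₀ * (2 * β * (Z.card * err) ^ 2)) / θ₀ := by
        have : c₂ * (bt z ^ M * ∑ j ∈ Z, ‖U j z‖ ^ 2)
            = c₂ * ((∫ t in (0 : ℝ)..θ₀, b (z + pt ν (t / lam))) / θ₀) ^ M
              * ∑ j ∈ Z, ‖U j z‖ ^ 2 := by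
          rw [hbt]; ring
        rw [this]
        refine h4.trans ?_
        exact div_le_div_of_nonneg_right h5 hθ₀.le
      have h11 : bt z ^ M * ∑ j ∈ Z, ‖U j z‖ ^ 2
          ≤ (2 / (c₂ * θ₀)) * D + (2 / c₂) * (β * (Z.card * err) ^ 2) := by
        have : (2 / (c₂ * θ₀)) * D + (2 / c₂) * (β * (Z.card * err) ^ 2)
            = ((2 * D + θ₀ * (2 * β * (Z.card * err) ^ 2)) / θ₀) / c₂ := by
          field_simp
        rw [this, le_div_iff₀ hc₂]
        linarith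
      linarith
    have hI6 : Integrable (fun z : T2 => (2 / (c₂ * θ₀)) *
        (∫ t in (0 : ℝ)..θ₀, b (z + pt ν (t / lam)) * ‖∑ j ∈ Z, U j (z + pt ν (t / lam))‖ ^ 2)
            + (2 / c₂) * (β * (Z.card * err) ^ 2)) (volume : Measure T2) :=
      (hI4.const_mul _).add (integrable_const _)
    have hI5 : Integrable (fun z : T2 => σ ^ M * ‖U i z‖ ^ 2 + ((2 / (c₂ * θ₀)) *
        (∫ t in (0 : ℝ)..θ₀, b (z + pt ν (t / lam)) * ‖∑ j ∈ Z, U j (z + pt ν (t / lam))‖ ^ 2)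
            + (2 / c₂) * (β * (Z.card * err) ^ 2))) (volume : Measure T2) :=
      (hUint.const_mul _).add hI6
    rw [← integral_const_mul]
    refine (integral_mono_of_nonneg (Eventually.of_forall fun z =>
      mul_nonneg (by positivity) (mul_nonneg (hbt0 z) (by positivity))) hI5
      (Eventually.of_forall hpt)).trans ?_
    rw [integral_add (hUint.const_mul _) hI6,
      integral_add (hI4.const_mul _) (integrable_const _), integral_const_mul,
      integral_const_mul, INTERF_swap θ₀ hθ₀ _ hm2 _ hb2]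
    have e7 : (∫ t in (0 : ℝ)..θ₀, ∫ z : T2, b (z + pt ν (t / lam))
        * ‖∑ j ∈ Z, U j (z + pt ν (t / lam))‖ ^ 2) = θ₀ * B := by
      have : ∀ t : ℝ, (∫ z : T2, b (z + pt ν (t / lam))
          * ‖∑ j ∈ Z, U j (z + pt ν (t / lam))‖ ^ 2) = B := fun t =>
        integral_add_right_eq_self (fun z : T2 => b z * ‖∑ j ∈ Z, U j z‖ ^ 2) (pt ν (t / lam))
      simp_rw [this]
      simp
    rw [e7]
    simp only [integral_const, probReal_univ, one_smul]
    have h12 : σ ^ M * ∫ z : T2, ‖U i z‖ ^ 2 ≤ σ ^ M := by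
      have := mul_le_mul_of_nonneg_left hmassi (by positivity : (0 : ℝ) ≤ σ ^ M)
      linarith
    have h13 : 2 / (c₂ * θ₀) * (θ₀ * B) = 2 / c₂ * B := by
      field_simp
    rw [h13]
    linarith
  have hfin : σ ^ (M - 1) * A ≤ σ ^ (M - 1) * (2 * (∫ z : T2, bt z * ‖U i z‖ ^ 2)
      + 2 * β * err ^ 2) := mul_le_mul_of_nonneg_left step1 (by positivity)
  have e8 : (4 / c₂) * (B + β * (Z.card * err) ^ 2)
      = 2 * ((2 / c₂) * (B + β * (Z.card * err) ^ 2)) := by ring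
  rw [e8]
  linarith

end Pool.Agent.Lib.MP_4ccfbf_an
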