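import Pool.Agent.Lib.MP_4ccfbf_an.Defs

/-! Module LAT0 : lattice geometry, common lemmas. -/

set_option autoImplicit false

open MeasureTheory Set Filter Topology Complex
open scoped ENNReal ComplexConjugate

namespace Pool.Agent.Lib.MP_4ccfbf_an

attribute [local instance] msCircle

lemma lat_identity (ζ k : K2) :
    (dot ζ k : ℝ) ^ 2 + (dot (perp ζ) k : ℝ) ^ 2 = nsq ζ * nsq k := by
  simp only [dot, perp, nsq, Matrix.cons_val_zero, Matrix.cons_val_one]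
  push_cast
  ring

/-- consequences of the size conditions -/
lemma LAT0_big {lam W L Q : ℝ} {R : ℕ} (hB : Big lam W L Q R) :
    1 ≤ Q ∧ W ≤ Q ∧ L ^ 2 ≤ Q ∧ 1600 * Q ^ 2 ≤ lam ∧ 1600 ≤ lam := by
  obtain ⟨hW, hL, hQ, hR, hb⟩ := hB
  have hR' : (1 : ℝ) ≤ R := by exact_mod_cast hR
  have hL2 : 1 ≤ L ^ 2 := by nlinarith
  have hQ1 : 1 ≤ Q := by nlinarith
  have h1 : 4 ≤ ((R : ℝ) + 1) ^ 2 := by nlinarith
  have h2 : 4 ≤ (L + 1) ^ 2 := by nlinarith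
  have h3 : (16 : ℝ) ≤ ((R : ℝ) + 1) ^ 2 * (L + 1) ^ 2 := by nlinarith
  have h4 : 1600 * Q ^ 2 ≤ lam := by
    have hQ2 : 0 ≤ Q ^ 2 := sq_nonneg Q
    calc 1600 * Q ^ 2 = 100 * 16 * Q ^ 2 := by ring
      _ ≤ 100 * (((R : ℝ) + 1) ^ 2 * (L + 1) ^ 2) * Q ^ 2 := by
          apply mul_le_mul_of_nonneg_right _ hQ2
          linarith
      _ = 100 * ((R : ℝ) + 1) ^ 2 * (L + 1) ^ 2 * Q ^ 2 := by ring
      _ ≤ lam := hb
  refine ⟨hQ1, by nlinarith, by nlinarith, h4, by nlinarith⟩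

lemma lat_Sset_lb {lam W L Q : ℝ} {R : ℕ} (hB : Big lam W L Q R) (F : Finset K2) {k : K2}
    (hk : k ∈ Sset F lam W) : lam ^ 2 / 4 ≤ nsq k := by
  obtain ⟨hQ1, hWQ, -, h4, h5⟩ := LAT0_big hB
  have h := (abs_le.1 (Finset.mem_filter.1 hk).2).1
  nlinarith

/-- two primitive parallel vectors are equal up to sign -/
lemma LAT0_primitive {ξ ξ' : K2} (hξ : Int.gcd (ξ 0) (ξ 1) = 1)
    (hξ' : Int.gcd (ξ' 0) (ξ' 1) = 1) (hD : ξ 0 * ξ' 1 = ξ 1 * ξ' 0) :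
    ξ' = ξ ∨ ξ' = -ξ := by
  have hbez := Int.gcd_eq_gcd_ab (ξ 0) (ξ 1)
  rw [hξ] at hbez
  set u := Int.gcdA (ξ 0) (ξ 1) with hu
  set v := Int.gcdB (ξ 0) (ξ 1) with hv
  have hb : ξ 0 * u + ξ 1 * v = 1 := by
    have := hbez
    push_cast at this
    linarith
  set t : ℤ := u * ξ' 0 + v * ξ' 1 with ht
  have h0 : ξ' 0 = t * ξ 0 := by
    have : t * ξ 0 = ξ' 0 * (ξ 0 * u + ξ 1 * v) := by
      rw [ht]
      linear_combination v * hD
    rw [this, hb, mul_one]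
  have h1 : ξ' 1 = t * ξ 1 := by
    have : t * ξ 1 = ξ' 1 * (ξ 0 * u + ξ 1 * v) := by
      rw [ht]
      linear_combination (-u) * hD
    rw [this, hb, mul_one]
  have ht1 : t.natAbs = 1 := by
    rw [h0, h1, Int.gcd_mul_left, hξ, mul_one] at hξ'
    exact hξ'
  rcases Int.natAbs_eq t with h | h
  · left
    rw [ht1] at h
    ext i
    fin_cases i
    · simpa [h] using h0
    · simpa [h] using h1
  · right
    rw [ht1] at h
    ext i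
    fin_cases i
    · simpa [h] using h0
    · simpa [h] using h1

theorem lat_det {lam W L Q : ℝ} {R : ℕ} (hB : Big lam W L Q R) (F : Finset K2) {k ξ ξ' : K2}
    (hk : k ∈ Sset F lam W) (hξ : Int.gcd (ξ 0) (ξ 1) = 1) (hξ' : Int.gcd (ξ' 0) (ξ' 1) = 1)
    (Q₁ Q₂ : ℝ) (h1 : |(dot ξ k : ℝ)| ≤ Q₁) (h2 : |(dot ξ' k : ℝ)| ≤ Q₂)
    (hsmall : Q₁ * Real.sqrt (nsq ξ') + Q₂ * Real.sqrt (nsq ξ) < lam / 2) :
    ξ' = ξ ∨ ξ' = -ξ := by
  apply LAT0_primitive hξ hξ'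
  have hlb := lat_Sset_lb hB F hk
  obtain ⟨hQ1, hWQ, -, h4, h5⟩ := LAT0_big hB
  have hn : 0 ≤ nsq ξ := by unfold nsq; positivity
  have hn' : 0 ≤ nsq ξ' := by unfold nsq; positivity
  set p : ℝ := (dot ξ k : ℝ) with hp
  set q : ℝ := (dot ξ' k : ℝ) with hq
  set A : ℝ := Real.sqrt (nsq ξ') with hA
  set B : ℝ := Real.sqrt (nsq ξ) with hB'
  have hA2 : A ^ 2 = nsq ξ' := Real.sq_sqrt hn'
  have hB2 : B ^ 2 = nsq ξ := Real.sq_sqrt hn
  have hA0 : 0 ≤ A := Real.sqrt_nonneg _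
  have hB0 : 0 ≤ B := Real.sqrt_nonneg _
  set D : ℤ := ξ 0 * ξ' 1 - ξ 1 * ξ' 0 with hD
  set c : ℝ := (ξ 0 : ℝ) * ξ' 0 + (ξ 1 : ℝ) * ξ' 1 with hc
  have hid : (D : ℝ) ^ 2 * nsq k = p ^ 2 * nsq ξ' + q ^ 2 * nsq ξ - 2 * (p * q) * c := by
    rw [hD, hp, hq, hc]
    simp only [dot, nsq]
    push_cast
    ring
  have hcs : |c| ≤ A * B := by
    apply abs_le_of_sq_le_sq _ (mul_nonneg hA0 hB0)
    rw [mul_pow, hA2, hB2, hc]
    simp only [nsq]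
    nlinarith [sq_nonneg ((ξ 0 : ℝ) * ξ' 1 - (ξ 1 : ℝ) * ξ' 0)]
  have hle : (D : ℝ) ^ 2 * nsq k ≤ (|p| * A + |q| * B) ^ 2 := by
    rw [hid]
    have e1 : (|p| * A + |q| * B) ^ 2 = p ^ 2 * nsq ξ' + q ^ 2 * nsq ξ
        + 2 * (|p| * |q|) * (A * B) := by
      rw [← hA2, ← hB2, ← sq_abs p, ← sq_abs q]
      ring
    rw [e1]
    have e2 : -(2 * (p * q) * c) ≤ 2 * (|p| * |q|) * (A * B) := by
      calc -(2 * (p * q) * c) ≤ |2 * (p * q) * c| := neg_le_abs _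
        _ = 2 * (|p| * |q|) * |c| := by
            rw [abs_mul, abs_mul, abs_mul]; simp
        _ ≤ 2 * (|p| * |q|) * (A * B) := by
            apply mul_le_mul_of_nonneg_left hcs
            positivity
    linarith
  have hlt : |p| * A + |q| * B < lam / 2 := by
    have e1 : |p| * A ≤ Q₁ * A := mul_le_mul_of_nonneg_right h1 hA0
    have e2 : |q| * B ≤ Q₂ * B := mul_le_mul_of_nonneg_right h2 hB0
    linarith
  have hnn : 0 ≤ |p| * A + |q| * B := by positivity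
  have hlt2 : (|p| * A + |q| * B) ^ 2 < lam ^ 2 / 4 := by nlinarith
  have hD1 : (D : ℝ) ^ 2 < 1 := by
    by_contra hcon
    push Not at hcon
    have : lam ^ 2 / 4 ≤ (D : ℝ) ^ 2 * nsq k := by nlinarith
    linarith
  have hD2 : D ^ 2 < 1 := by exact_mod_cast hD1
  have hD0 : D = 0 := by
    by_contra hne
    have : 0 < D ^ 2 := by positivity
    linarith
  linarith

end Pool.Agent.Lib.MP_4ccfbf_an
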