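import Pool.Agent.Lib.MP_4ccfbf_an.LAT0

/-! Module LAT1 : lat_pair. -/

set_option autoImplicit false

open MeasureTheory Set Filter Topology Complex
open scoped ENNReal ComplexConjugate

namespace Pool.Agent.Lib.MP_4ccfbf_an

attribute [local instance] msCircle

lemma LAT1_perp_gcd {ζ : K2} (h : Int.gcd (ζ 0) (ζ 1) = 1) :
    Int.gcd ((perp ζ) 0) ((perp ζ) 1) = 1 := by
  simp only [perp, Matrix.cons_val_zero, Matrix.cons_val_one, Int.neg_gcd]
  rw [Int.gcd_comm]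
  exact h

lemma LAT1_nsq_perp (ζ : K2) : nsq (perp ζ) = nsq ζ := by
  simp only [perp, nsq, Matrix.cons_val_zero, Matrix.cons_val_one]
  push_cast
  ring

lemma LAT1_nsq_neg (ζ : K2) : nsq (-ζ) = nsq ζ := by
  simp only [nsq, Pi.neg_apply]
  push_cast
  ring

lemma LAT1_mem_Zset {R : ℕ} {ζ : K2} (h : Int.gcd (ζ 0) (ζ 1) = 1) (hn : nsq ζ < R) :
    ζ ∈ Zset R := by
  have hn' : (ζ 0) ^ 2 + (ζ 1) ^ 2 < (R : ℤ) := by
    have : (((ζ 0) ^ 2 + (ζ 1) ^ 2 : ℤ) : ℝ) < ((R : ℤ) : ℝ) := by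
      push_cast
      exact hn
    exact_mod_cast this
  unfold Zset
  rw [Finset.mem_filter, Fintype.mem_piFinset]
  refine ⟨?_, h, hn'⟩
  intro i
  have hR0 : (0 : ℤ) ≤ R := Int.natCast_nonneg R
  have hi : (ζ i) ^ 2 < (R : ℤ) := by
    fin_cases i
    · exact lt_of_le_of_lt (le_add_of_nonneg_right (sq_nonneg _)) hn'
    · exact lt_of_le_of_lt (le_add_of_nonneg_left (sq_nonneg _)) hn'
  rw [Finset.mem_Icc]
  constructor <;> nlinarith [sq_nonneg (ζ i - R), sq_nonneg (ζ i + R)]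

lemma LAT1_of_mem_Zset {R : ℕ} {ζ : K2} (h : ζ ∈ Zset R) :
    Int.gcd (ζ 0) (ζ 1) = 1 ∧ nsq ζ < R ∧ 1 ≤ nsq ζ := by
  obtain ⟨h1, h2⟩ := (Finset.mem_filter.1 h).2
  refine ⟨h1, ?_, ?_⟩
  · unfold nsq
    exact_mod_cast h2
  · have h3 : 1 ≤ (ζ 0) ^ 2 + (ζ 1) ^ 2 := by
      by_contra hcon
      have hle : (ζ 0) ^ 2 + (ζ 1) ^ 2 ≤ 0 := by omega
      have e0 : ζ 0 = 0 := by
        have := sq_nonneg (ζ 1)
        have := sq_nonneg (ζ 0)
        have h' : (ζ 0) ^ 2 = 0 := by linarith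
        exact pow_eq_zero_iff (two_ne_zero) |>.1 h'
      have e1 : ζ 1 = 0 := by
        have := sq_nonneg (ζ 1)
        have := sq_nonneg (ζ 0)
        have h' : (ζ 1) ^ 2 = 0 := by linarith
        exact pow_eq_zero_iff (two_ne_zero) |>.1 h'
      rw [e0, e1] at h1
      simp at h1
    unfold nsq
    exact_mod_cast h3

lemma LAT1_nsq_ge_one {ξ : K2} (h1 : Int.gcd (ξ 0) (ξ 1) = 1) : 1 ≤ nsq ξ := by
  have h3 : 1 ≤ (ξ 0) ^ 2 + (ξ 1) ^ 2 := by
    by_contra hcon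
    have hle : (ξ 0) ^ 2 + (ξ 1) ^ 2 ≤ 0 := by omega
    have e0 : ξ 0 = 0 := by
      have := sq_nonneg (ξ 1)
      have := sq_nonneg (ξ 0)
      have h' : (ξ 0) ^ 2 = 0 := by linarith
      exact pow_eq_zero_iff (two_ne_zero) |>.1 h'
    have e1 : ξ 1 = 0 := by
      have := sq_nonneg (ξ 1)
      have := sq_nonneg (ξ 0)
      have h' : (ξ 1) ^ 2 = 0 := by linarith
      exact pow_eq_zero_iff (two_ne_zero) |>.1 h'
    rw [e0, e1] at h1
    simp at h1
  unfold nsq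
  exact_mod_cast h3

/-- `k` is in no cluster if a long primitive vector is nearly orthogonal to it -/
lemma LAT1_rest {lam W L Q : ℝ} {R : ℕ} (hB : Big lam W L Q R) (F : Finset K2) {k ξ : K2}
    (hk : k ∈ Sset F lam W) (hξ : Int.gcd (ξ 0) (ξ 1) = 1) (hξL : nsq ξ ≤ L ^ 2)
    (hRξ : (R : ℝ) ≤ nsq ξ) (h1 : |(dot ξ k : ℝ)| ≤ Q) : k ∈ Rest F lam W Q R := by
  obtain ⟨hQ1, hWQ, hLQ, h4, h5⟩ := LAT0_big hB
  have hR' : (1 : ℝ) ≤ R := by exact_mod_cast hB.hR
  have hL1 := hB.hL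
  unfold Rest
  rw [Finset.mem_filter]
  refine ⟨hk, fun ζ hζ hmem => ?_⟩
  obtain ⟨hg, hlt, -⟩ := LAT1_of_mem_Zset hζ
  obtain ⟨-, h2, -⟩ := Finset.mem_filter.1 hmem
  have hs1 : Real.sqrt (nsq (perp ζ)) ≤ R := by
    rw [LAT1_nsq_perp]
    apply Real.sqrt_le_iff.2
    exact ⟨by linarith, by nlinarith⟩
  have hs2 : Real.sqrt (nsq ξ) ≤ L := by
    apply Real.sqrt_le_iff.2
    exact ⟨by linarith, hξL⟩
  have hsmall : Q * Real.sqrt (nsq (perp ζ)) + Q * Real.sqrt (nsq ξ) < lam / 2 := by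
    have e1 : Q * Real.sqrt (nsq (perp ζ)) ≤ Q * R := mul_le_mul_of_nonneg_left hs1 (by linarith)
    have e2 : Q * Real.sqrt (nsq ξ) ≤ Q * L := mul_le_mul_of_nonneg_left hs2 (by linarith)
    have hb := hB.big
    have f1 : (R : ℝ) + L ≤ ((R : ℝ) + 1) * (L + 1) := by nlinarith
    have f2 : 1 ≤ ((R : ℝ) + 1) * (L + 1) := by nlinarith
    have f3 : ((R : ℝ) + 1) * (L + 1) * Q ≤ (((R : ℝ) + 1) * (L + 1) * Q) ^ 2 := by
      have : 1 ≤ ((R : ℝ) + 1) * (L + 1) * Q := by nlinarith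
      nlinarith
    have f4 : Q * R + Q * L ≤ ((R : ℝ) + 1) * (L + 1) * Q := by nlinarith
    have f5 : 100 * ((R : ℝ) + 1) ^ 2 * (L + 1) ^ 2 * Q ^ 2
        = 100 * (((R : ℝ) + 1) * (L + 1) * Q) ^ 2 := by ring
    have f6 : 1 ≤ ((R : ℝ) + 1) * (L + 1) * Q := by nlinarith
    nlinarith
  rcases lat_det hB F hk hξ (LAT1_perp_gcd hg) Q Q h1 h2 hsmall with h | h
  · have : nsq (perp ζ) = nsq ξ := by rw [h]
    rw [LAT1_nsq_perp] at this
    linarith
  · have : nsq (perp ζ) = nsq ξ := by rw [h, LAT1_nsq_neg]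
    rw [LAT1_nsq_perp] at this
    linarith

theorem lat_pair {lam W L Q : ℝ} {R : ℕ} (hB : Big lam W L Q R) (F : Finset K2) {k k' : K2}
    (hk : k ∈ Sset F lam W) (hk' : k' ∈ Sset F lam W) (hne : k ≠ k')
    (hnear : nsq (k - k') ≤ L ^ 2) :
    (∃ ζ ∈ Zset R, k ∈ Clu F lam W Q ζ ∧ k' ∈ Clu F lam W Q ζ) ∨
      (k ∈ Rest F lam W Q R ∧ k' ∈ Rest F lam W Q R ∧ (R : ℝ) ≤ nsq (k - k')) := by
  obtain ⟨hQ1, hWQ, hLQ, h4, h5⟩ := LAT0_big hB
  have hQeq := hB.hQ
  have hL1 := hB.hL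
  have hW1 := hB.hW
  set d0 : ℤ := k' 0 - k 0 with hd0
  set d1 : ℤ := k' 1 - k 1 with hd1
  have hgpos : 0 < Int.gcd d0 d1 := by
    apply Nat.pos_of_ne_zero
    intro h
    obtain ⟨e0, e1⟩ := Int.gcd_eq_zero_iff.1 h
    apply hne
    ext i
    fin_cases i
    · show k 0 = k' 0
      omega
    · show k 1 = k' 1
      omega
  set g : ℕ := Int.gcd d0 d1 with hg
  obtain ⟨a, b, hab, ha, hb⟩ : ∃ a b : ℤ, Int.gcd a b = 1 ∧ d0 = g * a ∧ d1 = g * b := by
    obtain ⟨a, b, h1, h2, h3⟩ := Int.exists_gcd_one hgpos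
    exact ⟨a, b, h1, by rw [h2, mul_comm], by rw [h3, mul_comm]⟩
  have hgR : (1 : ℝ) ≤ g := by exact_mod_cast hgpos
  set ξ : K2 := ![a, b] with hξdef
  have hξ0 : ξ 0 = a := rfl
  have hξ1 : ξ 1 = b := rfl
  have hξg : Int.gcd (ξ 0) (ξ 1) = 1 := by rw [hξ0, hξ1]; exact hab
  have hnξ1 : 1 ≤ nsq ξ := LAT1_nsq_ge_one hξg
  have hk0 : (k' 0 : ℝ) = k 0 + g * ξ 0 := by
    have : k' 0 = k 0 + g * ξ 0 := by rw [hξ0, ← ha, hd0]; ring
    exact_mod_cast this
  have hk1 : (k' 1 : ℝ) = k 1 + g * ξ 1 := by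
    have : k' 1 = k 1 + g * ξ 1 := by rw [hξ1, ← hb, hd1]; ring
    exact_mod_cast this
  have hnd : nsq (k - k') = (g : ℝ) ^ 2 * nsq ξ := by
    simp only [nsq, Pi.sub_apply]
    push_cast
    rw [hk0, hk1]
    ring
  have hg2 : (1 : ℝ) ≤ (g : ℝ) ^ 2 := by nlinarith
  have hξle : nsq ξ ≤ L ^ 2 := by nlinarith
  have hkW := abs_le.1 (Finset.mem_filter.1 hk).2
  have hk'W := abs_le.1 (Finset.mem_filter.1 hk').2
  have e1 : nsq k' = nsq k + 2 * g * (dot ξ k : ℝ) + nsq (k - k') := by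
    rw [hnd]
    simp only [nsq, dot]
    push_cast
    rw [hk0, hk1]
    ring
  have e2 : nsq k = nsq k' - 2 * g * (dot ξ k' : ℝ) + nsq (k - k') := by
    rw [hnd]
    simp only [nsq, dot]
    push_cast
    rw [hk0, hk1]
    ring
  have hnd0 : 0 ≤ nsq (k - k') := by unfold nsq; positivity
  have hq1 : |(dot ξ k : ℝ)| ≤ Q := by
    rw [abs_le]
    constructor
    · by_contra hcon
      push Not at hcon
      nlinarith
    · by_contra hcon
      push Not at hcon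
      nlinarith
  have hq2 : |(dot ξ k' : ℝ)| ≤ Q := by
    rw [abs_le]
    constructor
    · by_contra hcon
      push Not at hcon
      nlinarith
    · by_contra hcon
      push Not at hcon
      nlinarith
  by_cases hcase : nsq ξ < R
  · left
    -- a vector `ζ` orthogonal to `ξ`
    have main : ∀ ζ : K2, Int.gcd (ζ 0) (ζ 1) = 1 → nsq ζ = nsq ξ →
        (perp ζ = ξ ∨ perp ζ = -ξ) → 0 < dot ζ k →
        ∃ ζ ∈ Zset R, k ∈ Clu F lam W Q ζ ∧ k' ∈ Clu F lam W Q ζ := by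
      intro ζ hζg hζn hζp hpos
      have habs : ∀ x : K2, |(dot (perp ζ) x : ℝ)| = |(dot ξ x : ℝ)| := by
        intro x
        rcases hζp with h | h
        · rw [h]
        · rw [h]
          have : (dot (-ξ) x : ℝ) = -(dot ξ x : ℝ) := by
            simp only [dot, Pi.neg_apply]
            push_cast
            ring
          rw [this, abs_neg]
      have hdot : dot ζ k' = dot ζ k := by
        have h0 : k' 0 = k 0 + g * ξ 0 := by rw [hξ0, ← ha, hd0]; ring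
        have h1 : k' 1 = k 1 + g * ξ 1 := by rw [hξ1, ← hb, hd1]; ring
        have hort : ζ 0 * ξ 0 + ζ 1 * ξ 1 = 0 := by
          rcases hζp with h | h
          · have a0 : -(ζ 1) = ξ 0 := congrFun h 0
            have a1 : ζ 0 = ξ 1 := congrFun h 1
            rw [← a0, ← a1]; ring
          · have a0 : -(ζ 1) = -ξ 0 := congrFun h 0
            have a1 : ζ 0 = -ξ 1 := congrFun h 1
            have a0' : ζ 1 = ξ 0 := by linarith
            rw [a0', a1]; ring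
        simp only [dot]
        rw [h0, h1]
        linear_combination g * hort
      refine ⟨ζ, LAT1_mem_Zset hζg (by rw [hζn]; exact hcase), ?_, ?_⟩
      · unfold Clu
        rw [Finset.mem_filter]
        refine ⟨hk, ?_, hpos⟩
        rw [habs]; exact hq1
      · unfold Clu
        rw [Finset.mem_filter]
        refine ⟨hk', ?_, ?_⟩
        · rw [habs]; exact hq2
        · rw [hdot]; exact hpos
    set ζ₁ : K2 := ![b, -a] with hζ₁
    have hdne : dot ζ₁ k ≠ 0 := by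
      intro h0
      have hid := lat_identity ζ₁ k
      have hlb := lat_Sset_lb hB F hk
      have hn1 : nsq ζ₁ = nsq ξ := by
        simp only [nsq, hζ₁, hξ0, hξ1, Matrix.cons_val_zero, Matrix.cons_val_one]
        push_cast
        ring
      have hp1 : (dot (perp ζ₁) k : ℝ) = (dot ξ k : ℝ) := by
        simp only [dot, perp, hζ₁, hξ0, hξ1, Matrix.cons_val_zero, Matrix.cons_val_one]
        push_cast
        ring
      rw [h0, hp1, hn1] at hid
      have h6 : (dot ξ k : ℝ) ^ 2 ≤ Q ^ 2 := sq_le_sq' (abs_le.1 hq1).1 (abs_le.1 hq1).2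
      have h7 : lam ^ 2 / 4 ≤ nsq ξ * nsq k := by nlinarith
      push_cast at hid
      nlinarith
    rcases lt_or_gt_of_ne hdne with hneg | hpos
    · apply main ![-b, a]
      · simp only [Matrix.cons_val_zero, Matrix.cons_val_one, Int.neg_gcd]
        rw [Int.gcd_comm]; exact hab
      · simp only [nsq, hξ0, hξ1, Matrix.cons_val_zero, Matrix.cons_val_one]
        push_cast
        ring
      · right
        ext i
        fin_cases i <;> simp [perp, hξdef]
      · have : dot ![-b, a] k = -dot ζ₁ k := by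
          simp only [dot, hζ₁, Matrix.cons_val_zero, Matrix.cons_val_one]
          ring
        rw [this]
        linarith
    · apply main ζ₁
      · simp only [hζ₁, Matrix.cons_val_zero, Matrix.cons_val_one, Int.gcd_neg]
        rw [Int.gcd_comm]; exact hab
      · simp only [nsq, hζ₁, hξ0, hξ1, Matrix.cons_val_zero, Matrix.cons_val_one]
        push_cast
        ring
      · left
        ext i
        fin_cases i <;> simp [perp, hξdef, hζ₁]
      · exact hpos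
  · right
    push Not at hcase
    refine ⟨LAT1_rest hB F hk hξg hξle hcase hq1, LAT1_rest hB F hk' hξg hξle hcase hq2, ?_⟩
    rw [hnd]
    nlinarith

end Pool.Agent.Lib.MP_4ccfbf_an
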