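import Pool.Agent.Lib.MP_4ccfbf_an.LAT0

set_option autoImplicit false

open MeasureTheory Set Filter Topology Complex
open scoped ENNReal ComplexConjugate

namespace Pool.Agent.Lib.MP_4ccfbf_an

attribute [local instance] msCircle

lemma LAT2_perp_gcd (ζ : K2) (h : Int.gcd (ζ 0) (ζ 1) = 1) :
    Int.gcd (perp ζ 0) (perp ζ 1) = 1 := by
  simp only [perp, Matrix.cons_val_zero, Matrix.cons_val_one, Matrix.cons_val_fin_one]
  rw [Int.neg_gcd, Int.gcd_comm]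
  exact h

lemma LAT2_nsq_perp (ζ : K2) : nsq (perp ζ) = nsq ζ := by
  simp only [nsq, perp, Matrix.cons_val_zero, Matrix.cons_val_one, Matrix.cons_val_fin_one]
  push_cast
  ring

lemma LAT2_perp_inj (ζ ζ' : K2) (h : perp ζ' = perp ζ) : ζ' = ζ := by
  have h0 := congrFun h 0
  have h1 := congrFun h 1
  simp only [perp, Matrix.cons_val_zero, Matrix.cons_val_one, Matrix.cons_val_fin_one] at h0 h1
  funext i
  fin_cases i
  · exact h1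
  · show ζ' 1 = ζ 1
    omega

lemma LAT2_perp_neg (ζ ζ' : K2) (h : perp ζ' = -perp ζ) : ζ' = -ζ := by
  have h0 := congrFun h 0
  have h1 := congrFun h 1
  simp only [perp, Pi.neg_apply, Matrix.cons_val_zero, Matrix.cons_val_one,
    Matrix.cons_val_fin_one] at h0 h1
  funext i
  fin_cases i
  · exact h1
  · show ζ' 1 = -ζ 1
    omega

lemma LAT2_mem_Zset {R : ℕ} {ζ : K2} (h : ζ ∈ Zset R) :
    Int.gcd (ζ 0) (ζ 1) = 1 ∧ nsq ζ < R ∧ 0 ≤ nsq ζ := by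
  unfold Zset at h
  rw [Finset.mem_filter] at h
  refine ⟨h.2.1, ?_, ?_⟩
  · have h2 := h.2.2
    unfold nsq
    exact_mod_cast h2
  · unfold nsq
    positivity

lemma LAT2_dot_neg (ζ k : K2) : dot (-ζ) k = -dot ζ k := by
  unfold dot
  simp only [Pi.neg_apply]
  ring

/-- Common size facts -/
lemma LAT2_size {lam W L Q : ℝ} {R : ℕ} (hB : Big lam W L Q R) :
    2 ≤ Q ∧ W ≤ Q ∧ 400 * ((R : ℝ) + 1) ^ 2 * Q ^ 2 ≤ lam := by
  obtain ⟨hW, hL, hQ, hR, big⟩ := hB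
  have h1 : 1 ≤ L ^ 2 := by nlinarith
  have h2 : 4 ≤ (L + 1) ^ 2 := by nlinarith
  refine ⟨by linarith, by linarith, ?_⟩
  have h3 : 0 ≤ 100 * ((R : ℝ) + 1) ^ 2 * Q ^ 2 := by positivity
  nlinarith [mul_le_mul_of_nonneg_left h2 h3]

lemma LAT2_sqrt_le {R : ℕ} (hR : 1 ≤ R) {x : ℝ} (hx : x < R) : Real.sqrt x ≤ R := by
  have hR' : (1 : ℝ) ≤ R := by exact_mod_cast hR
  rw [Real.sqrt_le_left (by linarith)]
  nlinarith

theorem lat_disj {lam W L Q : ℝ} {R : ℕ} (hB : Big lam W L Q R) (F : Finset K2) {k ζ ζ' : K2}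
    (hζ : ζ ∈ Zset R) (hζ' : ζ' ∈ Zset R) (hk : k ∈ Clu F lam W Q ζ)
    (hk' : k ∈ Clu F lam W Q ζ') : ζ = ζ' := by
  obtain ⟨hg, hn, hn0⟩ := LAT2_mem_Zset hζ
  obtain ⟨hg', hn', hn0'⟩ := LAT2_mem_Zset hζ'
  obtain ⟨hQ2, hWQ, hbig⟩ := LAT2_size hB
  have hR := hB.hR
  have hR1 : (1 : ℝ) ≤ R := by exact_mod_cast hR
  unfold Clu at hk hk'
  rw [Finset.mem_filter] at hk hk'
  have hd := lat_det hB F hk.1 (LAT2_perp_gcd ζ hg) (LAT2_perp_gcd ζ' hg') Q Q hk.2.1 hk'.2.1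
  rw [LAT2_nsq_perp, LAT2_nsq_perp] at hd
  have hs := LAT2_sqrt_le hR hn
  have hs' := LAT2_sqrt_le hR hn'
  have hlt : Q * Real.sqrt (nsq ζ') + Q * Real.sqrt (nsq ζ) < lam / 2 := by
    have h1 : Q * Real.sqrt (nsq ζ') ≤ Q * R := mul_le_mul_of_nonneg_left hs' (by linarith)
    have h2 : Q * Real.sqrt (nsq ζ) ≤ Q * R := mul_le_mul_of_nonneg_left hs (by linarith)
    have h3 : Q * R ≤ Q ^ 2 * ((R : ℝ) + 1) ^ 2 := by
      have e1 : Q ≤ Q ^ 2 := by nlinarith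
      have e2 : (R : ℝ) ≤ ((R : ℝ) + 1) ^ 2 := by nlinarith
      exact mul_le_mul e1 e2 (by linarith) (by positivity)
    have h4 : 0 < Q * R := by positivity
    linarith
  rcases hd hlt with h | h
  · exact (LAT2_perp_inj ζ ζ' h).symm
  · exfalso
    have h' := LAT2_perp_neg ζ ζ' h
    have e1 := hk.2.2
    have e2 := hk'.2.2
    rw [h', LAT2_dot_neg] at e2
    omega

theorem lat_avoid {lam W L Q : ℝ} {R : ℕ} (hB : Big lam W L Q R) (F : Finset K2)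
    {k k₀ ζ ζ' : K2} (hζ : ζ ∈ Zset R) (hζ' : ζ' ∈ Zset R) (hk₀ : k₀ ∈ Clu F lam W Q ζ)
    (hk : k ∈ Clu F lam W Q ζ') (hm : dot ζ k = dot ζ k₀) : ζ' = ζ := by
  obtain ⟨hg, hn, hn0⟩ := LAT2_mem_Zset hζ
  obtain ⟨hg', hn', hn0'⟩ := LAT2_mem_Zset hζ'
  obtain ⟨hQ2, hWQ, hbig⟩ := LAT2_size hB
  have hR := hB.hR
  have hW := hB.hW
  have hR1 : (1 : ℝ) ≤ R := by exact_mod_cast hR
  unfold Clu at hk hk₀
  rw [Finset.mem_filter] at hk hk₀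
  have hSk := hk.1
  have hSk₀ := hk₀.1
  unfold Sset at hSk hSk₀
  rw [Finset.mem_filter] at hSk hSk₀
  have a1 := abs_le.1 hSk.2
  have a2 := abs_le.1 hSk₀.2
  have id1 := lat_identity ζ k
  have id2 := lat_identity ζ k₀
  have hmR : (dot ζ k : ℝ) = dot ζ k₀ := by exact_mod_cast hm
  have hq0 : (dot (perp ζ) k₀ : ℝ) ^ 2 ≤ Q ^ 2 := by
    rw [← sq_abs]
    exact pow_le_pow_left₀ (abs_nonneg _) hk₀.2.1 2
  have hdiff : nsq ζ * nsq k - nsq ζ * nsq k₀ ≤ (R : ℝ) * (2 * W) := by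
    have e1 : nsq k - nsq k₀ ≤ 2 * W := by linarith [a1.2, a2.1]
    have e2 : nsq ζ * (nsq k - nsq k₀) ≤ nsq ζ * (2 * W) := mul_le_mul_of_nonneg_left e1 hn0
    have e3 : nsq ζ * (2 * W) ≤ (R : ℝ) * (2 * W) :=
      mul_le_mul_of_nonneg_right hn.le (by linarith)
    linarith
  have hsq : (dot (perp ζ) k : ℝ) ^ 2 ≤ (((R : ℝ) + 1) * Q) ^ 2 := by
    have e1 : (dot (perp ζ) k : ℝ) ^ 2
        = nsq ζ * nsq k - nsq ζ * nsq k₀ + (dot (perp ζ) k₀ : ℝ) ^ 2 := by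
      rw [hmR] at id1
      linarith
    have e2 : W ≤ Q ^ 2 := by nlinarith
    have e3 : (R : ℝ) * (2 * W) ≤ (R : ℝ) * (2 * Q ^ 2) :=
      mul_le_mul_of_nonneg_left (by linarith) (by linarith)
    have e4 : (((R : ℝ) + 1) * Q) ^ 2 = (R : ℝ) ^ 2 * Q ^ 2 + (R : ℝ) * (2 * Q ^ 2) + Q ^ 2 := by
      ring
    have e5 : 0 ≤ (R : ℝ) ^ 2 * Q ^ 2 := by positivity
    rw [e1, e4]
    linarith
  have habs : |(dot (perp ζ) k : ℝ)| ≤ ((R : ℝ) + 1) * Q := abs_le_of_sq_le_sq hsq (by positivity)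
  have hd := lat_det hB F hk.1 (LAT2_perp_gcd ζ hg) (LAT2_perp_gcd ζ' hg') _ Q habs hk.2.1
  rw [LAT2_nsq_perp, LAT2_nsq_perp] at hd
  have hs := LAT2_sqrt_le hR hn
  have hs' := LAT2_sqrt_le hR hn'
  have hlt : ((R : ℝ) + 1) * Q * Real.sqrt (nsq ζ') + Q * Real.sqrt (nsq ζ) < lam / 2 := by
    have h1 : ((R : ℝ) + 1) * Q * Real.sqrt (nsq ζ') ≤ ((R : ℝ) + 1) * Q * R :=
      mul_le_mul_of_nonneg_left hs' (by positivity)
    have h2 : Q * Real.sqrt (nsq ζ) ≤ Q * R := mul_le_mul_of_nonneg_left hs (by linarith)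
    have h3 : ((R : ℝ) + 1) * Q * R + Q * R ≤ Q ^ 2 * ((R : ℝ) + 1) ^ 2 := by
      have e1 : Q ≤ Q ^ 2 := by nlinarith
      have e2 : ((R : ℝ) + 1) * R + R ≤ ((R : ℝ) + 1) ^ 2 := by nlinarith
      have e3 : Q * (((R : ℝ) + 1) * R + R) ≤ Q ^ 2 * ((R : ℝ) + 1) ^ 2 :=
        mul_le_mul e1 e2 (by positivity) (by positivity)
      linarith
    have h4 : 0 < Q ^ 2 * ((R : ℝ) + 1) ^ 2 := by positivity
    linarith
  rcases hd hlt with h | h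
  · exact LAT2_perp_inj ζ ζ' h
  · exfalso
    have h' := LAT2_perp_neg ζ ζ' h
    have e1 := hk₀.2.2
    have e2 := hk.2.2
    rw [h', LAT2_dot_neg] at e2
    omega

end Pool.Agent.Lib.MP_4ccfbf_an
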