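import Pool.Agent.Lib.MP_4ccfbf_an.Defs

set_option autoImplicit false

/-!
Module LAT3 : `lat_line`, `lat_close`, `lat_card`.
-/

open MeasureTheory Set Filter Topology Complex
open scoped ENNReal ComplexConjugate

namespace Pool.Agent.Lib.MP_4ccfbf_an

attribute [local instance] msCircle

private lemma LAT3_id (ζ k : K2) :
    (dot ζ k : ℝ) ^ 2 + (dot (perp ζ) k : ℝ) ^ 2 = nsq ζ * nsq k := by
  simp only [dot, perp, nsq, Matrix.cons_val_zero, Matrix.cons_val_one]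
  push_cast
  ring

private lemma LAT3_dot (ζ k : K2) : (dot ζ k : ℝ) = ζ 0 * k 0 + ζ 1 * k 1 := by
  simp only [dot]
  push_cast
  ring

private lemma LAT3_perp (ζ k : K2) : (dot (perp ζ) k : ℝ) = -(ζ 1) * k 0 + ζ 0 * k 1 := by
  simp only [dot, perp, Matrix.cons_val_zero, Matrix.cons_val_one]
  push_cast
  ring

/-- `1 ≤ |ζ|² ≤ R` -/
private lemma LAT3_zeta {R : ℕ} {ζ : K2} (hζ : ζ ∈ Zset R) : 1 ≤ nsq ζ ∧ nsq ζ ≤ R := by
  unfold Zset at hζ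
  rw [Finset.mem_filter] at hζ
  obtain ⟨_, hg, hlt⟩ := hζ
  constructor
  · have h0 : (1 : ℤ) ≤ (ζ 0) ^ 2 + (ζ 1) ^ 2 := by
      by_contra hcon
      have hz : (ζ 0) ^ 2 + (ζ 1) ^ 2 ≤ 0 := by omega
      have h1 : ζ 0 = 0 := by nlinarith [sq_nonneg (ζ 0), sq_nonneg (ζ 1)]
      have h2 : ζ 1 = 0 := by nlinarith [sq_nonneg (ζ 0), sq_nonneg (ζ 1)]
      rw [h1, h2] at hg
      simp at hg
    have h1 : ((1 : ℤ) : ℝ) ≤ (((ζ 0) ^ 2 + (ζ 1) ^ 2 : ℤ) : ℝ) := by exact_mod_cast h0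
    unfold nsq
    push_cast at h1
    exact h1
  · have h1 : (((ζ 0) ^ 2 + (ζ 1) ^ 2 : ℤ) : ℝ) < ((R : ℤ) : ℝ) := by exact_mod_cast hlt
    unfold nsq
    push_cast at h1
    exact h1.le

/-- numerical consequences of the size conditions -/
private lemma LAT3_num {lam W L Q : ℝ} {R : ℕ} (hB : Big lam W L Q R) :
    2 * (R : ℝ) * W + Q ^ 2 + W < lam ∧ 1 ≤ Q ∧ 100 ≤ lam ∧ W ≤ Q := by
  have hW := hB.hW
  have hL := hB.hL
  have hQ := hB.hQ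
  have hR : (1 : ℝ) ≤ R := by exact_mod_cast hB.hR
  have hbig := hB.big
  have hWQ : W ≤ Q := by rw [hQ]; nlinarith
  have hQ1 : 1 ≤ Q := hW.trans hWQ
  have hQ2 : Q ≤ Q ^ 2 := by nlinarith
  have h1 : (1 : ℝ) ≤ (L + 1) ^ 2 := by nlinarith
  have h2 : (R : ℝ) + 1 ≤ ((R : ℝ) + 1) ^ 2 := by nlinarith
  have h3 : 100 * ((R : ℝ) + 1) * Q ^ 2 ≤ lam := by
    have h4 : ((R : ℝ) + 1) * 1 ≤ ((R : ℝ) + 1) ^ 2 * (L + 1) ^ 2 :=
      mul_le_mul h2 h1 (by norm_num) (by positivity)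
    calc 100 * ((R : ℝ) + 1) * Q ^ 2 = 100 * (((R : ℝ) + 1) * 1) * Q ^ 2 := by ring
      _ ≤ 100 * (((R : ℝ) + 1) ^ 2 * (L + 1) ^ 2) * Q ^ 2 := by gcongr
      _ = 100 * ((R : ℝ) + 1) ^ 2 * (L + 1) ^ 2 * Q ^ 2 := by ring
      _ ≤ lam := hbig
  have hRQ : (R : ℝ) * W ≤ (R : ℝ) * Q ^ 2 :=
    mul_le_mul_of_nonneg_left (hWQ.trans hQ2) (by positivity)
  have hRQ1 : (1 : ℝ) ≤ (R : ℝ) * Q ^ 2 := by nlinarith
  refine ⟨?_, hQ1, ?_, hWQ⟩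
  · nlinarith
  · nlinarith

/-- `dot ζ k` is at least `lam / 2` on the cluster, and its square is close to `|ζ|² lam²` -/
private lemma LAT3_clu {lam W L Q : ℝ} {R : ℕ} (hB : Big lam W L Q R) (F : Finset K2) {k ζ : K2}
    (hζ : ζ ∈ Zset R) (hk : k ∈ Clu F lam W Q ζ) :
    |nsq k - lam ^ 2| ≤ W ∧ |(dot (perp ζ) k : ℝ)| ≤ Q ∧ 0 < (dot ζ k : ℝ) ∧
      lam / 2 ≤ (dot ζ k : ℝ) := by
  obtain ⟨hz1, hz2⟩ := LAT3_zeta hζ
  obtain ⟨hn1, hn2, hn3, hn4⟩ := LAT3_num hB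
  have hk' := hk
  unfold Clu Sset at hk'
  rw [Finset.mem_filter, Finset.mem_filter] at hk'
  obtain ⟨⟨_, hS⟩, hp, hd⟩ := hk'
  have hd' : (0 : ℝ) < (dot ζ k : ℝ) := by exact_mod_cast hd
  refine ⟨hS, hp, hd', ?_⟩
  have hid := LAT3_id ζ k
  have hp2 : (dot (perp ζ) k : ℝ) ^ 2 ≤ Q ^ 2 := by
    rw [← sq_abs]
    exact pow_le_pow_left₀ (abs_nonneg _) hp 2
  have hnk : lam ^ 2 - W ≤ nsq k := by
    have := (abs_le.1 hS).1
    linarith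
  have hR1 : (1 : ℝ) ≤ R := by exact_mod_cast hB.hR
  have hWpos : 0 < W := lt_of_lt_of_le one_pos hB.hW
  have hsum : Q ^ 2 + W < lam := by nlinarith
  have hlam2 : lam ≤ lam ^ 2 / 2 := by nlinarith
  have hnk0 : 0 ≤ nsq k := by
    unfold nsq
    positivity
  have h1 : nsq k ≤ nsq ζ * nsq k := by nlinarith
  have h2 : (lam / 2) ^ 2 ≤ (dot ζ k : ℝ) ^ 2 := by nlinarith
  exact le_of_sq_le_sq h2 hd'.le
where
  le_of_sq_le_sq {a b : ℝ} (h : a ^ 2 ≤ b ^ 2) (hb : 0 ≤ b) : a ≤ b := abs_le_of_sq_le_sq' h hb |>.2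

theorem lat_line {lam W L Q : ℝ} {R : ℕ} (hB : Big lam W L Q R) (F : Finset K2) {k k' ζ : K2}
    (hζ : ζ ∈ Zset R) (hk : k ∈ Clu F lam W Q ζ) (hk' : k' ∈ Clu F lam W Q ζ) :
    dot ζ k = dot ζ k' := by
  obtain ⟨hz1, hz2⟩ := LAT3_zeta hζ
  obtain ⟨hn1, hn2, hn3, hn4⟩ := LAT3_num hB
  obtain ⟨hS, hp, hd, hl⟩ := LAT3_clu hB F hζ hk
  obtain ⟨hS', hp', hd', hl'⟩ := LAT3_clu hB F hζ hk'
  have hid := LAT3_id ζ k
  have hid' := LAT3_id ζ k'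
  have hWpos : 0 < W := lt_of_lt_of_le one_pos hB.hW
  have hp2 : (dot (perp ζ) k : ℝ) ^ 2 ≤ Q ^ 2 := by
    rw [← sq_abs]
    exact pow_le_pow_left₀ (abs_nonneg _) hp 2
  have hp2' : (dot (perp ζ) k' : ℝ) ^ 2 ≤ Q ^ 2 := by
    rw [← sq_abs]
    exact pow_le_pow_left₀ (abs_nonneg _) hp' 2
  have hdiff : |nsq ζ * (nsq k - nsq k')| ≤ R * (2 * W) := by
    rw [abs_mul, abs_of_nonneg (by linarith : (0 : ℝ) ≤ nsq ζ)]
    refine mul_le_mul hz2 ?_ (abs_nonneg _) (by positivity)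
    rw [abs_le] at hS hS' ⊢
    constructor <;> linarith [hS.1, hS.2, hS'.1, hS'.2]
  have hsq : |(dot ζ k : ℝ) ^ 2 - (dot ζ k' : ℝ) ^ 2| < lam := by
    have e : (dot ζ k : ℝ) ^ 2 - (dot ζ k' : ℝ) ^ 2 = nsq ζ * (nsq k - nsq k') -
        ((dot (perp ζ) k : ℝ) ^ 2 - (dot (perp ζ) k' : ℝ) ^ 2) := by linarith
    rw [e]
    rw [abs_le] at hdiff
    rw [abs_lt]
    have s1 := sq_nonneg (dot (perp ζ) k : ℝ)
    have s2 := sq_nonneg (dot (perp ζ) k' : ℝ)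
    constructor <;> linarith [hdiff.1, hdiff.2]
  by_contra hne
  have hint : (1 : ℤ) ≤ |dot ζ k - dot ζ k'| := Int.one_le_abs (sub_ne_zero.2 hne)
  have hint' : (1 : ℝ) ≤ |(dot ζ k : ℝ) - (dot ζ k' : ℝ)| := by
    have : ((1 : ℤ) : ℝ) ≤ ((|dot ζ k - dot ζ k'| : ℤ) : ℝ) := by exact_mod_cast hint
    push_cast at this
    exact this
  have hfac : (dot ζ k : ℝ) ^ 2 - (dot ζ k' : ℝ) ^ 2 =
      ((dot ζ k : ℝ) - (dot ζ k' : ℝ)) * ((dot ζ k : ℝ) + (dot ζ k' : ℝ)) := by ring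
  rw [hfac, abs_mul, abs_of_pos (by linarith : (0 : ℝ) < (dot ζ k : ℝ) + (dot ζ k' : ℝ))] at hsq
  have : 1 * lam ≤ |(dot ζ k : ℝ) - (dot ζ k' : ℝ)| * ((dot ζ k : ℝ) + (dot ζ k' : ℝ)) :=
    mul_le_mul hint' (by linarith) (by linarith) (abs_nonneg _)
  linarith

theorem lat_close {lam W L Q : ℝ} {R : ℕ} (hB : Big lam W L Q R) (F : Finset K2)
    {k ζ : K2} (hζ : ζ ∈ Zset R) (hk : k ∈ Clu F lam W Q ζ) (ν : Fin 2 → ℝ) :
    |((k 0 : ℝ) * ν 0 + (k 1 : ℝ) * ν 1)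
        - lam * (((ζ 0 : ℝ) * ν 0 + (ζ 1 : ℝ) * ν 1) / Real.sqrt (nsq ζ))|
      ≤ (Q + 1) * (|ν 0| + |ν 1|) := by
  obtain ⟨hz1, hz2⟩ := LAT3_zeta hζ
  obtain ⟨hn1, hn2, hn3, hn4⟩ := LAT3_num hB
  obtain ⟨hS, hp, hd, hl⟩ := LAT3_clu hB F hζ hk
  have hid := LAT3_id ζ k
  have hWpos : 0 < W := lt_of_lt_of_le one_pos hB.hW
  have hRpos : (1 : ℝ) ≤ R := by exact_mod_cast hB.hR
  set s := Real.sqrt (nsq ζ) with hs
  have hs2 : s ^ 2 = nsq ζ := Real.sq_sqrt (by linarith)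
  have hs1 : 1 ≤ s := by
    rw [hs]
    exact Real.one_le_sqrt.2 hz1
  have hspos : 0 < s := by linarith
  have hp2 : (dot (perp ζ) k : ℝ) ^ 2 ≤ Q ^ 2 := by
    rw [← sq_abs]
    exact pow_le_pow_left₀ (abs_nonneg _) hp 2
  set m : ℝ := (dot ζ k : ℝ) with hm
  set p : ℝ := (dot (perp ζ) k : ℝ) with hpdef
  -- the first component
  have hx : |m / s - lam| ≤ 1 := by
    have hxpos : 0 < m / s := div_pos hd hspos
    have e : (m / s) ^ 2 - lam ^ 2 = (nsq k - lam ^ 2) - p ^ 2 / s ^ 2 := by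
      have hs2' : s ^ 2 ≠ 0 := by positivity
      field_simp
      rw [← hs2] at hid
      linarith
    have h1 : |(m / s) ^ 2 - lam ^ 2| ≤ lam := by
      rw [e]
      have h2 : p ^ 2 / s ^ 2 ≤ Q ^ 2 := by
        rw [div_le_iff₀ (by positivity)]
        have : (1 : ℝ) ≤ s ^ 2 := by nlinarith
        nlinarith [sq_nonneg Q]
      have h3 : 0 ≤ p ^ 2 / s ^ 2 := by positivity
      rw [abs_le] at hS ⊢
      constructor <;> nlinarith [hS.1, hS.2]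
    have h2 : (m / s) ^ 2 - lam ^ 2 = (m / s - lam) * (m / s + lam) := by ring
    rw [h2, abs_mul, abs_of_pos (by linarith : (0 : ℝ) < m / s + lam)] at h1
    by_contra hcon
    push Not at hcon
    have : 1 * lam < |m / s - lam| * (m / s + lam) :=
      mul_lt_mul hcon (by linarith) (by linarith) (abs_nonneg _)
    linarith
  have hζ0 : |(ζ 0 : ℝ)| ≤ s := by
    rw [hs]
    refine Real.abs_le_sqrt ?_
    unfold nsq
    nlinarith [sq_nonneg (ζ 1 : ℝ)]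
  have hζ1 : |(ζ 1 : ℝ)| ≤ s := by
    rw [hs]
    refine Real.abs_le_sqrt ?_
    unfold nsq
    nlinarith [sq_nonneg (ζ 0 : ℝ)]
  have hms : m = ζ 0 * k 0 + ζ 1 * k 1 := LAT3_dot ζ k
  have hps : p = -(ζ 1) * k 0 + ζ 0 * k 1 := LAT3_perp ζ k
  have hns : s ^ 2 = (ζ 0 : ℝ) ^ 2 + (ζ 1 : ℝ) ^ 2 := hs2
  -- the coordinates
  have hc : ∀ (a b d : ℝ), |a| ≤ s → |b| ≤ s → s ^ 2 * d = m * a + p * b →
      |d - lam * (a / s)| ≤ Q + 1 := by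
    intro a b d ha hb hd'
    have hd2 : d - lam * (a / s) = (m / s - lam) * (a / s) + p * (b / s ^ 2) := by
      have hs0 : s ≠ 0 := hspos.ne'
      field_simp
      linarith
    have ha' : |a / s| ≤ 1 := by
      rw [abs_div, abs_of_pos hspos, div_le_one hspos]
      exact ha
    have hb' : |b / s ^ 2| ≤ 1 := by
      rw [abs_div, abs_of_pos (by positivity : (0 : ℝ) < s ^ 2), div_le_one (by positivity)]
      nlinarith
    rw [hd2]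
    refine (abs_add_le _ _).trans ?_
    rw [abs_mul, abs_mul]
    have h1 : |m / s - lam| * |a / s| ≤ 1 * 1 := mul_le_mul hx ha' (abs_nonneg _) zero_le_one
    have h2 : |p| * |b / s ^ 2| ≤ Q * 1 := mul_le_mul hp hb' (abs_nonneg _) (by linarith)
    linarith
  have hk0 : |(k 0 : ℝ) - lam * ((ζ 0 : ℝ) / s)| ≤ Q + 1 := by
    refine hc (ζ 0) (-(ζ 1)) (k 0) hζ0 (by rw [abs_neg]; exact hζ1) ?_
    rw [hns, hms, hps]; ring
  have hk1 : |(k 1 : ℝ) - lam * ((ζ 1 : ℝ) / s)| ≤ Q + 1 := by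
    refine hc (ζ 1) (ζ 0) (k 1) hζ1 hζ0 ?_
    rw [hns, hms, hps]; ring
  have e : ((k 0 : ℝ) * ν 0 + (k 1 : ℝ) * ν 1)
        - lam * (((ζ 0 : ℝ) * ν 0 + (ζ 1 : ℝ) * ν 1) / s) =
      ((k 0 : ℝ) - lam * ((ζ 0 : ℝ) / s)) * ν 0 + ((k 1 : ℝ) - lam * ((ζ 1 : ℝ) / s)) * ν 1 := by
    ring
  rw [e]
  refine (abs_add_le _ _).trans ?_
  rw [abs_mul, abs_mul, mul_add]
  exact add_le_add (mul_le_mul_of_nonneg_right hk0 (abs_nonneg _))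
    (mul_le_mul_of_nonneg_right hk1 (abs_nonneg _))

theorem lat_card {lam W L Q : ℝ} {R : ℕ} (hB : Big lam W L Q R) (F : Finset K2) {ζ : K2}
    (hζ : ζ ∈ Zset R) : ((Clu F lam W Q ζ).card : ℝ) ≤ 2 * Q + 1 := by
  obtain ⟨hz1, hz2⟩ := LAT3_zeta hζ
  obtain ⟨hn1, hn2, hn3, hn4⟩ := LAT3_num hB
  have hmaps : ∀ k ∈ Clu F lam W Q ζ, dot (perp ζ) k ∈ Finset.Icc (-⌊Q⌋) ⌊Q⌋ := by
    intro k hk
    obtain ⟨_, hp, _, _⟩ := LAT3_clu hB F hζ hk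
    rw [abs_le] at hp
    rw [Finset.mem_Icc]
    constructor
    · have : -(dot (perp ζ) k) ≤ ⌊Q⌋ := by
        rw [Int.le_floor]
        push_cast
        linarith [hp.1]
      omega
    · rw [Int.le_floor]
      exact hp.2
  have hinj : Set.InjOn (fun k : K2 => dot (perp ζ) k) (Clu F lam W Q ζ : Set K2) := by
    intro k hk k' hk' h
    have h1 : dot ζ k = dot ζ k' := lat_line hB F hζ hk hk'
    have h2 : dot (perp ζ) k = dot (perp ζ) k' := h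
    have hpos : (0 : ℤ) < (ζ 0) ^ 2 + (ζ 1) ^ 2 := by
      have : (0 : ℝ) < (((ζ 0) ^ 2 + (ζ 1) ^ 2 : ℤ) : ℝ) := by
        push_cast
        unfold nsq at hz1
        linarith
      exact_mod_cast this
    have e0 : ∀ k : K2, ((ζ 0) ^ 2 + (ζ 1) ^ 2) * k 0 =
        ζ 0 * dot ζ k - ζ 1 * dot (perp ζ) k := by
      intro k
      simp only [dot, perp, Matrix.cons_val_zero, Matrix.cons_val_one]
      ring
    have e1 : ∀ k : K2, ((ζ 0) ^ 2 + (ζ 1) ^ 2) * k 1 =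
        ζ 1 * dot ζ k + ζ 0 * dot (perp ζ) k := by
      intro k
      simp only [dot, perp, Matrix.cons_val_zero, Matrix.cons_val_one]
      ring
    funext i
    fin_cases i
    · have : ((ζ 0) ^ 2 + (ζ 1) ^ 2) * k 0 = ((ζ 0) ^ 2 + (ζ 1) ^ 2) * k' 0 := by
        rw [e0, e0, h1, h2]
      exact mul_left_cancel₀ hpos.ne' this
    · have : ((ζ 0) ^ 2 + (ζ 1) ^ 2) * k 1 = ((ζ 0) ^ 2 + (ζ 1) ^ 2) * k' 1 := by
        rw [e1, e1, h1, h2]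
      exact mul_left_cancel₀ hpos.ne' this
  have hcard := Finset.card_le_card_of_injOn (s := Clu F lam W Q ζ)
    (t := Finset.Icc (-⌊Q⌋) ⌊Q⌋) (fun k : K2 => dot (perp ζ) k) (fun k hk => hmaps k hk) hinj
  rw [Int.card_Icc] at hcard
  have hfl : 0 ≤ ⌊Q⌋ := Int.floor_nonneg.2 (by linarith)
  have h1 : ((Clu F lam W Q ζ).card : ℤ) ≤ 2 * ⌊Q⌋ + 1 := by omega
  have h2 : ((Clu F lam W Q ζ).card : ℝ) ≤ 2 * (⌊Q⌋ : ℝ) + 1 := by exact_mod_cast h1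
  have h3 : ((⌊Q⌋ : ℤ) : ℝ) ≤ Q := Int.floor_le Q
  linarith

end Pool.Agent.Lib.MP_4ccfbf_an
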