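import Pool.Agent.Lib.MP_4ccfbf_an.LINEP

set_option autoImplicit false

open MeasureTheory Set Filter Topology Complex
open scoped ENNReal ComplexConjugate

namespace Pool.Agent.Lib.MP_4ccfbf_an

attribute [local instance] msCircle

lemma LINE0_ex (k : K2) (z : T2) : ex k z = (AddCircle.toCircle (lin k z) : ℂ) := by
  unfold ex lin
  rw [AddCircle.toCircle_add, Circle.coe_mul]
  change (∏ i, fourier (k i) (z i)) = _
  rw [Fin.prod_univ_two, fourier_apply, fourier_apply]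

lemma LINE0_ex_add (ξ k k₀ : K2) (j : ℤ) (h0 : k 0 = k₀ 0 + j * ξ 0) (h1 : k 1 = k₀ 1 + j * ξ 1)
    (z : T2) : ex k z = ex k₀ z * fourier j (lin ξ z) := by
  rw [LINE0_ex, LINE0_ex, fourier_apply, ← Circle.coe_mul, ← AddCircle.toCircle_add]
  congr 2
  unfold lin
  rw [h0, h1]
  simp only [add_smul, mul_smul, smul_add]
  abel

lemma LINE0_norm_ex (k : K2) (z : T2) : ‖ex k z‖ = 1 := by
  rw [LINE0_ex]
  exact Circle.norm_coe _

theorem line_rep (ζ : K2) (hζ : Int.gcd (ζ 0) (ζ 1) = 1) (m : ℤ) (F : Finset K2)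
    (hF : ∀ k ∈ F, dot ζ k = m) (c : K2 → ℂ) :
    ∃ g : UnitAddCircle → ℝ, Continuous g ∧ (∀ z : T2, ‖TP F c z‖ = g (lin (perp ζ) z)) ∧
      ∀ s : ℝ, g ((s : ℝ) : UnitAddCircle) = ‖LF ζ F c (2 * Real.pi * s)‖ := by
  rcases F.eq_empty_or_nonempty with rfl | ⟨k₀, hk₀⟩
  · refine ⟨fun _ => 0, continuous_const, fun z => by simp [TP], fun s => by simp [LF]⟩
  · have hN : nsq ζ ≠ 0 := (LINEP_nsq_pos ζ hζ).ne'
    have hex : ∀ k : K2, ∃ j : ℤ, k ∈ F → ((dot (perp ζ) k : ℝ) = dot (perp ζ) k₀ + j * nsq ζ ∧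
      k 0 = k₀ 0 + j * perp ζ 0 ∧ k 1 = k₀ 1 + j * perp ζ 1) := by
      intro k
      by_cases hk : k ∈ F
      · obtain ⟨j, hj⟩ := LINEP_int ζ hζ k k₀ ((hF k hk).trans (hF k₀ hk₀).symm)
        exact ⟨j, fun _ => hj⟩
      · exact ⟨0, fun h => absurd h hk⟩
    choose j hj using hex
    refine ⟨fun x => ‖∑ k ∈ F, c k * fourier (j k) x‖, ?_, ?_, ?_⟩
    · refine (continuous_finset_sum _ fun k _ => ?_).norm
      exact continuous_const.mul (fourier (j k)).continuous
    · intro z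
      have : TP F c z = ex k₀ z * ∑ k ∈ F, c k * fourier (j k) (lin (perp ζ) z) := by
        unfold TP
        rw [Finset.mul_sum]
        refine Finset.sum_congr rfl fun k hk => ?_
        rw [LINE0_ex_add (perp ζ) k k₀ (j k) (hj k hk).2.1 (hj k hk).2.2 z]
        ring
      rw [this, norm_mul, LINE0_norm_ex, one_mul]
    · intro s
      have : LF ζ F c (2 * Real.pi * s)
          = cexp (I * (((dot (perp ζ) k₀ : ℝ) / nsq ζ * (2 * Real.pi * s) : ℝ) : ℂ))
            * ∑ k ∈ F, c k * fourier (j k) ((s : ℝ) : UnitAddCircle) := by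
        unfold LF
        rw [Finset.mul_sum]
        refine Finset.sum_congr rfl fun k hk => ?_
        rw [fourier_coe_apply]
        have e : (dot (perp ζ) k : ℝ) / nsq ζ * (2 * Real.pi * s)
            = (dot (perp ζ) k₀ : ℝ) / nsq ζ * (2 * Real.pi * s) + j k * (2 * Real.pi * s) := by
          rw [(hj k hk).1]; field_simp
        rw [e]
        have e2 : I * (((dot (perp ζ) k₀ : ℝ) / nsq ζ * (2 * Real.pi * s)
            + j k * (2 * Real.pi * s) : ℝ) : ℂ)
            = I * (((dot (perp ζ) k₀ : ℝ) / nsq ζ * (2 * Real.pi * s) : ℝ) : ℂ)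
              + 2 * Real.pi * I * (j k) * s / (1 : ℝ) := by
          push_cast; ring
        rw [e2, Complex.exp_add]
        ring
      rw [this, norm_mul]
      have h1 : ‖cexp (I * (((dot (perp ζ) k₀ : ℝ) / nsq ζ * (2 * Real.pi * s) : ℝ) : ℂ))‖ = 1 := by
        rw [mul_comm, Complex.norm_exp_ofReal_mul_I]
      rw [h1, one_mul]

end Pool.Agent.Lib.MP_4ccfbf_an
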