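import Pool.Agent.Lib.MP_4ccfbf_an.Defs

set_option autoImplicit false

open MeasureTheory Set Filter Topology Complex
open scoped ENNReal ComplexConjugate

namespace Pool.Agent.Lib.MP_4ccfbf_an

attribute [local instance] msCircle

lemma LINEM_lin_continuous (ξ : K2) : Continuous (lin ξ) := by
  unfold lin
  exact ((continuous_apply 0).zsmul (ξ 0)).add ((continuous_apply 1).zsmul (ξ 1))

lemma LINEM_lin_add (ξ : K2) (z w : T2) : lin ξ (z + w) = lin ξ z + lin ξ w := by
  unfold lin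
  simp only [Pi.add_apply, smul_add]
  abel

lemma LINEM_lin_zero (ξ : K2) : lin ξ 0 = 0 := by
  unfold lin
  simp

lemma LINEM_bezout (ξ : K2) (hξ : Int.gcd (ξ 0) (ξ 1) = 1) :
    ∃ η : K2, ξ 0 * η 1 - ξ 1 * η 0 = 1 := by
  obtain ⟨a, b, h⟩ := Int.isCoprime_iff_gcd_eq_one.mpr hξ
  refine ⟨![-b, a], ?_⟩
  simp only [Matrix.cons_val_zero, Matrix.cons_val_one]
  linarith

/-- The endomorphism `z ↦ (ξ·z, η·z)` of the torus. -/
noncomputable def LINEM_Phi (ξ η : K2) : T2 →+ T2 where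
  toFun z := ![lin ξ z, lin η z]
  map_zero' := by
    ext i
    fin_cases i
    · simpa using LINEM_lin_zero ξ
    · simpa using LINEM_lin_zero η
  map_add' z w := by
    ext i
    fin_cases i
    · simpa using LINEM_lin_add ξ z w
    · simpa using LINEM_lin_add η z w

lemma LINEM_Phi_0 (ξ η : K2) (z : T2) : LINEM_Phi ξ η z 0 = lin ξ z := rfl

lemma LINEM_Phi_1 (ξ η : K2) (z : T2) : LINEM_Phi ξ η z 1 = lin η z := rfl

lemma LINEM_Phi_continuous (ξ η : K2) : Continuous (LINEM_Phi ξ η) := by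
  refine continuous_pi fun i => ?_
  fin_cases i
  · exact LINEM_lin_continuous ξ
  · exact LINEM_lin_continuous η

/-- The inverse of `Phi`. -/
noncomputable def LINEM_Psi (ξ η : K2) (w : T2) : T2 :=
  ![η 1 • w 0 - ξ 1 • w 1, -(η 0) • w 0 + ξ 0 • w 1]

lemma LINEM_Psi_continuous (ξ η : K2) : Continuous (LINEM_Psi ξ η) := by
  refine continuous_pi fun i => ?_
  fin_cases i
  · exact ((continuous_apply 0).zsmul (η 1)).sub ((continuous_apply 1).zsmul (ξ 1))
  · exact ((continuous_apply 0).zsmul (-(η 0))).add ((continuous_apply 1).zsmul (ξ 0))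

lemma LINEM_Phi_Psi (ξ η : K2) (h : ξ 0 * η 1 - ξ 1 * η 0 = 1) (w : T2) :
    LINEM_Phi ξ η (LINEM_Psi ξ η w) = w := by
  ext i
  fin_cases i
  · change lin ξ (LINEM_Psi ξ η w) = w 0
    unfold lin LINEM_Psi
    simp only [Matrix.cons_val_zero, Matrix.cons_val_one, smul_sub, smul_add, smul_smul]
    have e : ξ 0 • (ξ 1 • w 1) = ξ 1 • (ξ 0 • w 1) := smul_comm _ _ _
    have : (ξ 0 * η 1) • w 0 - (ξ 0 * ξ 1) • w 1 + ((ξ 1 * -η 0) • w 0 + (ξ 1 * ξ 0) • w 1)
        = (ξ 0 * η 1 - ξ 1 * η 0) • w 0 := by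
      rw [mul_comm (ξ 1) (ξ 0), sub_smul, mul_neg, neg_smul]
      abel
    rw [this, h, one_smul]
  · change lin η (LINEM_Psi ξ η w) = w 1
    unfold lin LINEM_Psi
    simp only [Matrix.cons_val_zero, Matrix.cons_val_one, smul_sub, smul_add, smul_smul]
    have : (η 0 * η 1) • w 0 - (η 0 * ξ 1) • w 1 + ((η 1 * -η 0) • w 0 + (η 1 * ξ 0) • w 1)
        = (ξ 0 * η 1 - ξ 1 * η 0) • w 1 := by
      rw [mul_neg, neg_smul, mul_comm (η 1) (η 0), mul_comm (η 1) (ξ 0), mul_comm (η 0) (ξ 1),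
        sub_smul]
      abel
    rw [this, h, one_smul]

lemma LINEM_Phi_mp (ξ η : K2) (h : ξ 0 * η 1 - ξ 1 * η 0 = 1) :
    MeasurePreserving (LINEM_Phi ξ η) (volume : Measure T2) (volume : Measure T2) := by
  refine AddMonoidHom.measurePreserving (LINEM_Phi_continuous ξ η)
    (fun w => ⟨LINEM_Psi ξ η w, LINEM_Phi_Psi ξ η h w⟩) rfl

theorem lin_mp (ξ : K2) (hξ : Int.gcd (ξ 0) (ξ 1) = 1) :
    MeasurePreserving (lin ξ) (volume : Measure T2) (volume : Measure UnitAddCircle) := by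
  obtain ⟨η, hη⟩ := LINEM_bezout ξ hξ
  have h1 := LINEM_Phi_mp ξ η hη
  have h2 : MeasurePreserving (Function.eval 0) (volume : Measure T2)
      (volume : Measure UnitAddCircle) :=
    measurePreserving_eval (fun _ : Fin 2 => (volume : Measure UnitAddCircle)) 0
  exact h2.comp h1

theorem circle_int (g : UnitAddCircle → ℝ) (hg : Continuous g) :
    ∫ x : UnitAddCircle, g x
      = (1 / (2 * Real.pi)) * ∫ s in (0 : ℝ)..(2 * Real.pi), g ((s / (2 * Real.pi) : ℝ)) := by
  have h0 : (∫ x : UnitAddCircle, g x) = ∫ x, g x ∂(AddCircle.haarAddCircle (T := 1)) := rfl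
  rw [h0, AddCircle.integral_haarAddCircle, ← AddCircle.intervalIntegral_preimage 1 0 g]
  rw [intervalIntegral.integral_comp_div (fun s : ℝ => g (s : UnitAddCircle))
    (c := 2 * Real.pi) (by positivity)]
  have : (2 * Real.pi) / (2 * Real.pi) = 1 := div_self (by positivity)
  rw [this, zero_div, smul_eq_mul, smul_eq_mul]
  have hpi : (2 * Real.pi) ≠ 0 := by positivity
  field_simp
  norm_num

end Pool.Agent.Lib.MP_4ccfbf_an
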