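import Pool.Agent.Lib.MP_4ccfbf_an.LINE0
import Pool.Agent.Lib.MP_4ccfbf_an.LINEM

set_option autoImplicit false

open MeasureTheory Set Filter Topology Complex
open scoped ENNReal ComplexConjugate

namespace Pool.Agent.Lib.MP_4ccfbf_an

attribute [local instance] msCircle

lemma LINEA_gcd_perp (ζ : K2) (hζ : Int.gcd (ζ 0) (ζ 1) = 1) :
    Int.gcd (perp ζ 0) (perp ζ 1) = 1 := by
  have e0 : perp ζ 0 = -(ζ 1) := rfl
  have e1 : perp ζ 1 = ζ 0 := rfl
  rw [e0, e1, Int.neg_gcd, Int.gcd_comm]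
  exact hζ

theorem line_norm_int (ζ : K2) (hζ : Int.gcd (ζ 0) (ζ 1) = 1) (m : ℤ) (F : Finset K2)
    (hF : ∀ k ∈ F, dot ζ k = m) (c d : K2 → ℂ) :
    ∫ z : T2, ‖TP F c z‖ * ‖TP F d z‖
      = (1 / (2 * Real.pi)) * ∫ s in (0 : ℝ)..(2 * Real.pi), ‖LF ζ F c s‖ * ‖LF ζ F d s‖ := by
  obtain ⟨g, hgc, hg1, hg2⟩ := line_rep ζ hζ m F hF c
  obtain ⟨g', hgc', hg1', hg2'⟩ := line_rep ζ hζ m F hF d
  have hmp := lin_mp (perp ζ) (LINEA_gcd_perp ζ hζ)
  have hcont : Continuous (fun x => g x * g' x) := hgc.mul hgc'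
  have e1 : (∫ z : T2, ‖TP F c z‖ * ‖TP F d z‖)
      = ∫ x : UnitAddCircle, g x * g' x := by
    simp_rw [hg1, hg1']
    have h3 := integral_map (μ := (volume : Measure T2)) hmp.measurable.aemeasurable
      (f := fun x => g x * g' x) hcont.aestronglyMeasurable
    rw [hmp.map_eq] at h3
    exact h3.symm
  rw [e1, circle_int (fun x => g x * g' x) hcont]
  congr 1
  refine intervalIntegral.integral_congr fun s _ => ?_
  have hpi : (2 * Real.pi) ≠ 0 := by positivity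
  rw [hg2, hg2', mul_div_cancel₀ s hpi]

end Pool.Agent.Lib.MP_4ccfbf_an
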