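import Pool.Agent.Lib.MP_4ccfbf_an.LINEA

set_option autoImplicit false

open MeasureTheory Set Filter Topology Complex
open scoped ENNReal ComplexConjugate

namespace Pool.Agent.Lib.MP_4ccfbf_an

attribute [local instance] msCircle

lemma LINEB_Psi_Phi (ξ η : K2) (h : ξ 0 * η 1 - ξ 1 * η 0 = 1) (z : T2) :
    LINEM_Psi ξ η (LINEM_Phi ξ η z) = z := by
  ext i
  fin_cases i
  · change η 1 • lin ξ z - ξ 1 • lin η z = z 0
    unfold lin
    simp only [smul_add, smul_smul]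
    have : (η 1 * ξ 0) • z 0 + (η 1 * ξ 1) • z 1 - ((ξ 1 * η 0) • z 0 + (ξ 1 * η 1) • z 1)
        = (ξ 0 * η 1 - ξ 1 * η 0) • z 0 := by
      rw [mul_comm (η 1) (ξ 0), mul_comm (η 1) (ξ 1), sub_smul]
      abel
    rw [this, h, one_smul]
  · change -(η 0) • lin ξ z + ξ 0 • lin η z = z 1
    unfold lin
    simp only [smul_add, smul_smul]
    have : (-η 0 * ξ 0) • z 0 + (-η 0 * ξ 1) • z 1 + ((ξ 0 * η 0) • z 0 + (ξ 0 * η 1) • z 1)
        = (ξ 0 * η 1 - ξ 1 * η 0) • z 1 := by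
      rw [neg_mul, neg_mul, neg_smul, neg_smul, mul_comm (η 0) (ξ 0), mul_comm (η 0) (ξ 1),
        sub_smul]
      abel
    rw [this, h, one_smul]

lemma LINEB_pair_continuous : Continuous (fun p : UnitAddCircle × UnitAddCircle =>
    (![p.1, p.2] : T2)) := by
  refine continuous_pi fun i => ?_
  fin_cases i
  · exact continuous_fst
  · exact continuous_snd

/-- Fubini on the torus. -/
lemma LINEB_fubini (f : T2 → ℝ) (hf : Continuous f) :
    ∫ w : T2, f w = ∫ x : UnitAddCircle, ∫ y : UnitAddCircle, f ![x, y] := by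
  have h1 := (volume_preserving_finTwoArrow UnitAddCircle).symm
  have h2 : (∫ w : T2, f w) = ∫ p : UnitAddCircle × UnitAddCircle, f ![p.1, p.2] := by
    have h3 := h1.integral_comp (MeasurableEquiv.measurableEmbedding _) f
    rw [← h3]
    rfl
  rw [h2]
  have hc : Continuous (fun p : UnitAddCircle × UnitAddCircle => f ![p.1, p.2]) :=
    hf.comp LINEB_pair_continuous
  have hint : Integrable (fun p : UnitAddCircle × UnitAddCircle => f ![p.1, p.2])
      (volume : Measure (UnitAddCircle × UnitAddCircle)) :=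
    hc.integrable_of_hasCompactSupport (HasCompactSupport.of_compactSpace _)
  exact integral_prod (fun p : UnitAddCircle × UnitAddCircle => f ![p.1, p.2]) hint

lemma LINEB_rho_continuous (f : T2 → ℝ) (hf : Continuous f) :
    Continuous (fun x : UnitAddCircle => ∫ y : UnitAddCircle, f ![x, y]) := by
  have h : Continuous (Function.uncurry (fun x y : UnitAddCircle => f ![x, y])) :=
    hf.comp LINEB_pair_continuous
  have h2 := continuous_parametric_integral_of_continuous (μ := (volume : Measure UnitAddCircle))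
    h (isCompact_univ : IsCompact (univ : Set UnitAddCircle))
  simpa only [setIntegral_univ] using h2

/-- Disintegration along `lin ξ`: `∫ χ g(lin ξ) = ∫ ρ g` with `ρ` continuous and nonnegative. -/
lemma LINEB_disint (χ : T2 → ℝ) (hχc : Continuous χ) (hχ0 : ∀ z, 0 ≤ χ z)
    (ξ : K2) (hξ : Int.gcd (ξ 0) (ξ 1) = 1) :
    ∃ ρ : UnitAddCircle → ℝ, Continuous ρ ∧ (∀ x, 0 ≤ ρ x) ∧
      ∀ g : UnitAddCircle → ℝ, Continuous g →
        ∫ z : T2, χ z * g (lin ξ z) = ∫ x : UnitAddCircle, ρ x * g x := by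
  obtain ⟨η, hη⟩ := LINEM_bezout ξ hξ
  have hc1 : Continuous (fun w : T2 => χ (LINEM_Psi ξ η w)) := hχc.comp (LINEM_Psi_continuous ξ η)
  refine ⟨fun x => ∫ y : UnitAddCircle, χ (LINEM_Psi ξ η ![x, y]),
    LINEB_rho_continuous _ hc1, fun x => integral_nonneg fun y => hχ0 _, ?_⟩
  intro g hg
  have hmp := LINEM_Phi_mp ξ η hη
  have hc2 : Continuous (fun w : T2 => χ (LINEM_Psi ξ η w) * g (w 0)) :=
    hc1.mul (hg.comp (continuous_apply 0))
  have e1 : (∫ z : T2, χ z * g (lin ξ z))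
      = ∫ w : T2, χ (LINEM_Psi ξ η w) * g (w 0) := by
    have h3 := integral_map (μ := (volume : Measure T2)) hmp.measurable.aemeasurable
      (f := fun w : T2 => χ (LINEM_Psi ξ η w) * g (w 0)) hc2.aestronglyMeasurable
    rw [hmp.map_eq] at h3
    rw [h3]
    refine integral_congr_ae (Eventually.of_forall fun z => ?_)
    beta_reduce
    rw [LINEB_Psi_Phi ξ η hη, LINEM_Phi_0]
  rw [e1, LINEB_fubini _ hc2]
  refine integral_congr_ae (Eventually.of_forall fun x => ?_)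
  beta_reduce
  rw [← integral_mul_const]
  rfl

theorem line_box (χ : T2 → ℝ) (hχc : Continuous χ) (hχ0 : ∀ z, 0 ≤ χ z)
    (hχ1 : 0 < ∫ z : T2, χ z) (ζ : K2) (hζ : Int.gcd (ζ 0) (ζ 1) = 1) :
    ∃ s₁ ℓ κ : ℝ, 0 < ℓ ∧ ℓ ≤ 2 * Real.pi ∧ 0 < κ ∧ ∀ (m : ℤ) (F : Finset K2),
      (∀ k ∈ F, dot ζ k = m) → ∀ c : K2 → ℂ,
        κ * (∫ s in s₁..(s₁ + ℓ), ‖LF ζ F c s‖ ^ 2) ≤ ∫ z : T2, χ z * ‖TP F c z‖ ^ 2 := by
  obtain ⟨ρ, hρc, hρ0, hρ⟩ := LINEB_disint χ hχc hχ0 (perp ζ) (LINEA_gcd_perp ζ hζ)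
  have hpos : 0 < ∫ x : UnitAddCircle, ρ x := by
    have := hρ (fun _ => 1) continuous_const
    simp only [mul_one] at this
    rwa [this] at hχ1
  obtain ⟨x₀, hx₀⟩ : ∃ x₀, 0 < ρ x₀ := by
    by_contra hcon
    push Not at hcon
    have : (∫ x : UnitAddCircle, ρ x) ≤ 0 := integral_nonpos hcon
    linarith
  obtain ⟨t₀, rfl⟩ := QuotientAddGroup.mk_surjective x₀
  have h2pi : (0 : ℝ) < 2 * Real.pi := by positivity
  set r : ℝ → ℝ := fun s => ρ ((s / (2 * Real.pi) : ℝ) : UnitAddCircle) with hr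
  have hrc : Continuous r := by
    refine hρc.comp ?_
    exact (AddCircle.continuous_mk' 1).comp (continuous_id.div_const _)
  have hr1 : 0 < r (2 * Real.pi * t₀) := by
    rw [hr]
    beta_reduce
    rw [mul_div_cancel_left₀ t₀ h2pi.ne']
    exact hx₀
  set s₁ : ℝ := 2 * Real.pi * t₀ with hs₁
  have hev : ∀ᶠ s in 𝓝 s₁, r s₁ / 2 < r s :=
    hrc.continuousAt.eventually (lt_mem_nhds (by linarith))
  obtain ⟨δ, hδ, hball⟩ := Metric.eventually_nhds_iff.mp hev
  refine ⟨s₁, min (δ / 2) (2 * Real.pi), (1 / (2 * Real.pi)) * (r s₁ / 2),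
    lt_min (by linarith) h2pi, min_le_right _ _, by positivity, ?_⟩
  intro m F hF c
  set ℓ : ℝ := min (δ / 2) (2 * Real.pi) with hℓ
  have hℓ0 : 0 < ℓ := lt_min (by linarith) h2pi
  have hℓ1 : ℓ ≤ 2 * Real.pi := min_le_right _ _
  have hℓ2 : ℓ ≤ δ / 2 := min_le_left _ _
  obtain ⟨g, hgc, hg1, hg2⟩ := line_rep ζ hζ m F hF c
  have hG : Continuous (fun x => g x ^ 2) := hgc.pow 2
  have e1 : (∫ z : T2, χ z * ‖TP F c z‖ ^ 2) = ∫ x : UnitAddCircle, ρ x * g x ^ 2 := by
    rw [← hρ (fun x => g x ^ 2) hG]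
    refine integral_congr_ae (Eventually.of_forall fun z => ?_)
    beta_reduce
    rw [hg1]
  have hg3 : ∀ s : ℝ, g ((s / (2 * Real.pi) : ℝ) : UnitAddCircle) = ‖LF ζ F c s‖ := by
    intro s
    rw [hg2, mul_div_cancel₀ s h2pi.ne']
  set H : ℝ → ℝ := fun s => r s * ‖LF ζ F c s‖ ^ 2 with hH
  have hLFc : Continuous (fun s => ‖LF ζ F c s‖ ^ 2) := by
    have : (fun s => ‖LF ζ F c s‖ ^ 2)
        = fun s : ℝ => g ((s / (2 * Real.pi) : ℝ) : UnitAddCircle) ^ 2 := by
      funext s; rw [hg3]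
    rw [this]
    exact hG.comp ((AddCircle.continuous_mk' 1).comp (continuous_id.div_const _))
  have hHc : Continuous H := hrc.mul hLFc
  have hH0 : ∀ s, 0 ≤ H s := fun s => mul_nonneg (hρ0 _) (by positivity)
  have hper : Function.Periodic H (2 * Real.pi) := by
    intro s
    have e : (((s + 2 * Real.pi) / (2 * Real.pi) : ℝ) : UnitAddCircle)
        = ((s / (2 * Real.pi) : ℝ) : UnitAddCircle) := by
      rw [add_div, div_self h2pi.ne']
      exact AddCircle.coe_add_period 1 _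
    change ρ (((s + 2 * Real.pi) / (2 * Real.pi) : ℝ) : UnitAddCircle)
      * ‖LF ζ F c (s + 2 * Real.pi)‖ ^ 2 = ρ ((s / (2 * Real.pi) : ℝ) : UnitAddCircle)
      * ‖LF ζ F c s‖ ^ 2
    rw [← hg3, ← hg3, e]
  have e2 : (∫ x : UnitAddCircle, ρ x * g x ^ 2)
      = (1 / (2 * Real.pi)) * ∫ s in s₁..(s₁ + 2 * Real.pi), H s := by
    rw [circle_int (fun x => ρ x * g x ^ 2) (hρc.mul hG),
      hper.intervalIntegral_add_eq s₁ 0, zero_add]
    congr 1
    refine intervalIntegral.integral_congr fun s _ => ?_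
    beta_reduce
    rw [hg3]
  rw [e1, e2, mul_assoc]
  refine mul_le_mul_of_nonneg_left ?_ (by positivity)
  have hint : ∀ a b : ℝ, IntervalIntegrable H volume a b := fun a b => hHc.intervalIntegrable a b
  have e3 : (∫ s in s₁..(s₁ + ℓ), H s) ≤ ∫ s in s₁..(s₁ + 2 * Real.pi), H s := by
    rw [← intervalIntegral.integral_add_adjacent_intervals (hint s₁ (s₁ + ℓ))
      (hint (s₁ + ℓ) (s₁ + 2 * Real.pi))]
    have : 0 ≤ ∫ s in (s₁ + ℓ)..(s₁ + 2 * Real.pi), H s :=
      intervalIntegral.integral_nonneg (by linarith) fun s _ => hH0 s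
    linarith
  refine le_trans ?_ e3
  rw [← intervalIntegral.integral_const_mul]
  refine intervalIntegral.integral_mono_on (by linarith)
    ((continuous_const.mul hLFc).intervalIntegrable _ _) (hint _ _) ?_
  intro s hs
  have : dist s s₁ < δ := by
    rw [Real.dist_eq, abs_lt]
    constructor <;> linarith [hs.1, hs.2]
  have h5 := hball this
  exact mul_le_mul_of_nonneg_right h5.le (by positivity)

end Pool.Agent.Lib.MP_4ccfbf_an
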