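import Pool.Agent.Lib.MP_4ccfbf_an.Defs

set_option autoImplicit false

open MeasureTheory Set Filter Topology Complex
open scoped ENNReal ComplexConjugate

namespace Pool.Agent.Lib.MP_4ccfbf_an

attribute [local instance] msCircle

lemma LINEP_nsq_pos (ζ : K2) (hζ : Int.gcd (ζ 0) (ζ 1) = 1) : 0 < nsq ζ := by
  have h : ζ 0 ≠ 0 ∨ ζ 1 ≠ 0 := by
    by_contra hcon
    push Not at hcon
    rw [hcon.1, hcon.2] at hζ
    simp at hζ
  unfold nsq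
  rcases h with h | h
  · have : (ζ 0 : ℝ) ≠ 0 := by exact_mod_cast h
    positivity
  · have : (ζ 1 : ℝ) ≠ 0 := by exact_mod_cast h
    positivity

lemma LINEP_int (ζ : K2) (hζ : Int.gcd (ζ 0) (ζ 1) = 1) (k k₀ : K2) (h : dot ζ k = dot ζ k₀) :
    ∃ j : ℤ, (dot (perp ζ) k : ℝ) = dot (perp ζ) k₀ + j * nsq ζ ∧
      k 0 = k₀ 0 + j * perp ζ 0 ∧ k 1 = k₀ 1 + j * perp ζ 1 := by
  obtain ⟨a, b, hab⟩ : ∃ a b : ℤ, a * ζ 0 + b * ζ 1 = 1 := by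
    have := Int.isCoprime_iff_gcd_eq_one.mpr hζ
    obtain ⟨a, b, h⟩ := this
    exact ⟨a, b, h⟩
  have h' : ζ 0 * (k 0 - k₀ 0) + ζ 1 * (k 1 - k₀ 1) = 0 := by
    unfold dot at h
    linarith
  set j : ℤ := a * (k 1 - k₀ 1) - b * (k 0 - k₀ 0) with hj
  have e1 : k 1 - k₀ 1 = j * ζ 0 := by
    rw [hj]
    linear_combination (-(k 1 - k₀ 1)) * hab + b * h'
  have e0 : k 0 - k₀ 0 = j * (-(ζ 1)) := by
    rw [hj]
    linear_combination (-(k 0 - k₀ 0)) * hab + a * h'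
  refine ⟨j, ?_, ?_, ?_⟩
  · have : dot (perp ζ) k - dot (perp ζ) k₀ = j * (ζ 0 ^ 2 + ζ 1 ^ 2) := by
      simp only [dot, perp, Matrix.cons_val_zero, Matrix.cons_val_one]
      have : -ζ 1 * (k 0 - k₀ 0) + ζ 0 * (k 1 - k₀ 1) = j * (ζ 0 ^ 2 + ζ 1 ^ 2) := by
        rw [e0, e1]; ring
      linear_combination this
    have h2 : ((dot (perp ζ) k - dot (perp ζ) k₀ : ℤ) : ℝ) = ((j * (ζ 0 ^ 2 + ζ 1 ^ 2) : ℤ) : ℝ) := by
      rw [this]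
    push_cast at h2
    unfold nsq
    linarith
  · have : perp ζ 0 = -(ζ 1) := rfl
    rw [this]
    linarith
  · have : perp ζ 1 = ζ 0 := rfl
    rw [this]
    linarith

theorem line_period (ζ : K2) (hζ : Int.gcd (ζ 0) (ζ 1) = 1) (m : ℤ) (F : Finset K2)
    (hF : ∀ k ∈ F, dot ζ k = m) :
    ∃ w : ℂ, ‖w‖ = 1 ∧ ∀ (c : K2 → ℂ) (s : ℝ), LF ζ F c (s + 2 * Real.pi) = w * LF ζ F c s := by
  rcases F.eq_empty_or_nonempty with rfl | ⟨k₀, hk₀⟩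
  · refine ⟨1, by simp, fun c s => by simp [LF]⟩
  · have hN : nsq ζ ≠ 0 := (LINEP_nsq_pos ζ hζ).ne'
    refine ⟨cexp (I * (((dot (perp ζ) k₀ : ℝ) / nsq ζ * (2 * Real.pi) : ℝ) : ℂ)), ?_, ?_⟩
    · rw [mul_comm, Complex.norm_exp_ofReal_mul_I]
    · intro c s
      unfold LF
      rw [Finset.mul_sum]
      refine Finset.sum_congr rfl fun k hk => ?_
      obtain ⟨j, hj, -, -⟩ := LINEP_int ζ hζ k k₀ ((hF k hk).trans (hF k₀ hk₀).symm)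
      have e1 : I * (((dot (perp ζ) k : ℝ) / nsq ζ * (s + 2 * Real.pi) : ℝ) : ℂ)
          = (I * (((dot (perp ζ) k₀ : ℝ) / nsq ζ * (2 * Real.pi) : ℝ) : ℂ)
            + I * (((dot (perp ζ) k : ℝ) / nsq ζ * s : ℝ) : ℂ)) + (j : ℂ) * (2 * Real.pi * I) := by
        have e2 : (dot (perp ζ) k : ℝ) / nsq ζ * (s + 2 * Real.pi)
            = (dot (perp ζ) k₀ : ℝ) / nsq ζ * (2 * Real.pi) + (dot (perp ζ) k : ℝ) / nsq ζ * s
              + j * (2 * Real.pi) := by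
          have : (dot (perp ζ) k : ℝ) / nsq ζ = (dot (perp ζ) k₀ : ℝ) / nsq ζ + j := by
            rw [hj]; field_simp
          rw [mul_add, this]; ring
        rw [e2]; push_cast; ring
      rw [e1, Complex.exp_add, Complex.exp_int_mul_two_pi_mul_I, mul_one, Complex.exp_add]
      ring

theorem LINEP_deriv (ζ : K2) (F : Finset K2) (c : K2 → ℂ) (x : ℝ) :
    HasDerivAt (LF ζ F c) (LF ζ F (dco ζ c) x) x := by
  unfold LF
  have h : ∀ k ∈ F, HasDerivAt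
      (fun s : ℝ => c k * cexp (I * (((dot (perp ζ) k : ℝ) / nsq ζ * s : ℝ) : ℂ)))
      (dco ζ c k * cexp (I * (((dot (perp ζ) k : ℝ) / nsq ζ * x : ℝ) : ℂ))) x := by
    intro k hk
    have h1 : HasDerivAt (fun s : ℝ => ((dot (perp ζ) k : ℝ) / nsq ζ * s : ℝ))
        ((dot (perp ζ) k : ℝ) / nsq ζ) x := by
      simpa using (hasDerivAt_id x).const_mul ((dot (perp ζ) k : ℝ) / nsq ζ)
    have h2 := (h1.ofReal_comp.const_mul I).cexp.const_mul (c k)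
    refine h2.congr_deriv ?_
    unfold dco
    ring
  exact HasDerivAt.fun_sum h

theorem line_ode (ζ : K2) (hζ : Int.gcd (ζ 0) (ζ 1) = 1) (m : ℤ) (F : Finset K2)
    (hF : ∀ k ∈ F, dot ζ k = m) (s : ℝ) (c : K2 → ℂ) (x : ℝ) :
    HasDerivAt (LF ζ F c) (LF ζ F (dco ζ c) x) x ∧
      HasDerivAt (LF ζ F (dco ζ c))
        (-(((s ^ 2 - (m : ℝ) ^ 2 / nsq ζ) / nsq ζ : ℝ) : ℂ) * LF ζ F c x
          - (((nsq ζ)⁻¹ : ℝ) : ℂ) * LF ζ F (gco s c) x) x := by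
  refine ⟨LINEP_deriv ζ F c x, ?_⟩
  have hN : nsq ζ ≠ 0 := (LINEP_nsq_pos ζ hζ).ne'
  refine (LINEP_deriv ζ F (dco ζ c) x).congr_deriv ?_
  unfold LF
  rw [Finset.mul_sum, Finset.mul_sum, ← Finset.sum_sub_distrib]
  refine Finset.sum_congr rfl fun k hk => ?_
  have hid : (dot ζ k : ℝ) ^ 2 + (dot (perp ζ) k : ℝ) ^ 2 = nsq ζ * nsq k := by
    simp only [dot, perp, nsq, Matrix.cons_val_zero, Matrix.cons_val_one]
    push_cast
    ring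
  rw [hF k hk] at hid
  have key : ((dot (perp ζ) k : ℝ) / nsq ζ) ^ 2
      = (s ^ 2 - (m : ℝ) ^ 2 / nsq ζ) / nsq ζ + (nsq ζ)⁻¹ * (nsq k - s ^ 2) := by
    field_simp
    linarith
  have key' : -((((dot (perp ζ) k : ℝ) / nsq ζ : ℝ) : ℂ)) ^ 2
      = -(((s ^ 2 - (m : ℝ) ^ 2 / nsq ζ) / nsq ζ : ℝ) : ℂ)
        - (((nsq ζ)⁻¹ : ℝ) : ℂ) * ((nsq k - s ^ 2 : ℝ) : ℂ) := by
    rw [← Complex.ofReal_pow, key]
    push_cast
    ring
  unfold dco gco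
  have hI : I * I = -1 := Complex.I_mul_I
  calc I * (((dot (perp ζ) k : ℝ) / nsq ζ : ℝ) : ℂ)
        * (I * (((dot (perp ζ) k : ℝ) / nsq ζ : ℝ) : ℂ) * c k)
        * cexp (I * (((dot (perp ζ) k : ℝ) / nsq ζ * x : ℝ) : ℂ))
      = (-((((dot (perp ζ) k : ℝ) / nsq ζ : ℝ) : ℂ)) ^ 2)
        * (c k * cexp (I * (((dot (perp ζ) k : ℝ) / nsq ζ * x : ℝ) : ℂ))) := by
        linear_combination ((((dot (perp ζ) k : ℝ) / nsq ζ : ℝ) : ℂ)) ^ 2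
          * (c k * cexp (I * (((dot (perp ζ) k : ℝ) / nsq ζ * x : ℝ) : ℂ))) * hI
    _ = _ := by
        rw [key']
        ring

end Pool.Agent.Lib.MP_4ccfbf_an
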