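import Pool.Agent.Lib.MP_4ccfbf_an.BAS

set_option autoImplicit false

open MeasureTheory Set Filter Topology Complex
open scoped ENNReal ComplexConjugate

namespace Pool.Agent.Lib.MP_4ccfbf_an

attribute [local instance] msCircle

/-- The Fourier coefficient of the weight. -/
noncomputable def NORTH_X (χ : T2 → ℝ) (m : K2) : ℂ := ∫ z : T2, (χ z : ℂ) * ex m z

lemma NORTH_form (χ : T2 → ℝ) (hχc : Continuous χ) (F : Finset K2) (c : K2 → ℂ) :
    ∫ z : T2, χ z * ‖TP F c z‖ ^ 2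
      = ∑ k ∈ F, ∑ l ∈ F, (c k * conj (c l) * NORTH_X χ (k - l)).re := by
  have hχ' : Continuous (fun z : T2 => (χ z : ℂ)) := Complex.continuous_ofReal.comp hχc
  have h1 : ((∫ z : T2, χ z * ‖TP F c z‖ ^ 2 : ℝ) : ℂ)
      = ∑ k ∈ F, ∑ l ∈ F, c k * conj (c l) * NORTH_X χ (k - l) := by
    rw [← integral_complex_ofReal]
    have : ∀ z : T2, ((χ z * ‖TP F c z‖ ^ 2 : ℝ) : ℂ)
        = ∑ k ∈ F, ∑ l ∈ F, c k * conj (c l) * ((χ z : ℂ) * ex (k - l) z) := by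
      intro z
      have e : ((χ z * ‖TP F c z‖ ^ 2 : ℝ) : ℂ) = (χ z : ℂ) * (TP F c z * conj (TP F c z)) := by
        rw [Complex.mul_conj, Complex.normSq_eq_norm_sq]
        push_cast
        ring
      rw [e, BAS_TP_mul_conj, Finset.mul_sum]
      refine Finset.sum_congr rfl (fun k _ => ?_)
      rw [Finset.mul_sum]
      refine Finset.sum_congr rfl (fun l _ => ?_)
      ring
    simp only [this]
    rw [integral_finsetSum]
    · refine Finset.sum_congr rfl (fun k _ => ?_)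
      rw [integral_finsetSum]
      · refine Finset.sum_congr rfl (fun l _ => ?_)
        rw [integral_const_mul]
        rfl
      · intro l _
        exact (BAS_integrable (hχ'.mul (ex_continuous _))).const_mul _
    · intro k _
      refine integrable_finsetSum _ (fun l _ => ?_)
      exact (BAS_integrable (hχ'.mul (ex_continuous _))).const_mul _
  have h2 := congrArg Complex.re h1
  rw [Complex.ofReal_re] at h2
  rw [h2, Complex.re_sum]
  refine Finset.sum_congr rfl (fun k _ => ?_)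
  rw [Complex.re_sum]

lemma NORTH_X_zero (χ : T2 → ℝ) : NORTH_X χ 0 = ((∫ z : T2, χ z : ℝ) : ℂ) := by
  unfold NORTH_X
  rw [← integral_complex_ofReal]
  refine integral_congr_ae (Filter.Eventually.of_forall (fun z => ?_))
  simp [ex, UnitAddTorus.mFourier_zero]

open Classical in
/-- The truncated kernel. -/
noncomputable def NORTH_W (χ : T2 → ℝ) (L' : ℝ) (k l : K2) : ℝ :=
  if L' ^ 2 ≤ nsq (k - l) then ‖NORTH_X χ (k - l)‖ else 0

lemma NORTH_W_nonneg (χ : T2 → ℝ) (L' : ℝ) (k l : K2) : 0 ≤ NORTH_W χ L' k l := by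
  unfold NORTH_W
  split_ifs
  · exact norm_nonneg _
  · exact le_refl _

lemma NORTH_row (χ : T2 → ℝ) (C L' : ℝ) (hX : ∀ T : Finset K2, (∀ m ∈ T, L' ^ 2 ≤ nsq m) →
      ∑ m ∈ T, ‖NORTH_X χ m‖ ≤ C / L') (U : Finset K2) (k : K2) :
    ∑ l ∈ U, NORTH_W χ L' k l ≤ C / L' := by
  classical
  have h := hX ((U.filter (fun l => L' ^ 2 ≤ nsq (k - l))).image (fun l => k - l)) (by
    intro m hm
    obtain ⟨l, hl, rfl⟩ := Finset.mem_image.mp hm
    exact (Finset.mem_filter.mp hl).2)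
  rw [Finset.sum_image (fun a _ b _ hab => sub_right_injective hab)] at h
  refine le_trans (le_of_eq ?_) h
  unfold NORTH_W
  rw [Finset.sum_filter]

lemma NORTH_col (χ : T2 → ℝ) (C L' : ℝ) (hX : ∀ T : Finset K2, (∀ m ∈ T, L' ^ 2 ≤ nsq m) →
      ∑ m ∈ T, ‖NORTH_X χ m‖ ≤ C / L') (U : Finset K2) (l : K2) :
    ∑ k ∈ U, NORTH_W χ L' k l ≤ C / L' := by
  classical
  have h := hX ((U.filter (fun k => L' ^ 2 ≤ nsq (k - l))).image (fun k => k - l)) (by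
    intro m hm
    obtain ⟨k, hk, rfl⟩ := Finset.mem_image.mp hm
    exact (Finset.mem_filter.mp hk).2)
  rw [Finset.sum_image (fun a _ b _ hab => sub_left_injective hab)] at h
  refine le_trans (le_of_eq ?_) h
  unfold NORTH_W
  rw [Finset.sum_filter]

lemma NORTH_schur (χ : T2 → ℝ) (C L' : ℝ) (hX : ∀ T : Finset K2, (∀ m ∈ T, L' ^ 2 ≤ nsq m) →
      ∑ m ∈ T, ‖NORTH_X χ m‖ ≤ C / L') (U : Finset K2) (c : K2 → ℂ) :
    ∑ k ∈ U, ∑ l ∈ U, ‖c k‖ * ‖c l‖ * NORTH_W χ L' k l ≤ C / L' * ∑ k ∈ U, ‖c k‖ ^ 2 := by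
  have h1 : ∑ k ∈ U, ∑ l ∈ U, ‖c k‖ * ‖c l‖ * NORTH_W χ L' k l
      ≤ ∑ k ∈ U, ∑ l ∈ U, (‖c k‖ ^ 2 / 2 * NORTH_W χ L' k l
        + ‖c l‖ ^ 2 / 2 * NORTH_W χ L' k l) := by
    refine Finset.sum_le_sum (fun k _ => Finset.sum_le_sum (fun l _ => ?_))
    rw [← add_mul]
    refine mul_le_mul_of_nonneg_right ?_ (NORTH_W_nonneg _ _ _ _)
    nlinarith [two_mul_le_add_sq ‖c k‖ ‖c l‖]
  refine h1.trans ?_
  simp only [Finset.sum_add_distrib]
  have h2 : ∑ k ∈ U, ∑ l ∈ U, ‖c k‖ ^ 2 / 2 * NORTH_W χ L' k l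
      ≤ ∑ k ∈ U, ‖c k‖ ^ 2 / 2 * (C / L') := by
    refine Finset.sum_le_sum (fun k _ => ?_)
    rw [← Finset.mul_sum]
    exact mul_le_mul_of_nonneg_left (NORTH_row χ C L' hX U k) (by positivity)
  have h3 : ∑ k ∈ U, ∑ l ∈ U, ‖c l‖ ^ 2 / 2 * NORTH_W χ L' k l
      ≤ ∑ l ∈ U, ‖c l‖ ^ 2 / 2 * (C / L') := by
    rw [Finset.sum_comm]
    refine Finset.sum_le_sum (fun l _ => ?_)
    rw [← Finset.mul_sum]
    exact mul_le_mul_of_nonneg_left (NORTH_col χ C L' hX U l) (by positivity)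
  refine (add_le_add h2 h3).trans (le_of_eq ?_)
  rw [← Finset.sum_mul, ← Finset.sum_div]
  ring

lemma NORTH_swap (S Z : Finset K2) (f : K2 → K2 → K2 → ℝ) :
    ∑ k ∈ S, ∑ l ∈ S, ∑ ζ ∈ Z, f k l ζ = ∑ ζ ∈ Z, ∑ k ∈ S, ∑ l ∈ S, f k l ζ := by
  have h1 : ∑ k ∈ S, ∑ l ∈ S, ∑ ζ ∈ Z, f k l ζ = ∑ k ∈ S, ∑ ζ ∈ Z, ∑ l ∈ S, f k l ζ :=
    Finset.sum_congr rfl (fun k _ => Finset.sum_comm)
  rw [h1, Finset.sum_comm]

open Classical in
lemma NORTH_restrict (S A : Finset K2) (hA : A ⊆ S) (g : K2 → K2 → ℝ) :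
    ∑ k ∈ S, ∑ l ∈ S, (if k ∈ A then (if l ∈ A then g k l else 0) else 0)
      = ∑ k ∈ A, ∑ l ∈ A, g k l := by
  have h1 : ∀ k ∈ S, ∑ l ∈ S, (if k ∈ A then (if l ∈ A then g k l else 0) else 0)
      = if k ∈ A then ∑ l ∈ A, g k l else 0 := by
    intro k _
    by_cases h : k ∈ A
    · simp only [if_pos h]
      rw [Finset.sum_ite_mem, Finset.inter_eq_right.mpr hA]
    · simp only [if_neg h, Finset.sum_const_zero]
  rw [Finset.sum_congr rfl h1, Finset.sum_ite_mem, Finset.inter_eq_right.mpr hA]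

theorem near_orth (χ : T2 → ℝ) (hχc : Continuous χ) (hχ0 : ∀ z, 0 ≤ χ z) (C L : ℝ) (R : ℕ)
    (hC : 0 < C) (hL : 1 ≤ L) (hR : 1 ≤ R)
    (hX : ∀ L' : ℝ, 1 ≤ L' → ∀ T : Finset K2, (∀ m ∈ T, L' ^ 2 ≤ nsq m) →
      ∑ m ∈ T, ‖∫ z : T2, (χ z : ℂ) * ex m z‖ ≤ C / L')
    (S Z : Finset K2) (Cl : K2 → Finset K2) (hsub : ∀ ζ ∈ Z, Cl ζ ⊆ S)
    (hdis : ∀ ζ ∈ Z, ∀ ζ' ∈ Z, ∀ k, k ∈ Cl ζ → k ∈ Cl ζ' → ζ = ζ')
    (Re : Finset K2) (hRe : ∀ k, k ∈ Re ↔ k ∈ S ∧ ∀ ζ ∈ Z, k ∉ Cl ζ)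
    (hpair : ∀ k ∈ S, ∀ k' ∈ S, k ≠ k' → nsq (k - k') ≤ L ^ 2 →
      (∃ ζ ∈ Z, k ∈ Cl ζ ∧ k' ∈ Cl ζ) ∨ (k ∈ Re ∧ k' ∈ Re ∧ (R : ℝ) ≤ nsq (k - k')))
    (c : K2 → ℂ) :
    ∑ ζ ∈ Z, (∫ z : T2, χ z * ‖TP (Cl ζ) c z‖ ^ 2)
        + ((∫ z : T2, χ z) - C / Real.sqrt R) * ∑ k ∈ Re, ‖c k‖ ^ 2
      ≤ (∫ z : T2, χ z * ‖TP S c z‖ ^ 2) + C / L * ∑ k ∈ S, ‖c k‖ ^ 2 := by
  classical
  have hX1 : ∀ T : Finset K2, (∀ m ∈ T, L ^ 2 ≤ nsq m) → ∑ m ∈ T, ‖NORTH_X χ m‖ ≤ C / L :=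
    fun T hT => hX L hL T hT
  have hRr : (1 : ℝ) ≤ (R : ℝ) := by exact_mod_cast hR
  have hX2 : ∀ T : Finset K2, (∀ m ∈ T, (Real.sqrt R) ^ 2 ≤ nsq m) →
      ∑ m ∈ T, ‖NORTH_X χ m‖ ≤ C / Real.sqrt R :=
    fun T hT => hX (Real.sqrt R) (Real.one_le_sqrt.mpr hRr) T hT
  have hsq : (Real.sqrt R) ^ 2 = (R : ℝ) := Real.sq_sqrt (by positivity)
  have hReS : Re ⊆ S := fun k hk => ((hRe k).mp hk).1
  set B : K2 → K2 → ℝ := fun k l => (c k * conj (c l) * NORTH_X χ (k - l)).re with hB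
  have hBabs : ∀ k l, |B k l| ≤ ‖c k‖ * ‖c l‖ * ‖NORTH_X χ (k - l)‖ := by
    intro k l
    refine (Complex.abs_re_le_norm _).trans (le_of_eq ?_)
    rw [norm_mul, norm_mul, RCLike.norm_conj]
  have hBd : ∀ k, B k k = ‖c k‖ ^ 2 * ∫ z : T2, χ z := by
    intro k
    simp only [hB]
    rw [sub_self, NORTH_X_zero, Complex.mul_conj, ← Complex.ofReal_mul, Complex.ofReal_re,
      Complex.normSq_eq_norm_sq]
  -- the pointwise inequality
  have hpt : ∀ k ∈ S, ∀ l ∈ S,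
      (∑ ζ ∈ Z, (if k ∈ Cl ζ then (if l ∈ Cl ζ then B k l else 0) else 0))
        + (if k ∈ Re then (if k = l then B k l else 0) else 0)
      ≤ B k l + ((if k ∈ Re then (if l ∈ Re then ‖c k‖ * ‖c l‖ * NORTH_W χ (Real.sqrt R) k l
          else 0) else 0) + ‖c k‖ * ‖c l‖ * NORTH_W χ L k l) := by
    intro k hk l hl
    have n1 : 0 ≤ ‖c k‖ * ‖c l‖ * NORTH_W χ (Real.sqrt R) k l :=
      mul_nonneg (by positivity) (NORTH_W_nonneg _ _ _ _)
    have n2 : 0 ≤ ‖c k‖ * ‖c l‖ * NORTH_W χ L k l :=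
      mul_nonneg (by positivity) (NORTH_W_nonneg _ _ _ _)
    have n3 : 0 ≤ (if k ∈ Re then (if l ∈ Re then ‖c k‖ * ‖c l‖ * NORTH_W χ (Real.sqrt R) k l
          else 0) else 0) := by
      split_ifs
      · exact n1
      · exact le_refl _
      · exact le_refl _
    by_cases hcl : ∃ ζ ∈ Z, k ∈ Cl ζ ∧ l ∈ Cl ζ
    · obtain ⟨ζ, hζ, hkζ, hlζ⟩ := hcl
      have e1 : ∑ ζ ∈ Z, (if k ∈ Cl ζ then (if l ∈ Cl ζ then B k l else 0) else 0) = B k l := by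
        rw [Finset.sum_eq_single ζ]
        · rw [if_pos hkζ, if_pos hlζ]
        · intro ζ' hζ' hne
          rw [if_neg]
          intro h
          exact hne (hdis ζ' hζ' ζ hζ k h hkζ)
        · intro h; exact absurd hζ h
      have e2 : k ∉ Re := fun h => ((hRe k).mp h).2 ζ hζ hkζ
      rw [e1, if_neg e2, if_neg e2]
      linarith
    · have e1 : ∑ ζ ∈ Z, (if k ∈ Cl ζ then (if l ∈ Cl ζ then B k l else 0) else 0) = 0 := by
        refine Finset.sum_eq_zero (fun ζ hζ => ?_)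
        by_cases h1 : k ∈ Cl ζ
        · rw [if_pos h1, if_neg]
          intro h2
          exact hcl ⟨ζ, hζ, h1, h2⟩
        · rw [if_neg h1]
      rw [e1, zero_add]
      by_cases hkl : k = l
      · subst hkl
        have e2 : k ∈ Re := (hRe k).mpr ⟨hk, fun ζ hζ h => hcl ⟨ζ, hζ, h, h⟩⟩
        rw [if_pos e2, if_pos rfl]
        linarith
      · have e3 : (if k ∈ Re then (if k = l then B k l else 0) else 0) = 0 := by
          rw [if_neg hkl, ite_self]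
        rw [e3]
        have hab := neg_abs_le (B k l)
        have hBa := hBabs k l
        by_cases hn : nsq (k - l) ≤ L ^ 2
        · rcases hpair k hk l hl hkl hn with h | ⟨h1, h2, h3⟩
          · exact absurd h hcl
          · rw [if_pos h1, if_pos h2]
            have e4 : NORTH_W χ (Real.sqrt R) k l = ‖NORTH_X χ (k - l)‖ := by
              unfold NORTH_W
              rw [if_pos]
              rw [hsq]
              exact h3
            rw [e4]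
            linarith
        · have e4 : NORTH_W χ L k l = ‖NORTH_X χ (k - l)‖ := by
            unfold NORTH_W
            rw [if_pos]
            exact (not_le.mp hn).le
          rw [e4]
          rw [e4] at n2
          linarith
  have hsum := Finset.sum_le_sum (fun k hk => Finset.sum_le_sum (fun l hl => hpt k hk l hl))
  simp only [Finset.sum_add_distrib] at hsum
  -- the clusters
  have s1 : ∑ k ∈ S, ∑ l ∈ S, ∑ ζ ∈ Z, (if k ∈ Cl ζ then (if l ∈ Cl ζ then B k l else 0) else 0)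
      = ∑ ζ ∈ Z, ∫ z : T2, χ z * ‖TP (Cl ζ) c z‖ ^ 2 := by
    rw [NORTH_swap]
    refine Finset.sum_congr rfl (fun ζ hζ => ?_)
    rw [NORTH_restrict _ _ (hsub ζ hζ), NORTH_form χ hχc]
  have s2 : ∑ k ∈ S, ∑ l ∈ S, (if k ∈ Re then (if k = l then B k l else 0) else 0)
      = (∫ z : T2, χ z) * ∑ k ∈ Re, ‖c k‖ ^ 2 := by
    have : ∀ k ∈ S, ∑ l ∈ S, (if k ∈ Re then (if k = l then B k l else 0) else 0)
        = if k ∈ Re then B k k else 0 := by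
      intro k hk
      by_cases h : k ∈ Re
      · simp only [if_pos h]
        rw [Finset.sum_ite_eq, if_pos hk]
      · simp only [if_neg h, Finset.sum_const_zero]
    rw [Finset.sum_congr rfl this, Finset.sum_ite_mem, Finset.inter_eq_right.mpr hReS,
      Finset.mul_sum]
    refine Finset.sum_congr rfl (fun k _ => ?_)
    rw [hBd]
    ring
  have s3 := NORTH_schur χ C (Real.sqrt R) hX2 Re c
  have s4 := NORTH_schur χ C L hX1 S c
  have s5 := NORTH_restrict S Re hReS (fun k l => ‖c k‖ * ‖c l‖ * NORTH_W χ (Real.sqrt R) k l)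
  have s6 := NORTH_form χ hχc S c
  rw [s1, s2, s5, ← s6] at hsum
  have e : ((∫ z : T2, χ z) - C / Real.sqrt R) * ∑ k ∈ Re, ‖c k‖ ^ 2
      = (∫ z : T2, χ z) * (∑ k ∈ Re, ‖c k‖ ^ 2) - C / Real.sqrt R * ∑ k ∈ Re, ‖c k‖ ^ 2 := by
    ring
  rw [e]
  linarith

end Pool.Agent.Lib.MP_4ccfbf_an
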