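import Pool.Agent.Lib.MP_4ccfbf_an.Defs

set_option autoImplicit false

open MeasureTheory Set Filter Topology Complex
open scoped ENNReal ComplexConjugate

namespace Pool.Agent.Lib.MP_4ccfbf_an

attribute [local instance] msCircle

/-! ## Module ODEB : basic facts -/

theorem ode_basic {μ K : ℝ} {w : ℂ} {a a' h : ℝ → ℂ} (D : OdeData μ K w a a' h) :
    Continuous a ∧ Continuous a' ∧ (∀ s, a' (s + 2 * Real.pi) = w * a' s) ∧
      (∀ s, h (s + 2 * Real.pi) = w * h s) ∧
      (∀ x, (∫ s in x..(x + 2 * Real.pi), ‖a s‖ ^ 2) ≤ 2 * Real.pi) ∧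
      (∀ x, (∫ s in x..(x + 2 * Real.pi), ‖h s‖ ^ 2) ≤ K ^ 2) ∧
      (∀ x, (∫ s in x..(x + 2 * Real.pi), ‖h s‖ * ‖a s‖)
        = ∫ s in (0 : ℝ)..(2 * Real.pi), ‖h s‖ * ‖a s‖) := by
  have ca : Continuous a := continuous_iff_continuousAt.2 fun s => (D.da s).continuousAt
  have ca' : Continuous a' := continuous_iff_continuousAt.2 fun s => (D.da' s).continuousAt
  have pa' : ∀ s, a' (s + 2 * Real.pi) = w * a' s := by
    intro s
    have h1 : HasDerivAt (fun t => a (t + 2 * Real.pi)) (a' (s + 2 * Real.pi)) s :=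
      (D.da (s + 2 * Real.pi)).comp_add_const s (2 * Real.pi)
    have h2 : HasDerivAt (fun t => w * a t) (w * a' s) s := (D.da s).const_mul w
    have h3 : (fun t => a (t + 2 * Real.pi)) = fun t => w * a t := funext D.per
    rw [h3] at h1
    exact h1.unique h2
  have ph : ∀ s, h (s + 2 * Real.pi) = w * h s := by
    intro s
    have h1 := (D.da' (s + 2 * Real.pi)).comp_add_const s (2 * Real.pi)
    have h2 := (D.da' s).const_mul w
    have h3 : (fun t => a' (t + 2 * Real.pi)) = fun t => w * a' t := funext pa'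
    rw [h3] at h1
    have h4 := h1.unique h2
    rw [D.per s] at h4
    linear_combination -h4
  have na : Function.Periodic (fun s => ‖a s‖) (2 * Real.pi) := by
    intro s
    change ‖a (s + 2 * Real.pi)‖ = ‖a s‖
    rw [D.per, norm_mul, D.hw, one_mul]
  have nh : Function.Periodic (fun s => ‖h s‖) (2 * Real.pi) := by
    intro s
    change ‖h (s + 2 * Real.pi)‖ = ‖h s‖
    rw [ph, norm_mul, D.hw, one_mul]
  refine ⟨ca, ca', pa', ph, ?_, ?_, ?_⟩
  · intro x
    have h1 : Function.Periodic (fun s => ‖a s‖ ^ 2) (2 * Real.pi) := by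
      intro s
      change ‖a (s + 2 * Real.pi)‖ ^ 2 = ‖a s‖ ^ 2
      rw [show ‖a (s + 2 * Real.pi)‖ = ‖a s‖ from na s]
    have h2 := h1.intervalIntegral_add_eq x 0
    rw [h2, zero_add]
    exact D.ma
  · intro x
    have h1 : Function.Periodic (fun s => ‖h s‖ ^ 2) (2 * Real.pi) := by
      intro s
      change ‖h (s + 2 * Real.pi)‖ ^ 2 = ‖h s‖ ^ 2
      rw [show ‖h (s + 2 * Real.pi)‖ = ‖h s‖ from nh s]
    have h2 := h1.intervalIntegral_add_eq x 0
    rw [h2, zero_add]
    exact D.mh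
  · intro x
    have h1 : Function.Periodic (fun s => ‖h s‖ * ‖a s‖) (2 * Real.pi) := by
      intro s
      change ‖h (s + 2 * Real.pi)‖ * ‖a (s + 2 * Real.pi)‖ = ‖h s‖ * ‖a s‖
      rw [show ‖a (s + 2 * Real.pi)‖ = ‖a s‖ from na s, show ‖h (s + 2 * Real.pi)‖ = ‖h s‖ from nh s]
    have h2 := h1.intervalIntegral_add_eq x 0
    rw [h2, zero_add]

/-- periodicity of the norm -/
theorem ODEB_per {μ K : ℝ} {w : ℂ} {a a' h : ℝ → ℂ} (D : OdeData μ K w a a' h) :
    Function.Periodic (fun s => ‖a s‖) (2 * Real.pi) ∧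
      Function.Periodic (fun s => ‖a' s‖) (2 * Real.pi) := by
  obtain ⟨-, -, pa', -⟩ := ode_basic D
  refine ⟨fun s => ?_, fun s => ?_⟩
  · change ‖a (s + 2 * Real.pi)‖ = ‖a s‖
    rw [D.per, norm_mul, D.hw, one_mul]
  · change ‖a' (s + 2 * Real.pi)‖ = ‖a' s‖
    rw [pa', norm_mul, D.hw, one_mul]

/-- the derivative of `Re (a' conj a)` -/
theorem ODEB_deriv {μ K : ℝ} {w : ℂ} {a a' h : ℝ → ℂ} (D : OdeData μ K w a a' h) (s : ℝ) :
    HasDerivAt (fun t => (a' t * conj (a t)).re)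
      (‖a' s‖ ^ 2 - μ * ‖a s‖ ^ 2 - (h s * conj (a s)).re) s := by
  have h1 : HasDerivAt (fun t => conj (a t)) (conj (a' s)) s := by
    exact (D.da s).star
  have h2 := (D.da' s).mul h1
  have h3 := (Complex.reCLM.hasFDerivAt (x := a' s * conj (a s))).comp_hasDerivAt s h2
  have h4 : Complex.reCLM ((-(μ : ℂ) * a s - h s) * conj (a s) + a' s * conj (a' s)) =
      ‖a' s‖ ^ 2 - μ * ‖a s‖ ^ 2 - (h s * conj (a s)).re := by
    have e1 : a' s * conj (a' s) = ((‖a' s‖ ^ 2 : ℝ) : ℂ) := by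
      rw [Complex.mul_conj, Complex.normSq_eq_norm_sq]
    have e2 : a s * conj (a s) = ((‖a s‖ ^ 2 : ℝ) : ℂ) := by
      rw [Complex.mul_conj, Complex.normSq_eq_norm_sq]
    have e3 : (-(μ : ℂ) * a s - h s) * conj (a s) + a' s * conj (a' s) =
        ((‖a' s‖ ^ 2 - μ * ‖a s‖ ^ 2 : ℝ) : ℂ) - h s * conj (a s) := by
      push_cast at e1 e2 ⊢
      linear_combination e1 - (μ : ℂ) * e2
    rw [e3]
    simp only [Complex.reCLM_apply, Complex.sub_re, Complex.ofReal_re]
  rw [h4] at h3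
  exact h3

/-- the energy identity over one period -/
theorem ODEB_energy {μ K : ℝ} {w : ℂ} {a a' h : ℝ → ℂ} (D : OdeData μ K w a a' h) (x : ℝ) :
    (∫ s in x..(x + 2 * Real.pi), ‖a' s‖ ^ 2) =
      μ * (∫ s in x..(x + 2 * Real.pi), ‖a s‖ ^ 2) +
        ∫ s in x..(x + 2 * Real.pi), (h s * conj (a s)).re := by
  obtain ⟨ca, ca', pa', ph, -⟩ := ode_basic D
  have c1 : Continuous fun s => ‖a' s‖ ^ 2 := by fun_prop
  have c2 : Continuous fun s => ‖a s‖ ^ 2 := by fun_prop
  have c3 : Continuous fun s => (h s * conj (a s)).re :=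
    Complex.continuous_re.comp (D.hc.mul (Complex.continuous_conj.comp ca))
  have h1 := intervalIntegral.integral_eq_sub_of_hasDerivAt (a := x) (b := x + 2 * Real.pi)
    (fun s _ => ODEB_deriv D s)
    (((c1.sub (c2.const_mul μ)).sub c3).intervalIntegrable _ _)
  have h2 : (a' (x + 2 * Real.pi) * conj (a (x + 2 * Real.pi))).re = (a' x * conj (a x)).re := by
    rw [pa', D.per, map_mul]
    have : w * conj w = 1 := by
      rw [Complex.mul_conj, Complex.normSq_eq_norm_sq, D.hw]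
      simp
    rw [show w * a' x * (conj w * conj (a x)) = (w * conj w) * (a' x * conj (a x)) by ring, this,
      one_mul]
  have e1 : (∫ y in x..(x + 2 * Real.pi), (‖a' y‖ ^ 2 - μ * ‖a y‖ ^ 2 - (h y * conj (a y)).re)) =
      (∫ y in x..(x + 2 * Real.pi), (‖a' y‖ ^ 2 - μ * ‖a y‖ ^ 2)) -
        ∫ y in x..(x + 2 * Real.pi), (h y * conj (a y)).re :=
    intervalIntegral.integral_sub ((c1.sub (c2.const_mul μ)).intervalIntegrable _ _)
      (c3.intervalIntegrable _ _)
  have e2 : (∫ y in x..(x + 2 * Real.pi), (‖a' y‖ ^ 2 - μ * ‖a y‖ ^ 2)) =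
      (∫ y in x..(x + 2 * Real.pi), ‖a' y‖ ^ 2) - ∫ y in x..(x + 2 * Real.pi), μ * ‖a y‖ ^ 2 :=
    intervalIntegral.integral_sub (c1.intervalIntegrable _ _)
      ((c2.const_mul μ).intervalIntegrable _ _)
  have e3 : (∫ y in x..(x + 2 * Real.pi), μ * ‖a y‖ ^ 2) =
      μ * ∫ y in x..(x + 2 * Real.pi), ‖a y‖ ^ 2 := intervalIntegral.integral_const_mul _ _
  rw [h2, sub_self, e1, e2, e3] at h1
  linarith

/-- the error term -/
theorem ODEB_err {μ K : ℝ} {w : ℂ} {a a' h : ℝ → ℂ} (D : OdeData μ K w a a' h) (x y : ℝ)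
    (hxy : x ≤ y) :
    (∫ s in x..y, (h s * conj (a s)).re) ≤ ∫ s in x..y, ‖h s‖ * ‖a s‖ := by
  obtain ⟨ca, ca', pa', ph, -⟩ := ode_basic D
  have hc := D.hc
  apply intervalIntegral.integral_mono_on hxy
  · exact (Complex.continuous_re.comp
      (D.hc.mul (Complex.continuous_conj.comp ca))).intervalIntegrable _ _
  · exact (by fun_prop : Continuous fun s => ‖h s‖ * ‖a s‖).intervalIntegrable _ _
  · intro s _
    calc (h s * conj (a s)).re ≤ ‖h s * conj (a s)‖ := Complex.re_le_norm _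
      _ = ‖h s‖ * ‖a s‖ := by rw [norm_mul, Complex.norm_conj]

/-- Cauchy-Schwarz against constants -/
theorem ODEB_cs (f : ℝ → ℝ) (hf : Continuous f) (x y : ℝ) (hxy : x ≤ y) :
    (∫ s in x..y, f s) ^ 2 ≤ (y - x) * ∫ s in x..y, f s ^ 2 := by
  rcases hxy.eq_or_lt with h | h
  · rw [h]; simp
  · have hpos : 0 < y - x := by linarith
    obtain ⟨m, hm⟩ : ∃ m, m = (∫ s in x..y, f s) / (y - x) := ⟨_, rfl⟩
    have h1 : 0 ≤ ∫ s in x..y, (f s - m) ^ 2 :=
      intervalIntegral.integral_nonneg hxy fun s _ => sq_nonneg _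
    have h2 : (∫ s in x..y, (f s - m) ^ 2) =
        (∫ s in x..y, f s ^ 2) - 2 * m * (∫ s in x..y, f s) + m ^ 2 * (y - x) := by
      have e : ∀ s, (f s - m) ^ 2 = f s ^ 2 - 2 * m * f s + m ^ 2 := fun s => by ring
      simp_rw [e]
      rw [intervalIntegral.integral_add, intervalIntegral.integral_sub,
        intervalIntegral.integral_const_mul, intervalIntegral.integral_const]
      · simp only [smul_eq_mul]; ring
      · exact (by fun_prop : Continuous fun s => f s ^ 2).intervalIntegrable _ _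
      · exact (by fun_prop : Continuous fun s => 2 * m * f s).intervalIntegrable _ _
      · exact (by fun_prop : Continuous fun s => f s ^ 2 - 2 * m * f s).intervalIntegrable _ _
      · exact (continuous_const).intervalIntegrable _ _
    rw [h2] at h1
    have h3 : (∫ s in x..y, f s) = m * (y - x) := by
      rw [hm]; field_simp
    rw [h3] at h1 ⊢
    have h4 : 0 ≤ (y - x) * ((∫ s in x..y, f s ^ 2) - 2 * m * (m * (y - x)) + m ^ 2 * (y - x)) :=
      mul_nonneg hpos.le h1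
    nlinarith

/-- a continuous function has a point where it is at most its weighted mean -/
theorem ODEB_mean (f g : ℝ → ℝ) (hf : Continuous f) (hg : Continuous g) (hg0 : ∀ s, 0 ≤ g s)
    (x y : ℝ) (hxy : x ≤ y) :
    ∃ z ∈ Icc x y, f z * (∫ s in x..y, g s) ≤ ∫ s in x..y, g s * f s := by
  obtain ⟨z, hz, hmin⟩ := isCompact_Icc.exists_isMinOn (nonempty_Icc.2 hxy) hf.continuousOn
  refine ⟨z, hz, ?_⟩
  rw [← intervalIntegral.integral_const_mul]
  apply intervalIntegral.integral_mono_on hxy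
  · exact (hg.const_mul _).intervalIntegrable _ _
  · exact (hg.mul hf).intervalIntegrable _ _
  · intro s hs
    rw [mul_comm]
    exact mul_le_mul_of_nonneg_left (hmin hs) (hg0 s)

/-- variation of a differentiable function -/
theorem ODEB_var (a a' : ℝ → ℂ) (ha : ∀ s, HasDerivAt a (a' s) s) (ca' : Continuous a')
    (x y : ℝ) (hxy : x ≤ y) : ‖a y - a x‖ ≤ ∫ s in x..y, ‖a' s‖ := by
  rw [← intervalIntegral.integral_eq_sub_of_hasDerivAt (fun s _ => ha s)
    (ca'.intervalIntegrable _ _)]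
  exact intervalIntegral.norm_integral_le_integral_norm hxy

end Pool.Agent.Lib.MP_4ccfbf_an
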