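import Pool.Agent.Lib.MP_4ccfbf_an.ODEB

set_option autoImplicit false

open MeasureTheory Set Filter Topology Complex
open scoped ENNReal ComplexConjugate

namespace Pool.Agent.Lib.MP_4ccfbf_an

attribute [local instance] msCircle

/-! ## Module ODEN : the case `μ ≤ 0` -/

theorem odeN {μ K : ℝ} {w : ℂ} {a a' h : ℝ → ℂ} (D : OdeData μ K w a a' h) (hμ : μ ≤ 0)
    (s₁ ℓ η θ : ℝ) (hℓ : 0 < ℓ) (hℓ' : ℓ ≤ 2 * Real.pi)
    (hη : (∫ s in (0 : ℝ)..(2 * Real.pi), ‖h s‖ * ‖a s‖) ≤ η)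
    (hθ : (∫ s in s₁..(s₁ + ℓ), ‖a s‖ ^ 2) ≤ θ) (s : ℝ) :
    ‖a s‖ ≤ Real.sqrt (θ / ℓ) + Real.sqrt (2 * Real.pi * η) := by
  obtain ⟨ca, ca', pa', ph, ia, ih, iha⟩ := ode_basic D
  have hpi : 0 < 2 * Real.pi := by positivity
  -- the starting point
  obtain ⟨x, hx, hx2⟩ := ODEB_mean (fun s => ‖a s‖ ^ 2) (fun _ => 1) (by fun_prop) continuous_const
    (fun _ => zero_le_one) s₁ (s₁ + ℓ) (by linarith)
  have hx3 : ‖a x‖ ^ 2 ≤ θ / ℓ := by
    rw [intervalIntegral.integral_const] at hx2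
    simp only [one_mul, smul_eq_mul, mul_one, add_sub_cancel_left] at hx2
    rw [le_div_iff₀ hℓ]
    exact hx2.trans hθ
  have hx4 : ‖a x‖ ≤ Real.sqrt (θ / ℓ) := Real.le_sqrt_of_sq_le hx3
  -- the variation
  have he := ODEB_energy D x
  have herr := ODEB_err D x (x + 2 * Real.pi) (by linarith)
  have hpos : 0 ≤ ∫ s in x..(x + 2 * Real.pi), ‖a s‖ ^ 2 :=
    intervalIntegral.integral_nonneg (by linarith) fun s _ => sq_nonneg _
  have h1 : (∫ s in x..(x + 2 * Real.pi), ‖a' s‖ ^ 2) ≤ η := by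
    rw [he]
    have := iha x
    nlinarith
  have h2 : (∫ s in x..(x + 2 * Real.pi), ‖a' s‖) ≤ Real.sqrt (2 * Real.pi * η) := by
    apply Real.le_sqrt_of_sq_le
    have h3 := ODEB_cs (fun s => ‖a' s‖) (by fun_prop) x (x + 2 * Real.pi) (by linarith)
    rw [add_sub_cancel_left] at h3
    exact h3.trans (mul_le_mul_of_nonneg_left h1 hpi.le)
  obtain ⟨y, hy, hys⟩ := (ODEB_per D).1.exists_mem_Ico hpi s x
  have hys' : ‖a s‖ = ‖a y‖ := hys
  have h4 := ODEB_var a a' D.da ca' x y hy.1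
  have h5 : (∫ s in x..y, ‖a' s‖) ≤ ∫ s in x..(x + 2 * Real.pi), ‖a' s‖ := by
    apply intervalIntegral.integral_mono_interval le_rfl hy.1 hy.2.le
    · exact Filter.Eventually.of_forall fun s => norm_nonneg _
    · exact (by fun_prop : Continuous fun s => ‖a' s‖).intervalIntegrable _ _
  have h6 : ‖a y‖ ≤ ‖a x‖ + ‖a y - a x‖ := by
    have := norm_add_le (a x) (a y - a x)
    rwa [add_sub_cancel] at this
  rw [hys']
  linarith

end Pool.Agent.Lib.MP_4ccfbf_an
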