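import Pool.Agent.Lib.MP_4ccfbf_an.ODEB

set_option autoImplicit false

open MeasureTheory Set Filter Topology Complex
open scoped ENNReal ComplexConjugate

namespace Pool.Agent.Lib.MP_4ccfbf_an

attribute [local instance] msCircle

/-! ## Module ODEP1 : a priori bounds -/

theorem ODEP1_aux {μ K : ℝ} {w : ℂ} {a a' h : ℝ → ℂ} (D : OdeData μ K w a a' h) (hμ : 0 ≤ μ)
    (hη : (∫ s in (0 : ℝ)..(2 * Real.pi), ‖h s‖ * ‖a s‖) ≤ 1) (s t : ℝ) (hst : s ≤ t)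
    (ht : t - s ≤ 2 * Real.pi) :
    ‖a' t - a' s‖ ≤ 3 * (max μ 1 + K) * Real.sqrt (t - s) := by
  obtain ⟨ca, ca', pa', ph, ia, ih, iha⟩ := ode_basic D
  have hc := D.hc
  have hK := D.hK
  have hpi : 0 < 2 * Real.pi := by positivity
  have hm1 : 1 ≤ max μ 1 := le_max_right _ _
  have hmμ : μ ≤ max μ 1 := le_max_left _ _
  have c2 : Continuous fun s => -(μ : ℂ) * a s - h s := by fun_prop
  have h1 := ODEB_var a' _ D.da' c2 s t hst
  have h2 : (∫ u in s..t, ‖-(μ : ℂ) * a u - h u‖) ≤ ∫ u in s..t, (μ * ‖a u‖ + ‖h u‖) := by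
    apply intervalIntegral.integral_mono_on hst
    · exact (by fun_prop : Continuous fun u => ‖-(μ : ℂ) * a u - h u‖).intervalIntegrable _ _
    · exact (by fun_prop : Continuous fun u => μ * ‖a u‖ + ‖h u‖).intervalIntegrable _ _
    · intro u _
      calc ‖-(μ : ℂ) * a u - h u‖ ≤ ‖-(μ : ℂ) * a u‖ + ‖h u‖ := norm_sub_le _ _
        _ = μ * ‖a u‖ + ‖h u‖ := by
          rw [norm_mul, norm_neg, Complex.norm_real, Real.norm_eq_abs, abs_of_nonneg hμ]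
  have h3 := ODEB_cs (fun u => μ * ‖a u‖ + ‖h u‖) (by fun_prop) s t hst
  have h4 : (∫ u in s..t, (μ * ‖a u‖ + ‖h u‖) ^ 2) ≤
      ∫ u in s..(s + 2 * Real.pi), (μ * ‖a u‖ + ‖h u‖) ^ 2 := by
    apply intervalIntegral.integral_mono_interval le_rfl hst (by linarith)
    · exact Filter.Eventually.of_forall fun s => sq_nonneg _
    · exact (by fun_prop : Continuous fun u => (μ * ‖a u‖ + ‖h u‖) ^ 2).intervalIntegrable _ _
  have h5 : (∫ u in s..(s + 2 * Real.pi), (μ * ‖a u‖ + ‖h u‖) ^ 2) =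
      μ ^ 2 * (∫ u in s..(s + 2 * Real.pi), ‖a u‖ ^ 2) +
        2 * μ * (∫ u in s..(s + 2 * Real.pi), ‖h u‖ * ‖a u‖) +
        ∫ u in s..(s + 2 * Real.pi), ‖h u‖ ^ 2 := by
    have e : ∀ u, (μ * ‖a u‖ + ‖h u‖) ^ 2 =
        μ ^ 2 * ‖a u‖ ^ 2 + 2 * μ * (‖h u‖ * ‖a u‖) + ‖h u‖ ^ 2 := fun u => by ring
    simp_rw [e]
    rw [intervalIntegral.integral_add, intervalIntegral.integral_add,
      intervalIntegral.integral_const_mul, intervalIntegral.integral_const_mul]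
    · exact (by fun_prop : Continuous fun u => μ ^ 2 * ‖a u‖ ^ 2).intervalIntegrable _ _
    · exact (by fun_prop : Continuous fun u => 2 * μ * (‖h u‖ * ‖a u‖)).intervalIntegrable _ _
    · exact (by fun_prop : Continuous fun u =>
        μ ^ 2 * ‖a u‖ ^ 2 + 2 * μ * (‖h u‖ * ‖a u‖)).intervalIntegrable _ _
    · exact (by fun_prop : Continuous fun u => ‖h u‖ ^ 2).intervalIntegrable _ _
  have h6 : (∫ u in s..(s + 2 * Real.pi), (μ * ‖a u‖ + ‖h u‖) ^ 2) ≤ (3 * (max μ 1 + K)) ^ 2 := by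
    rw [h5, iha s]
    have e1 := ia s
    have e2 := ih s
    have e3 : μ ^ 2 * (∫ u in s..(s + 2 * Real.pi), ‖a u‖ ^ 2) ≤ μ ^ 2 * (2 * Real.pi) :=
      mul_le_mul_of_nonneg_left e1 (sq_nonneg _)
    have e4 : 2 * μ * (∫ s in (0 : ℝ)..(2 * Real.pi), ‖h s‖ * ‖a s‖) ≤ 2 * μ * 1 :=
      mul_le_mul_of_nonneg_left hη (by linarith)
    have e5 : Real.pi < 3.15 := Real.pi_lt_d2
    have e6 : μ ^ 2 ≤ (max μ 1) ^ 2 := pow_le_pow_left₀ hμ hmμ 2
    have e7 : 0 ≤ μ ^ 2 := sq_nonneg _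
    nlinarith [mul_nonneg e7 (by linarith : (0 : ℝ) ≤ 3.15 - Real.pi)]
  have hS : 0 ≤ 3 * (max μ 1 + K) := by linarith
  have h7 : (∫ u in s..t, (μ * ‖a u‖ + ‖h u‖)) ≤ 3 * (max μ 1 + K) * Real.sqrt (t - s) := by
    refine (abs_le_of_sq_le_sq' ?_ (mul_nonneg hS (Real.sqrt_nonneg _))).2
    rw [mul_pow, Real.sq_sqrt (by linarith)]
    calc (∫ u in s..t, (μ * ‖a u‖ + ‖h u‖)) ^ 2
        ≤ (t - s) * ∫ u in s..t, (μ * ‖a u‖ + ‖h u‖) ^ 2 := h3
      _ ≤ (t - s) * (3 * (max μ 1 + K)) ^ 2 :=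
        mul_le_mul_of_nonneg_left (h4.trans h6) (by linarith)
      _ = (3 * (max μ 1 + K)) ^ 2 * (t - s) := by ring
  linarith

theorem odeP1 {μ K : ℝ} {w : ℂ} {a a' h : ℝ → ℂ} (D : OdeData μ K w a a' h) (hμ : 0 ≤ μ)
    (hη : (∫ s in (0 : ℝ)..(2 * Real.pi), ‖h s‖ * ‖a s‖) ≤ 1) :
    (∀ s, ‖a' s‖ ≤ 10 * (max μ 1 + K)) ∧
      ∀ s t, |s - t| ≤ 2 * Real.pi → ‖a' s - a' t‖ ≤ 3 * (max μ 1 + K) * Real.sqrt |s - t| := by
  obtain ⟨ca, ca', pa', ph, ia, ih, iha⟩ := ode_basic D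
  have hc := D.hc
  have hK := D.hK
  have hpi : 0 < 2 * Real.pi := by positivity
  have hm1 : 1 ≤ max μ 1 := le_max_right _ _
  have hmμ : μ ≤ max μ 1 := le_max_left _ _
  have hpi3 : Real.pi < 3.15 := Real.pi_lt_d2
  have hpi3' : 3.14 < Real.pi := Real.pi_gt_d2
  refine ⟨fun s => ?_, fun s t hst => ?_⟩
  · obtain ⟨x, hx, hx2⟩ := ODEB_mean (fun s => ‖a' s‖ ^ 2) (fun _ => 1) (by fun_prop)
      continuous_const (fun _ => zero_le_one) 0 (2 * Real.pi) hpi.le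
    have he := ODEB_energy D 0
    have herr := ODEB_err D 0 (2 * Real.pi) hpi.le
    rw [zero_add] at he
    have ia0 := ia 0
    rw [zero_add] at ia0
    rw [intervalIntegral.integral_const] at hx2
    simp only [one_mul, smul_eq_mul, mul_one, sub_zero] at hx2
    have e1 : ‖a' x‖ ^ 2 * (2 * Real.pi) ≤ μ * (2 * Real.pi) + 1 := by
      refine hx2.trans ?_
      rw [he]
      have := mul_le_mul_of_nonneg_left ia0 hμ
      linarith
    have e2 : ‖a' x‖ ^ 2 ≤ (2 * max μ 1) ^ 2 := by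
      have h1 : ‖a' x‖ ^ 2 * (2 * Real.pi) ≤ 4 * max μ 1 * (2 * Real.pi) := by nlinarith
      have h2 : ‖a' x‖ ^ 2 ≤ 4 * max μ 1 := le_of_mul_le_mul_right h1 hpi
      nlinarith
    have e3 : ‖a' x‖ ≤ 2 * max μ 1 := (abs_le_of_sq_le_sq' e2 (by linarith)).2
    obtain ⟨y, hy, hys⟩ := (ODEB_per D).2.exists_mem_Ico hpi s x
    have hys' : ‖a' s‖ = ‖a' y‖ := hys
    have h4 := ODEP1_aux D hμ hη x y hy.1 (by linarith [hy.2])
    have h5 : Real.sqrt (y - x) ≤ 2.52 := by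
      apply Real.sqrt_le_iff.2
      refine ⟨by norm_num, ?_⟩
      have := hy.2
      nlinarith
    have h6 : ‖a' y‖ ≤ ‖a' x‖ + ‖a' y - a' x‖ := by
      have := norm_add_le (a' x) (a' y - a' x)
      rwa [add_sub_cancel] at this
    have h7 : 3 * (max μ 1 + K) * Real.sqrt (y - x) ≤ 3 * (max μ 1 + K) * 2.52 :=
      mul_le_mul_of_nonneg_left h5 (by linarith)
    rw [hys']
    linarith
  · rcases le_total s t with h | h
    · rw [abs_sub_comm] at hst ⊢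
      rw [abs_of_nonneg (by linarith)] at hst ⊢
      rw [norm_sub_rev]
      exact ODEP1_aux D hμ hη s t h hst
    · rw [abs_of_nonneg (by linarith)] at hst ⊢
      exact ODEP1_aux D hμ hη t s h hst

end Pool.Agent.Lib.MP_4ccfbf_an
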