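import Pool.Agent.Lib.MP_4ccfbf_an.ODEB

set_option autoImplicit false

open MeasureTheory Set Filter Topology Complex
open scoped ENNReal ComplexConjugate

namespace Pool.Agent.Lib.MP_4ccfbf_an

attribute [local instance] msCircle

/-! ## Module ODEP2 : the starting point -/

/-- the bump -/
def ODEP2_phi (s₁ ℓ s : ℝ) : ℝ := (s - s₁) ^ 2 * (s₁ + ℓ - s) ^ 2

/-- its derivative -/
def ODEP2_phi1 (s₁ ℓ s : ℝ) : ℝ :=
  2 * (s - s₁) * (s₁ + ℓ - s) ^ 2 - 2 * (s - s₁) ^ 2 * (s₁ + ℓ - s)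

/-- its second derivative -/
def ODEP2_phi2 (s₁ ℓ s : ℝ) : ℝ :=
  2 * (s₁ + ℓ - s) ^ 2 - 8 * (s - s₁) * (s₁ + ℓ - s) + 2 * (s - s₁) ^ 2

theorem ODEP2_d1 (s₁ ℓ s : ℝ) : HasDerivAt (ODEP2_phi s₁ ℓ) (ODEP2_phi1 s₁ ℓ s) s := by
  have h1 : HasDerivAt (fun t : ℝ => t - s₁) 1 s := (hasDerivAt_id s).sub_const s₁
  have h2 : HasDerivAt (fun t : ℝ => s₁ + ℓ - t) (-1) s := (hasDerivAt_id s).const_sub (s₁ + ℓ)
  have h3 := (h1.pow 2).mul (h2.pow 2)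
  have e : ODEP2_phi1 s₁ ℓ s = (↑2 * (s - s₁) ^ (2 - 1) * 1) * (s₁ + ℓ - s) ^ 2 +
      (s - s₁) ^ 2 * (↑2 * (s₁ + ℓ - s) ^ (2 - 1) * -1) := by
    rw [ODEP2_phi1]
    norm_num
    ring
  rw [e]
  exact h3

theorem ODEP2_d2 (s₁ ℓ s : ℝ) : HasDerivAt (ODEP2_phi1 s₁ ℓ) (ODEP2_phi2 s₁ ℓ s) s := by
  have h1 : HasDerivAt (fun t : ℝ => t - s₁) 1 s := (hasDerivAt_id s).sub_const s₁
  have h2 : HasDerivAt (fun t : ℝ => s₁ + ℓ - t) (-1) s := (hasDerivAt_id s).const_sub (s₁ + ℓ)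
  have h3 := ((h1.const_mul 2).mul (h2.pow 2)).sub (((h1.pow 2).const_mul 2).mul h2)
  have e : ODEP2_phi2 s₁ ℓ s = (2 * 1 * (s₁ + ℓ - s) ^ 2 +
      2 * (s - s₁) * (↑2 * (s₁ + ℓ - s) ^ (2 - 1) * -1)) -
      (2 * (↑2 * (s - s₁) ^ (2 - 1) * 1) * (s₁ + ℓ - s) + 2 * (s - s₁) ^ 2 * -1) := by
    rw [ODEP2_phi2]
    norm_num
    ring
  rw [e]
  exact h3

theorem ODEP2_cont (s₁ ℓ : ℝ) : Continuous (ODEP2_phi s₁ ℓ) ∧ Continuous (ODEP2_phi1 s₁ ℓ) ∧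
    Continuous (ODEP2_phi2 s₁ ℓ) := by
  refine ⟨?_, ?_, ?_⟩
  · unfold ODEP2_phi; fun_prop
  · unfold ODEP2_phi1; fun_prop
  · unfold ODEP2_phi2; fun_prop

theorem ODEP2_int (s₁ ℓ : ℝ) : (∫ s in s₁..(s₁ + ℓ), ODEP2_phi s₁ ℓ s) = ℓ ^ 5 / 30 := by
  have h : ∀ s, HasDerivAt (fun t : ℝ => ℓ ^ 2 * (t - s₁) ^ 3 / 3 - ℓ * (t - s₁) ^ 4 / 2 +
      (t - s₁) ^ 5 / 5) (ODEP2_phi s₁ ℓ s) s := by
    intro s
    have h1 : HasDerivAt (fun t : ℝ => t - s₁) 1 s := (hasDerivAt_id s).sub_const s₁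
    have h2 := ((((h1.pow 3).const_mul (ℓ ^ 2)).div_const 3).sub
      (((h1.pow 4).const_mul ℓ).div_const 2)).add ((h1.pow 5).div_const 5)
    have e : ODEP2_phi s₁ ℓ s = ℓ ^ 2 * (↑3 * (s - s₁) ^ (3 - 1) * 1) / 3 -
        ℓ * (↑4 * (s - s₁) ^ (4 - 1) * 1) / 2 + (↑5 * (s - s₁) ^ (5 - 1) * 1) / 5 := by
      rw [ODEP2_phi]
      norm_num
      ring
    rw [e]
    exact h2
  rw [intervalIntegral.integral_eq_sub_of_hasDerivAt (fun s _ => h s)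
    ((ODEP2_cont s₁ ℓ).1.intervalIntegrable _ _)]
  ring

/-- the identity -/
theorem ODEP2_identity {μ K : ℝ} {w : ℂ} {a a' h : ℝ → ℂ} (D : OdeData μ K w a a' h) (s₁ ℓ : ℝ) :
    (∫ s in s₁..(s₁ + ℓ), ODEP2_phi s₁ ℓ s * ‖a' s‖ ^ 2) =
      (1 / 2) * (∫ s in s₁..(s₁ + ℓ), ODEP2_phi2 s₁ ℓ s * ‖a s‖ ^ 2) +
      μ * (∫ s in s₁..(s₁ + ℓ), ODEP2_phi s₁ ℓ s * ‖a s‖ ^ 2) +
      ∫ s in s₁..(s₁ + ℓ), ODEP2_phi s₁ ℓ s * (h s * conj (a s)).re := by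
  obtain ⟨ca, ca', pa', ph, -⟩ := ode_basic D
  obtain ⟨cp, cp1, cp2⟩ := ODEP2_cont s₁ ℓ
  have c3 : Continuous fun s => (h s * conj (a s)).re :=
    Complex.continuous_re.comp (D.hc.mul (Complex.continuous_conj.comp ca))
  have c4 : Continuous fun s => (a' s * conj (a s)).re :=
    Complex.continuous_re.comp (ca'.mul (Complex.continuous_conj.comp ca))
  have d1 : ∀ s, HasDerivAt (fun t => ODEP2_phi s₁ ℓ t * (a' t * conj (a t)).re)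
      (ODEP2_phi1 s₁ ℓ s * (a' s * conj (a s)).re + ODEP2_phi s₁ ℓ s * (‖a' s‖ ^ 2 - μ * ‖a s‖ ^ 2 -
        (h s * conj (a s)).re)) s := fun s => (ODEP2_d1 s₁ ℓ s).mul (ODEB_deriv D s)
  have dn : ∀ s, HasDerivAt (fun t => ‖a t‖ ^ 2) (2 * (a' s * conj (a s)).re) s := by
    intro s
    have h1 : HasDerivAt (fun t => conj (a t)) (conj (a' s)) s := (D.da s).star
    have h2 := (D.da s).mul h1
    have h3 := (Complex.reCLM.hasFDerivAt (x := a s * conj (a s))).comp_hasDerivAt s h2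
    have h4 : Complex.reCLM (a' s * conj (a s) + a s * conj (a' s)) =
        2 * (a' s * conj (a s)).re := by
      have e1 : a s * conj (a' s) = conj (a' s * conj (a s)) := by
        rw [map_mul, Complex.conj_conj]; ring
      rw [e1]
      simp only [Complex.reCLM_apply, Complex.add_re, Complex.conj_re]
      ring
    rw [h4] at h3
    have h5 : (fun t => ‖a t‖ ^ 2) = ⇑Complex.reCLM ∘ ((fun t => a t) * fun t => conj (a t)) := by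
      funext t
      change ‖a t‖ ^ 2 = (a t * conj (a t)).re
      rw [Complex.mul_conj, Complex.normSq_eq_norm_sq, Complex.ofReal_re]
    rw [h5]
    exact h3
  have d2 : ∀ s, HasDerivAt (fun t => ODEP2_phi1 s₁ ℓ t * ‖a t‖ ^ 2)
      (ODEP2_phi2 s₁ ℓ s * ‖a s‖ ^ 2 + ODEP2_phi1 s₁ ℓ s * (2 * (a' s * conj (a s)).re)) s :=
    fun s => (ODEP2_d2 s₁ ℓ s).mul (dn s)
  have i1 := intervalIntegral.integral_eq_sub_of_hasDerivAt (a := s₁) (b := s₁ + ℓ)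
    (fun s _ => d1 s) ((by fun_prop : Continuous fun s => ODEP2_phi1 s₁ ℓ s * (a' s * conj (a s)).re
      + ODEP2_phi s₁ ℓ s * (‖a' s‖ ^ 2 - μ * ‖a s‖ ^ 2 - (h s * conj (a s)).re)).intervalIntegrable
      _ _)
  have i2 := intervalIntegral.integral_eq_sub_of_hasDerivAt (a := s₁) (b := s₁ + ℓ)
    (fun s _ => d2 s) ((by fun_prop : Continuous fun s => ODEP2_phi2 s₁ ℓ s * ‖a s‖ ^ 2 +
      ODEP2_phi1 s₁ ℓ s * (2 * (a' s * conj (a s)).re)).intervalIntegrable _ _)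
  have z1 : ODEP2_phi s₁ ℓ (s₁ + ℓ) = 0 := by rw [ODEP2_phi]; ring
  have z2 : ODEP2_phi s₁ ℓ s₁ = 0 := by rw [ODEP2_phi]; ring
  have z3 : ODEP2_phi1 s₁ ℓ (s₁ + ℓ) = 0 := by rw [ODEP2_phi1]; ring
  have z4 : ODEP2_phi1 s₁ ℓ s₁ = 0 := by rw [ODEP2_phi1]; ring
  rw [z1, z2, zero_mul, zero_mul, sub_zero] at i1
  rw [z3, z4, zero_mul, zero_mul, sub_zero] at i2
  have I1 : IntervalIntegrable (fun s => ODEP2_phi1 s₁ ℓ s * (a' s * conj (a s)).re) volume s₁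
    (s₁ + ℓ) := (cp1.mul c4).intervalIntegrable _ _
  have I2 : IntervalIntegrable (fun s => ODEP2_phi s₁ ℓ s * ‖a' s‖ ^ 2) volume s₁ (s₁ + ℓ) :=
    (by fun_prop : Continuous fun s => ODEP2_phi s₁ ℓ s * ‖a' s‖ ^ 2).intervalIntegrable _ _
  have I3 : IntervalIntegrable (fun s => ODEP2_phi s₁ ℓ s * ‖a s‖ ^ 2) volume s₁ (s₁ + ℓ) :=
    (by fun_prop : Continuous fun s => ODEP2_phi s₁ ℓ s * ‖a s‖ ^ 2).intervalIntegrable _ _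
  have I4 : IntervalIntegrable (fun s => ODEP2_phi s₁ ℓ s * (h s * conj (a s)).re) volume s₁
    (s₁ + ℓ) := (cp.mul c3).intervalIntegrable _ _
  have I5 : IntervalIntegrable (fun s => ODEP2_phi2 s₁ ℓ s * ‖a s‖ ^ 2) volume s₁ (s₁ + ℓ) :=
    (by fun_prop : Continuous fun s => ODEP2_phi2 s₁ ℓ s * ‖a s‖ ^ 2).intervalIntegrable _ _
  have j1 : (∫ s in s₁..(s₁ + ℓ), (ODEP2_phi1 s₁ ℓ s * (a' s * conj (a s)).re
      + ODEP2_phi s₁ ℓ s * (‖a' s‖ ^ 2 - μ * ‖a s‖ ^ 2 - (h s * conj (a s)).re))) =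
      (∫ s in s₁..(s₁ + ℓ), ODEP2_phi1 s₁ ℓ s * (a' s * conj (a s)).re) +
      ((∫ s in s₁..(s₁ + ℓ), ODEP2_phi s₁ ℓ s * ‖a' s‖ ^ 2) -
        μ * (∫ s in s₁..(s₁ + ℓ), ODEP2_phi s₁ ℓ s * ‖a s‖ ^ 2) -
        ∫ s in s₁..(s₁ + ℓ), ODEP2_phi s₁ ℓ s * (h s * conj (a s)).re) := by
    rw [← intervalIntegral.integral_const_mul, ← intervalIntegral.integral_sub I2 (I3.const_mul μ),
      ← intervalIntegral.integral_sub (I2.sub (I3.const_mul μ)) I4,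
      ← intervalIntegral.integral_add I1 ((I2.sub (I3.const_mul μ)).sub I4)]
    apply intervalIntegral.integral_congr
    intro s _
    change _ = _
    ring
  have j2 : (∫ s in s₁..(s₁ + ℓ), (ODEP2_phi2 s₁ ℓ s * ‖a s‖ ^ 2 +
      ODEP2_phi1 s₁ ℓ s * (2 * (a' s * conj (a s)).re))) =
      (∫ s in s₁..(s₁ + ℓ), ODEP2_phi2 s₁ ℓ s * ‖a s‖ ^ 2) +
      2 * ∫ s in s₁..(s₁ + ℓ), ODEP2_phi1 s₁ ℓ s * (a' s * conj (a s)).re := by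
    rw [← intervalIntegral.integral_const_mul, ← intervalIntegral.integral_add I5 (I1.const_mul 2)]
    apply intervalIntegral.integral_congr
    intro s _
    change _ = _
    ring
  rw [j1] at i1
  rw [j2] at i2
  linarith

theorem odeP2 (ℓ : ℝ) (hℓ : 0 < ℓ) (hℓ' : ℓ ≤ 2 * Real.pi) :
    ∃ C : ℝ, 0 < C ∧ ∀ (μ K : ℝ) (w : ℂ) (a a' h : ℝ → ℂ), OdeData μ K w a a' h → 0 ≤ μ →
      ∀ s₁ η θ : ℝ, (∫ s in (0 : ℝ)..(2 * Real.pi), ‖h s‖ * ‖a s‖) ≤ η →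
      (∫ s in s₁..(s₁ + ℓ), ‖a s‖ ^ 2) ≤ θ →
      ∃ x ∈ Icc s₁ (s₁ + ℓ), ‖a' x‖ ^ 2 + max μ 1 * ‖a x‖ ^ 2 ≤ C * max μ 1 * (θ + η) := by
  refine ⟨30 / ℓ ^ 5 * (ℓ ^ 2 + 2 * ℓ ^ 4), by positivity, ?_⟩
  intro μ K w a a' h D hμ s₁ η θ hη hθ
  obtain ⟨ca, ca', pa', ph, ia, ih, iha⟩ := ode_basic D
  obtain ⟨cp, cp1, cp2⟩ := ODEP2_cont s₁ ℓ
  have hc := D.hc
  have hm1 : 1 ≤ max μ 1 := le_max_right _ _
  have hmμ : μ ≤ max μ 1 := le_max_left _ _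
  have hle : s₁ ≤ s₁ + ℓ := by linarith
  have hphi0 : ∀ s, 0 ≤ ODEP2_phi s₁ ℓ s := fun s => mul_nonneg (sq_nonneg _) (sq_nonneg _)
  have hphi1 : ∀ s ∈ Icc s₁ (s₁ + ℓ), ODEP2_phi s₁ ℓ s ≤ ℓ ^ 4 := by
    intro s hs
    have h1 : 0 ≤ s - s₁ := by linarith [hs.1]
    have h2 : 0 ≤ s₁ + ℓ - s := by linarith [hs.2]
    have h3 : (s - s₁) ^ 2 ≤ ℓ ^ 2 := pow_le_pow_left₀ h1 (by linarith) 2
    have h4 : (s₁ + ℓ - s) ^ 2 ≤ ℓ ^ 2 := pow_le_pow_left₀ h2 (by linarith) 2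
    calc ODEP2_phi s₁ ℓ s ≤ ℓ ^ 2 * ℓ ^ 2 := mul_le_mul h3 h4 (sq_nonneg _) (sq_nonneg _)
      _ = ℓ ^ 4 := by ring
  have hphi2 : ∀ s ∈ Icc s₁ (s₁ + ℓ), ODEP2_phi2 s₁ ℓ s ≤ 2 * ℓ ^ 2 := by
    intro s hs
    have h1 : 0 ≤ s - s₁ := by linarith [hs.1]
    have h2 : 0 ≤ s₁ + ℓ - s := by linarith [hs.2]
    rw [ODEP2_phi2]
    nlinarith [mul_nonneg h1 h2]
  obtain ⟨x, hx, hx2⟩ := ODEB_mean (fun s => ‖a' s‖ ^ 2 + max μ 1 * ‖a s‖ ^ 2) (ODEP2_phi s₁ ℓ)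
    (by fun_prop) cp hphi0 s₁ (s₁ + ℓ) hle
  refine ⟨x, hx, ?_⟩
  have I2 : IntervalIntegrable (fun s => ODEP2_phi s₁ ℓ s * ‖a' s‖ ^ 2) volume s₁ (s₁ + ℓ) :=
    (by fun_prop : Continuous fun s => ODEP2_phi s₁ ℓ s * ‖a' s‖ ^ 2).intervalIntegrable _ _
  have I3 : IntervalIntegrable (fun s => ODEP2_phi s₁ ℓ s * ‖a s‖ ^ 2) volume s₁ (s₁ + ℓ) :=
    (by fun_prop : Continuous fun s => ODEP2_phi s₁ ℓ s * ‖a s‖ ^ 2).intervalIntegrable _ _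
  have c3 : Continuous fun s => (h s * conj (a s)).re :=
    Complex.continuous_re.comp (D.hc.mul (Complex.continuous_conj.comp ca))
  have e1 : (∫ s in s₁..(s₁ + ℓ), ODEP2_phi s₁ ℓ s * (‖a' s‖ ^ 2 + max μ 1 * ‖a s‖ ^ 2)) =
      (∫ s in s₁..(s₁ + ℓ), ODEP2_phi s₁ ℓ s * ‖a' s‖ ^ 2) +
      max μ 1 * ∫ s in s₁..(s₁ + ℓ), ODEP2_phi s₁ ℓ s * ‖a s‖ ^ 2 := by
    rw [← intervalIntegral.integral_const_mul,
      ← intervalIntegral.integral_add I2 (I3.const_mul (max μ 1))]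
    apply intervalIntegral.integral_congr
    intro s _
    change _ = _
    ring
  have ia2 : IntervalIntegrable (fun s => ‖a s‖ ^ 2) volume s₁ (s₁ + ℓ) :=
    (by fun_prop : Continuous fun s => ‖a s‖ ^ 2).intervalIntegrable _ _
  have b1 : (∫ s in s₁..(s₁ + ℓ), ODEP2_phi s₁ ℓ s * ‖a s‖ ^ 2) ≤ ℓ ^ 4 * θ := by
    calc (∫ s in s₁..(s₁ + ℓ), ODEP2_phi s₁ ℓ s * ‖a s‖ ^ 2)
        ≤ ∫ s in s₁..(s₁ + ℓ), ℓ ^ 4 * ‖a s‖ ^ 2 :=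
          intervalIntegral.integral_mono_on hle I3 (ia2.const_mul _) fun s hs =>
            mul_le_mul_of_nonneg_right (hphi1 s hs) (sq_nonneg _)
      _ = ℓ ^ 4 * ∫ s in s₁..(s₁ + ℓ), ‖a s‖ ^ 2 := intervalIntegral.integral_const_mul _ _
      _ ≤ ℓ ^ 4 * θ := mul_le_mul_of_nonneg_left hθ (by positivity)
  have b0 : 0 ≤ ∫ s in s₁..(s₁ + ℓ), ODEP2_phi s₁ ℓ s * ‖a s‖ ^ 2 :=
    intervalIntegral.integral_nonneg hle fun s _ => mul_nonneg (hphi0 s) (sq_nonneg _)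
  have b2 : (∫ s in s₁..(s₁ + ℓ), ODEP2_phi2 s₁ ℓ s * ‖a s‖ ^ 2) ≤ 2 * ℓ ^ 2 * θ := by
    calc (∫ s in s₁..(s₁ + ℓ), ODEP2_phi2 s₁ ℓ s * ‖a s‖ ^ 2)
        ≤ ∫ s in s₁..(s₁ + ℓ), 2 * ℓ ^ 2 * ‖a s‖ ^ 2 :=
          intervalIntegral.integral_mono_on hle
            ((by fun_prop : Continuous fun s => ODEP2_phi2 s₁ ℓ s * ‖a s‖ ^ 2).intervalIntegrable
              _ _) (ia2.const_mul _) fun s hs =>
            mul_le_mul_of_nonneg_right (hphi2 s hs) (sq_nonneg _)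
      _ = 2 * ℓ ^ 2 * ∫ s in s₁..(s₁ + ℓ), ‖a s‖ ^ 2 := intervalIntegral.integral_const_mul _ _
      _ ≤ 2 * ℓ ^ 2 * θ := mul_le_mul_of_nonneg_left hθ (by positivity)
  have ihb : (∫ s in s₁..(s₁ + ℓ), ‖h s‖ * ‖a s‖) ≤ η := by
    refine le_trans ?_ ((iha s₁).trans_le hη)
    apply intervalIntegral.integral_mono_interval le_rfl hle (by linarith)
    · exact Filter.Eventually.of_forall fun s => mul_nonneg (norm_nonneg _) (norm_nonneg _)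
    · exact (by fun_prop : Continuous fun s => ‖h s‖ * ‖a s‖).intervalIntegrable _ _
  have b3 : (∫ s in s₁..(s₁ + ℓ), ODEP2_phi s₁ ℓ s * (h s * conj (a s)).re) ≤ ℓ ^ 4 * η := by
    calc (∫ s in s₁..(s₁ + ℓ), ODEP2_phi s₁ ℓ s * (h s * conj (a s)).re)
        ≤ ∫ s in s₁..(s₁ + ℓ), ℓ ^ 4 * (‖h s‖ * ‖a s‖) := by
          apply intervalIntegral.integral_mono_on hle
          · exact (cp.mul c3).intervalIntegrable _ _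
          · exact (by fun_prop : Continuous fun s => ℓ ^ 4 * (‖h s‖ * ‖a s‖)).intervalIntegrable _ _
          · intro s hs
            have h1 : (h s * conj (a s)).re ≤ ‖h s‖ * ‖a s‖ :=
              calc (h s * conj (a s)).re ≤ ‖h s * conj (a s)‖ := Complex.re_le_norm _
                _ = ‖h s‖ * ‖a s‖ := by rw [norm_mul, Complex.norm_conj]
            calc ODEP2_phi s₁ ℓ s * (h s * conj (a s)).re
                ≤ ODEP2_phi s₁ ℓ s * (‖h s‖ * ‖a s‖) := mul_le_mul_of_nonneg_left h1 (hphi0 s)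
              _ ≤ ℓ ^ 4 * (‖h s‖ * ‖a s‖) := mul_le_mul_of_nonneg_right (hphi1 s hs)
                (mul_nonneg (norm_nonneg _) (norm_nonneg _))
      _ = ℓ ^ 4 * ∫ s in s₁..(s₁ + ℓ), ‖h s‖ * ‖a s‖ := intervalIntegral.integral_const_mul _ _
      _ ≤ ℓ ^ 4 * η := mul_le_mul_of_nonneg_left ihb (by positivity)
  have hθ0 : 0 ≤ θ := le_trans (intervalIntegral.integral_nonneg hle fun s _ => sq_nonneg _) hθ
  have hη0 : 0 ≤ η := le_trans (intervalIntegral.integral_nonneg hle fun s _ =>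
    mul_nonneg (norm_nonneg _) (norm_nonneg _)) ihb
  have hid := ODEP2_identity D s₁ ℓ
  rw [ODEP2_int, e1, hid] at hx2
  have hfin : (‖a' x‖ ^ 2 + max μ 1 * ‖a x‖ ^ 2) * (ℓ ^ 5 / 30) ≤
      (ℓ ^ 2 + 2 * ℓ ^ 4) * max μ 1 * (θ + η) := by
    refine hx2.trans ?_
    have f1 : μ * (∫ s in s₁..(s₁ + ℓ), ODEP2_phi s₁ ℓ s * ‖a s‖ ^ 2) ≤ max μ 1 * (ℓ ^ 4 * θ) :=
      mul_le_mul hmμ b1 b0 (by linarith)
    have f2 : max μ 1 * (∫ s in s₁..(s₁ + ℓ), ODEP2_phi s₁ ℓ s * ‖a s‖ ^ 2) ≤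
        max μ 1 * (ℓ ^ 4 * θ) := mul_le_mul_of_nonneg_left b1 (by linarith)
    have g1 : ℓ ^ 2 * θ ≤ max μ 1 * (ℓ ^ 2 * θ) := by
      have : 0 ≤ ℓ ^ 2 * θ := by positivity
      nlinarith
    have g2 : ℓ ^ 4 * η ≤ max μ 1 * (ℓ ^ 4 * η) := by
      have : 0 ≤ ℓ ^ 4 * η := by positivity
      nlinarith
    have g3 : 0 ≤ max μ 1 * (ℓ ^ 2 * η) := by positivity
    have g4 : 0 ≤ max μ 1 * (ℓ ^ 4 * η) := by positivity
    nlinarith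
  have hl5 : 0 < ℓ ^ 5 / 30 := by positivity
  rw [← le_div_iff₀ hl5] at hfin
  refine hfin.trans (le_of_eq ?_)
  field_simp

end Pool.Agent.Lib.MP_4ccfbf_an
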