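import Pool.Agent.Lib.MP_4ccfbf_an.Defs

/-!
# The Gronwall estimate of the ODE part

(helper79, problem MP_4ccfbf_an)
-/

set_option autoImplicit false

open MeasureTheory Set Filter Topology Complex
open scoped ENNReal ComplexConjugate

namespace Pool.Agent.Lib.MP_4ccfbf_an

attribute [local instance] msCircle

private lemma ODEP3_aux (μ : ℝ) (hμ : 0 ≤ μ) (a a' h : ℂ) :
    2 * inner ℝ a' (-(μ : ℂ) * a - h) + max μ 1 * (2 * inner ℝ a a')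
      ≤ (‖a'‖ ^ 2 + max μ 1 * ‖a‖ ^ 2) + 2 * (‖h‖ * ‖a'‖) := by
  have h1 : -(μ : ℂ) * a - h = (-μ) • a - h := by
    rw [Complex.real_smul]
    push_cast
    ring
  have h2 : inner ℝ a' (-(μ : ℂ) * a - h) = -μ * inner ℝ a a' - inner ℝ a' h := by
    rw [h1, inner_sub_right, inner_smul_right, real_inner_comm a a']
  rw [h2]
  have h3 : |inner ℝ a a'| ≤ ‖a‖ * ‖a'‖ := abs_real_inner_le_norm a a'
  have h4 : |inner ℝ a' h| ≤ ‖a'‖ * ‖h‖ := abs_real_inner_le_norm a' h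
  have h5 : (1 : ℝ) ≤ max μ 1 := le_max_right _ _
  have h6 : μ ≤ max μ 1 := le_max_left _ _
  have h7 : max μ 1 ≤ μ + 1 := max_le (by linarith) (by linarith)
  have h8 : -inner ℝ a' h ≤ ‖a'‖ * ‖h‖ := (neg_le_abs _).trans h4
  have h9 : (max μ 1 - μ) * inner ℝ a a' ≤ ‖a‖ * ‖a'‖ := by
    calc (max μ 1 - μ) * inner ℝ a a' ≤ (max μ 1 - μ) * (‖a‖ * ‖a'‖) :=
        mul_le_mul_of_nonneg_left ((le_abs_self _).trans h3) (by linarith)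
      _ ≤ 1 * (‖a‖ * ‖a'‖) := mul_le_mul_of_nonneg_right (by linarith) (by positivity)
      _ = _ := one_mul _
  have h10 : 2 * (‖a‖ * ‖a'‖) ≤ ‖a'‖ ^ 2 + max μ 1 * ‖a‖ ^ 2 := by
    have h11 : ‖a‖ ^ 2 ≤ max μ 1 * ‖a‖ ^ 2 := le_mul_of_one_le_left (by positivity) h5
    nlinarith [sq_nonneg (‖a‖ - ‖a'‖)]
  nlinarith

theorem odeP3 {μ K : ℝ} {w : ℂ} {a a' h : ℝ → ℂ} (D : OdeData μ K w a a' h) (hμ : 0 ≤ μ)
    (x s : ℝ) (hs : s ∈ Icc x (x + 2 * Real.pi)) :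
    ‖a' s‖ ^ 2 + max μ 1 * ‖a s‖ ^ 2
      ≤ Real.exp (2 * Real.pi) * (‖a' x‖ ^ 2 + max μ 1 * ‖a x‖ ^ 2
        + 2 * ∫ t in x..(x + 2 * Real.pi), ‖h t‖ * ‖a' t‖) := by
  have hpi := Real.pi_pos
  have hca' : Continuous a' := continuous_iff_continuousAt.2 fun t => (D.da' t).continuousAt
  have hcf : Continuous fun t => ‖h t‖ * ‖a' t‖ := D.hc.norm.mul hca'.norm
  have hdΦ : ∀ t, HasDerivAt (fun t => ‖a' t‖ ^ 2 + max μ 1 * ‖a t‖ ^ 2)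
      (2 * inner ℝ (a' t) (-(μ : ℂ) * a t - h t) + max μ 1 * (2 * inner ℝ (a t) (a' t))) t :=
    fun t => (D.da' t).norm_sq.add ((D.da t).norm_sq.const_mul _)
  have hdI : ∀ t, HasDerivAt (fun t => ∫ y in x..t, ‖h y‖ * ‖a' y‖) (‖h t‖ * ‖a' t‖) t :=
    fun t => intervalIntegral.integral_hasDerivAt_right (hcf.intervalIntegrable _ _)
      hcf.aestronglyMeasurable.stronglyMeasurableAtFilter hcf.continuousAt
  have hdE : ∀ t, HasDerivAt (fun t => Real.exp (-(t - x))) (-Real.exp (-(t - x))) t := by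
    intro t
    have h1 : HasDerivAt (fun t : ℝ => -(t - x)) (-1) t := ((hasDerivAt_id t).sub_const x).neg
    have h2 := h1.exp
    rw [mul_neg, mul_one] at h2
    exact h2
  let Ψ : ℝ → ℝ := fun t => Real.exp (-(t - x)) * (‖a' t‖ ^ 2 + max μ 1 * ‖a t‖ ^ 2)
    - 2 * ∫ y in x..t, ‖h y‖ * ‖a' y‖
  have hdΨ : ∀ t, HasDerivAt Ψ ((-Real.exp (-(t - x))) * (‖a' t‖ ^ 2 + max μ 1 * ‖a t‖ ^ 2)
      + Real.exp (-(t - x)) * (2 * inner ℝ (a' t) (-(μ : ℂ) * a t - h t)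
        + max μ 1 * (2 * inner ℝ (a t) (a' t))) - 2 * (‖h t‖ * ‖a' t‖)) t :=
    fun t => ((hdE t).mul (hdΦ t)).sub ((hdI t).const_mul 2)
  have hanti : AntitoneOn Ψ (Icc x (x + 2 * Real.pi)) := by
    refine antitoneOn_of_deriv_nonpos (convex_Icc _ _)
      (fun t _ => (hdΨ t).continuousAt.continuousWithinAt)
      (fun t _ => (hdΨ t).differentiableAt.differentiableWithinAt) ?_
    intro t ht
    rw [(hdΨ t).deriv]
    rw [interior_Icc] at ht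
    have h1 := ODEP3_aux μ hμ (a t) (a' t) (h t)
    have h2 : 0 < Real.exp (-(t - x)) := Real.exp_pos _
    have h3 : Real.exp (-(t - x)) ≤ 1 := Real.exp_le_one_iff.2 (by linarith [ht.1])
    have h4 : Real.exp (-(t - x)) * (2 * inner ℝ (a' t) (-(μ : ℂ) * a t - h t)
        + max μ 1 * (2 * inner ℝ (a t) (a' t))) ≤ Real.exp (-(t - x)) *
        ((‖a' t‖ ^ 2 + max μ 1 * ‖a t‖ ^ 2) + 2 * (‖h t‖ * ‖a' t‖)) :=
      mul_le_mul_of_nonneg_left h1 h2.le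
    have h5 : Real.exp (-(t - x)) * (2 * (‖h t‖ * ‖a' t‖)) ≤ 1 * (2 * (‖h t‖ * ‖a' t‖)) :=
      mul_le_mul_of_nonneg_right h3 (by positivity)
    linarith
  have hle := hanti (left_mem_Icc.2 (by linarith)) hs hs.1
  have h1 : Ψ x = ‖a' x‖ ^ 2 + max μ 1 * ‖a x‖ ^ 2 := by
    simp [Ψ]
  have h2 : Ψ s = Real.exp (-(s - x)) * (‖a' s‖ ^ 2 + max μ 1 * ‖a s‖ ^ 2)
    - 2 * ∫ y in x..s, ‖h y‖ * ‖a' y‖ := rfl
  rw [h1, h2] at hle
  have h3 : (∫ y in x..s, ‖h y‖ * ‖a' y‖) ≤ ∫ t in x..(x + 2 * Real.pi), ‖h t‖ * ‖a' t‖ := by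
    refine intervalIntegral.integral_mono_interval le_rfl hs.1 hs.2
      (Filter.Eventually.of_forall fun t => ?_) (hcf.intervalIntegrable _ _)
    change 0 ≤ ‖h t‖ * ‖a' t‖
    positivity
  have h4 : Real.exp (-(s - x)) * (‖a' s‖ ^ 2 + max μ 1 * ‖a s‖ ^ 2) ≤
      ‖a' x‖ ^ 2 + max μ 1 * ‖a x‖ ^ 2
        + 2 * ∫ t in x..(x + 2 * Real.pi), ‖h t‖ * ‖a' t‖ := by linarith
  have h5 : ‖a' s‖ ^ 2 + max μ 1 * ‖a s‖ ^ 2 = Real.exp (s - x) *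
      (Real.exp (-(s - x)) * (‖a' s‖ ^ 2 + max μ 1 * ‖a s‖ ^ 2)) := by
    rw [← mul_assoc, ← Real.exp_add]
    simp
  rw [h5]
  have h6 : 0 ≤ Real.exp (-(s - x)) * (‖a' s‖ ^ 2 + max μ 1 * ‖a s‖ ^ 2) := by
    have : (0 : ℝ) ≤ max μ 1 := hμ.trans (le_max_left _ _)
    positivity
  exact mul_le_mul (Real.exp_le_exp.2 (by linarith [hs.2])) h4 h6 (Real.exp_pos _).le

end Pool.Agent.Lib.MP_4ccfbf_an
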