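import Pool.Agent.Lib.MP_4ccfbf_an.Defs

/-!
# The measure lemma of the ODE part

(helper79, problem MP_4ccfbf_an)
-/

set_option autoImplicit false

open MeasureTheory Set Filter Topology Complex
open scoped ENNReal ComplexConjugate

namespace Pool.Agent.Lib.MP_4ccfbf_an

attribute [local instance] msCircle

private lemma ODEZ_dist (a a' : ℝ → ℂ) (u v σ τ : ℝ) (hder : ∀ s, HasDerivAt a (a' s) s)
    (hσ : 0 < σ) (S : Set ℝ) (hS : ∀ s ∈ S, s ∈ Icc u v ∧ ‖a s‖ < τ ∧ σ < ‖a' s‖)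
    (hosc : ∀ s ∈ S, ∀ t ∈ Icc u v, ‖a' t - a' s‖ ≤ σ / 2) (s t : ℝ) (hs : s ∈ S) (ht : t ∈ S) :
    |s - t| ≤ 4 * τ / σ := by
  obtain ⟨hs1, hs2, hs3⟩ := hS s hs
  obtain ⟨ht1, ht2, ht3⟩ := hS t ht
  have h1 : ‖(a t - a' s * t) - (a s - a' s * s)‖ ≤ σ / 2 * ‖t - s‖ := by
    refine Convex.norm_image_sub_le_of_norm_hasDerivWithin_le (𝕜 := ℝ)
      (f := fun y : ℝ => a y - a' s * y) (f' := fun y => a' y - a' s) (s := Icc u v) ?_ ?_
      (convex_Icc u v) hs1 ht1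
    · intro y _
      have h2 : HasDerivAt (fun y : ℝ => a' s * (y : ℂ)) (a' s * 1) y :=
        (Complex.ofRealCLM.hasDerivAt (x := y)).const_mul (a' s)
      have h3 := (hder y).sub h2
      rw [mul_one] at h3
      exact h3.hasDerivWithinAt
    · intro y hy
      exact hosc s hs y hy
  have h2 : a' s * ((t - s : ℝ) : ℂ) =
      (a t - a s) - ((a t - a' s * t) - (a s - a' s * s)) := by
    push_cast
    ring
  have h3 : ‖a' s‖ * |t - s| ≤ ‖a t‖ + ‖a s‖ + σ / 2 * |t - s| := by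
    have h4 : ‖a' s * ((t - s : ℝ) : ℂ)‖ = ‖a' s‖ * |t - s| := by
      rw [norm_mul, Complex.norm_real, Real.norm_eq_abs]
    rw [← h4, h2]
    calc _ ≤ ‖a t - a s‖ + ‖(a t - a' s * t) - (a s - a' s * s)‖ := norm_sub_le _ _
      _ ≤ (‖a t‖ + ‖a s‖) + σ / 2 * ‖t - s‖ := add_le_add (norm_sub_le _ _) h1
      _ = _ := by rw [Real.norm_eq_abs]
  have h5 : σ / 2 * |t - s| ≤ 2 * τ := by
    have h6 : σ * |t - s| ≤ ‖a' s‖ * |t - s| :=
      mul_le_mul_of_nonneg_right hs3.le (abs_nonneg _)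
    linarith
  rw [abs_sub_comm, le_div_iff₀ hσ]
  linarith

theorem odeZ (a a' : ℝ → ℂ) (x H σ τ : ℝ) (hder : ∀ s, HasDerivAt a (a' s) s) (hH : 0 ≤ H)
    (hσ : 0 < σ) (hτ : 0 < τ)
    (hHol : ∀ s ∈ Icc x (x + 2 * Real.pi), ∀ t ∈ Icc x (x + 2 * Real.pi),
      ‖a' s - a' t‖ ≤ H * Real.sqrt |s - t|) :
    volume {s : ℝ | s ∈ Icc x (x + 2 * Real.pi) ∧ ‖a s‖ < τ ∧ σ < ‖a' s‖}
      ≤ ENNReal.ofReal (200 * (H ^ 2 / σ ^ 2 + 1) * τ / σ) := by
  have hpi := Real.pi_pos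
  set n : ℕ := ⌈8 * Real.pi * H ^ 2 / σ ^ 2⌉₊ + 1 with hn
  have hn1 : (1 : ℝ) ≤ n := by
    rw [hn]
    push_cast
    have : (0 : ℝ) ≤ ⌈8 * Real.pi * H ^ 2 / σ ^ 2⌉₊ := Nat.cast_nonneg _
    linarith
  have hn0 : (0 : ℝ) < n := by linarith
  have hn2 : 8 * Real.pi * H ^ 2 / σ ^ 2 ≤ n := by
    rw [hn]
    push_cast
    have := Nat.le_ceil (8 * Real.pi * H ^ 2 / σ ^ 2)
    linarith
  have hn3 : (n : ℝ) ≤ 8 * Real.pi * H ^ 2 / σ ^ 2 + 2 := by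
    rw [hn]
    push_cast
    have := Nat.ceil_lt_add_one (a := 8 * Real.pi * H ^ 2 / σ ^ 2) (by positivity)
    linarith
  set ℓ : ℝ := 2 * Real.pi / n with hℓ
  have hℓ0 : 0 < ℓ := by positivity
  have hHℓ : H * Real.sqrt ℓ ≤ σ / 2 := by
    have h1 : H ^ 2 * ℓ ≤ (σ / 2) ^ 2 := by
      rw [hℓ]
      rw [div_le_iff₀ (by positivity)] at hn2
      rw [mul_div_assoc', div_le_iff₀ hn0]
      nlinarith
    have h2 : H * Real.sqrt ℓ = Real.sqrt (H ^ 2 * ℓ) := by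
      rw [Real.sqrt_mul (by positivity), Real.sqrt_sq hH]
    rw [h2]
    exact Real.sqrt_le_iff.2 ⟨by positivity, h1⟩
  set Z : Set ℝ := {s : ℝ | s ∈ Icc x (x + 2 * Real.pi) ∧ ‖a s‖ < τ ∧ σ < ‖a' s‖} with hZ
  have hcov : Z ⊆ ⋃ j ∈ Finset.range (n + 1),
      (Z ∩ Icc (x + j * ℓ) (x + (j + 1) * ℓ)) := by
    intro s hs
    have hs1 : s ∈ Icc x (x + 2 * Real.pi) := hs.1
    have h0 : 0 ≤ (s - x) / ℓ := div_nonneg (by linarith [hs1.1]) hℓ0.le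
    have h1 : (s - x) / ℓ ≤ n := by
      rw [div_le_iff₀ hℓ0, hℓ, mul_div_cancel₀ _ hn0.ne']
      linarith [hs1.2]
    have h2 : ⌊(s - x) / ℓ⌋₊ ≤ n := by
      have := Nat.floor_mono h1
      simpa using this
    rw [mem_iUnion₂]
    refine ⟨⌊(s - x) / ℓ⌋₊, Finset.mem_range.2 (by omega), hs, ?_, ?_⟩
    · have h3 := Nat.floor_le h0
      rw [le_div_iff₀ hℓ0] at h3
      linarith
    · have h3 := (Nat.lt_floor_add_one ((s - x) / ℓ)).le
      rw [div_le_iff₀ hℓ0] at h3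
      linarith
  have hpiece : ∀ j ∈ Finset.range (n + 1),
      volume (Z ∩ Icc (x + j * ℓ) (x + (j + 1) * ℓ)) ≤ ENNReal.ofReal (4 * τ / σ) := by
    intro j _
    refine (Real.volume_le_diam _).trans ?_
    refine Metric.ediam_le_of_forall_dist_le ?_
    intro s hs t ht
    rw [Real.dist_eq]
    refine ODEZ_dist a a' (max x (x + j * ℓ)) (min (x + 2 * Real.pi) (x + (j + 1) * ℓ)) σ τ hder hσ
      (Z ∩ Icc (x + j * ℓ) (x + (j + 1) * ℓ)) ?_ ?_ s t hs ht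
    · intro r hr
      exact ⟨⟨max_le hr.1.1.1 hr.2.1, le_min hr.1.1.2 hr.2.2⟩, hr.1.2⟩
    · intro r hr y hy
      have hy1 : x ≤ y := (le_max_left _ _).trans hy.1
      have hy2 : x + j * ℓ ≤ y := (le_max_right _ _).trans hy.1
      have hy3 : y ≤ x + 2 * Real.pi := hy.2.trans (min_le_left _ _)
      have hy4 : y ≤ x + (j + 1) * ℓ := hy.2.trans (min_le_right _ _)
      have h5 : |y - r| ≤ ℓ := by
        rw [abs_le]
        constructor <;> linarith [hr.2.1, hr.2.2]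
      calc ‖a' y - a' r‖ ≤ H * Real.sqrt |y - r| := hHol y ⟨hy1, hy3⟩ r hr.1.1
        _ ≤ H * Real.sqrt ℓ := mul_le_mul_of_nonneg_left (Real.sqrt_le_sqrt h5) hH
        _ ≤ σ / 2 := hHℓ
  calc volume Z ≤ volume (⋃ j ∈ Finset.range (n + 1),
      (Z ∩ Icc (x + j * ℓ) (x + (j + 1) * ℓ))) := measure_mono hcov
    _ ≤ ∑ j ∈ Finset.range (n + 1), volume (Z ∩ Icc (x + j * ℓ) (x + (j + 1) * ℓ)) :=
      measure_biUnion_finset_le _ _
    _ ≤ ∑ j ∈ Finset.range (n + 1), ENNReal.ofReal (4 * τ / σ) := Finset.sum_le_sum hpiece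
    _ = ENNReal.ofReal ((n + 1) * (4 * τ / σ)) := by
      rw [Finset.sum_const, Finset.card_range, nsmul_eq_mul,
        ENNReal.ofReal_mul (by positivity)]
      congr 1
      rw [← Nat.cast_succ, ENNReal.ofReal_natCast]
    _ ≤ ENNReal.ofReal (200 * (H ^ 2 / σ ^ 2 + 1) * τ / σ) := by
      apply ENNReal.ofReal_le_ofReal
      have h6 : (n : ℝ) + 1 ≤ 50 * (H ^ 2 / σ ^ 2 + 1) := by
        have h7 : 8 * Real.pi * H ^ 2 / σ ^ 2 ≤ 32 * (H ^ 2 / σ ^ 2) := by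
          rw [mul_div_assoc]
          exact mul_le_mul_of_nonneg_right (by linarith [Real.pi_le_four]) (by positivity)
        have h8 : 0 ≤ H ^ 2 / σ ^ 2 := by positivity
        linarith
      have h9 : 200 * (H ^ 2 / σ ^ 2 + 1) * τ / σ = 50 * (H ^ 2 / σ ^ 2 + 1) * (4 * τ / σ) := by
        ring
      rw [h9]
      exact mul_le_mul_of_nonneg_right h6 (by positivity)

end Pool.Agent.Lib.MP_4ccfbf_an
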