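import Pool.Agent.Lib.MP_4ccfbf_an.Defs
import Pool.Agent.Lib.MP_4ccfbf_an.ODEB
import Pool.Agent.Lib.MP_4ccfbf_an.ODEN
import Pool.Agent.Lib.MP_4ccfbf_an.ODEP1
import Pool.Agent.Lib.MP_4ccfbf_an.ODEP2
import Pool.Agent.Lib.MP_4ccfbf_an.ODEP3
import Pool.Agent.Lib.MP_4ccfbf_an.ODEZ

/-!
# The ODE lemma

(helper79, problem MP_4ccfbf_an)
-/

set_option autoImplicit false

open MeasureTheory Set Filter Topology Complex
open scoped ENNReal ComplexConjugate

namespace Pool.Agent.Lib.MP_4ccfbf_an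

attribute [local instance] msCircle

/-- `|h| ≤ (λ + |h|² / λ) / 2` -/
private lemma ODEF_amgm (lam y : ℝ) (hl : 0 < lam) : y ≤ (lam + y ^ 2 / lam) / 2 := by
  have h1 : 0 ≤ (lam - y) ^ 2 / lam := by positivity
  have h2 : (lam - y) ^ 2 / lam = lam - 2 * y + y ^ 2 / lam := by
    field_simp
    ring
  linarith

private lemma ODEF_vol (e μ₁ K H σ τ : ℝ) (he : 0 < e) (he1 : e ≤ 1) (hμ : 1 ≤ μ₁) (hK : 1 ≤ K)
    (hH : H = 3 * (μ₁ + K)) (hσ : σ = e * μ₁ / K) (hτ : τ = e ^ 5 / (7400 * K ^ 9)) :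
    200 * (H ^ 2 / σ ^ 2 + 1) * τ / σ ≤ e ^ 2 / K ^ 4 := by
  have hμ0 : 0 < μ₁ := by linarith
  have hK0 : 0 < K := by linarith
  have hσ0 : 0 < σ := by rw [hσ]; positivity
  have hH1 : H ≤ 6 * K * μ₁ := by
    rw [hH]
    nlinarith
  have hH0 : 0 ≤ H := by rw [hH]; positivity
  have h1 : H / σ ≤ 6 * K ^ 2 / e := by
    rw [div_le_div_iff₀ hσ0 he, hσ]
    have : 6 * K ^ 2 * (e * μ₁ / K) = 6 * K * μ₁ * e := by
      field_simp
    rw [this]
    exact mul_le_mul_of_nonneg_right hH1 he.le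
  have h2 : H ^ 2 / σ ^ 2 + 1 ≤ 37 * (K ^ 4 / e ^ 2) := by
    have h3 : H ^ 2 / σ ^ 2 ≤ 36 * (K ^ 4 / e ^ 2) := by
      rw [← div_pow]
      calc (H / σ) ^ 2 ≤ (6 * K ^ 2 / e) ^ 2 := pow_le_pow_left₀ (by positivity) h1 2
        _ = _ := by
          field_simp
          ring
    have h4 : 1 ≤ K ^ 4 / e ^ 2 := by
      rw [le_div_iff₀ (by positivity), one_mul]
      calc e ^ 2 ≤ 1 := pow_le_one₀ he.le he1
        _ ≤ K ^ 4 := one_le_pow₀ hK
    linarith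
  have h5 : 1 / σ ≤ K / e := by
    rw [div_le_div_iff₀ hσ0 he, hσ]
    have : K * (e * μ₁ / K) = e * μ₁ := by field_simp
    rw [this]
    nlinarith
  have hτ0 : 0 < τ := by rw [hτ]; positivity
  calc 200 * (H ^ 2 / σ ^ 2 + 1) * τ / σ = 200 * (H ^ 2 / σ ^ 2 + 1) * τ * (1 / σ) := by ring
    _ ≤ 200 * (37 * (K ^ 4 / e ^ 2)) * τ * (K / e) := by
      refine mul_le_mul ?_ h5 (by positivity) (by positivity)
      refine mul_le_mul_of_nonneg_right ?_ hτ0.le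
      exact mul_le_mul_of_nonneg_left h2 (by norm_num)
    _ = e ^ 2 / K ^ 4 := by
      rw [hτ]
      field_simp
      ring

private lemma ODEF_int {μ K : ℝ} {w : ℂ} {a a' h : ℝ → ℂ} (D : OdeData μ K w a a' h) (hμ : 0 ≤ μ)
    (e κ x : ℝ) (he : 0 < e) (he1 : e ≤ 1) (hκ0 : 0 ≤ κ) (hκ : κ ≤ e ^ 6 / 148000)
    (hη : (∫ s in (0 : ℝ)..(2 * Real.pi), ‖h s‖ * ‖a s‖) ≤ κ / K ^ 10) :
    (∫ t in x..(x + 2 * Real.pi), ‖h t‖ * ‖a' t‖) ≤ 26 * e * max μ 1 := by
  have hpi := Real.pi_pos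
  obtain ⟨hca, hca', -, -, -, hmh, hha⟩ := ode_basic D
  have hK1 := D.hK
  have hK0 : 0 < K := by linarith
  have hκ1 : κ / K ^ 10 ≤ 1 := by
    rw [div_le_one (by positivity)]
    have h1 : κ ≤ 1 := by
      have : e ^ 6 ≤ 1 := pow_le_one₀ he.le he1
      linarith
    exact h1.trans (one_le_pow₀ hK1)
  obtain ⟨hA, hHol⟩ := odeP1 D hμ (hη.trans hκ1)
  set μ₁ := max μ 1 with hμ₁
  have hμ1 : 1 ≤ μ₁ := le_max_right _ _
  have hμ0 : 0 < μ₁ := by linarith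
  set σ : ℝ := e * μ₁ / K with hσ
  set τ : ℝ := e ^ 5 / (7400 * K ^ 9) with hτ
  set lam : ℝ := K ^ 3 / e with hlam
  have hσ0 : 0 < σ := by positivity
  have hτ0 : 0 < τ := by positivity
  have hlam0 : 0 < lam := by positivity
  set A : ℝ := 10 * (μ₁ + K) with hAdef
  have hA0 : 0 < A := by positivity
  have hA1 : A ≤ 20 * K * μ₁ := by
    rw [hAdef]
    nlinarith
  set Z : Set ℝ := {s : ℝ | s ∈ Icc x (x + 2 * Real.pi) ∧ ‖a s‖ < τ ∧ σ < ‖a' s‖} with hZ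
  have hZm : MeasurableSet Z := by
    have h1 : MeasurableSet {s : ℝ | ‖a s‖ < τ} := measurableSet_lt hca.norm.measurable
      measurable_const
    have h2 : MeasurableSet {s : ℝ | σ < ‖a' s‖} := measurableSet_lt measurable_const
      hca'.norm.measurable
    exact measurableSet_Icc.inter (h1.inter h2)
  have hvol : volume Z ≤ ENNReal.ofReal (e ^ 2 / K ^ 4) := by
    refine (odeZ a a' x (3 * (μ₁ + K)) σ τ D.da (by positivity) hσ0 hτ0 ?_).trans
      (ENNReal.ofReal_le_ofReal (ODEF_vol e μ₁ K _ σ τ he he1 hμ1 hK1 rfl hσ hτ))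
    intro s hs t ht
    refine hHol s t ?_
    rw [abs_le]
    constructor <;> linarith [hs.1, hs.2, ht.1, ht.2]
  have hZint : (∫ t in x..(x + 2 * Real.pi), Z.indicator (fun _ => (1 : ℝ)) t) ≤ e ^ 2 / K ^ 4 := by
    rw [intervalIntegral.integral_of_le (by linarith), integral_indicator hZm]
    rw [Measure.restrict_restrict hZm]
    rw [integral_const, smul_eq_mul, mul_one, measureReal_restrict_apply_univ]
    refine ENNReal.toReal_le_of_le_ofReal (by positivity) ?_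
    exact (measure_mono inter_subset_left).trans hvol
  have hci : IntervalIntegrable (Z.indicator (fun _ => (1 : ℝ))) volume x (x + 2 * Real.pi) := by
    have h1 : IntervalIntegrable (fun _ : ℝ => (1 : ℝ)) volume x (x + 2 * Real.pi) :=
      intervalIntegrable_const
    rw [intervalIntegrable_iff] at h1 ⊢
    exact h1.indicator hZm
  have hpt : ∀ t ∈ Icc x (x + 2 * Real.pi), ‖h t‖ * ‖a' t‖ ≤
      σ / 2 * K + (σ / 2 / K + A / 2 / lam) * ‖h t‖ ^ 2 + (A / τ) * (‖h t‖ * ‖a t‖)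
        + (A / 2 * lam) * Z.indicator (fun _ => (1 : ℝ)) t := by
    intro t ht
    have hh0 : 0 ≤ ‖h t‖ := norm_nonneg _
    have hI0 : 0 ≤ Z.indicator (fun _ => (1 : ℝ)) t := indicator_nonneg (fun _ _ => zero_le_one) _
    have e1 : 0 ≤ σ / 2 * K := by positivity
    have e2 : 0 ≤ σ / 2 / K * ‖h t‖ ^ 2 := by positivity
    have e3 : 0 ≤ A / 2 / lam * ‖h t‖ ^ 2 := by positivity
    have e4 : 0 ≤ (A / τ) * (‖h t‖ * ‖a t‖) := by positivity
    have e5 : 0 ≤ (A / 2 * lam) * Z.indicator (fun _ => (1 : ℝ)) t := by positivity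
    rw [add_mul]
    rcases le_or_gt ‖a' t‖ σ with h1 | h1
    · have h2 : ‖h t‖ * ‖a' t‖ ≤ σ * ‖h t‖ := by
        rw [mul_comm]
        exact mul_le_mul_of_nonneg_right h1 hh0
      have h3 := mul_le_mul_of_nonneg_left (ODEF_amgm K ‖h t‖ hK0) hσ0.le
      have h4 : σ * ((K + ‖h t‖ ^ 2 / K) / 2) = σ / 2 * K + σ / 2 / K * ‖h t‖ ^ 2 := by
        ring
      rw [h4] at h3
      linarith
    · rcases le_or_gt τ ‖a t‖ with h2 | h2
      · have h3 : ‖a' t‖ ≤ A / τ * ‖a t‖ := by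
          calc ‖a' t‖ ≤ A := hA t
            _ = A / τ * τ := by field_simp
            _ ≤ A / τ * ‖a t‖ := mul_le_mul_of_nonneg_left h2 (by positivity)
        have h4 : ‖h t‖ * ‖a' t‖ ≤ (A / τ) * (‖h t‖ * ‖a t‖) := by
          calc ‖h t‖ * ‖a' t‖ ≤ ‖h t‖ * (A / τ * ‖a t‖) := mul_le_mul_of_nonneg_left h3 hh0
            _ = _ := by ring
        linarith
      · have h3 : t ∈ Z := ⟨ht, h2, h1⟩
        rw [indicator_of_mem h3, mul_one]
        have h4 : ‖h t‖ * ‖a' t‖ ≤ A * ‖h t‖ := by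
          rw [mul_comm]
          exact mul_le_mul_of_nonneg_right (hA t) hh0
        have h5 := mul_le_mul_of_nonneg_left (ODEF_amgm lam ‖h t‖ hlam0) hA0.le
        have h6 : A * ((lam + ‖h t‖ ^ 2 / lam) / 2) =
            A / 2 / lam * ‖h t‖ ^ 2 + A / 2 * lam := by ring
        rw [h6] at h5
        linarith
  have hc1 : Continuous fun t => ‖h t‖ ^ 2 := D.hc.norm.pow 2
  have hc2 : Continuous fun t => ‖h t‖ * ‖a t‖ := D.hc.norm.mul hca.norm
  have hc3 : Continuous fun t => ‖h t‖ * ‖a' t‖ := D.hc.norm.mul hca'.norm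
  have i1 := hc1.intervalIntegrable (μ := volume) x (x + 2 * Real.pi)
  have i2 := hc2.intervalIntegrable (μ := volume) x (x + 2 * Real.pi)
  have i0 : IntervalIntegrable (fun _ : ℝ => σ / 2 * K) volume x (x + 2 * Real.pi) :=
    intervalIntegrable_const
  have hint : (∫ t in x..(x + 2 * Real.pi), ‖h t‖ * ‖a' t‖) ≤
      ∫ t in x..(x + 2 * Real.pi), (σ / 2 * K + (σ / 2 / K + A / 2 / lam) * ‖h t‖ ^ 2
        + (A / τ) * (‖h t‖ * ‖a t‖) + (A / 2 * lam) * Z.indicator (fun _ => (1 : ℝ)) t) :=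
    intervalIntegral.integral_mono_on (by linarith) (hc3.intervalIntegrable _ _)
      (((i0.add (i1.const_mul _)).add (i2.const_mul _)).add (hci.const_mul _)) hpt
  rw [intervalIntegral.integral_add ((i0.add (i1.const_mul _)).add (i2.const_mul _))
      (hci.const_mul _), intervalIntegral.integral_add (i0.add (i1.const_mul _)) (i2.const_mul _),
      intervalIntegral.integral_add i0 (i1.const_mul _), intervalIntegral.integral_const,
      intervalIntegral.integral_const_mul, intervalIntegral.integral_const_mul,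
      intervalIntegral.integral_const_mul, hha x] at hint
  have p1 : (x + 2 * Real.pi - x) • (σ / 2 * K) ≤ 4 * (e * μ₁) := by
    have : (x + 2 * Real.pi - x) • (σ / 2 * K) = Real.pi * (e * μ₁) := by
      rw [hσ, smul_eq_mul]
      field_simp
      ring
    rw [this]
    exact mul_le_mul_of_nonneg_right Real.pi_le_four (by positivity)
  have p2 : (σ / 2 / K + A / 2 / lam) * (∫ t in x..(x + 2 * Real.pi), ‖h t‖ ^ 2) ≤
      10 * (e * μ₁) + e * μ₁ / 2 := by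
    calc (σ / 2 / K + A / 2 / lam) * (∫ t in x..(x + 2 * Real.pi), ‖h t‖ ^ 2) ≤
        (σ / 2 / K + A / 2 / lam) * K ^ 2 :=
          mul_le_mul_of_nonneg_left (hmh x) (by positivity)
      _ = σ / 2 * K + A * (K ^ 2 / 2 / lam) := by
        field_simp
      _ ≤ σ / 2 * K + (20 * K * μ₁) * (K ^ 2 / 2 / lam) := by
        have := mul_le_mul_of_nonneg_right hA1 (show 0 ≤ K ^ 2 / 2 / lam by positivity)
        linarith
      _ = 10 * (e * μ₁) + e * μ₁ / 2 := by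
        rw [hσ, hlam]
        field_simp
        ring
  have p3 : (A / τ) * (∫ s in (0 : ℝ)..(2 * Real.pi), ‖h s‖ * ‖a s‖) ≤ e * μ₁ := by
    calc (A / τ) * (∫ s in (0 : ℝ)..(2 * Real.pi), ‖h s‖ * ‖a s‖) ≤ (A / τ) * (κ / K ^ 10) :=
        mul_le_mul_of_nonneg_left hη (by positivity)
      _ ≤ ((20 * K * μ₁) / τ) * ((e ^ 6 / 148000) / K ^ 10) := by
        refine mul_le_mul ?_ ?_ (by positivity) (by positivity)
        · exact div_le_div_of_nonneg_right hA1 hτ0.le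
        · exact div_le_div_of_nonneg_right hκ (by positivity)
      _ = e * μ₁ := by
        rw [hτ]
        field_simp
        ring
  have p4 : (A / 2 * lam) * (∫ t in x..(x + 2 * Real.pi), Z.indicator (fun _ => (1 : ℝ)) t) ≤
      10 * (e * μ₁) := by
    calc (A / 2 * lam) * (∫ t in x..(x + 2 * Real.pi), Z.indicator (fun _ => (1 : ℝ)) t) ≤
        (A / 2 * lam) * (e ^ 2 / K ^ 4) := mul_le_mul_of_nonneg_left hZint (by positivity)
      _ ≤ ((20 * K * μ₁) / 2 * lam) * (e ^ 2 / K ^ 4) := by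
        refine mul_le_mul_of_nonneg_right ?_ (by positivity)
        refine mul_le_mul_of_nonneg_right ?_ hlam0.le
        exact div_le_div_of_nonneg_right hA1 (by norm_num)
      _ = 10 * (e * μ₁) := by
        rw [hlam]
        field_simp
        ring
  have hpos : 0 < e * μ₁ := by positivity
  linarith

/-- The ODE lemma. -/
theorem ode_lemma (ϖ ℓ : ℝ) (hϖ : 0 < ϖ) (hℓ : 0 < ℓ) (hℓ' : ℓ ≤ 2 * Real.pi) :
    ∃ κ : ℝ, 0 < κ ∧ ∃ n : ℕ, ∀ (μ K s₁ : ℝ) (w : ℂ) (a a' h : ℝ → ℂ), 1 ≤ K → ‖w‖ = 1 →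
      (∀ s, HasDerivAt a (a' s) s) → (∀ s, HasDerivAt a' (-(μ : ℂ) * a s - h s) s) →
      Continuous h → (∀ s, a (s + 2 * Real.pi) = w * a s) →
      (∫ s in (0 : ℝ)..(2 * Real.pi), ‖a s‖ ^ 2) ≤ 2 * Real.pi →
      (∫ s in (0 : ℝ)..(2 * Real.pi), ‖h s‖ ^ 2) ≤ K ^ 2 →
      (∫ s in (0 : ℝ)..(2 * Real.pi), ‖h s‖ * ‖a s‖) ≤ κ / K ^ n →
      (∫ s in s₁..(s₁ + ℓ), ‖a s‖ ^ 2) ≤ κ / K ^ n → ∀ s, ‖a s‖ ≤ ϖ := by
  have hpi := Real.pi_pos
  obtain ⟨C, hC0, hC⟩ := odeP2 ℓ hℓ hℓ'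
  set E : ℝ := Real.exp (2 * Real.pi) with hE
  have hE0 : 0 < E := Real.exp_pos _
  set e : ℝ := min 1 (ϖ ^ 2 / (200 * E)) with he
  have he0 : 0 < e := lt_min one_pos (by positivity)
  have he1 : e ≤ 1 := min_le_left _ _
  have heϖ : 200 * E * e ≤ ϖ ^ 2 := by
    have h1 : e ≤ ϖ ^ 2 / (200 * E) := min_le_right _ _
    rw [le_div_iff₀ (by positivity)] at h1
    linarith
  set κ : ℝ := min (min (e ^ 6 / 148000) (ϖ ^ 2 / (4 * C * E)))
    (min (ϖ ^ 2 * ℓ / 4) (ϖ ^ 2 / (8 * Real.pi))) with hκ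
  have hκ0 : 0 < κ := lt_min (lt_min (by positivity) (by positivity))
    (lt_min (by positivity) (by positivity))
  have hκ1 : κ ≤ e ^ 6 / 148000 := (min_le_left _ _).trans (min_le_left _ _)
  have hκ2 : κ ≤ ϖ ^ 2 / (4 * C * E) := (min_le_left _ _).trans (min_le_right _ _)
  have hκ3 : κ ≤ ϖ ^ 2 * ℓ / 4 := (min_le_right _ _).trans (min_le_left _ _)
  have hκ4 : κ ≤ ϖ ^ 2 / (8 * Real.pi) := (min_le_right _ _).trans (min_le_right _ _)
  refine ⟨κ, hκ0, 10, ?_⟩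
  intro μ K s₁ w a a' h hK hw hda hda' hhc hper hma hmh hη hθ s
  have D : OdeData μ K w a a' h := ⟨hK, hw, hda, hda', hhc, hper, hma, hmh⟩
  have hK0 : 0 < K := by linarith
  have hκK : κ / K ^ 10 ≤ κ := div_le_self hκ0.le (one_le_pow₀ hK)
  rcases le_or_gt μ 0 with hμ | hμ
  · have h1 := odeN D hμ s₁ ℓ κ κ hℓ hℓ' (hη.trans hκK) (hθ.trans hκK) s
    have h2 : Real.sqrt (κ / ℓ) ≤ ϖ / 2 := by
      refine Real.sqrt_le_iff.2 ⟨by positivity, ?_⟩
      rw [div_le_iff₀ hℓ]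
      linarith
    have h3 : Real.sqrt (2 * Real.pi * κ) ≤ ϖ / 2 := by
      refine Real.sqrt_le_iff.2 ⟨by positivity, ?_⟩
      rw [le_div_iff₀ (by positivity)] at hκ4
      linarith
    linarith
  · obtain ⟨x, -, hx⟩ := hC μ K w a a' h D hμ.le s₁ κ κ (hη.trans hκK) (hθ.trans hκK)
    have hμ1 : 1 ≤ max μ 1 := le_max_right _ _
    have hμ0 : 0 < max μ 1 := by linarith
    have hI := ODEF_int D hμ.le e κ x he0 he1 hκ0.le hκ1 hη
    have hmain : ∀ t ∈ Icc x (x + 2 * Real.pi), ‖a t‖ ≤ ϖ := by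
      intro t ht
      have h1 := odeP3 D hμ.le x t ht
      rw [← hE] at h1
      have h2 : max μ 1 * ‖a t‖ ^ 2 ≤ E * (C * max μ 1 * (κ + κ) + 2 * (26 * e * max μ 1)) := by
        have h3 : ‖a' x‖ ^ 2 + max μ 1 * ‖a x‖ ^ 2
            + 2 * (∫ t in x..(x + 2 * Real.pi), ‖h t‖ * ‖a' t‖) ≤
            C * max μ 1 * (κ + κ) + 2 * (26 * e * max μ 1) := by linarith
        have h4 := mul_le_mul_of_nonneg_left h3 hE0.le
        have h5 : 0 ≤ ‖a' t‖ ^ 2 := by positivity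
        linarith
      have h3 : E * (C * max μ 1 * (κ + κ) + 2 * (26 * e * max μ 1)) =
          max μ 1 * (2 * C * E * κ + 52 * E * e) := by ring
      rw [h3] at h2
      have h4 : ‖a t‖ ^ 2 ≤ 2 * C * E * κ + 52 * E * e := le_of_mul_le_mul_left h2 hμ0
      have h5 : 2 * C * E * κ ≤ ϖ ^ 2 / 2 := by
        rw [le_div_iff₀ (by positivity)] at hκ2
        linarith
      have h6 : ‖a t‖ ^ 2 ≤ ϖ ^ 2 := by linarith [sq_nonneg ϖ]
      exact (pow_le_pow_iff_left₀ (norm_nonneg _) hϖ.le two_ne_zero).1 h6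
    have hperiod : Function.Periodic (fun t => ‖a t‖) (2 * Real.pi) := by
      intro t
      simp only
      rw [hper, norm_mul, hw, one_mul]
    obtain ⟨y, hy, hsy⟩ := hperiod.exists_mem_Ico (by positivity) s x
    have h1 := hmain y ⟨hy.1, hy.2.le⟩
    have h2 : ‖a s‖ = ‖a y‖ := hsy
    rw [h2]
    exact h1

end Pool.Agent.Lib.MP_4ccfbf_an
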