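import Pool.Agent.Lib.MP_4ccfbf_an.REcore

set_option autoImplicit false

open MeasureTheory Set Filter Topology Complex
open scoped ENNReal ComplexConjugate

namespace Pool.Agent.Lib.MP_4ccfbf_an

attribute [local instance] msCircle

lemma pow_div_pow_le {q : ℝ} (hq : 1 ≤ q) {i j k : ℕ} (h : i + k ≤ j) :
    q ^ i / q ^ j ≤ 1 / q ^ k := by
  have hq0 : 0 < q := by linarith
  rw [div_le_div_iff₀ (by positivity) (by positivity), one_mul, ← pow_add]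
  exact pow_le_pow_right₀ hq h

lemma exists_pos_lb {ι : Type} (Z : Finset ι) (g : ι → ℝ) (hg : ∀ i ∈ Z, 0 < g i) :
    ∃ κ : ℝ, 0 < κ ∧ ∀ i ∈ Z, κ ≤ g i := by
  classical
  induction Z using Finset.induction_on with
  | empty => exact ⟨1, one_pos, by simp⟩
  | insert a s ha ih =>
    obtain ⟨κ, h1, h2⟩ := ih (fun i hi => hg i (Finset.mem_insert_of_mem hi))
    refine ⟨min κ (g a), lt_min h1 (hg a (Finset.mem_insert_self _ _)), fun i hi => ?_⟩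
    rcases Finset.mem_insert.1 hi with h | h
    · rw [h]; exact min_le_right _ _
    · exact (min_le_left _ _).trans (h2 i h)

lemma exists_nat_ub {ι : Type} (Z : Finset ι) (g : ι → ℕ) : ∃ n : ℕ, ∀ i ∈ Z, g i ≤ n :=
  ⟨Z.sup g, fun _ hi => Finset.le_sup hi⟩

lemma om_injOn {R : ℕ} {ν : Fin 2 → ℝ}
    (hν : Set.InjOn (fun ζ : K2 => ((ζ 0 : ℝ) * ν 0 + (ζ 1 : ℝ) * ν 1) / Real.sqrt (nsq ζ))
      (Zset R : Set K2)) : Set.InjOn (om ν) (Zset R : Set K2) := by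
  intro x hx y hy hxy
  refine hν hx hy ?_
  have hpi := Real.pi_pos
  simp only [om] at hxy
  have : (2 * Real.pi) ≠ 0 := by positivity
  exact mul_left_cancel₀ this hxy

theorem re_core (b : T2 → ℝ) (hbm : Measurable b) (β : ℝ) (hβ : 1 ≤ β) (hb0 : ∀ z, 0 ≤ b z)
    (hbβ : ∀ z, b z ≤ β) (Ω : Set T2) (hΩ : IsOpen Ω) (hΩne : Ω.Nonempty)
    (c₀ : ℝ) (hc₀ : 0 < c₀) (hbc : ∀ z ∈ Ω, c₀ ≤ b z) :
    ∃ (P : ℕ) (q₀ : ℝ), 1 ≤ P ∧ 1 ≤ q₀ ∧ ∀ q : ℝ, q₀ ≤ q → ∀ s : ℝ, |s| = q ^ P →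
      ∀ (F : Finset K2) (c : K2 → ℂ), ∑ k ∈ F, ‖c k‖ ^ 2 = 1 →
      (q / q ^ P) ^ 2 < ∫ z : T2, ‖TP F (gco s c) z + I * s * b z * TP F c z‖ ^ 2 := by
  classical
  have hpi := Real.pi_pos
  obtain ⟨χ, hχc, hχ0, hχ1, hχΩ, hχpos, C, hC, hX⟩ := exists_cutoff Ω hΩ hΩne
  set X0 := ∫ z : T2, χ z with hX0
  -- choice of R
  obtain ⟨R, hR1, hR⟩ : ∃ R : ℕ, 1 ≤ R ∧ C / Real.sqrt R ≤ X0 / 2 := by
    obtain ⟨R, hR⟩ := exists_nat_gt ((2 * C / X0) ^ 2)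
    refine ⟨R + 1, by omega, ?_⟩
    have h1 : 2 * C / X0 ≤ Real.sqrt ((R + 1 : ℕ) : ℝ) := by
      apply Real.le_sqrt_of_sq_le
      push_cast
      linarith
    have h2 : 0 < 2 * C / X0 := by positivity
    have h3 : 0 < Real.sqrt ((R + 1 : ℕ) : ℝ) := lt_of_lt_of_le h2 h1
    rw [div_le_iff₀ h3]
    calc C = X0 / 2 * (2 * C / X0) := by field_simp
      _ ≤ X0 / 2 * Real.sqrt ((R + 1 : ℕ) : ℝ) := mul_le_mul_of_nonneg_left h1 (by positivity)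
  obtain ⟨ν, hν⟩ := exists_generic_dir R
  obtain ⟨θ₀, hθ₀, c₂, hc₂, M, hM, hexp⟩ := expsum (Zset R) (om ν) (om_injOn hν) β (by linarith)
  obtain ⟨C3, hC3, hloc⟩ := step_loc b hbm β hβ hb0 hbβ Ω c₀ hc₀ hbc χ hχc hχ0 hχ1 hχΩ hχpos C hC
    hX R hR
  obtain ⟨C5, hC5, hint⟩ := step_interf b hbm β hβ hb0 hbβ R ν θ₀ c₂ hθ₀ hc₂ M hM hexp C3 hC3
  -- constants of the lines
  have hbox : ∀ ζ : K2, ∃ s₁ ℓ κ : ℝ, ζ ∈ Zset R → (0 < ℓ ∧ ℓ ≤ 2 * Real.pi ∧ 0 < κ ∧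
      ∀ (m : ℤ) (F : Finset K2), (∀ k ∈ F, dot ζ k = m) → ∀ c : K2 → ℂ,
        κ * (∫ s in s₁..(s₁ + ℓ), ‖LF ζ F c s‖ ^ 2) ≤ ∫ z : T2, χ z * ‖TP F c z‖ ^ 2) := by
    intro ζ
    by_cases h : ζ ∈ Zset R
    · obtain ⟨s₁, ℓ, κ, h1, h2, h3, h4⟩ := line_box χ hχc hχ0 hχpos ζ (Zset_prim h)
      exact ⟨s₁, ℓ, κ, fun _ => ⟨h1, h2, h3, h4⟩⟩
    · exact ⟨0, 0, 0, fun h' => absurd h' h⟩
  choose s₁ ℓ κb hbox using hbox
  set N : ℝ := ((Zset R).card : ℝ) with hN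
  have hN0 : 0 ≤ N := by positivity
  set ϖ : ℝ := 1 / (2 * (N + 1)) with hϖdef
  have hϖ : 0 < ϖ := by positivity
  have hode : ∀ ζ : K2, ∃ (κ : ℝ) (n : ℕ), ζ ∈ Zset R → (0 < κ ∧
      ∀ (μ K s₁ : ℝ) (w : ℂ) (a a' h : ℝ → ℂ), 1 ≤ K → ‖w‖ = 1 →
      (∀ s, HasDerivAt a (a' s) s) → (∀ s, HasDerivAt a' (-(μ : ℂ) * a s - h s) s) →
      Continuous h → (∀ s, a (s + 2 * Real.pi) = w * a s) →
      (∫ s in (0 : ℝ)..(2 * Real.pi), ‖a s‖ ^ 2) ≤ 2 * Real.pi →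
      (∫ s in (0 : ℝ)..(2 * Real.pi), ‖h s‖ ^ 2) ≤ K ^ 2 →
      (∫ s in (0 : ℝ)..(2 * Real.pi), ‖h s‖ * ‖a s‖) ≤ κ / K ^ n →
      (∫ s in s₁..(s₁ + ℓ ζ), ‖a s‖ ^ 2) ≤ κ / K ^ n → ∀ s, ‖a s‖ ≤ ϖ) := by
    intro ζ
    by_cases h : ζ ∈ Zset R
    · obtain ⟨κ, h1, n, h2⟩ := ode_lemma ϖ (ℓ ζ) hϖ (hbox ζ h).1 (hbox ζ h).2.1
      exact ⟨κ, n, fun _ => ⟨h1, h2⟩⟩
    · exact ⟨0, 0, fun h' => absurd h' h⟩
  choose κo nn hode using hode
  obtain ⟨κs, hκs, hκs'⟩ := exists_pos_lb (Zset R) κo (fun ζ hζ => (hode ζ hζ).1)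
  obtain ⟨κm, hκm, hκm'⟩ := exists_pos_lb (Zset R) κb (fun ζ hζ => (hbox ζ hζ).2.2.1)
  obtain ⟨n, hn⟩ := exists_nat_ub (Zset R) nn
  -- exponents
  set e : ℕ := n + 2 with he
  set a : ℕ := e * M + 1 with ha
  have heM : e ≤ e * M := Nat.le_mul_of_pos_right e hM
  set C8 : ℝ := 2 + 163 * C5 with hC8
  set C9 : ℝ := 2 * C8 + 2 * β * C3 with hC9
  set C7 : ℝ := 2 * Real.pi * C3 + 1 with hC7
  have hC7' : 1 ≤ C7 := by rw [hC7]; have : 0 ≤ 2 * Real.pi * C3 := by positivity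
                           linarith
  have hC8' : 0 ≤ C8 := by positivity
  have hC9' : 0 ≤ C9 := by positivity
  set q₀ : ℝ := 1 + 1600 * ((R : ℝ) + 1) ^ 2 + 2 * C3 + 2 * Real.pi * (2 + C9) * C7 ^ n / κs
    + (4 / κm) * C3 * C7 ^ n / κs with hq₀
  have r1 : 0 ≤ 1600 * ((R : ℝ) + 1) ^ 2 := by positivity
  have r2 : 0 ≤ 2 * C3 := by positivity
  have r3 : 0 ≤ 2 * Real.pi * (2 + C9) * C7 ^ n / κs := by positivity
  have r4 : 0 ≤ (4 / κm) * C3 * C7 ^ n / κs := by positivity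
  refine ⟨20 * a, q₀, by omega, by rw [hq₀]; linarith, ?_⟩
  intro q hq s hs F c hc
  by_contra hcon
  push Not at hcon
  have hq1 : 1 ≤ q := by rw [hq₀] at hq; linarith
  have hq0 : 0 < q := by linarith
  have hqR : 1600 * ((R : ℝ) + 1) ^ 2 ≤ q := by rw [hq₀] at hq; linarith
  have hqC3 : 2 * C3 ≤ q := by rw [hq₀] at hq; linarith
  have hqη : 2 * Real.pi * (2 + C9) * C7 ^ n / κs ≤ q := by rw [hq₀] at hq; linarith
  have hqθ : (4 / κm) * C3 * C7 ^ n / κs ≤ q := by rw [hq₀] at hq; linarith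
  set lam : ℝ := q ^ (20 * a) with hlamdef
  set W : ℝ := q ^ a with hWdef
  have hone : ∀ i : ℕ, 1 ≤ q ^ i := fun i => one_le_pow₀ hq1
  have hmono : ∀ {i j : ℕ}, i ≤ j → q ^ i ≤ q ^ j := fun h => pow_le_pow_right₀ hq1 h
  have hWlam : W ≤ lam := hmono (by omega)
  have hqlam : q ≤ lam := by
    have : q ^ 1 ≤ q ^ (20 * a) := hmono (by omega)
    simpa using this
  have hlam0 : 0 < lam := by positivity
  have hW0 : 0 < W := by positivity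
  have hL : W ^ 2 = q ^ (2 * a) := by rw [hWdef, ← pow_mul]; ring_nf
  have hL2 : (W ^ 2) ^ 2 = q ^ (4 * a) := by rw [hWdef, ← pow_mul, ← pow_mul]; ring_nf
  have hB : Big lam W (W ^ 2) (W + (W ^ 2) ^ 2) R := by
    refine ⟨hone a, by rw [hL]; exact hone _, rfl, hR1, ?_⟩
    rw [hL2, hL]
    have h1 : q ^ (2 * a) + 1 ≤ 2 * q ^ (2 * a) := by have := hone (2 * a); linarith
    have h2 : W + q ^ (4 * a) ≤ 2 * q ^ (4 * a) := by
      have : W ≤ q ^ (4 * a) := hmono (by omega)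
      linarith
    have h3 : (q ^ (2 * a) + 1) ^ 2 ≤ (2 * q ^ (2 * a)) ^ 2 :=
      pow_le_pow_left₀ (by positivity) h1 2
    have h4 : (W + q ^ (4 * a)) ^ 2 ≤ (2 * q ^ (4 * a)) ^ 2 :=
      pow_le_pow_left₀ (by positivity) h2 2
    have h5 : (q ^ (2 * a) + 1) ^ 2 * (W + q ^ (4 * a)) ^ 2
        ≤ (2 * q ^ (2 * a)) ^ 2 * (2 * q ^ (4 * a)) ^ 2 :=
      mul_le_mul h3 h4 (by positivity) (by positivity)
    have h6 : (2 * q ^ (2 * a)) ^ 2 * (2 * q ^ (4 * a)) ^ 2 = 16 * q ^ (12 * a) := by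
      have : q ^ (12 * a) = (q ^ (2 * a)) ^ 2 * (q ^ (4 * a)) ^ 2 := by
        rw [← pow_mul, ← pow_mul, ← pow_add]; ring_nf
      rw [this]; ring
    calc 100 * ((R : ℝ) + 1) ^ 2 * (q ^ (2 * a) + 1) ^ 2 * (W + q ^ (4 * a)) ^ 2
        = 100 * ((R : ℝ) + 1) ^ 2 * ((q ^ (2 * a) + 1) ^ 2 * (W + q ^ (4 * a)) ^ 2) := by ring
      _ ≤ 100 * ((R : ℝ) + 1) ^ 2 * (16 * q ^ (12 * a)) := by
          rw [← h6]; exact mul_le_mul_of_nonneg_left h5 (by positivity)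
      _ = (1600 * ((R : ℝ) + 1) ^ 2) * q ^ (12 * a) := by ring
      _ ≤ q * q ^ (12 * a) := mul_le_mul_of_nonneg_right hqR (by positivity)
      _ = q ^ (12 * a + 1) := by rw [pow_succ]; ring
      _ ≤ q ^ (20 * a) := hmono (by omega)
  obtain ⟨f1, f2, f3, f4⟩ := hloc q lam W (W ^ 2) (W + (W ^ 2) ^ 2) hB hq1 hqlam hWlam rfl s hs F
    c hc hcon
  set Q : ℝ := W + (W ^ 2) ^ 2 with hQdef
  have hqW : q / W ^ 2 ≤ 1 / q ^ (2 * e + 1) := by
    rw [hL]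
    have : q / q ^ (2 * a) = q ^ 1 / q ^ (2 * a) := by rw [pow_one]
    rw [this]
    exact pow_div_pow_le hq1 (by omega)
  have hqW' : q / W ^ 2 ≤ 1 / q := by
    rw [hL]
    have : q / q ^ (2 * a) = q ^ 1 / q ^ (2 * a) := by rw [pow_one]
    rw [this]
    refine (pow_div_pow_le (k := 1) hq1 (by omega)).trans (by rw [pow_one])
  -- mass
  have hsmall : C3 * q / W ^ 2 ≤ 1 / 2 := by
    have h1 : C3 * q / W ^ 2 = C3 * (q / W ^ 2) := by ring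
    rw [h1]
    calc C3 * (q / W ^ 2) ≤ C3 * (1 / q) := mul_le_mul_of_nonneg_left hqW' (by linarith)
      _ ≤ 1 / 2 := by rw [mul_one_div, div_le_iff₀ hq0]; linarith
  obtain ⟨ζ, hζ, hmζ⟩ : ∃ ζ ∈ Zset R, 1 / (2 * (N + 1)) ≤ ∑ k ∈ Clu F lam W Q ζ, ‖c k‖ ^ 2 := by
    by_contra hno
    push Not at hno
    have h1 := part hB F (fun k => ‖c k‖ ^ 2)
    rw [hc] at h1
    have h2 : ∑ ζ ∈ Zset R, ∑ k ∈ Clu F lam W Q ζ, ‖c k‖ ^ 2
        ≤ ∑ ζ ∈ Zset R, 1 / (2 * (N + 1)) := Finset.sum_le_sum (fun ζ hζ => (hno ζ hζ).le)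
    rw [Finset.sum_const, nsmul_eq_mul] at h2
    have h3 : N * (1 / (2 * (N + 1))) < 1 / 2 := by
      rw [mul_one_div, div_lt_div_iff₀ (by positivity) (by norm_num)]
      linarith
    linarith
  -- interference bound
  have hI := hint q lam W (W ^ 2) Q hB hq1 hWlam F c hc f1 f3 ζ hζ (1 / q ^ (2 * e)) (by positivity)
  set J := ∫ z : T2, b z * ‖TP (Clu F lam W Q ζ) c z‖ ^ 2 with hJ
  have hQ4 : (Q + 1) ^ 4 / lam ^ 2 ≤ 81 / q ^ (24 * a) := by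
    have h1 : Q + 1 ≤ 3 * q ^ (4 * a) := by
      rw [hQdef, hL2]
      have h2 : W ≤ q ^ (4 * a) := hmono (by omega)
      have h3 := hone (4 * a)
      linarith
    have h2 : (Q + 1) ^ 4 ≤ 81 * q ^ (16 * a) := by
      calc (Q + 1) ^ 4 ≤ (3 * q ^ (4 * a)) ^ 4 := pow_le_pow_left₀ (by positivity) h1 4
        _ = 81 * (q ^ (4 * a)) ^ 4 := by ring
        _ = 81 * q ^ (16 * a) := by rw [← pow_mul]; ring_nf
    have h3 : lam ^ 2 = q ^ (16 * a) * q ^ (24 * a) := by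
      rw [hlamdef, ← pow_mul, ← pow_add]; ring_nf
    rw [h3, div_le_div_iff₀ (by positivity) (by positivity)]
    calc (Q + 1) ^ 4 * q ^ (24 * a) ≤ 81 * q ^ (16 * a) * q ^ (24 * a) :=
          mul_le_mul_of_nonneg_right h2 (by positivity)
      _ = 81 * (q ^ (16 * a) * q ^ (24 * a)) := by ring
  have hJX : J ≤ C8 / q ^ (2 * e) := by
    have hM1 : M - 1 + 1 = M := by omega
    set σ : ℝ := 1 / q ^ (2 * e) with hσ
    have hσ0 : 0 < σ := by positivity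
    have hσM : σ ^ M = σ ^ (M - 1) * σ := by rw [← pow_succ, hM1]
    have hσp : σ ^ (M - 1) * q ^ (2 * e * (M - 1)) = 1 := by
      rw [hσ, one_div, inv_pow, ← pow_mul]
      exact inv_mul_cancel₀ (by positivity)
    have h2e : 2 * e * (M - 1) + 2 * e = 2 * e * M := by
      calc 2 * e * (M - 1) + 2 * e = 2 * e * (M - 1 + 1) := by ring
        _ = 2 * e * M := by rw [hM1]
    have hea : 2 * e * M + 2 = 2 * a := by rw [ha]; ring
    -- q / W^2 ≤ σ^(M-1) σ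
    have g1 : q / W ^ 2 ≤ σ ^ (M - 1) * σ := by
      rw [← hσM, hσ, hL, one_div, inv_pow, ← pow_mul, ← one_div]
      have : q / q ^ (2 * a) = q ^ 1 / q ^ (2 * a) := by rw [pow_one]
      rw [this]
      exact pow_div_pow_le hq1 (by omega)
    have g2 : (Q + 1) ^ 4 / lam ^ 2 ≤ 81 * (σ ^ (M - 1) * σ) := by
      refine hQ4.trans ?_
      rw [← hσM, hσ, one_div, inv_pow, ← pow_mul, div_eq_mul_inv]
      apply mul_le_mul_of_nonneg_left _ (by norm_num)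
      rw [← one_div, ← one_div]
      apply one_div_le_one_div_of_le (by positivity)
      exact hmono (by omega)
    have g3 : (Q + 1) ^ 4 / lam ^ 2 ≤ 81 * σ := by
      refine g2.trans ?_
      apply mul_le_mul_of_nonneg_left _ (by norm_num)
      have : σ ^ (M - 1) ≤ 1 := by
        apply pow_le_one₀ hσ0.le
        rw [hσ, div_le_one (by positivity)]
        exact hone _
      nlinarith
    have hσ1 : 0 < σ ^ (M - 1) := by positivity
    have h5 : σ ^ (M - 1) * J ≤ σ ^ (M - 1) * (C8 * σ) := by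
      refine hI.trans ?_
      rw [hσM]
      have k1 : C5 * (q / W ^ 2 + (Q + 1) ^ 4 / lam ^ 2) ≤ C5 * (82 * (σ ^ (M - 1) * σ)) := by
        apply mul_le_mul_of_nonneg_left _ (by linarith)
        linarith
      have k2 : C5 * σ ^ (M - 1) * ((Q + 1) ^ 4 / lam ^ 2) ≤ C5 * σ ^ (M - 1) * (81 * σ) := by
        apply mul_le_mul_of_nonneg_left g3 (by positivity)
      calc 2 * (σ ^ (M - 1) * σ) + C5 * (q / W ^ 2 + (Q + 1) ^ 4 / lam ^ 2)
            + C5 * σ ^ (M - 1) * ((Q + 1) ^ 4 / lam ^ 2)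
          ≤ 2 * (σ ^ (M - 1) * σ) + C5 * (82 * (σ ^ (M - 1) * σ))
            + C5 * σ ^ (M - 1) * (81 * σ) := by linarith
        _ = σ ^ (M - 1) * (C8 * σ) := by rw [hC8]; ring
    have h6 := le_of_mul_le_mul_left h5 hσ1
    rw [hσ] at h6
    calc J ≤ C8 * (1 / q ^ (2 * e)) := h6
      _ = C8 / q ^ (2 * e) := by ring
  -- the line
  set K : ℝ := C7 * q with hKdef
  have hK1 : 1 ≤ K := by rw [hKdef]; nlinarith
  have hKn : κs / K ^ n ≤ κo ζ / K ^ (nn ζ) := by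
    have hK0 : 0 < K := by linarith
    have h1 : K ^ (nn ζ) ≤ K ^ n := pow_le_pow_right₀ hK1 (hn ζ hζ)
    calc κs / K ^ n ≤ κo ζ / K ^ n := div_le_div_of_nonneg_right (hκs' ζ hζ) (by positivity)
      _ ≤ κo ζ / K ^ (nn ζ) :=
        div_le_div_of_nonneg_left (hode ζ hζ).1.le (by positivity) h1
  have hKq : K ^ n = C7 ^ n * q ^ n := by rw [hKdef, mul_pow]
  have hbζ := hbox ζ hζ
  have hκbζ := hκm' ζ hζ
  refine step_line b hbm β hβ hb0 hbβ χ hχc hχ0 hχ1 R ζ hζ (s₁ ζ) (ℓ ζ) (κb ζ) hbζ.2.2.1 hbζ.2.2.2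
    ϖ (κo ζ) hϖ (nn ζ) (hode ζ hζ).2 C3 hC3 q lam W (W ^ 2) Q hB hq1 hlam0 s hs F c hc hcon f1 f2 f3
    (f4 ζ hζ) (C8 / q ^ (2 * e)) (C9 / q ^ (2 * e)) hJX (1 / (2 * (N + 1))) hmζ ?_ K hK1 ?_
    (1 / q ^ e) (by positivity) ?_ ?_ ?_
  · rw [hϖdef, div_pow, one_pow]
    apply one_div_lt_one_div_of_lt (by positivity)
    nlinarith
  · rw [hKdef]
    have h1 : 2 * Real.pi * (C3 * q) ≤ C7 * q := by
      rw [hC7]
      nlinarith
    have h2 : C7 * q ≤ (C7 * q) ^ 2 := by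
      have : 1 ≤ C7 * q := by nlinarith
      nlinarith
    linarith
  · refine le_trans ?_ hKn
    have h1 : q / lam ≤ q / q ^ e := by
      apply div_le_div_of_nonneg_left hq0.le (by positivity)
      exact hmono (by omega)
    have h2 : (C9 / q ^ (2 * e)) / (1 / q ^ e) ≤ C9 * (q / q ^ e) := by
      have : (C9 / q ^ (2 * e)) / (1 / q ^ e) = C9 * (1 / q ^ e) := by
        have : q ^ (2 * e) = q ^ e * q ^ e := by rw [← pow_add]; ring_nf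
        rw [this]; field_simp
      rw [this]
      apply mul_le_mul_of_nonneg_left _ hC9'
      exact div_le_div_of_nonneg_right hq1 (by positivity)
    have h3 : 1 / q ^ e * q = q / q ^ e := by ring
    rw [h3]
    have h4 : 0 ≤ q / q ^ e := by positivity
    have h5 : 2 * Real.pi * (q / lam + (q / q ^ e + (C9 / q ^ (2 * e)) / (1 / q ^ e)) / 2)
        ≤ 2 * Real.pi * (2 + C9) * (q / q ^ e) := by
      have h6 : q / lam + (q / q ^ e + (C9 / q ^ (2 * e)) / (1 / q ^ e)) / 2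
          ≤ (2 + C9) * (q / q ^ e) := by nlinarith
      have h7 : 0 ≤ 2 * Real.pi := by positivity
      calc _ ≤ 2 * Real.pi * ((2 + C9) * (q / q ^ e)) := mul_le_mul_of_nonneg_left h6 h7
        _ = _ := by ring
    refine h5.trans ?_
    rw [hKq, he, pow_add]
    rw [div_le_iff₀ hκs] at hqη
    rw [show (2 * Real.pi * (2 + C9) * (q / (q ^ n * q ^ 2)))
      = (2 * Real.pi * (2 + C9) / (q ^ n * q)) by field_simp]
    rw [div_le_div_iff₀ (by positivity) (by positivity)]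
    calc 2 * Real.pi * (2 + C9) * (C7 ^ n * q ^ n) = (2 * Real.pi * (2 + C9) * C7 ^ n) * q ^ n := by
          ring
      _ ≤ (q * κs) * q ^ n := mul_le_mul_of_nonneg_right hqη (by positivity)
      _ = κs * (q ^ n * q) := by ring
  · refine le_trans ?_ hKn
    have h1 : C3 * q / W ^ 2 = C3 * (q / W ^ 2) := by ring
    rw [h1]
    have h2 : (4 / κb ζ) * (C3 * (q / W ^ 2)) ≤ (4 / κm) * (C3 * (1 / q ^ (n + 1))) := by
      have h3 : 4 / κb ζ ≤ 4 / κm := div_le_div_of_nonneg_left (by norm_num) hκm hκbζ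
      have h4 : q / W ^ 2 ≤ 1 / q ^ (n + 1) := by
        refine hqW.trans ?_
        apply one_div_le_one_div_of_le (by positivity)
        exact hmono (by omega)
      have h5 : C3 * (q / W ^ 2) ≤ C3 * (1 / q ^ (n + 1)) :=
        mul_le_mul_of_nonneg_left h4 (by linarith)
      exact mul_le_mul h3 h5 (by positivity) (by positivity)
    refine h2.trans ?_
    rw [hKq]
    rw [div_le_iff₀ hκs] at hqθ
    rw [show (4 / κm) * (C3 * (1 / q ^ (n + 1))) = ((4 / κm) * C3) / (q ^ n * q) by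
      rw [pow_succ]; field_simp]
    rw [div_le_div_iff₀ (by positivity) (by positivity)]
    calc (4 / κm) * C3 * (C7 ^ n * q ^ n) = ((4 / κm) * C3 * C7 ^ n) * q ^ n := by ring
      _ ≤ (q * κs) * q ^ n := mul_le_mul_of_nonneg_right hqθ (by positivity)
      _ = κs * (q ^ n * q) := by ring
  · have h1 : q / W ^ 2 ≤ 1 / q ^ (2 * e) := by
      refine hqW.trans ?_
      apply one_div_le_one_div_of_le (by positivity)
      exact hmono (by omega)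
    have h2 : C3 * q / W ^ 2 = C3 * (q / W ^ 2) := by ring
    rw [h2, hC9]
    have h3 : 2 * β * (C3 * (q / W ^ 2)) ≤ 2 * β * (C3 * (1 / q ^ (2 * e))) := by
      apply mul_le_mul_of_nonneg_left _ (by linarith)
      exact mul_le_mul_of_nonneg_left h1 (by linarith)
    calc 2 * (C8 / q ^ (2 * e)) + 2 * β * (C3 * (q / W ^ 2))
        ≤ 2 * (C8 / q ^ (2 * e)) + 2 * β * (C3 * (1 / q ^ (2 * e))) := by linarith
      _ = (2 * C8 + 2 * β * C3) / q ^ (2 * e) := by ring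

end Pool.Agent.Lib.MP_4ccfbf_an
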