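import Pool.Agent.Lib.MP_4ccfbf_an.BAS
import Pool.Agent.Lib.MP_4ccfbf_an.EN
import Pool.Agent.Lib.MP_4ccfbf_an.LAT1
import Pool.Agent.Lib.MP_4ccfbf_an.LAT2
import Pool.Agent.Lib.MP_4ccfbf_an.LAT3
import Pool.Agent.Lib.MP_4ccfbf_an.GEN
import Pool.Agent.Lib.MP_4ccfbf_an.CUTF
import Pool.Agent.Lib.MP_4ccfbf_an.NORTH
import Pool.Agent.Lib.MP_4ccfbf_an.LINEA
import Pool.Agent.Lib.MP_4ccfbf_an.LINEB
import Pool.Agent.Lib.MP_4ccfbf_an.LINEP
import Pool.Agent.Lib.MP_4ccfbf_an.ODEF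
import Pool.Agent.Lib.MP_4ccfbf_an.EXPF
import Pool.Agent.Lib.MP_4ccfbf_an.INTERF
import Pool.Agent.Lib.MP_4ccfbf_an.DUAL

set_option autoImplicit false

open MeasureTheory Set Filter Topology Complex
open scoped ENNReal ComplexConjugate

namespace Pool.Agent.Lib.MP_4ccfbf_an

attribute [local instance] msCircle

lemma cont_int {E : Type} [NormedAddCommGroup E] (g : T2 → E) (hg : Continuous g) :
    Integrable g (volume : Measure T2) := by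
  have h1 : IntegrableOn g Set.univ (volume : Measure T2) :=
    ContinuousOn.integrableOn_compact isCompact_univ hg.continuousOn
  simpa [integrableOn_univ] using h1

lemma b_int (b : T2 → ℝ) (hbm : Measurable b) (β : ℝ) (hb0 : ∀ z, 0 ≤ b z)
    (hbβ : ∀ z, b z ≤ β) (g : T2 → ℝ) (hg : Continuous g) :
    Integrable (fun z => b z * g z) (volume : Measure T2) := by
  refine Integrable.bdd_mul (c := β) (cont_int g hg) hbm.aestronglyMeasurable ?_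
  refine Filter.Eventually.of_forall (fun z => ?_)
  rw [Real.norm_eq_abs, abs_of_nonneg (hb0 z)]
  exact hbβ z

lemma wsq (ρ : T2 → ℝ) (hρm : Measurable ρ) (B : ℝ) (hρ0 : ∀ z, 0 ≤ ρ z)
    (hρB : ∀ z, ρ z ≤ B) (f g h : T2 → ℂ) (hf : Continuous f) (hg : Continuous g)
    (hh : Continuous h) (hfgh : ∀ z, f z = g z + h z) :
    ∫ z : T2, ρ z * ‖f z‖ ^ 2 ≤ 2 * (∫ z : T2, ρ z * ‖g z‖ ^ 2) + 2 * B * ∫ z : T2, ‖h z‖ ^ 2 := by
  have i1 := b_int ρ hρm B hρ0 hρB (fun z => ‖f z‖ ^ 2) (by fun_prop)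
  have i2 := b_int ρ hρm B hρ0 hρB (fun z => ‖g z‖ ^ 2) (by fun_prop)
  have i3 := cont_int (fun z => ‖h z‖ ^ 2) (by fun_prop)
  rw [← integral_const_mul, ← integral_const_mul, ← integral_add (i2.const_mul 2) (i3.const_mul _)]
  refine integral_mono i1 ((i2.const_mul 2).add (i3.const_mul _)) (fun z => ?_)
  simp only
  have h1 : ‖f z‖ ^ 2 ≤ 2 * ‖g z‖ ^ 2 + 2 * ‖h z‖ ^ 2 := by
    rw [hfgh z]
    have := norm_add_le (g z) (h z)
    nlinarith [sq_nonneg (‖g z‖ - ‖h z‖), norm_nonneg (g z + h z), norm_nonneg (g z),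
      norm_nonneg (h z)]
  have h2 : 0 ≤ ‖h z‖ ^ 2 := by positivity
  nlinarith [mul_le_mul_of_nonneg_left h1 (hρ0 z), mul_le_mul_of_nonneg_right (hρB z) h2]

lemma Sset_sub (F : Finset K2) (lam W : ℝ) : Sset F lam W ⊆ F := Finset.filter_subset _ _

lemma Clu_sub (F : Finset K2) (lam W Q : ℝ) (ζ : K2) : Clu F lam W Q ζ ⊆ Sset F lam W :=
  Finset.filter_subset _ _

lemma Rest_sub (F : Finset K2) (lam W Q : ℝ) (R : ℕ) : Rest F lam W Q R ⊆ Sset F lam W :=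
  Finset.filter_subset _ _

lemma part {lam W L Q : ℝ} {R : ℕ} (hB : Big lam W L Q R) (F : Finset K2) {M : Type}
    [AddCommMonoid M] (h : K2 → M) :
    ∑ k ∈ F, h k = ∑ k ∈ F \ Sset F lam W, h k +
      (∑ k ∈ Rest F lam W Q R, h k + ∑ ζ ∈ Zset R, ∑ k ∈ Clu F lam W Q ζ, h k) := by
  classical
  rw [← Finset.sum_sdiff (Sset_sub F lam W)]
  congr 1
  have hdisj : (↑(Zset R) : Set K2).PairwiseDisjoint (fun ζ => Clu F lam W Q ζ) := by
    intro ζ hζ ζ' hζ' hne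
    rw [Function.onFun, Finset.disjoint_left]
    intro k hk hk'
    exact hne (lat_disj hB F hζ hζ' hk hk')
  rw [← Finset.sum_biUnion hdisj]
  have hU : (Zset R).biUnion (fun ζ => Clu F lam W Q ζ) ⊆ Sset F lam W := by
    intro k hk
    rw [Finset.mem_biUnion] at hk
    obtain ⟨ζ, _, hk⟩ := hk
    exact Clu_sub _ _ _ _ _ hk
  rw [← Finset.sum_sdiff hU]
  congr 1
  refine Finset.sum_congr ?_ (fun _ _ => rfl)
  ext k
  simp only [Finset.mem_sdiff, Finset.mem_biUnion, Rest, Finset.mem_filter, not_exists, not_and]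

theorem step_loc (b : T2 → ℝ) (hbm : Measurable b) (β : ℝ) (hβ : 1 ≤ β) (hb0 : ∀ z, 0 ≤ b z)
    (hbβ : ∀ z, b z ≤ β) (Ω : Set T2) (c₀ : ℝ) (hc₀ : 0 < c₀) (hbc : ∀ z ∈ Ω, c₀ ≤ b z)
    (χ : T2 → ℝ) (hχc : Continuous χ) (hχ0 : ∀ z, 0 ≤ χ z) (hχ1 : ∀ z, χ z ≤ 1)
    (hχΩ : ∀ z, χ z ≠ 0 → z ∈ Ω) (hχpos : 0 < ∫ z : T2, χ z) (C : ℝ) (hC : 0 < C)
    (hX : ∀ L' : ℝ, 1 ≤ L' → ∀ T : Finset K2, (∀ m ∈ T, L' ^ 2 ≤ nsq m) →
      ∑ m ∈ T, ‖∫ z : T2, (χ z : ℂ) * ex m z‖ ≤ C / L')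
    (R : ℕ) (hR : C / Real.sqrt R ≤ (∫ z : T2, χ z) / 2) :
    ∃ C3 : ℝ, 1 ≤ C3 ∧ ∀ q lam W L Q : ℝ, Big lam W L Q R → 1 ≤ q → q ≤ lam → W ≤ lam →
      L = W ^ 2 → ∀ s : ℝ, |s| = lam → ∀ (F : Finset K2) (c : K2 → ℂ),
      ∑ k ∈ F, ‖c k‖ ^ 2 = 1 →
      (∫ z : T2, ‖TP F (gco s c) z + I * s * b z * TP F c z‖ ^ 2) ≤ (q / lam) ^ 2 →
      (∫ z : T2, b z * ‖TP F c z‖ ^ 2) ≤ q / lam ^ 2 ∧
      (∫ z : T2, ‖TP F (gco s c) z‖ ^ 2) ≤ C3 * q ∧
      (∑ k ∈ F \ Sset F lam W, ‖c k‖ ^ 2) + (∑ k ∈ Rest F lam W Q R, ‖c k‖ ^ 2) ≤ C3 * q / W ^ 2 ∧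
      ∀ ζ ∈ Zset R, (∫ z : T2, χ z * ‖TP (Clu F lam W Q ζ) c z‖ ^ 2) ≤ C3 * q / W ^ 2 := by
  set X0 := ∫ z : T2, χ z with hX0
  set C1 : ℝ := 2 + 2 * β with hC1
  set C2 : ℝ := 2 / c₀ + 2 * C1 + C with hC2
  have hC1' : 4 ≤ C1 := by rw [hC1]; linarith
  have hC2' : 0 ≤ C2 := by positivity
  have hX0' : 0 ≤ 2 * C2 / X0 := by positivity
  refine ⟨C1 + 2 * C2 / X0 + C2, by linarith, ?_⟩
  intro q lam W L Q hB hq1 hqlam hWlam hLW s hs F c hc hf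
  have hlam0 : 0 < lam := by linarith
  have hW1 := hB.hW
  have hW0 : 0 < W := by linarith
  have hs0 : s ≠ 0 := by
    intro h
    rw [h, abs_zero] at hs
    linarith
  obtain ⟨e1, e2⟩ := energy_est b hbm β hb0 hbβ F c s hs0 hc (q / lam) (by positivity) hf
  rw [hs] at e1 e2
  have e1' : (∫ z : T2, b z * ‖TP F c z‖ ^ 2) ≤ q / lam ^ 2 := by
    have : q / lam / lam = q / lam ^ 2 := by field_simp
    rwa [this] at e1
  have hql : (q / lam) ^ 2 ≤ q := by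
    have h1 : q / lam ≤ 1 := by rw [div_le_one hlam0]; exact hqlam
    have h2 : 0 ≤ q / lam := by positivity
    nlinarith
  have e2' : (∫ z : T2, ‖TP F (gco s c) z‖ ^ 2) ≤ C1 * q := by
    have : 2 * lam * β * (q / lam) = 2 * β * q := by field_simp
    rw [this] at e2
    nlinarith
  have e3 : ∑ k ∈ F \ Sset F lam W, ‖c k‖ ^ 2 ≤ C1 * q / W ^ 2 := by
    rw [le_div_iff₀ (by positivity)]
    refine le_trans ?_ e2'
    rw [TP_parseval, Finset.sum_mul]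
    refine le_trans (Finset.sum_le_sum (f := fun k => ‖c k‖ ^ 2 * W ^ 2)
      (g := fun k => ‖gco s c k‖ ^ 2) ?_)
      (Finset.sum_le_sum_of_subset_of_nonneg Finset.sdiff_subset (fun _ _ _ => by positivity))
    intro k hk
    simp only [Finset.mem_sdiff, Sset, Finset.mem_filter, not_and, not_le] at hk
    have h1 := hk.2 hk.1
    have hs2 : s ^ 2 = lam ^ 2 := by rw [← hs, sq_abs]
    rw [gco, norm_mul, mul_pow, mul_comm, hs2]
    have h3 : W ^ 2 ≤ ‖((nsq k - lam ^ 2 : ℝ) : ℂ)‖ ^ 2 := by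
      rw [Complex.norm_real, Real.norm_eq_abs]
      exact pow_le_pow_left₀ hW0.le h1.le 2
    exact mul_le_mul_of_nonneg_right h3 (by positivity)
  have hχm : Measurable χ := hχc.measurable
  have e4 : (∫ z : T2, χ z * ‖TP F c z‖ ^ 2) ≤ (1 / c₀) * (q / lam ^ 2) := by
    refine le_trans ?_ (mul_le_mul_of_nonneg_left e1' (by positivity))
    rw [← integral_const_mul]
    have c1 : Continuous (fun z : T2 => ‖TP F c z‖ ^ 2) := by
      have := TP_continuous F c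
      fun_prop
    refine integral_mono (b_int χ hχm 1 hχ0 hχ1 _ c1)
      ((b_int b hbm β hb0 hbβ _ c1).const_mul _) (fun z => ?_)
    simp only
    have hp : 0 ≤ ‖TP F c z‖ ^ 2 := by positivity
    have : χ z ≤ 1 / c₀ * b z := by
      by_cases h : χ z = 0
      · rw [h]
        have := hb0 z
        positivity
      · have h1 := hbc z (hχΩ z h)
        have h2 : 1 ≤ 1 / c₀ * b z := by
          rw [one_div, inv_mul_eq_div, le_div_iff₀ hc₀]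
          linarith
        linarith [hχ1 z]
    calc χ z * ‖TP F c z‖ ^ 2 ≤ (1 / c₀ * b z) * ‖TP F c z‖ ^ 2 :=
          mul_le_mul_of_nonneg_right this hp
      _ = 1 / c₀ * (b z * ‖TP F c z‖ ^ 2) := by ring
  have e5 : (∫ z : T2, χ z * ‖TP (Sset F lam W) c z‖ ^ 2)
      ≤ 2 * ((1 / c₀) * (q / lam ^ 2)) + 2 * (C1 * q / W ^ 2) := by
    have h1 := wsq χ hχm 1 hχ0 hχ1 (TP (Sset F lam W) c) (TP F c)
      (fun z => - TP (F \ Sset F lam W) c z) (TP_continuous _ _) (TP_continuous _ _)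
      (TP_continuous _ _).neg (fun z => by
        rw [TP_split F (Sset F lam W) (Sset_sub _ _ _)]; ring)
    simp only [norm_neg] at h1
    rw [TP_parseval] at h1
    linarith
  have hqW : q / lam ^ 2 ≤ q / W ^ 2 := by
    apply div_le_div_of_nonneg_left (by linarith) (by positivity)
    exact pow_le_pow_left₀ hW0.le hWlam 2
  have e6 := near_orth χ hχc hχ0 C L R hC hB.hL hB.hR hX (Sset F lam W) (Zset R)
    (Clu F lam W Q) (fun ζ _ => Clu_sub F lam W Q ζ)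
    (fun ζ hζ ζ' hζ' k hk hk' => lat_disj hB F hζ hζ' hk hk') (Rest F lam W Q R)
    (fun k => by simp [Rest]) (fun k hk k' hk' hne hnear => lat_pair hB F hk hk' hne hnear) c
  have hS1 : ∑ k ∈ Sset F lam W, ‖c k‖ ^ 2 ≤ 1 := by
    rw [← hc]
    exact Finset.sum_le_sum_of_subset_of_nonneg (Sset_sub _ _ _) (fun _ _ _ => by positivity)
  have hCL : C / L * ∑ k ∈ Sset F lam W, ‖c k‖ ^ 2 ≤ C * q / W ^ 2 := by
    rw [hLW]
    have h0 : 0 ≤ C / W ^ 2 := by positivity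
    have h1 : C / W ^ 2 ≤ C * q / W ^ 2 := by
      apply div_le_div_of_nonneg_right _ (by positivity)
      nlinarith
    calc C / W ^ 2 * ∑ k ∈ Sset F lam W, ‖c k‖ ^ 2 ≤ C / W ^ 2 * 1 :=
          mul_le_mul_of_nonneg_left hS1 h0
      _ ≤ C * q / W ^ 2 := by rw [mul_one]; exact h1
  have hRHS : (∫ z : T2, χ z * ‖TP (Sset F lam W) c z‖ ^ 2)
      + C / L * ∑ k ∈ Sset F lam W, ‖c k‖ ^ 2 ≤ C2 * q / W ^ 2 := by
    have h1 : C2 * q / W ^ 2 = 2 * ((1 / c₀) * (q / W ^ 2)) + 2 * (C1 * q / W ^ 2)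
        + C * q / W ^ 2 := by
      rw [hC2]; field_simp
    rw [h1]
    have h2 : 2 * ((1 / c₀) * (q / lam ^ 2)) ≤ 2 * ((1 / c₀) * (q / W ^ 2)) := by
      have : 0 ≤ 1 / c₀ := by positivity
      have := mul_le_mul_of_nonneg_left hqW this
      linarith
    linarith
  have hint0 : ∀ ζ, 0 ≤ ∫ z : T2, χ z * ‖TP (Clu F lam W Q ζ) c z‖ ^ 2 := fun ζ =>
    integral_nonneg (fun z => mul_nonneg (hχ0 z) (by positivity))
  have hsum0 : 0 ≤ ∑ ζ ∈ Zset R, ∫ z : T2, χ z * ‖TP (Clu F lam W Q ζ) c z‖ ^ 2 :=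
    Finset.sum_nonneg (fun ζ _ => hint0 ζ)
  have hrest0 : 0 ≤ ∑ k ∈ Rest F lam W Q R, ‖c k‖ ^ 2 :=
    Finset.sum_nonneg (fun ζ _ => by positivity)
  have hcoef : X0 / 2 * ∑ k ∈ Rest F lam W Q R, ‖c k‖ ^ 2
      ≤ (X0 - C / Real.sqrt R) * ∑ k ∈ Rest F lam W Q R, ‖c k‖ ^ 2 :=
    mul_le_mul_of_nonneg_right (by linarith) hrest0
  have hrest1 : ∑ k ∈ Rest F lam W Q R, ‖c k‖ ^ 2 ≤ 2 * C2 / X0 * (q / W ^ 2) := by
    have h1 : X0 / 2 * ∑ k ∈ Rest F lam W Q R, ‖c k‖ ^ 2 ≤ C2 * q / W ^ 2 := by linarith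
    have h2 : ∑ k ∈ Rest F lam W Q R, ‖c k‖ ^ 2
        = 2 / X0 * (X0 / 2 * ∑ k ∈ Rest F lam W Q R, ‖c k‖ ^ 2) := by
      field_simp
    rw [h2]
    calc 2 / X0 * (X0 / 2 * ∑ k ∈ Rest F lam W Q R, ‖c k‖ ^ 2) ≤ 2 / X0 * (C2 * q / W ^ 2) :=
          mul_le_mul_of_nonneg_left h1 (by positivity)
      _ = 2 * C2 / X0 * (q / W ^ 2) := by ring
  have hqW0 : 0 ≤ q / W ^ 2 := by positivity
  refine ⟨e1', ?_, ?_, ?_⟩
  · nlinarith
  · have h1 : (C1 + 2 * C2 / X0 + C2) * q / W ^ 2 = C1 * q / W ^ 2 + 2 * C2 / X0 * (q / W ^ 2)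
        + C2 * (q / W ^ 2) := by ring
    rw [h1]
    have h2 : 0 ≤ C2 * (q / W ^ 2) := by positivity
    linarith
  · intro ζ hζ
    have h1 : (∫ z : T2, χ z * ‖TP (Clu F lam W Q ζ) c z‖ ^ 2)
        ≤ ∑ ζ ∈ Zset R, ∫ z : T2, χ z * ‖TP (Clu F lam W Q ζ) c z‖ ^ 2 :=
      Finset.single_le_sum (f := fun ζ => ∫ z : T2, χ z * ‖TP (Clu F lam W Q ζ) c z‖ ^ 2)
        (fun ζ _ => hint0 ζ) hζ
    have h2 : 0 ≤ X0 / 2 * ∑ k ∈ Rest F lam W Q R, ‖c k‖ ^ 2 := by positivity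
    have h3 : (C1 + 2 * C2 / X0 + C2) * q / W ^ 2 = C2 * q / W ^ 2 +
        (C1 + 2 * C2 / X0) * (q / W ^ 2) := by ring
    rw [h3]
    have h4 : 0 ≤ (C1 + 2 * C2 / X0) * (q / W ^ 2) := by positivity
    linarith

/-- The frequencies of the clusters. -/
noncomputable def om (ν : Fin 2 → ℝ) (ζ : K2) : ℝ :=
  2 * Real.pi * (((ζ 0 : ℝ) * ν 0 + (ζ 1 : ℝ) * ν 1) / Real.sqrt (nsq ζ))

lemma coef_le_one {F : Finset K2} {c : K2 → ℂ} (hc : ∑ k ∈ F, ‖c k‖ ^ 2 = 1) {k : K2}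
    (hk : k ∈ F) : ‖c k‖ ≤ 1 := by
  have h1 : ‖c k‖ ^ 2 ≤ 1 := by
    rw [← hc]
    exact Finset.single_le_sum (f := fun k => ‖c k‖ ^ 2) (fun _ _ => by positivity) hk
  have h2 := norm_nonneg (c k)
  nlinarith

theorem cluster_move {lam W L Q : ℝ} {R : ℕ} (hB : Big lam W L Q R) (F : Finset K2)
    (c : K2 → ℂ) (hc : ∑ k ∈ F, ‖c k‖ ^ 2 = 1) (ν : Fin 2 → ℝ) (θ₀ : ℝ) (hθ₀ : 0 < θ₀)
    (hlam : 0 < lam) (ζ : K2) (hζ : ζ ∈ Zset R) (t : ℝ) (ht : t ∈ Set.Icc (0 : ℝ) θ₀) (z : T2) :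
    ‖TP (Clu F lam W Q ζ) c (z + pt ν (t / lam))
        - cexp (I * (om ν ζ * t)) * TP (Clu F lam W Q ζ) c z‖
      ≤ 4 * Real.pi * θ₀ * (|ν 0| + |ν 1|) * ((Q + 1) ^ 2 / lam) := by
  have hQ1 : 1 ≤ Q := by
    rw [hB.hQ]
    have := hB.hW
    have := hB.hL
    nlinarith
  set E : ℝ := 2 * Real.pi * θ₀ / lam * ((Q + 1) * (|ν 0| + |ν 1|)) with hE
  have hE0 : 0 ≤ E := by
    have := Real.pi_pos
    positivity
  have key : ∀ k ∈ Clu F lam W Q ζ,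
      ‖c k * ex k (z + pt ν (t / lam)) - cexp (I * (om ν ζ * t)) * (c k * ex k z)‖ ≤ E := by
    intro k hk
    have hkF : k ∈ F := Sset_sub _ _ _ (Clu_sub _ _ _ _ _ hk)
    have h1 : c k * ex k (z + pt ν (t / lam)) - cexp (I * (om ν ζ * t)) * (c k * ex k z)
        = c k * ex k z * (ex k (pt ν (t / lam)) - cexp (I * (om ν ζ * t))) := by
      rw [ex_add]; ring
    rw [h1, norm_mul, norm_mul, norm_ex, mul_one]
    have h2 : ‖ex k (pt ν (t / lam)) - cexp (I * (om ν ζ * t))‖ ≤ E := by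
      rw [ex_pt]
      set x : ℝ := 2 * Real.pi * ((k 0 : ℝ) * ν 0 + (k 1 : ℝ) * ν 1) * (t / lam) with hx
      set y : ℝ := om ν ζ * t with hy
      have hx' : 2 * (Real.pi : ℂ) * I * (((k 0 : ℝ) * ν 0 + (k 1 : ℝ) * ν 1 : ℝ) * ((t / lam : ℝ) : ℂ))
          = I * (x : ℂ) := by
        rw [hx]; push_cast; ring
      have hy' : I * ((om ν ζ : ℂ) * (t : ℂ)) = I * (y : ℂ) := by
        rw [hy]; push_cast; ring
      rw [hx', hy']
      have h3 : ‖cexp (I * (x : ℂ)) - cexp (I * (y : ℂ))‖ ≤ |x - y| := by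
        have h4 : cexp (I * (x : ℂ)) - cexp (I * (y : ℂ))
            = cexp (I * (y : ℂ)) * (cexp (I * ((x - y : ℝ) : ℂ)) - 1) := by
          rw [mul_sub, ← Complex.exp_add]
          push_cast
          ring_nf
        rw [h4, norm_mul]
        have h5 : ‖cexp (I * (y : ℂ))‖ = 1 := by
          rw [mul_comm]; exact Complex.norm_exp_ofReal_mul_I y
        rw [h5, one_mul]
        have := Real.norm_exp_I_mul_ofReal_sub_one_le (x := x - y)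
        simpa [Real.norm_eq_abs] using this
      refine h3.trans ?_
      have h6 := lat_close hB F hζ hk ν
      have h7 : x - y = 2 * Real.pi * (t / lam) *
          (((k 0 : ℝ) * ν 0 + (k 1 : ℝ) * ν 1)
            - lam * (((ζ 0 : ℝ) * ν 0 + (ζ 1 : ℝ) * ν 1) / Real.sqrt (nsq ζ))) := by
        rw [hx, hy, om]; field_simp
      rw [h7, abs_mul, hE]
      have h8 : |2 * Real.pi * (t / lam)| ≤ 2 * Real.pi * θ₀ / lam := by
        have := Real.pi_pos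
        rw [abs_of_nonneg (by have := ht.1; positivity)]
        rw [mul_div_assoc]
        have : t / lam ≤ θ₀ / lam := div_le_div_of_nonneg_right ht.2 hlam.le
        have h9 : 0 ≤ 2 * Real.pi := by positivity
        exact mul_le_mul_of_nonneg_left this h9
      have h10 : 0 ≤ 2 * Real.pi * θ₀ / lam := by
        have := Real.pi_pos
        positivity
      exact mul_le_mul h8 h6 (abs_nonneg _) h10
    calc ‖c k‖ * ‖ex k (pt ν (t / lam)) - cexp (I * (om ν ζ * t))‖ ≤ 1 * E :=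
          mul_le_mul (coef_le_one hc hkF) h2 (norm_nonneg _) zero_le_one
      _ = E := one_mul E
  have h11 : TP (Clu F lam W Q ζ) c (z + pt ν (t / lam))
        - cexp (I * (om ν ζ * t)) * TP (Clu F lam W Q ζ) c z
      = ∑ k ∈ Clu F lam W Q ζ,
        (c k * ex k (z + pt ν (t / lam)) - cexp (I * (om ν ζ * t)) * (c k * ex k z)) := by
    rw [Finset.sum_sub_distrib, ← Finset.mul_sum]
    rfl
  rw [h11]
  refine (norm_sum_le _ _).trans ?_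
  refine (Finset.sum_le_sum key).trans ?_
  rw [Finset.sum_const, nsmul_eq_mul]
  have h12 := lat_card hB F hζ
  have h13 : ((Clu F lam W Q ζ).card : ℝ) * E ≤ (2 * (Q + 1)) * E := by
    apply mul_le_mul_of_nonneg_right _ hE0
    linarith
  refine h13.trans (le_of_eq ?_)
  rw [hE]; field_simp; ring

theorem step_interf (b : T2 → ℝ) (hbm : Measurable b) (β : ℝ) (hβ : 1 ≤ β) (hb0 : ∀ z, 0 ≤ b z)
    (hbβ : ∀ z, b z ≤ β) (R : ℕ) (ν : Fin 2 → ℝ)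
    (θ₀ c₂ : ℝ) (hθ₀ : 0 < θ₀) (hc₂ : 0 < c₂) (M : ℕ) (hM : 1 ≤ M)
    (hexp : ∀ f : ℝ → ℝ, Measurable f → (∀ t, 0 ≤ f t) → (∀ t, f t ≤ β) → ∀ α : K2 → ℂ,
        c₂ * ((∫ t in (0 : ℝ)..θ₀, f t) / θ₀) ^ M * ∑ i ∈ Zset R, ‖α i‖ ^ 2
          ≤ (∫ t in (0 : ℝ)..θ₀, f t * ‖∑ i ∈ Zset R, α i * cexp (I * (om ν i * t))‖ ^ 2) / θ₀)
    (C3 : ℝ) (hC3 : 1 ≤ C3) :
    ∃ C5 : ℝ, 1 ≤ C5 ∧ ∀ q lam W L Q : ℝ, Big lam W L Q R → 1 ≤ q → W ≤ lam → 
      ∀ (F : Finset K2) (c : K2 → ℂ), ∑ k ∈ F, ‖c k‖ ^ 2 = 1 →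
      (∫ z : T2, b z * ‖TP F c z‖ ^ 2) ≤ q / lam ^ 2 →
      (∑ k ∈ F \ Sset F lam W, ‖c k‖ ^ 2) + (∑ k ∈ Rest F lam W Q R, ‖c k‖ ^ 2) ≤ C3 * q / W ^ 2 →
      ∀ ζ ∈ Zset R, ∀ σ : ℝ, 0 < σ → 
        σ ^ (M - 1) * (∫ z : T2, b z * ‖TP (Clu F lam W Q ζ) c z‖ ^ 2)
          ≤ 2 * σ ^ M + C5 * (q / W ^ 2 + (Q + 1) ^ 4 / lam ^ 2)
            + C5 * σ ^ (M - 1) * ((Q + 1) ^ 4 / lam ^ 2) := by
  classical
  set A : ℝ := 4 * Real.pi * θ₀ * (|ν 0| + |ν 1|) with hA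
  have hA0 : 0 ≤ A := by have := Real.pi_pos; positivity
  set N : ℝ := ((Zset R).card : ℝ) with hN
  have hN0 : 0 ≤ N := by positivity
  refine ⟨1 + (4 / c₂) * (2 + 4 * β * C3) + (4 / c₂) * (β * (N * A) ^ 2) + 2 * β * A ^ 2, ?_, ?_⟩
  · have h1 : 0 ≤ (4 / c₂) * (2 + 4 * β * C3) := by positivity
    have h2 : 0 ≤ (4 / c₂) * (β * (N * A) ^ 2) := by positivity
    have h3 : 0 ≤ 2 * β * A ^ 2 := by positivity
    linarith
  intro q lam W L Q hB hq1 hWlam F c hc hbu hrest ζ hζ σ hσ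
  have hW1 := hB.hW
  have hlam : 0 < lam := by linarith
  have hQ1 : 1 ≤ Q := by
    rw [hB.hQ]
    have := hB.hL
    nlinarith
  set err : ℝ := A * ((Q + 1) ^ 2 / lam) with herr
  have herr0 : 0 ≤ err := by positivity
  have hmassle : ∑ ζ ∈ Zset R, ∑ k ∈ Clu F lam W Q ζ, ‖c k‖ ^ 2 ≤ 1 := by
    have h1 := part hB F (fun k => ‖c k‖ ^ 2)
    rw [hc] at h1
    have h2 : 0 ≤ ∑ k ∈ F \ Sset F lam W, ‖c k‖ ^ 2 := Finset.sum_nonneg (fun _ _ => by positivity)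
    have h3 : 0 ≤ ∑ k ∈ Rest F lam W Q R, ‖c k‖ ^ 2 := Finset.sum_nonneg (fun _ _ => by positivity)
    linarith
  have hI := interf (Zset R) (om ν) β (by linarith) θ₀ c₂ hθ₀ hc₂ M hM hexp b hbm hb0 hbβ ν lam
    hlam (fun ζ => TP (Clu F lam W Q ζ) c) (fun ζ _ => TP_continuous _ _) err herr0
    (fun ζ hζ t ht z => cluster_move hB F c hc ν θ₀ hθ₀ hlam ζ hζ t ht z)
    (by simp only [TP_parseval]; exact hmassle) σ hσ ζ hζ
  refine hI.trans ?_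
  -- the sum of the clusters
  have hv : (∫ z : T2, b z * ‖∑ j ∈ Zset R, TP (Clu F lam W Q j) c z‖ ^ 2)
      ≤ 2 * (q / lam ^ 2) + 2 * β * (2 * (C3 * q / W ^ 2)) := by
    have h1 : ∀ z, (∑ j ∈ Zset R, TP (Clu F lam W Q j) c z) = TP F c z
        + (- (TP (F \ Sset F lam W) c z + TP (Rest F lam W Q R) c z)) := by
      intro z
      have h2 := part hB F (fun k => c k * ex k z)
      change TP F c z = TP (F \ Sset F lam W) c z + (TP (Rest F lam W Q R) c z +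
        ∑ j ∈ Zset R, TP (Clu F lam W Q j) c z) at h2
      rw [h2]; ring
    have h3 := wsq b hbm β hb0 hbβ (fun z => ∑ j ∈ Zset R, TP (Clu F lam W Q j) c z) (TP F c)
      (fun z => - (TP (F \ Sset F lam W) c z + TP (Rest F lam W Q R) c z))
      (continuous_finsetSum _ (fun _ _ => TP_continuous _ _)) (TP_continuous _ _)
      ((TP_continuous _ _).add (TP_continuous _ _)).neg h1
    have h4 : (∫ z : T2, ‖-(TP (F \ Sset F lam W) c z + TP (Rest F lam W Q R) c z)‖ ^ 2)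
        ≤ 2 * (C3 * q / W ^ 2) := by
      have h5 := wsq (fun _ => (1 : ℝ)) measurable_const 1 (fun _ => zero_le_one) (fun _ => le_rfl)
        (fun z => -(TP (F \ Sset F lam W) c z + TP (Rest F lam W Q R) c z))
        (fun z => -(TP (F \ Sset F lam W) c z)) (fun z => - TP (Rest F lam W Q R) c z)
        ((TP_continuous _ _).add (TP_continuous _ _)).neg (TP_continuous _ _).neg
        (TP_continuous _ _).neg (fun z => by ring)
      simp only [one_mul, norm_neg, mul_one] at h5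
      simp only [norm_neg]
      rw [TP_parseval, TP_parseval] at h5
      linarith
    have h6 : 0 ≤ 2 * β := by linarith
    have := mul_le_mul_of_nonneg_left h4 h6
    linarith
  have hqW : q / lam ^ 2 ≤ q / W ^ 2 := by
    apply div_le_div_of_nonneg_left (by linarith) (by positivity)
    exact pow_le_pow_left₀ (by linarith) hWlam 2
  have hqW0 : 0 ≤ q / W ^ 2 := by positivity
  have hE : err ^ 2 = A ^ 2 * ((Q + 1) ^ 4 / lam ^ 2) := by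
    rw [herr]; ring
  have hX0 : 0 ≤ (Q + 1) ^ 4 / lam ^ 2 := by positivity
  have hv' : (∫ z : T2, b z * ‖∑ j ∈ Zset R, TP (Clu F lam W Q j) c z‖ ^ 2)
      ≤ (2 + 4 * β * C3) * (q / W ^ 2) := by
    have : C3 * q / W ^ 2 = C3 * (q / W ^ 2) := by ring
    rw [this] at hv
    nlinarith
  have t1 : (4 / c₂) * ((∫ z : T2, b z * ‖∑ j ∈ Zset R, TP (Clu F lam W Q j) c z‖ ^ 2)
      + β * (N * err) ^ 2) ≤ (4 / c₂) * ((2 + 4 * β * C3) * (q / W ^ 2)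
        + β * (N * A) ^ 2 * ((Q + 1) ^ 4 / lam ^ 2)) := by
    apply mul_le_mul_of_nonneg_left _ (by positivity)
    have : β * (N * err) ^ 2 = β * (N * A) ^ 2 * ((Q + 1) ^ 4 / lam ^ 2) := by
      rw [mul_pow, hE]; ring
    rw [this]
    linarith
  have hσM : 0 < σ ^ (M - 1) := by positivity
  have p1 : 0 ≤ (4 / c₂) * (2 + 4 * β * C3) := by positivity
  have p2 : 0 ≤ (4 / c₂) * (β * (N * A) ^ 2) := by positivity
  have p3 : 0 ≤ 2 * β * A ^ 2 := by positivity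
  set C5 : ℝ := 1 + (4 / c₂) * (2 + 4 * β * C3) + (4 / c₂) * (β * (N * A) ^ 2) + 2 * β * A ^ 2
    with hC5
  have t2 : (4 / c₂) * ((2 + 4 * β * C3) * (q / W ^ 2)
        + β * (N * A) ^ 2 * ((Q + 1) ^ 4 / lam ^ 2)) ≤ C5 * (q / W ^ 2 + (Q + 1) ^ 4 / lam ^ 2) := by
    have a1 : (4 / c₂) * (2 + 4 * β * C3) * (q / W ^ 2) ≤ C5 * (q / W ^ 2) := by
      apply mul_le_mul_of_nonneg_right _ hqW0
      rw [hC5]; linarith
    have a2 : (4 / c₂) * (β * (N * A) ^ 2) * ((Q + 1) ^ 4 / lam ^ 2)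
        ≤ C5 * ((Q + 1) ^ 4 / lam ^ 2) := by
      apply mul_le_mul_of_nonneg_right _ hX0
      rw [hC5]; linarith
    have a3 : (4 / c₂) * ((2 + 4 * β * C3) * (q / W ^ 2)
        + β * (N * A) ^ 2 * ((Q + 1) ^ 4 / lam ^ 2))
        = (4 / c₂) * (2 + 4 * β * C3) * (q / W ^ 2)
          + (4 / c₂) * (β * (N * A) ^ 2) * ((Q + 1) ^ 4 / lam ^ 2) := by ring
    rw [a3]
    linarith
  have t3 : 2 * σ ^ (M - 1) * β * err ^ 2 ≤ C5 * σ ^ (M - 1) * ((Q + 1) ^ 4 / lam ^ 2) := by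
    rw [hE]
    have a1 : 2 * σ ^ (M - 1) * β * (A ^ 2 * ((Q + 1) ^ 4 / lam ^ 2))
        = (2 * β * A ^ 2) * (σ ^ (M - 1) * ((Q + 1) ^ 4 / lam ^ 2)) := by ring
    rw [a1, mul_assoc C5]
    apply mul_le_mul_of_nonneg_right _ (by positivity)
    rw [hC5]; linarith
  linarith

lemma nsq_nonneg (k : K2) : 0 ≤ nsq k := by unfold nsq; positivity

lemma Zset_prim {R : ℕ} {ζ : K2} (hζ : ζ ∈ Zset R) : Int.gcd (ζ 0) (ζ 1) = 1 := by
  simp only [Zset, Finset.mem_filter] at hζ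
  exact hζ.2.1

lemma one_le_nsq_of_prim {ζ : K2} (hζ : Int.gcd (ζ 0) (ζ 1) = 1) : 1 ≤ nsq ζ := by
  have h : (ζ 0) ^ 2 + (ζ 1) ^ 2 ≠ 0 := by
    intro h
    have h0 : ζ 0 = 0 := by nlinarith [sq_nonneg (ζ 0), sq_nonneg (ζ 1)]
    have h1 : ζ 1 = 0 := by nlinarith [sq_nonneg (ζ 0), sq_nonneg (ζ 1)]
    rw [h0, h1] at hζ
    simp at hζ
  have h2 : 1 ≤ (ζ 0) ^ 2 + (ζ 1) ^ 2 := by
    have : 0 ≤ (ζ 0) ^ 2 + (ζ 1) ^ 2 := by positivity
    omega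
  unfold nsq
  exact_mod_cast h2

lemma Lset_diff_mass {lam W L Q : ℝ} {R : ℕ} (hB : Big lam W L Q R) (F : Finset K2)
    (c : K2 → ℂ) {ζ k₀ : K2} (hζ : ζ ∈ Zset R) (hk₀ : k₀ ∈ Clu F lam W Q ζ) :
    ∑ k ∈ Lset F ζ (dot ζ k₀) \ Clu F lam W Q ζ, ‖c k‖ ^ 2
      ≤ (∑ k ∈ F \ Sset F lam W, ‖c k‖ ^ 2) + ∑ k ∈ Rest F lam W Q R, ‖c k‖ ^ 2 := by
  classical
  have hsub : Lset F ζ (dot ζ k₀) \ Clu F lam W Q ζ
      ⊆ (F \ Sset F lam W) ∪ Rest F lam W Q R := by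
    intro k hk
    rw [Finset.mem_sdiff] at hk
    obtain ⟨hk1, hk2⟩ := hk
    simp only [Lset, Finset.mem_filter] at hk1
    rw [Finset.mem_union]
    by_cases hS : k ∈ Sset F lam W
    · right
      simp only [Rest, Finset.mem_filter]
      refine ⟨hS, fun ζ' hζ' hk' => ?_⟩
      have := lat_avoid hB F hζ hζ' hk₀ hk' hk1.2
      rw [this] at hk'
      exact hk2 hk'
    · left
      exact Finset.mem_sdiff.2 ⟨hk1.1, hS⟩
  refine (Finset.sum_le_sum_of_subset_of_nonneg hsub (fun _ _ _ => by positivity)).trans ?_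
  have h1 := Finset.sum_union_inter (s₁ := F \ Sset F lam W) (s₂ := Rest F lam W Q R)
    (f := fun k => ‖c k‖ ^ 2)
  have h2 : 0 ≤ ∑ k ∈ (F \ Sset F lam W) ∩ Rest F lam W Q R, ‖c k‖ ^ 2 :=
    Finset.sum_nonneg (fun _ _ => by positivity)
  linarith

lemma Clu_sub_Lset {lam W L Q : ℝ} {R : ℕ} (hB : Big lam W L Q R) (F : Finset K2)
    {ζ k₀ : K2} (hζ : ζ ∈ Zset R) (hk₀ : k₀ ∈ Clu F lam W Q ζ) :
    Clu F lam W Q ζ ⊆ Lset F ζ (dot ζ k₀) := by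
  intro k hk
  simp only [Lset, Finset.mem_filter]
  exact ⟨Sset_sub _ _ _ (Clu_sub _ _ _ _ _ hk), lat_line hB F hζ hk hk₀⟩

theorem step_line (b : T2 → ℝ) (hbm : Measurable b) (β : ℝ) (hβ : 1 ≤ β) (hb0 : ∀ z, 0 ≤ b z)
    (hbβ : ∀ z, b z ≤ β)
    (χ : T2 → ℝ) (hχc : Continuous χ) (hχ0 : ∀ z, 0 ≤ χ z) (hχ1 : ∀ z, χ z ≤ 1)
    (R : ℕ) (ζ : K2) (hζ : ζ ∈ Zset R) (s₁ ℓ κb : ℝ) (hκb : 0 < κb)
    (hbox : ∀ (m : ℤ) (F : Finset K2), (∀ k ∈ F, dot ζ k = m) → ∀ c : K2 → ℂ,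
        κb * (∫ s in s₁..(s₁ + ℓ), ‖LF ζ F c s‖ ^ 2) ≤ ∫ z : T2, χ z * ‖TP F c z‖ ^ 2)
    (ϖ κo : ℝ) (hϖ : 0 < ϖ) (n : ℕ)
    (hode : ∀ (μ K s₁ : ℝ) (w : ℂ) (a a' h : ℝ → ℂ), 1 ≤ K → ‖w‖ = 1 →
      (∀ s, HasDerivAt a (a' s) s) → (∀ s, HasDerivAt a' (-(μ : ℂ) * a s - h s) s) →
      Continuous h → (∀ s, a (s + 2 * Real.pi) = w * a s) →
      (∫ s in (0 : ℝ)..(2 * Real.pi), ‖a s‖ ^ 2) ≤ 2 * Real.pi →
      (∫ s in (0 : ℝ)..(2 * Real.pi), ‖h s‖ ^ 2) ≤ K ^ 2 →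
      (∫ s in (0 : ℝ)..(2 * Real.pi), ‖h s‖ * ‖a s‖) ≤ κo / K ^ n →
      (∫ s in s₁..(s₁ + ℓ), ‖a s‖ ^ 2) ≤ κo / K ^ n → ∀ s, ‖a s‖ ≤ ϖ)
    (C3 : ℝ) (hC3 : 1 ≤ C3) (q lam W L Q : ℝ) (hB : Big lam W L Q R) (hq1 : 1 ≤ q)
    (hlam : 0 < lam) (s : ℝ) (hs : |s| = lam) (F : Finset K2) (c : K2 → ℂ)
    (hc : ∑ k ∈ F, ‖c k‖ ^ 2 = 1)
    (hf : (∫ z : T2, ‖TP F (gco s c) z + I * s * b z * TP F c z‖ ^ 2) ≤ (q / lam) ^ 2)
    (h1 : (∫ z : T2, b z * ‖TP F c z‖ ^ 2) ≤ q / lam ^ 2)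
    (h2 : (∫ z : T2, ‖TP F (gco s c) z‖ ^ 2) ≤ C3 * q)
    (h3 : (∑ k ∈ F \ Sset F lam W, ‖c k‖ ^ 2) + (∑ k ∈ Rest F lam W Q R, ‖c k‖ ^ 2)
      ≤ C3 * q / W ^ 2)
    (h4 : (∫ z : T2, χ z * ‖TP (Clu F lam W Q ζ) c z‖ ^ 2) ≤ C3 * q / W ^ 2)
    (X X' : ℝ) (h5 : (∫ z : T2, b z * ‖TP (Clu F lam W Q ζ) c z‖ ^ 2) ≤ X)
    (m₀ : ℝ) (hm₀ : m₀ ≤ ∑ k ∈ Clu F lam W Q ζ, ‖c k‖ ^ 2) (hϖm : ϖ ^ 2 < m₀)
    (K : ℝ) (hK1 : 1 ≤ K) (hK : 2 * Real.pi * (C3 * q) ≤ K ^ 2) (τ : ℝ) (hτ : 0 < τ)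
    (hη : 2 * Real.pi * (q / lam + (τ * q + X' / τ) / 2) ≤ κo / K ^ n)
    (hθ : (4 / κb) * (C3 * q / W ^ 2) ≤ κo / K ^ n)
    (hX' : 2 * X + 2 * β * (C3 * q / W ^ 2) ≤ X') : False := by
  classical
  have hprim := Zset_prim hζ
  have hns := one_le_nsq_of_prim hprim
  have hpi := Real.pi_pos
  -- a point of the cluster
  have hne : (Clu F lam W Q ζ).Nonempty := by
    by_contra h
    rw [Finset.not_nonempty_iff_eq_empty] at h
    rw [h, Finset.sum_empty] at hm₀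
    have : 0 < ϖ ^ 2 := by positivity
    linarith
  obtain ⟨k₀, hk₀⟩ := hne
  set m : ℤ := dot ζ k₀ with hm
  set Fm : Finset K2 := Lset F ζ m with hFm
  have hFmF : Fm ⊆ F := Finset.filter_subset _ _
  have hFmm : ∀ k ∈ Fm, dot ζ k = m := by
    intro k hk
    simp only [hFm, Lset, Finset.mem_filter] at hk
    exact hk.2
  have hsubC : Clu F lam W Q ζ ⊆ Fm := Clu_sub_Lset hB F hζ hk₀
  have hdiff : ∑ k ∈ Fm \ Clu F lam W Q ζ, ‖c k‖ ^ 2 ≤ C3 * q / W ^ 2 :=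
    (Lset_diff_mass hB F c hζ hk₀).trans h3
  have hmass1 : ∑ k ∈ Fm, ‖c k‖ ^ 2 ≤ 1 := by
    rw [← hc]
    exact Finset.sum_le_sum_of_subset_of_nonneg hFmF (fun _ _ _ => by positivity)
  have hmass0 : m₀ ≤ ∑ k ∈ Fm, ‖c k‖ ^ 2 :=
    hm₀.trans (Finset.sum_le_sum_of_subset_of_nonneg hsubC (fun _ _ _ => by positivity))
  -- weighted mass of the line function
  have hbw : (∫ z : T2, b z * ‖TP Fm c z‖ ^ 2) ≤ X' := by
    have e := wsq b hbm β hb0 hbβ (TP Fm c) (TP (Clu F lam W Q ζ) c)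
      (TP (Fm \ Clu F lam W Q ζ) c) (TP_continuous _ _) (TP_continuous _ _)
      (TP_continuous _ _) (fun z => TP_split _ _ hsubC c z)
    rw [TP_parseval] at e
    have e2 : 0 ≤ 2 * β := by linarith
    have := mul_le_mul_of_nonneg_left hdiff e2
    linarith
  have hχw : (∫ z : T2, χ z * ‖TP Fm c z‖ ^ 2) ≤ 4 * (C3 * q / W ^ 2) := by
    have e := wsq χ hχc.measurable 1 hχ0 hχ1 (TP Fm c) (TP (Clu F lam W Q ζ) c)
      (TP (Fm \ Clu F lam W Q ζ) c) (TP_continuous _ _) (TP_continuous _ _)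
      (TP_continuous _ _) (fun z => TP_split _ _ hsubC c z)
    rw [TP_parseval] at e
    linarith
  -- the duality estimate
  have cu := TP_continuous F c
  have cw := TP_continuous Fm c
  have cg := TP_continuous F (gco s c)
  have hdual := dual_est b hbm β hb0 hbβ F c s ζ m
  rw [← hFm] at hdual
  have hfm : Measurable (fun z : T2 => TP F (gco s c) z + I * s * b z * TP F c z) := by
    have a1 := cg.measurable
    have a2 := cu.measurable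
    fun_prop
  have hd1 : (∫ z : T2, ‖TP F (gco s c) z + I * s * b z * TP F c z‖ * ‖TP Fm c z‖) ≤ q / lam := by
    obtain ⟨B1, hB1⟩ : ∃ B1 : ℝ, ∀ z : T2,
        ‖TP F (gco s c) z + I * s * b z * TP F c z‖ ≤ B1 := by
      refine ⟨(∑ k ∈ F, ‖gco s c k‖) + |s| * β * ∑ k ∈ F, ‖c k‖, fun z => ?_⟩
      refine (norm_add_le _ _).trans (add_le_add (TP_norm_le _ _ _) ?_)
      rw [norm_mul, norm_mul, norm_mul, Complex.norm_I, one_mul, Complex.norm_real,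
        Complex.norm_real, Real.norm_eq_abs, Real.norm_eq_abs, abs_of_nonneg (hb0 z)]
      have t1 := TP_norm_le F c z
      have t2 : |s| * b z ≤ |s| * β := mul_le_mul_of_nonneg_left (hbβ z) (abs_nonneg s)
      exact mul_le_mul t2 t1 (norm_nonneg _) (by positivity)
    have i1 : Integrable (fun z : T2 => ‖TP F (gco s c) z + I * s * b z * TP F c z‖ ^ 2) := by
      refine Integrable.mono' (integrable_const (B1 ^ 2)) (by fun_prop) ?_
      refine Filter.Eventually.of_forall (fun z => ?_)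
      rw [Real.norm_eq_abs, abs_of_nonneg (by positivity)]
      exact pow_le_pow_left₀ (norm_nonneg _) (hB1 z) 2
    have i2 := cont_int (fun z => ‖TP Fm c z‖ ^ 2) (by fun_prop)
    have hpt : ∀ z : T2, ‖TP F (gco s c) z + I * s * b z * TP F c z‖ * ‖TP Fm c z‖
        ≤ (lam / (2 * q)) * ‖TP F (gco s c) z + I * s * b z * TP F c z‖ ^ 2
          + (q / (2 * lam)) * ‖TP Fm c z‖ ^ 2 := by
      intro z
      set x := ‖TP F (gco s c) z + I * s * b z * TP F c z‖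
      set y := ‖TP Fm c z‖
      have hq0 : 0 < q := by linarith
      have : 0 ≤ (lam * x - q * y) ^ 2 / (2 * q * lam) := by positivity
      have e : (lam * x - q * y) ^ 2 / (2 * q * lam)
          = (lam / (2 * q)) * x ^ 2 + (q / (2 * lam)) * y ^ 2 - x * y := by
        field_simp; ring
      rw [e] at this
      linarith
    have hq0 : 0 < q := by linarith
    calc (∫ z : T2, ‖TP F (gco s c) z + I * s * b z * TP F c z‖ * ‖TP Fm c z‖)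
        ≤ ∫ z : T2, ((lam / (2 * q)) * ‖TP F (gco s c) z + I * s * b z * TP F c z‖ ^ 2
          + (q / (2 * lam)) * ‖TP Fm c z‖ ^ 2) := by
          refine integral_mono_of_nonneg (Filter.Eventually.of_forall (fun z => by positivity))
            ((i1.const_mul _).add (i2.const_mul _)) (Filter.Eventually.of_forall hpt)
      _ = (lam / (2 * q)) * (∫ z : T2, ‖TP F (gco s c) z + I * s * b z * TP F c z‖ ^ 2)
          + (q / (2 * lam)) * ∫ z : T2, ‖TP Fm c z‖ ^ 2 := by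
          rw [integral_add (i1.const_mul _) (i2.const_mul _), integral_const_mul,
            integral_const_mul]
      _ ≤ (lam / (2 * q)) * (q / lam) ^ 2 + (q / (2 * lam)) * 1 := by
          rw [TP_parseval]
          have a1 : 0 ≤ lam / (2 * q) := by positivity
          have a2 : 0 ≤ q / (2 * lam) := by positivity
          have := mul_le_mul_of_nonneg_left hf a1
          have := mul_le_mul_of_nonneg_left hmass1 a2
          linarith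
      _ = q / lam := by field_simp; ring
  have hd2 : |s| * (∫ z : T2, b z * (‖TP F c z‖ * ‖TP Fm c z‖)) ≤ (τ * q + X' / τ) / 2 := by
    rw [hs]
    have i1 := b_int b hbm β hb0 hbβ (fun z => ‖TP F c z‖ ^ 2) (by fun_prop)
    have i2 := b_int b hbm β hb0 hbβ (fun z => ‖TP Fm c z‖ ^ 2) (by fun_prop)
    have i3 := b_int b hbm β hb0 hbβ (fun z => ‖TP F c z‖ * ‖TP Fm c z‖) (by fun_prop)
    have hpt : ∀ z : T2, b z * (‖TP F c z‖ * ‖TP Fm c z‖)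
        ≤ (lam * τ / 2) * (b z * ‖TP F c z‖ ^ 2) + (1 / (2 * lam * τ)) * (b z * ‖TP Fm c z‖ ^ 2) := by
      intro z
      set x := ‖TP F c z‖
      set y := ‖TP Fm c z‖
      have hb := hb0 z
      have : 0 ≤ b z * ((lam * τ * x - y) ^ 2 / (2 * lam * τ)) := by positivity
      have e : b z * ((lam * τ * x - y) ^ 2 / (2 * lam * τ))
          = (lam * τ / 2) * (b z * x ^ 2) + (1 / (2 * lam * τ)) * (b z * y ^ 2)
            - b z * (x * y) := by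
        field_simp; ring
      rw [e] at this
      linarith
    calc lam * (∫ z : T2, b z * (‖TP F c z‖ * ‖TP Fm c z‖))
        ≤ lam * (∫ z : T2, ((lam * τ / 2) * (b z * ‖TP F c z‖ ^ 2)
          + (1 / (2 * lam * τ)) * (b z * ‖TP Fm c z‖ ^ 2))) := by
          apply mul_le_mul_of_nonneg_left _ hlam.le
          exact integral_mono i3 ((i1.const_mul _).add (i2.const_mul _)) hpt
      _ = lam * ((lam * τ / 2) * (∫ z : T2, b z * ‖TP F c z‖ ^ 2)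
          + (1 / (2 * lam * τ)) * ∫ z : T2, b z * ‖TP Fm c z‖ ^ 2) := by
          rw [integral_add (i1.const_mul _) (i2.const_mul _), integral_const_mul,
            integral_const_mul]
      _ ≤ lam * ((lam * τ / 2) * (q / lam ^ 2) + (1 / (2 * lam * τ)) * X') := by
          apply mul_le_mul_of_nonneg_left _ hlam.le
          have a1 : 0 ≤ lam * τ / 2 := by positivity
          have a2 : 0 ≤ 1 / (2 * lam * τ) := by positivity
          have := mul_le_mul_of_nonneg_left h1 a1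
          have := mul_le_mul_of_nonneg_left hbw a2
          linarith
      _ = (τ * q + X' / τ) / 2 := by field_simp
  -- the ODE
  obtain ⟨w, hw1, hw2⟩ := line_period ζ hprim m Fm hFmm
  have hD := line_ode ζ hprim m Fm hFmm s
  have hinv0 : 0 < (nsq ζ)⁻¹ := by positivity
  have hinv1 : (nsq ζ)⁻¹ ≤ 1 := inv_le_one_of_one_le₀ hns
  have hhn : ∀ x, ‖((((nsq ζ)⁻¹ : ℝ) : ℂ)) * LF ζ Fm (gco s c) x‖
      = (nsq ζ)⁻¹ * ‖LF ζ Fm (gco s c) x‖ := by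
    intro x
    rw [norm_mul, Complex.norm_real, Real.norm_eq_abs, abs_of_pos hinv0]
  have n1 := line_norm_int ζ hprim m Fm hFmm c c
  have n2 := line_norm_int ζ hprim m Fm hFmm (gco s c) (gco s c)
  have n3 := line_norm_int ζ hprim m Fm hFmm (gco s c) c
  simp only [← pow_two] at n1 n2
  rw [TP_parseval] at n1 n2
  have n1' : (∫ x in (0 : ℝ)..(2 * Real.pi), ‖LF ζ Fm c x‖ ^ 2)
      = 2 * Real.pi * ∑ k ∈ Fm, ‖c k‖ ^ 2 := by rw [n1]; field_simp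
  have n2' : (∫ x in (0 : ℝ)..(2 * Real.pi), ‖LF ζ Fm (gco s c) x‖ ^ 2)
      = 2 * Real.pi * ∑ k ∈ Fm, ‖gco s c k‖ ^ 2 := by rw [n2]; field_simp
  have n3' : (∫ x in (0 : ℝ)..(2 * Real.pi), ‖LF ζ Fm (gco s c) x‖ * ‖LF ζ Fm c x‖)
      = 2 * Real.pi * ∫ z : T2, ‖TP Fm (gco s c) z‖ * ‖TP Fm c z‖ := by rw [n3]; field_simp
  have hconc := hode ((s ^ 2 - (m : ℝ) ^ 2 / nsq ζ) / nsq ζ) K s₁ w (LF ζ Fm c)
    (LF ζ Fm (dco ζ c)) (fun x => (((nsq ζ)⁻¹ : ℝ) : ℂ) * LF ζ Fm (gco s c) x) hK1 hw1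
    (fun x => (hD c x).1) (fun x => (hD c x).2)
    (by
      have : Continuous (LF ζ Fm (gco s c)) :=
        continuous_iff_continuousAt.2 (fun x => ((hD (gco s c) x).1).continuousAt)
      fun_prop)
    (fun x => hw2 c x)
    (by
      rw [n1']
      have : 0 ≤ 2 * Real.pi := by positivity
      nlinarith)
    (by
      have e : ∀ x, ‖((((nsq ζ)⁻¹ : ℝ) : ℂ)) * LF ζ Fm (gco s c) x‖ ^ 2
          = ((nsq ζ)⁻¹) ^ 2 * ‖LF ζ Fm (gco s c) x‖ ^ 2 := by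
        intro x; rw [hhn, mul_pow]
      simp only [e]
      rw [intervalIntegral.integral_const_mul, n2']
      have e1 : ∑ k ∈ Fm, ‖gco s c k‖ ^ 2 ≤ C3 * q := by
        rw [TP_parseval] at h2
        exact (Finset.sum_le_sum_of_subset_of_nonneg hFmF (fun _ _ _ => by positivity)).trans h2
      have e2 : 0 ≤ ∑ k ∈ Fm, ‖gco s c k‖ ^ 2 := Finset.sum_nonneg (fun _ _ => by positivity)
      have e3 : ((nsq ζ)⁻¹) ^ 2 ≤ 1 := by nlinarith
      have e4 : 2 * Real.pi * ∑ k ∈ Fm, ‖gco s c k‖ ^ 2 ≤ 2 * Real.pi * (C3 * q) :=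
        mul_le_mul_of_nonneg_left e1 (by positivity)
      have e5 : 0 ≤ 2 * Real.pi * ∑ k ∈ Fm, ‖gco s c k‖ ^ 2 := by positivity
      nlinarith)
    (by
      have e : ∀ x, ‖((((nsq ζ)⁻¹ : ℝ) : ℂ)) * LF ζ Fm (gco s c) x‖ * ‖LF ζ Fm c x‖
          = (nsq ζ)⁻¹ * (‖LF ζ Fm (gco s c) x‖ * ‖LF ζ Fm c x‖) := by
        intro x; rw [hhn]; ring
      simp only [e]
      rw [intervalIntegral.integral_const_mul, n3']
      have e1 : 0 ≤ ∫ z : T2, ‖TP Fm (gco s c) z‖ * ‖TP Fm c z‖ :=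
        integral_nonneg (fun z => by positivity)
      have e2 : 2 * Real.pi * (∫ z : T2, ‖TP Fm (gco s c) z‖ * ‖TP Fm c z‖)
          ≤ 2 * Real.pi * (q / lam + (τ * q + X' / τ) / 2) := by
        apply mul_le_mul_of_nonneg_left _ (by positivity)
        linarith
      have e3 : 0 ≤ 2 * Real.pi * ∫ z : T2, ‖TP Fm (gco s c) z‖ * ‖TP Fm c z‖ := by positivity
      nlinarith)
    (by
      refine le_trans ?_ hθ
      have e := hbox m Fm hFmm c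
      have e1 : (∫ x in s₁..(s₁ + ℓ), ‖LF ζ Fm c x‖ ^ 2)
          ≤ (1 / κb) * (∫ z : T2, χ z * ‖TP Fm c z‖ ^ 2) := by
        rw [one_div, inv_mul_eq_div, le_div_iff₀ hκb]
        linarith
      refine e1.trans ?_
      calc (1 / κb) * (∫ z : T2, χ z * ‖TP Fm c z‖ ^ 2) ≤ (1 / κb) * (4 * (C3 * q / W ^ 2)) :=
            mul_le_mul_of_nonneg_left hχw (by positivity)
        _ = (4 / κb) * (C3 * q / W ^ 2) := by ring)
  -- contradiction
  have hcont : Continuous (LF ζ Fm c) :=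
    continuous_iff_continuousAt.2 (fun x => ((hD c x).1).continuousAt)
  have hfin : (∫ x in (0 : ℝ)..(2 * Real.pi), ‖LF ζ Fm c x‖ ^ 2) ≤ 2 * Real.pi * ϖ ^ 2 := by
    have : (∫ x in (0 : ℝ)..(2 * Real.pi), ‖LF ζ Fm c x‖ ^ 2)
        ≤ ∫ x in (0 : ℝ)..(2 * Real.pi), ϖ ^ 2 := by
      refine intervalIntegral.integral_mono_on (by positivity)
        (Continuous.intervalIntegrable (by fun_prop) _ _)
        (Continuous.intervalIntegrable (by fun_prop) _ _) (fun x _ => ?_)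
      exact pow_le_pow_left₀ (norm_nonneg _) (hconc x) 2
    simpa using this
  rw [n1'] at hfin
  have h9 : 0 < 2 * Real.pi := by positivity
  have := le_of_mul_le_mul_left hfin h9
  linarith

end Pool.Agent.Lib.MP_4ccfbf_an
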