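import Pool.Agent.Lib.MP_4ccfbf_an.Defs

set_option autoImplicit false

open MeasureTheory Set Filter Topology Complex
open scoped ENNReal ComplexConjugate

namespace Pool.Agent.Lib.MP_4ccfbf_an

attribute [local instance] msCircle

lemma SUBL_mono (g g' : ℝ → ℝ) (x y m : ℝ) (hd : ∀ t ∈ Icc x y, HasDerivAt g (g' t) t)
    (hm : ∀ t ∈ Icc x y, m ≤ g' t) (t t' : ℝ) (ht : t ∈ Icc x y) (ht' : t' ∈ Icc x y)
    (htt : t ≤ t') : m * (t' - t) ≤ g t' - g t := by
  have hc : ContinuousOn g (Icc x y) := fun u hu => (hd u hu).continuousAt.continuousWithinAt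
  have hdiff : DifferentiableOn ℝ g (interior (Icc x y)) := fun u hu =>
    (hd u (interior_subset hu)).differentiableAt.differentiableWithinAt
  refine Convex.mul_sub_le_image_sub_of_le_deriv (convex_Icc x y) hc hdiff ?_ t ht t' ht' htt
  intro u hu
  rw [(hd u (interior_subset hu)).deriv]
  exact hm u (interior_subset hu)

lemma SUBL_diam (g g' : ℝ → ℝ) (x y m s : ℝ) (hm0 : 0 < m)
    (hd : ∀ t ∈ Icc x y, HasDerivAt g (g' t) t)
    (hm : ∀ t ∈ Icc x y, m ≤ g' t) :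
    volume {t : ℝ | t ∈ Icc x y ∧ |g t| ≤ s} ≤ ENNReal.ofReal (2 * (s / m)) := by
  refine (Real.volume_le_diam _).trans ?_
  refine Metric.ediam_le ?_
  have key : ∀ t t' : ℝ, t ∈ Icc x y → t' ∈ Icc x y → |g t| ≤ s → |g t'| ≤ s → t ≤ t' →
      t' - t ≤ 2 * (s / m) := by
    intro t t' ht ht' h1 h2 htt
    have h3 := SUBL_mono g g' x y m hd hm t t' ht ht' htt
    have h4 : g t' - g t ≤ 2 * s := by
      have := (abs_le.1 h1).1
      have := (abs_le.1 h2).2
      linarith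
    rw [← mul_div_assoc, le_div_iff₀ hm0]
    linarith
  intro t ht t' ht'
  rw [edist_dist, Real.dist_eq]
  refine ENNReal.ofReal_le_ofReal ?_
  rcases le_total t t' with h | h
  · rw [abs_sub_comm, abs_of_nonneg (by linarith)]
    exact key t t' ht.1 ht'.1 ht.2 ht'.2 h
  · rw [abs_of_nonneg (by linarith)]
    exact key t' t ht'.1 ht.1 ht'.2 ht.2 h

/-- The statement for positive last derivative. -/
def SUBL_P (n : ℕ) (C : ℝ) : Prop :=
  ∀ (G : ℕ → ℝ → ℝ) (x y m s : ℝ), 0 < m → 0 < s →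
    (∀ i ≤ n, ∀ t ∈ Icc x y, HasDerivAt (G i) (G (i + 1) t) t) →
    (∀ t ∈ Icc x y, m ≤ G (n + 1) t) →
    volume {t : ℝ | t ∈ Icc x y ∧ |G 0 t| ≤ s}
      ≤ ENNReal.ofReal (C * (s / m) ^ ((1 : ℝ) / ((n : ℝ) + 1)))

lemma SUBL_neg {n : ℕ} {C : ℝ} (h : SUBL_P n C) (G : ℕ → ℝ → ℝ) (x y m s : ℝ)
    (hm : 0 < m) (hs : 0 < s)
    (hd : ∀ i ≤ n, ∀ t ∈ Icc x y, HasDerivAt (G i) (G (i + 1) t) t)
    (hG : ∀ t ∈ Icc x y, G (n + 1) t ≤ -m) :
    volume {t : ℝ | t ∈ Icc x y ∧ |G 0 t| ≤ s}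
      ≤ ENNReal.ofReal (C * (s / m) ^ ((1 : ℝ) / ((n : ℝ) + 1))) := by
  have h1 := h (fun i t => -(G i t)) x y m s hm hs (fun i hi t ht => (hd i hi t ht).neg)
    (fun t ht => by have := hG t ht; linarith)
  simpa only [abs_neg] using h1

lemma SUBL_step {n : ℕ} {C : ℝ} (hC : 0 < C) (h : SUBL_P n C) : SUBL_P (n + 1) (2 + 2 * C) := by
  intro G x y m s hm hs hd hG
  set r : ℝ := (s / m) ^ ((1 : ℝ) / (((n + 1 : ℕ) : ℝ) + 1)) with hr
  have hsm : 0 < s / m := div_pos hs hm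
  have hr0 : 0 < r := Real.rpow_pos_of_pos hsm _
  have hdl := hd (n + 1) le_rfl
  have hcont : ContinuousOn (G (n + 1)) (Icc x y) :=
    fun u hu => (hdl u hu).continuousAt.continuousWithinAt
  have hmono : ∀ t ∈ Icc x y, ∀ t' ∈ Icc x y, t ≤ t' → G (n + 1) t ≤ G (n + 1) t' := by
    intro t ht t' ht' htt
    have := SUBL_mono (G (n + 1)) (G (n + 1 + 1)) x y m hdl hG t t' ht ht' htt
    have h2 : 0 ≤ m * (t' - t) := mul_nonneg hm.le (by linarith)
    linarith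
  have hexp : (s / (m * r)) ^ ((1 : ℝ) / ((n : ℝ) + 1)) = r := by
    have e1 : s / (m * r) = (s / m) ^ (((n : ℝ) + 1) / ((n : ℝ) + 2)) := by
      rw [← div_div, hr, eq_comm, eq_div_iff hr0.ne', hr, ← Real.rpow_add hsm]
      have : ((n : ℝ) + 1) / ((n : ℝ) + 2) + 1 / (((n + 1 : ℕ) : ℝ) + 1) = 1 := by
        push_cast
        have h1 : (n : ℝ) + 2 ≠ 0 := by positivity
        have h2 : (n : ℝ) + 1 + 1 ≠ 0 := by positivity
        field_simp
        ring
      rw [this, Real.rpow_one]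
    rw [e1, ← Real.rpow_mul hsm.le, hr]
    congr 1
    push_cast
    have h1 : (n : ℝ) + 2 ≠ 0 := by positivity
    have h2 : (n : ℝ) + 1 + 1 ≠ 0 := by positivity
    have h3 : (n : ℝ) + 1 ≠ 0 := by positivity
    field_simp
    ring
  -- the middle part
  have hmid : volume {t : ℝ | t ∈ Icc x y ∧ |G (n + 1) t| ≤ m * r} ≤ ENNReal.ofReal (2 * r) := by
    have := SUBL_diam (G (n + 1)) (G (n + 1 + 1)) x y m (m * r) hm hdl hG
    rwa [mul_div_cancel_left₀ _ hm.ne'] at this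
  have hmr : 0 < m * r := by positivity
  -- the left part
  have hleft : volume {t : ℝ | (t ∈ Icc x y ∧ |G 0 t| ≤ s) ∧ G (n + 1) t ≤ -(m * r)}
      ≤ ENNReal.ofReal (C * r) := by
    by_cases hne : (Icc x y ∩ G (n + 1) ⁻¹' Iic (-(m * r))).Nonempty
    · have hcl : IsCompact (Icc x y ∩ G (n + 1) ⁻¹' Iic (-(m * r))) :=
        isCompact_Icc.of_isClosed_subset
          (hcont.preimage_isClosed_of_isClosed isClosed_Icc isClosed_Iic) inter_subset_left
      obtain ⟨p, hp, hpmax⟩ := hcl.exists_isGreatest hne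
      have hsub : Icc x p ⊆ Icc x y := Icc_subset_Icc_right hp.1.2
      have h1 := SUBL_neg h G x p (m * r) s hmr hs
        (fun i hi t ht => hd i (by omega) t (hsub ht))
        (fun t ht => (hmono t (hsub ht) p hp.1 ht.2).trans hp.2)
      rw [hexp] at h1
      refine (measure_mono ?_).trans h1
      intro t ht
      exact ⟨⟨ht.1.1.1, hpmax ⟨ht.1.1, ht.2⟩⟩, ht.1.2⟩
    · rw [not_nonempty_iff_eq_empty] at hne
      have : {t : ℝ | (t ∈ Icc x y ∧ |G 0 t| ≤ s) ∧ G (n + 1) t ≤ -(m * r)} = ∅ := by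
        ext t
        constructor
        · intro ht
          have : t ∈ (Icc x y ∩ G (n + 1) ⁻¹' Iic (-(m * r))) := ⟨ht.1.1, ht.2⟩
          rw [hne] at this
          exact this
        · intro ht
          exact ht.elim
      rw [this, measure_empty]
      exact zero_le
  -- the right part
  have hright : volume {t : ℝ | (t ∈ Icc x y ∧ |G 0 t| ≤ s) ∧ m * r ≤ G (n + 1) t}
      ≤ ENNReal.ofReal (C * r) := by
    by_cases hne : (Icc x y ∩ G (n + 1) ⁻¹' Ici (m * r)).Nonempty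
    · have hcl : IsCompact (Icc x y ∩ G (n + 1) ⁻¹' Ici (m * r)) :=
        isCompact_Icc.of_isClosed_subset
          (hcont.preimage_isClosed_of_isClosed isClosed_Icc isClosed_Ici) inter_subset_left
      obtain ⟨p, hp, hpmin⟩ := hcl.exists_isLeast hne
      have hsub : Icc p y ⊆ Icc x y := Icc_subset_Icc_left hp.1.1
      have h1 := h G p y (m * r) s hmr hs
        (fun i hi t ht => hd i (by omega) t (hsub ht))
        (fun t ht => hp.2.trans (hmono p hp.1 t (hsub ht) ht.1))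
      rw [hexp] at h1
      refine (measure_mono ?_).trans h1
      intro t ht
      exact ⟨⟨hpmin ⟨ht.1.1, ht.2⟩, ht.1.1.2⟩, ht.1.2⟩
    · rw [not_nonempty_iff_eq_empty] at hne
      have : {t : ℝ | (t ∈ Icc x y ∧ |G 0 t| ≤ s) ∧ m * r ≤ G (n + 1) t} = ∅ := by
        ext t
        constructor
        · intro ht
          have : t ∈ (Icc x y ∩ G (n + 1) ⁻¹' Ici (m * r)) := ⟨ht.1.1, ht.2⟩
          rw [hne] at this
          exact this
        · intro ht
          exact ht.elim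
      rw [this, measure_empty]
      exact zero_le
  have hcover : {t : ℝ | t ∈ Icc x y ∧ |G 0 t| ≤ s} ⊆
      ({t : ℝ | t ∈ Icc x y ∧ |G (n + 1) t| ≤ m * r} ∪
        {t : ℝ | (t ∈ Icc x y ∧ |G 0 t| ≤ s) ∧ G (n + 1) t ≤ -(m * r)}) ∪
        {t : ℝ | (t ∈ Icc x y ∧ |G 0 t| ≤ s) ∧ m * r ≤ G (n + 1) t} := by
    intro t ht
    by_cases h1 : |G (n + 1) t| ≤ m * r
    · exact Or.inl (Or.inl ⟨ht.1, h1⟩)
    · rw [not_le, lt_abs] at h1
      rcases h1 with h1 | h1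
      · exact Or.inr ⟨ht, h1.le⟩
      · exact Or.inl (Or.inr ⟨ht, by linarith⟩)
  calc volume {t : ℝ | t ∈ Icc x y ∧ |G 0 t| ≤ s}
      ≤ _ := measure_mono hcover
    _ ≤ (volume {t : ℝ | t ∈ Icc x y ∧ |G (n + 1) t| ≤ m * r} +
        volume {t : ℝ | (t ∈ Icc x y ∧ |G 0 t| ≤ s) ∧ G (n + 1) t ≤ -(m * r)}) +
        volume {t : ℝ | (t ∈ Icc x y ∧ |G 0 t| ≤ s) ∧ m * r ≤ G (n + 1) t} :=
        (measure_union_le _ _).trans (add_le_add_left (measure_union_le _ _) _)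
    _ ≤ (ENNReal.ofReal (2 * r) + ENNReal.ofReal (C * r)) + ENNReal.ofReal (C * r) :=
        add_le_add (add_le_add hmid hleft) hright
    _ = ENNReal.ofReal ((2 + 2 * C) * r) := by
        rw [← ENNReal.ofReal_add (by positivity) (by positivity),
          ← ENNReal.ofReal_add (by positivity) (by positivity)]
        congr 1
        ring

lemma SUBL_zero : SUBL_P 0 2 := by
  intro G x y m s hm _ hd hG
  have h1 := SUBL_diam (G 0) (G 1) x y m s hm (hd 0 le_rfl) hG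
  simpa using h1

lemma SUBL_all (n : ℕ) : ∃ C : ℝ, 0 < C ∧ SUBL_P n C := by
  induction n with
  | zero => exact ⟨2, by norm_num, SUBL_zero⟩
  | succ n ih =>
    obtain ⟨C, hC, h⟩ := ih
    exact ⟨2 + 2 * C, by positivity, SUBL_step hC h⟩

theorem sublevel (n : ℕ) : ∃ C : ℝ, 0 < C ∧ ∀ (G : ℕ → ℝ → ℝ) (x y m s : ℝ), 0 < m → 0 ≤ s →
    (∀ i ≤ n, ∀ t ∈ Icc x y, HasDerivAt (G i) (G (i + 1) t) t) →
    ((∀ t ∈ Icc x y, m ≤ G (n + 1) t) ∨ (∀ t ∈ Icc x y, G (n + 1) t ≤ -m)) →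
    volume {t : ℝ | t ∈ Icc x y ∧ |G 0 t| ≤ s}
      ≤ ENNReal.ofReal (C * (s / m) ^ ((1 : ℝ) / ((n : ℝ) + 1))) := by
  obtain ⟨C, hC, h⟩ := SUBL_all n
  refine ⟨C, hC, ?_⟩
  intro G x y m s hm hs hd hG
  have hpos : ∀ s' : ℝ, 0 < s' → volume {t : ℝ | t ∈ Icc x y ∧ |G 0 t| ≤ s'}
      ≤ ENNReal.ofReal (C * (s' / m) ^ ((1 : ℝ) / ((n : ℝ) + 1))) := by
    intro s' hs'
    rcases hG with hG | hG
    · exact h G x y m s' hm hs' hd hG
    · exact SUBL_neg h G x y m s' hm hs' hd hG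
  rcases hs.eq_or_lt with h0 | h0
  · subst h0
    have hcont : Filter.Tendsto (fun s' : ℝ =>
        ENNReal.ofReal (C * (s' / m) ^ ((1 : ℝ) / ((n : ℝ) + 1)))) (𝓝[>] 0)
        (𝓝 (ENNReal.ofReal (C * (0 / m) ^ ((1 : ℝ) / ((n : ℝ) + 1))))) := by
      refine tendsto_nhdsWithin_of_tendsto_nhds ?_
      refine (ENNReal.continuous_ofReal.tendsto _).comp ?_
      have hc : Continuous (fun s' : ℝ => C * (s' / m) ^ ((1 : ℝ) / ((n : ℝ) + 1))) := by
        refine continuous_const.mul ?_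
        refine Continuous.rpow_const (by fun_prop) fun _ => Or.inr (by positivity)
      exact hc.tendsto 0
    refine ge_of_tendsto hcont ?_
    filter_upwards [self_mem_nhdsWithin] with s' hs'
    refine (measure_mono ?_).trans (hpos s' hs')
    intro t ht
    exact ⟨ht.1, ht.2.trans (le_of_lt hs')⟩
  · exact hpos s h0

end Pool.Agent.Lib.MP_4ccfbf_an
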